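import Pool.Agent.ShghT.Defs

/-!
# Plane curves containing a line, and cones
-/

namespace ShghT

open MvPolynomial

variable {K : Type*} [Field K]

/-- The line through two points. -/
noncomputable def lineP {S : Type*} [CommRing S] (a b : Fin 2 → S) : MvPolynomial (Fin 2) S :=
  C (b 1 - a 1) * (X 0 - C (a 0)) - C (b 0 - a 0) * (X 1 - C (a 1))

/-- Translation of the plane. -/
private noncomputable def lineTr (a b : K) : MvPolynomial (Fin 2) K →ₐ[K] MvPolynomial (Fin 2) K :=
  aeval ![X 0 + C a, X 1 + C b]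

private theorem lineTr_tr (a b : K) (f : MvPolynomial (Fin 2) K) :
    lineTr (-a) (-b) (lineTr a b f) = f := by
  have h : (lineTr (-a) (-b)).comp (lineTr a b) = AlgHom.id K _ := by
    apply MvPolynomial.algHom_ext
    intro i
    fin_cases i <;> simp [lineTr, algebraMap_eq]
  exact congrArg (fun φ => φ f) h

private theorem line_map_pt (a b : K) :
    Ideal.map (lineTr a b) (pt a b) = idealOfVars (Fin 2) K := by
  rw [pt, Ideal.map_span]
  congr 1
  ext x
  simp [lineTr, algebraMap_eq, Set.image_pair, Fin.exists_fin_two, eq_comm]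

private theorem line_map_vars (a b : K) :
    Ideal.map (lineTr (-a) (-b)) (idealOfVars (Fin 2) K) = pt a b := by
  rw [pt, Ideal.map_span]
  congr 1
  ext x
  simp [lineTr, Fin.exists_fin_two, eq_comm, sub_eq_add_neg]

private theorem line_mem_pt_iff (a b : K) (m : ℕ) (f : MvPolynomial (Fin 2) K) :
    f ∈ pt a b ^ m ↔ lineTr a b f ∈ idealOfVars (Fin 2) K ^ m := by
  constructor
  · intro h
    have := Ideal.mem_map_of_mem (lineTr a b) h
    rwa [Ideal.map_pow, line_map_pt] at this
  · intro h
    have := Ideal.mem_map_of_mem (lineTr (-a) (-b)) h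
    rwa [Ideal.map_pow, line_map_vars, lineTr_tr] at this

private theorem line_mem_vars_iff (m : ℕ) (f : MvPolynomial (Fin 2) K) :
    f ∈ idealOfVars (Fin 2) K ^ m ↔ (m : ℕ∞) ≤ (f : MvPowerSeries (Fin 2) K).order := by
  rw [mem_pow_idealOfVars_iff']
  constructor
  · intro h
    apply MvPowerSeries.nat_le_order
    intro d hd
    rw [MvPolynomial.coeff_coe]
    exact h d hd
  · intro h x hx
    rw [← MvPolynomial.coeff_coe]
    apply MvPowerSeries.coeff_of_lt_order
    exact lt_of_lt_of_le (by exact_mod_cast hx) h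

private theorem line_tr_degree (a b : K) (f : MvPolynomial (Fin 2) K) :
    (lineTr a b f).totalDegree ≤ f.totalDegree := by
  have hi : ∀ (i : Fin 2) (c : K), (X i + C c : MvPolynomial (Fin 2) K).totalDegree ≤ 1 := by
    intro i c
    refine (totalDegree_add _ _).trans ?_
    rw [totalDegree_X, totalDegree_C]
    simp
  unfold lineTr
  rw [aeval_def, eval₂_eq']
  apply totalDegree_finsetSum_le
  intro d hd
  refine (totalDegree_mul _ _).trans ?_
  rw [algebraMap_eq, totalDegree_C, zero_add]
  refine (totalDegree_finsetProd _ _).trans ?_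
  have h1 : ∑ i : Fin 2, d i ≤ f.totalDegree := by
    have := le_totalDegree hd
    rw [Finsupp.sum_fintype _ _ (fun _ => rfl)] at this
    exact this
  refine le_trans (Finset.sum_le_sum fun i _ => ?_) h1
  refine (totalDegree_pow _ _).trans ?_
  have : (![X 0 + C a, X 1 + C b] i : MvPolynomial (Fin 2) K).totalDegree ≤ 1 := by
    fin_cases i
    · exact hi 0 a
    · exact hi 1 b
  calc d i * (![X 0 + C a, X 1 + C b] i : MvPolynomial (Fin 2) K).totalDegree ≤ d i * 1 :=
        Nat.mul_le_mul_left _ this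
    _ = d i := mul_one _

/-- the linear form of the line -/
private theorem line_tr_line (a b : Fin 2 → K) :
    lineTr (a 0) (a 1) (lineP a b) = C (b 1 - a 1) * X 0 - C (b 0 - a 0) * X 1 ∧
    lineTr (b 0) (b 1) (lineP a b) = C (b 1 - a 1) * X 0 - C (b 0 - a 0) * X 1 := by
  constructor
  · simp [lineTr, lineP, algebraMap_eq]
  · simp only [lineTr, lineP, map_sub, map_mul, aeval_C, aeval_X, algebraMap_eq,
      Matrix.cons_val_zero, Matrix.cons_val_one, C_sub]
    ring

private theorem line_form_coeff (u v : K) :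
    coeff (Finsupp.single 0 1) (C u * X 0 - C v * X 1 : MvPolynomial (Fin 2) K) = u ∧
    coeff (Finsupp.single 1 1) (C u * X 0 - C v * X 1 : MvPolynomial (Fin 2) K) = -v := by
  have e1 : (Finsupp.single (0 : Fin 2) 1 : Fin 2 →₀ ℕ) ≠ Finsupp.single 1 1 := by
    intro h
    have := DFunLike.congr_fun h 0
    simp at this
  constructor
  · rw [coeff_sub, coeff_C_mul, coeff_C_mul, coeff_X', coeff_X', if_pos rfl, if_neg e1.symm]
    ring
  · rw [coeff_sub, coeff_C_mul, coeff_C_mul, coeff_X', coeff_X', if_neg e1, if_pos rfl]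
    ring

private theorem line_form_order (u v : K) (huv : u ≠ 0 ∨ v ≠ 0) :
    ((C u * X 0 - C v * X 1 : MvPolynomial (Fin 2) K) : MvPowerSeries (Fin 2) K).order ≤ 1 := by
  obtain ⟨c1, c2⟩ := line_form_coeff u v
  rcases huv with h | h
  · have := MvPowerSeries.order_le (f := ((C u * X 0 - C v * X 1 : MvPolynomial (Fin 2) K) :
      MvPowerSeries (Fin 2) K)) (d := Finsupp.single 0 1) (by
        rw [MvPolynomial.coeff_coe, c1]; exact h)
    simpa using this
  · have := MvPowerSeries.order_le (f := ((C u * X 0 - C v * X 1 : MvPolynomial (Fin 2) K) :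
      MvPowerSeries (Fin 2) K)) (d := Finsupp.single 1 1) (by
        rw [MvPolynomial.coeff_coe, c2]; exact neg_ne_zero.mpr h)
    simpa using this

private theorem line_ne (a b : Fin 2 → K) (hab : a ≠ b) : b 1 - a 1 ≠ 0 ∨ b 0 - a 0 ≠ 0 := by
  by_contra hcon
  push Not at hcon
  apply hab
  funext i
  fin_cases i
  · exact (sub_eq_zero.mp hcon.2).symm
  · exact (sub_eq_zero.mp hcon.1).symm

/-- dividing by the line lowers the multiplicity by one -/
private theorem line_colon (a b c : Fin 2 → K) (hab : a ≠ b) (hc : c = a ∨ c = b) (m : ℕ)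
    (g : MvPolynomial (Fin 2) K) (h : lineP a b * g ∈ pt (c 0) (c 1) ^ m) :
    g ∈ pt (c 0) (c 1) ^ (m - 1) := by
  have hform : lineTr (c 0) (c 1) (lineP a b) = C (b 1 - a 1) * X 0 - C (b 0 - a 0) * X 1 := by
    rcases hc with rfl | rfl
    · exact (line_tr_line _ _).1
    · exact (line_tr_line _ _).2
  rw [line_mem_pt_iff, line_mem_vars_iff, map_mul, MvPolynomial.coe_mul,
    MvPowerSeries.order_mul, hform] at h
  rw [line_mem_pt_iff, line_mem_vars_iff]
  have h3 : (m : ℕ∞) ≤
      1 + ((lineTr (c 0) (c 1) g : MvPolynomial (Fin 2) K) : MvPowerSeries (Fin 2) K).order :=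
    h.trans (add_le_add_left (line_form_order _ _ (line_ne a b hab)) _)
  generalize ((lineTr (c 0) (c 1) g : MvPolynomial (Fin 2) K) :
    MvPowerSeries (Fin 2) K).order = o at h3
  induction o using ENat.recTopCoe with
  | top => exact le_top
  | coe o =>
    have h5 : m ≤ 1 + o := by exact_mod_cast h3
    exact_mod_cast (show m - 1 ≤ o by omega)

/-- restriction to the line -/
private noncomputable def lineRes (a b : Fin 2 → K) : MvPolynomial (Fin 2) K →ₐ[K] Polynomial K :=
  aeval ![Polynomial.C (a 0) + Polynomial.C (b 0 - a 0) * Polynomial.X,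
    Polynomial.C (a 1) + Polynomial.C (b 1 - a 1) * Polynomial.X]

private theorem lineRes_X0 (a b : Fin 2 → K) : lineRes a b (X 0) =
    Polynomial.C (a 0) + Polynomial.C (b 0 - a 0) * Polynomial.X := by
  rw [lineRes, aeval_X]; rfl

private theorem lineRes_X1 (a b : Fin 2 → K) : lineRes a b (X 1) =
    Polynomial.C (a 1) + Polynomial.C (b 1 - a 1) * Polynomial.X := by
  rw [lineRes, aeval_X]; rfl

private theorem lineRes_C (a b : Fin 2 → K) (c : K) : lineRes a b (C c) = Polynomial.C c := by
  rw [lineRes, aeval_C]; rfl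

private theorem lineRes_degree (a b : Fin 2 → K) (f : MvPolynomial (Fin 2) K) (D : ℕ)
    (hf : f.totalDegree ≤ D) : (lineRes a b f).natDegree ≤ D := by
  have h := MvPolynomial.aeval_natDegree_le (m := D) (n := 1) f hf
    ![Polynomial.C (a 0) + Polynomial.C (b 0 - a 0) * Polynomial.X,
      Polynomial.C (a 1) + Polynomial.C (b 1 - a 1) * Polynomial.X] (by
      intro i
      fin_cases i
      · show (Polynomial.C (a 0) + Polynomial.C (b 0 - a 0) * Polynomial.X).natDegree ≤ 1
        compute_degree
      · show (Polynomial.C (a 1) + Polynomial.C (b 1 - a 1) * Polynomial.X).natDegree ≤ 1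
        compute_degree)
  rw [mul_one] at h
  exact h

private theorem lineRes_dvd (a b c : Fin 2 → K) (t : K)
    (hc0 : c 0 = a 0 + (b 0 - a 0) * t) (hc1 : c 1 = a 1 + (b 1 - a 1) * t) (m : ℕ)
    (f : MvPolynomial (Fin 2) K) (h : f ∈ pt (c 0) (c 1) ^ m) :
    (Polynomial.X - Polynomial.C t) ^ m ∣ lineRes a b f := by
  have h1 := Ideal.mem_map_of_mem (lineRes a b) h
  rw [Ideal.map_pow] at h1
  have h2 : Ideal.map (lineRes a b) (pt (c 0) (c 1)) ≤
      Ideal.span {Polynomial.X - Polynomial.C t} := by
    rw [pt, Ideal.map_span, Ideal.span_le]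
    rintro x ⟨y, hy, rfl⟩
    rw [SetLike.mem_coe, Ideal.mem_span_singleton]
    rcases hy with rfl | rfl
    · refine ⟨Polynomial.C (b 0 - a 0), ?_⟩
      show lineRes a b (X 0 - C (c 0)) = _
      rw [map_sub, lineRes_X0, lineRes_C, hc0]
      simp only [Polynomial.C_add, Polynomial.C_mul, Polynomial.C_sub]
      ring
    · refine ⟨Polynomial.C (b 1 - a 1), ?_⟩
      show lineRes a b (X 1 - C (c 1)) = _
      rw [map_sub, lineRes_X1, lineRes_C, hc1]
      simp only [Polynomial.C_add, Polynomial.C_mul, Polynomial.C_sub]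
      ring
  have h3 := Ideal.pow_right_mono h2 m h1
  rwa [Ideal.span_singleton_pow, Ideal.mem_span_singleton] at h3

private theorem lineRes_zero (a b : Fin 2 → K) (D m0 m1 : ℕ) (hk : D < m0 + m1)
    (f : MvPolynomial (Fin 2) K) (hfd : f.totalDegree ≤ D)
    (h0 : f ∈ pt (a 0) (a 1) ^ m0) (h1 : f ∈ pt (b 0) (b 1) ^ m1) : lineRes a b f = 0 := by
  have d0 := lineRes_dvd a b a 0 (by ring) (by ring) m0 f h0
  have d1 := lineRes_dvd a b b 1 (by ring) (by ring) m1 f h1
  have hcop : IsCoprime ((Polynomial.X - Polynomial.C (0 : K)) ^ m0)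
      ((Polynomial.X - Polynomial.C (1 : K)) ^ m1) :=
    (Polynomial.isCoprime_X_sub_C_of_isUnit_sub (by simp)).pow
  have d2 := hcop.mul_dvd d0 d1
  by_contra hne
  have h2 := Polynomial.natDegree_le_of_dvd d2 hne
  have h3 : ((Polynomial.X - Polynomial.C (0 : K)) ^ m0 *
      (Polynomial.X - Polynomial.C (1 : K)) ^ m1).natDegree = m0 + m1 := by
    rw [Polynomial.natDegree_mul (pow_ne_zero _ (Polynomial.X_sub_C_ne_zero _))
      (pow_ne_zero _ (Polynomial.X_sub_C_ne_zero _)), Polynomial.natDegree_pow,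
      Polynomial.natDegree_pow, Polynomial.natDegree_X_sub_C, Polynomial.natDegree_X_sub_C]
    ring
  have h4 := lineRes_degree a b f D hfd
  omega

private theorem line_dvd_of_res (a b : Fin 2 → K) (hab : a ≠ b) (f : MvPolynomial (Fin 2) K)
    (h : lineRes a b f = 0) : lineP a b ∣ f := by
  rw [← Ideal.mem_span_singleton, ← Ideal.Quotient.eq_zero_iff_mem]
  set I := Ideal.span {lineP a b} with hI
  have hl : (Ideal.Quotient.mkₐ K I) (lineP a b) = 0 := by
    rw [Ideal.Quotient.mkₐ_eq_mk, Ideal.Quotient.eq_zero_iff_mem]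
    exact Ideal.mem_span_singleton_self _
  have key : ∃ σ : Polynomial K →ₐ[K] (MvPolynomial (Fin 2) K ⧸ I),
      σ.comp (lineRes a b) = Ideal.Quotient.mkₐ K I := by
    set q := Ideal.Quotient.mkₐ K I with hq
    have hlin : algebraMap K (MvPolynomial (Fin 2) K ⧸ I) (b 1 - a 1) *
        (q (X 0) - algebraMap K _ (a 0)) = algebraMap K _ (b 0 - a 0) *
        (q (X 1) - algebraMap K _ (a 1)) := by
      have h1 : q (lineP a b) = algebraMap K (MvPolynomial (Fin 2) K ⧸ I) (b 1 - a 1) *
        (q (X 0) - algebraMap K _ (a 0)) - algebraMap K _ (b 0 - a 0) *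
        (q (X 1) - algebraMap K _ (a 1)) := by
        unfold lineP
        simp only [map_sub, map_mul, ← algebraMap_eq, AlgHom.commutes]
      rw [hl] at h1
      exact (sub_eq_zero.mp h1.symm)
    rcases line_ne a b hab with hne | hne
    · refine ⟨Polynomial.aeval (algebraMap K _ (b 1 - a 1)⁻¹ * (q (X 1) - algebraMap K _ (a 1))), ?_⟩
      have hu : algebraMap K (MvPolynomial (Fin 2) K ⧸ I) (b 1 - a 1)⁻¹ *
          algebraMap K _ (b 1 - a 1) = 1 := by
        rw [← map_mul, inv_mul_cancel₀ hne, map_one]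
      apply MvPolynomial.algHom_ext
      intro i
      fin_cases i
      · show Polynomial.aeval _ (lineRes a b (X 0)) = q (X 0)
        rw [lineRes_X0, map_add, map_mul, Polynomial.aeval_C, Polynomial.aeval_C,
          Polynomial.aeval_X]
        linear_combination (-(algebraMap K (MvPolynomial (Fin 2) K ⧸ I) (b 1 - a 1)⁻¹)) * hlin +
          (q (X 0) - algebraMap K _ (a 0)) * hu
      · show Polynomial.aeval _ (lineRes a b (X 1)) = q (X 1)
        rw [lineRes_X1, map_add, map_mul, Polynomial.aeval_C, Polynomial.aeval_C,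
          Polynomial.aeval_X]
        linear_combination (q (X 1) - algebraMap K _ (a 1)) * hu
    · refine ⟨Polynomial.aeval (algebraMap K _ (b 0 - a 0)⁻¹ * (q (X 0) - algebraMap K _ (a 0))), ?_⟩
      have hu : algebraMap K (MvPolynomial (Fin 2) K ⧸ I) (b 0 - a 0)⁻¹ *
          algebraMap K _ (b 0 - a 0) = 1 := by
        rw [← map_mul, inv_mul_cancel₀ hne, map_one]
      apply MvPolynomial.algHom_ext
      intro i
      fin_cases i
      · show Polynomial.aeval _ (lineRes a b (X 0)) = q (X 0)
        rw [lineRes_X0, map_add, map_mul, Polynomial.aeval_C, Polynomial.aeval_C,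
          Polynomial.aeval_X]
        linear_combination (q (X 0) - algebraMap K _ (a 0)) * hu
      · show Polynomial.aeval _ (lineRes a b (X 1)) = q (X 1)
        rw [lineRes_X1, map_add, map_mul, Polynomial.aeval_C, Polynomial.aeval_C,
          Polynomial.aeval_X]
        linear_combination (algebraMap K (MvPolynomial (Fin 2) K ⧸ I) (b 0 - a 0)⁻¹) * hlin +
          (q (X 1) - algebraMap K _ (a 1)) * hu
  obtain ⟨σ, hσ⟩ := key
  have h1 : σ (lineRes a b f) = Ideal.Quotient.mkₐ K I f := congrArg (fun φ => φ f) hσ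
  rw [h, map_zero] at h1
  exact h1.symm

private theorem lineP_degree (a b : Fin 2 → K) (hab : a ≠ b) : 1 ≤ (lineP a b).totalDegree := by
  have h1 := line_tr_degree (a 0) (a 1) (lineP a b)
  rw [(line_tr_line a b).1] at h1
  obtain ⟨c1, c2⟩ := line_form_coeff (b 1 - a 1) (b 0 - a 0)
  refine le_trans ?_ h1
  rcases line_ne a b hab with h | h
  · have h5 := le_totalDegree (p := (C (b 1 - a 1) * X 0 - C (b 0 - a 0) * X 1 :
      MvPolynomial (Fin 2) K)) (s := Finsupp.single 0 1) (by
        rw [mem_support_iff, c1]; exact h)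
    simpa using h5
  · have h5 := le_totalDegree (p := (C (b 1 - a 1) * X 0 - C (b 0 - a 0) * X 1 :
      MvPolynomial (Fin 2) K)) (s := Finsupp.single 1 1) (by
        rw [mem_support_iff, c2]; exact neg_ne_zero.mpr h)
    simpa using h5

/-- PROOF. Induction on `k`; the case `k = 1`: the restriction `F(s) = f (a + s (b - a))` has degree `≤ D` and
is divisible by `s ^ m₀` and `(s - 1) ^ m₁`, `m₀ + m₁ > D`, so `F = 0`. If `b 0 ≠ a 0` then
`f(x, y) - f(x, a 1 + λ (x - a 0))` is a multiple of `y - a 1 - λ (x - a 0)`, `λ = (b 1 - a 1) / (b 0 - a 0)`,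
and `f(x, a 1 + λ (x - a 0)) = F((x - a 0) / (b 0 - a 0)) = 0`; so `f = ℓ g` (similarly if `b 1 ≠ a 1`).
`totalDegree g = totalDegree f - 1` (domain). The order of vanishing at a point is additive and `ℓ` has order
one at `a` and at `b` (translate the point to the origin; lowest homogeneous components multiply). -/
theorem line_factor (a b : Fin 2 → K) (hab : a ≠ b) (D m0 m1 k : ℕ) (hk : m0 + m1 = D + k)
    (hm0 : m0 ≤ D) (hm1 : m1 ≤ D) (f : MvPolynomial (Fin 2) K) (hfd : f.totalDegree ≤ D)
    (h0 : f ∈ pt (a 0) (a 1) ^ m0) (h1 : f ∈ pt (b 0) (b 1) ^ m1) :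
    ∃ g : MvPolynomial (Fin 2) K, f = lineP a b ^ k * g ∧ g.totalDegree ≤ D - k ∧
      g ∈ pt (a 0) (a 1) ^ (m0 - k) ∧ g ∈ pt (b 0) (b 1) ^ (m1 - k) := by
  induction k generalizing D m0 m1 f with
  | zero => exact ⟨f, by simp, by simpa using hfd, by simpa using h0, by simpa using h1⟩
  | succ k ih =>
    obtain ⟨g, hg⟩ := line_dvd_of_res a b hab f
      (lineRes_zero a b D m0 m1 (by omega) f hfd h0 h1)
    rcases eq_or_ne g 0 with hg0 | hg0
    · subst hg0
      rw [mul_zero] at hg
      exact ⟨0, by rw [hg, mul_zero], by simp, Ideal.zero_mem _, Ideal.zero_mem _⟩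
    · have hl := lineP_degree a b hab
      have hl0 : lineP a b ≠ 0 := by
        intro h
        rw [h] at hl
        simp at hl
      have hdeg : f.totalDegree = (lineP a b).totalDegree + g.totalDegree := by
        rw [hg, totalDegree_mul_of_isDomain hl0 hg0]
      rw [hg] at h0 h1
      have g0 := line_colon a b a hab (Or.inl rfl) m0 g h0
      have g1 := line_colon a b b hab (Or.inr rfl) m1 g h1
      obtain ⟨g', e1, e2, e3, e4⟩ := ih (D - 1) (m0 - 1) (m1 - 1) (by omega) (by omega) (by omega)
        g (by omega) g0 g1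
      refine ⟨g', ?_, ?_, ?_, ?_⟩
      · rw [hg, e1]; ring
      · have : D - 1 - k = D - (k + 1) := by omega
        rwa [this] at e2
      · have : m0 - 1 - k = m0 - (k + 1) := by omega
        rwa [this] at e3
      · have : m1 - 1 - k = m1 - (k + 1) := by omega
        rwa [this] at e4

/-- PROOF. After the translation to the origin `f` has degree `≤ p` and order `≥ p`, so it is
homogeneous of degree `p`. -/
theorem cone (a : Fin 2 → K) (p : ℕ) (f : MvPolynomial (Fin 2) K) (hfd : f.totalDegree ≤ p)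
    (h0 : f ∈ pt (a 0) (a 1) ^ p) :
    ∃ c : ℕ → K, f = ∑ i ∈ Finset.range (p + 1),
      C (c i) * ((X 0 - C (a 0)) ^ i * (X 1 - C (a 1)) ^ (p - i)) := by
  set h := lineTr (a 0) (a 1) f with hh
  have hd : h.totalDegree ≤ p := (line_tr_degree _ _ f).trans hfd
  rw [line_mem_pt_iff, mem_pow_idealOfVars_iff'] at h0
  refine ⟨fun i => coeff (Finsupp.single 0 i + Finsupp.single 1 (p - i)) h, ?_⟩
  have hsum : h = ∑ i ∈ Finset.range (p + 1),
      C (coeff (Finsupp.single 0 i + Finsupp.single 1 (p - i)) h) * (X 0 ^ i * X 1 ^ (p - i)) := by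
    ext d
    have hmon : ∀ i, (X 0 ^ i * X 1 ^ (p - i) : MvPolynomial (Fin 2) K)
        = monomial (Finsupp.single 0 i + Finsupp.single 1 (p - i)) 1 := by
      intro i
      rw [X_pow_eq_monomial, X_pow_eq_monomial, monomial_mul, one_mul]
    rw [coeff_sum]
    simp_rw [hmon, coeff_C_mul, coeff_monomial]
    have hdeg : d.degree = d 0 + d 1 := by
      rw [Finsupp.degree_eq_sum]
      simp [Fin.sum_univ_two]
    rcases lt_trichotomy (d 0 + d 1) p with hlt | heq | hgt
    · have e1 : coeff d h = 0 := h0 d (by rw [hdeg]; exact hlt)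
      rw [e1]
      symm
      apply Finset.sum_eq_zero
      intro i hi
      rw [Finset.mem_range] at hi
      rw [if_neg, mul_zero]
      rintro rfl
      simp at hlt
      omega
    · have e2 : d = Finsupp.single 0 (d 0) + Finsupp.single 1 (p - d 0) := by
        ext j
        fin_cases j
        · simp
        · simp; omega
      rw [Finset.sum_eq_single (d 0)]
      · rw [← e2, if_pos rfl, mul_one]
      · intro i hi hne
        rw [if_neg, mul_zero]
        intro hcon
        apply hne
        have := DFunLike.congr_fun hcon 0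
        simpa using this
      · intro hcon
        exfalso
        apply hcon
        rw [Finset.mem_range]
        omega
    · have e1 : coeff d h = 0 := by
        by_contra hne
        have h5 := le_totalDegree (mem_support_iff.mpr hne)
        rw [Finsupp.sum_fintype _ _ (fun _ => rfl), Fin.sum_univ_two] at h5
        omega
      rw [e1]
      symm
      apply Finset.sum_eq_zero
      intro i hi
      rw [Finset.mem_range] at hi
      rw [if_neg, mul_zero]
      rintro rfl
      simp at hgt
      omega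
  have h1 : f = lineTr (-(a 0)) (-(a 1)) h := (lineTr_tr _ _ f).symm
  conv_lhs => rw [h1, hsum]
  rw [map_sum]
  refine Finset.sum_congr rfl fun i _ => ?_
  simp only [lineTr, map_mul, map_pow, aeval_C, aeval_X, algebraMap_eq, Matrix.cons_val_zero,
    Matrix.cons_val_one, C_neg, sub_eq_add_neg]

/-- The multiplicity of a nonzero polynomial is at most its degree. -/
theorem mult_le_totalDegree (a : Fin 2 → K) (m : ℕ) (f : MvPolynomial (Fin 2) K) (hf : f ≠ 0)
    (h : f ∈ pt (a 0) (a 1) ^ m) : m ≤ f.totalDegree := by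
  rw [line_mem_pt_iff, mem_pow_idealOfVars_iff'] at h
  have hne : lineTr (a 0) (a 1) f ≠ 0 := by
    intro h1
    apply hf
    rw [← lineTr_tr (a 0) (a 1) f, h1, map_zero]
  obtain ⟨d, hd⟩ := MvPolynomial.ne_zero_iff.mp hne
  have h1 : m ≤ d.degree := by
    by_contra hcon
    push Not at hcon
    exact hd (h d hcon)
  refine le_trans ?_ (line_tr_degree (a 0) (a 1) f)
  have h5 := le_totalDegree (mem_support_iff.mpr hd)
  rw [Finsupp.degree_eq_sum] at h1
  rw [Finsupp.sum_fintype _ _ (fun _ => rfl)] at h5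
  exact h1.trans h5

end ShghT
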