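import Pool.Agent.ShghW.MainW
import Pool.Agent.ShghT.Final

/-!
# Theorem W for any nine of the points
-/

namespace ShghT

open MvPolynomial

variable {F K : Type*} [Field F] [Field K] [Algebra F K] {s : ℕ} (P : Fin s → Fin 2 → K)
    (hP : AlgebraicIndependent F (fun ij : Fin s × Fin 2 => P ij.1 ij.2))
    (δ : ℕ) (μ : Fin s → ℕ) (c : Fin 9 → Fin s) (hc : Function.Injective c)

include hP hc

private theorem final_aux (hanti : Antitone fun l => μ (c l))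
    (hmax : ∀ i, i ∉ Set.range c → ∀ l, μ i ≤ μ (c l))
    (hstd : ∀ i j l, i ≠ j → i ≠ l → j ≠ l → μ (c i) + μ (c j) + μ (c l) ≤ δ)
    (h : 3 * δ ≤ ∑ l, μ (c l) + 2 ∨ (∀ i, i ∉ Set.range c → μ i ≤ 2) ∨
      ∀ i, i ∉ Set.range c → ∀ l, μ i ^ 5 ≤ μ (c l)) :
    (Module.finrank K (LS δ μ P) : ℤ) =
      max 0 (((δ + 2).choose 2 : ℤ) - ∑ i, ((μ i + 1).choose 2 : ℤ)) := by
  have h012 := hstd 0 1 2 (by decide) (by decide) (by decide)
  have h345 := hstd 3 4 5 (by decide) (by decide) (by decide)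
  have h678 := hstd 6 7 8 (by decide) (by decide) (by decide)
  have hsum : ∑ l, μ (c l) = μ (c 0) + μ (c 1) + μ (c 2) + μ (c 3) + μ (c 4) + μ (c 5) +
      μ (c 6) + μ (c 7) + μ (c 8) := by
    rw [Fin.sum_univ_succ, Fin.sum_univ_eight]
    have e1 : (Fin.succ 0 : Fin 9) = 1 := rfl
    have e2 : (Fin.succ 1 : Fin 9) = 2 := rfl
    have e3 : (Fin.succ 2 : Fin 9) = 3 := rfl
    have e4 : (Fin.succ 3 : Fin 9) = 4 := rfl
    have e5 : (Fin.succ 4 : Fin 9) = 5 := rfl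
    have e6 : (Fin.succ 5 : Fin 9) = 6 := rfl
    have e7 : (Fin.succ 6 : Fin 9) = 7 := rfl
    have e8 : (Fin.succ 7 : Fin 9) = 8 := rfl
    rw [e1, e2, e3, e4, e5, e6, e7, e8]
    ring
  obtain ⟨e, he⟩ : ∃ e, 3 * δ = e + ∑ l, μ (c l) := ⟨3 * δ - ∑ l, μ (c l), by omega⟩
  refine reindex P hP δ μ c hc (fun {r} M m => (∀ i l, m i ≤ M l) ∧
    (e ≤ 2 ∨ (∀ i, m i ≤ 2) ∨ ∀ i l, m i ^ 5 ≤ M l)) ?_ _ rfl ?_
  · intro r σ hσ
    have hn : ∀ i : Fin r, σ (Fin.natAdd 9 i) ∉ Set.range c := by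
      rintro i ⟨l, hl⟩
      rw [← hσ l] at hl
      have := σ.injective hl
      have h1 := congrArg Fin.val this
      simp only [Fin.val_castAdd, Fin.val_natAdd] at h1
      omega
    refine ⟨fun i l => hmax _ (hn i) l, ?_⟩
    rcases h with h | h | h
    · exact Or.inl (by omega)
    · exact Or.inr (Or.inl fun i => h _ (hn i))
    · exact Or.inr (Or.inr fun i l => h _ (hn i) l)
  · rintro r P' hP' M m ⟨hm, hcond⟩ hM hχ
    have hM' : M = fun l => μ (c l) := funext hM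
    refine main_W P' hP' δ M m e ⟨?_, ?_, ?_⟩ (fun i => hm i 8) ?_ _ hχ
    · rw [hM']
      exact hanti
    · rw [hM, hM, hM]
      exact h012
    · rw [he]
      simp only [hM]
    · exact hcond.imp id (Or.imp id fun h i => h i 8)

theorem final_W
    (hmax : ∀ i, i ∉ Set.range c → ∀ l, μ i ≤ μ (c l))
    (hstd : ∀ i j l, i ≠ j → i ≠ l → j ≠ l → μ (c i) + μ (c j) + μ (c l) ≤ δ)
    (h : 3 * δ ≤ ∑ l, μ (c l) + 2 ∨ (∀ i, i ∉ Set.range c → μ i ≤ 2) ∨
      ∀ i, i ∉ Set.range c → ∀ l, μ i ^ 5 ≤ μ (c l)) :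
    (Module.finrank K (LS δ μ P) : ℤ) =
      max 0 (((δ + 2).choose 2 : ℤ) - ∑ i, ((μ i + 1).choose 2 : ℤ)) := by
  let σ : Equiv.Perm (Fin 9) := Fin.revPerm.trans (Tuple.sort fun l => μ (c l))
  have hr : Set.range (fun l => c (σ l)) = Set.range c := by
    ext x
    constructor
    · rintro ⟨l, rfl⟩
      exact ⟨σ l, rfl⟩
    · rintro ⟨l, rfl⟩
      exact ⟨σ.symm l, by simp⟩
  refine final_aux P hP δ μ (fun l => c (σ l)) (hc.comp σ.injective) ?_ ?_ ?_ ?_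
  · intro i j hij
    exact Tuple.monotone_sort (fun l => μ (c l)) (Fin.rev_le_rev.2 hij)
  · intro i hi l
    rw [hr] at hi
    exact hmax i hi (σ l)
  · intro i j l h1 h2 h3
    exact hstd _ _ _ (σ.injective.ne h1) (σ.injective.ne h2) (σ.injective.ne h3)
  · rw [hr, Equiv.sum_comp σ fun l => μ (c l)]
    exact h.imp id (Or.imp id fun h i hi l => h i hi (σ l))

end ShghT
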