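import Pool.Agent.ShghT.Theta

/-!
# Gaps forced by a fixed factor

`H = T * B` where `B` is modulo `π` a polynomial `b` in `u` of degree `κ` with `b(0) = 1`, and all
coefficients of `H` have weight `n + 2 l (e - l) ≥ μ`.
-/

namespace ShghT

variable {k : Type*} [Field k]

private theorem gap_coeff_mul (p q : LaurentPolynomial k) (j : ℤ) :
    (p * q).coeff j = ∑ i ∈ p.coeff.support, p.coeff i * q.coeff (j - i) := by
  classical
  rw [AddMonoidAlgebra.coeff_mul, Finsupp.sum]
  refine Finset.sum_congr rfl fun i _ => ?_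
  rw [Finsupp.sum, Finset.sum_eq_single (j - i)]
  · rw [if_pos (by omega)]
  · intro b _ hb
    rw [if_neg (by omega)]
  · intro h
    rw [Finsupp.notMem_support_iff.mp h, mul_zero, ite_self]

private theorem gap_toLaurent_nat (b : Polynomial k) (n : ℕ) :
    (Polynomial.toLaurent b).coeff (n : ℤ) = b.coeff n := by
  induction b using Polynomial.induction_on' with
  | add p q hp hq =>
    rw [map_add, AddMonoidAlgebra.coeff_add, Finsupp.add_apply, hp, hq, Polynomial.coeff_add]
  | monomial m a =>
    rw [← Polynomial.C_mul_X_pow_eq_monomial, Polynomial.toLaurent_C_mul_X_pow,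
      ← LaurentPolynomial.single_eq_C_mul_T, Polynomial.coeff_C_mul_X_pow,
      AddMonoidAlgebra.coeff_single, Finsupp.single_apply]
    by_cases h : m = n
    · subst h
      rw [if_pos rfl, if_pos rfl]
    · rw [if_neg (by omega), if_neg (by omega)]

private theorem gap_toLaurent_neg (b : Polynomial k) {j : ℤ} (hj : j < 0) :
    (Polynomial.toLaurent b).coeff j = 0 := by
  induction b using Polynomial.induction_on' with
  | add p q hp hq =>
    rw [map_add, AddMonoidAlgebra.coeff_add, Finsupp.add_apply, hp, hq, add_zero]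
  | monomial m a =>
    rw [← Polynomial.C_mul_X_pow_eq_monomial, Polynomial.toLaurent_C_mul_X_pow,
      ← LaurentPolynomial.single_eq_C_mul_T, AddMonoidAlgebra.coeff_single, Finsupp.single_apply,
      if_neg (by omega)]

private theorem gap_toLaurent_big (b : Polynomial k) {j : ℤ} (hj : (b.natDegree : ℤ) < j) :
    (Polynomial.toLaurent b).coeff j = 0 := by
  obtain ⟨n, rfl⟩ := Int.eq_ofNat_of_zero_le (show 0 ≤ j by omega)
  rw [gap_toLaurent_nat]
  exact Polynomial.coeff_eq_zero_of_natDegree_lt (by omega)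

/-- If `P b` is supported in `[lo, hi]` then `P` is supported in `[lo, hi - deg b]`. -/
private theorem gap_support (P : LaurentPolynomial k) (b : Polynomial k) (hb : b.coeff 0 ≠ 0)
    (lo hi : ℤ) (h : ∀ i, (P * Polynomial.toLaurent b).coeff i ≠ 0 → lo ≤ i ∧ i ≤ hi) (i : ℤ)
    (hi' : P.coeff i ≠ 0) : lo ≤ i ∧ i + b.natDegree ≤ hi := by
  classical
  have hb0 : b ≠ 0 := by
    rintro rfl
    exact hb (Polynomial.coeff_zero 0)
  have hne : P.coeff.support.Nonempty := ⟨i, Finsupp.mem_support_iff.2 hi'⟩
  constructor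
  · set m := P.coeff.support.min' hne with hm
    have hmem : m ∈ P.coeff.support := Finset.min'_mem _ _
    have h1 : (P * Polynomial.toLaurent b).coeff m = P.coeff m * b.coeff 0 := by
      rw [gap_coeff_mul, Finset.sum_eq_single m]
      · rw [sub_self, show (0 : ℤ) = ((0 : ℕ) : ℤ) from rfl, gap_toLaurent_nat]
      · intro j hj hjm
        have h2 : m ≤ j := Finset.min'_le _ _ hj
        rw [gap_toLaurent_neg b (by omega), mul_zero]
      · intro h2
        exact absurd hmem h2
    have h2 := (h m (by rw [h1]; exact mul_ne_zero (Finsupp.mem_support_iff.1 hmem) hb)).1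
    exact h2.trans (Finset.min'_le _ _ (Finsupp.mem_support_iff.2 hi'))
  · set m := P.coeff.support.max' hne with hm
    have hmem : m ∈ P.coeff.support := Finset.max'_mem _ _
    have h1 : (P * Polynomial.toLaurent b).coeff (m + b.natDegree)
        = P.coeff m * b.leadingCoeff := by
      rw [gap_coeff_mul, Finset.sum_eq_single m]
      · rw [add_sub_cancel_left, gap_toLaurent_nat]
        rfl
      · intro j hj hjm
        have h2 : j ≤ m := Finset.le_max' _ _ hj
        rw [gap_toLaurent_big b (by omega), mul_zero]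
      · intro h2
        exact absurd hmem h2
    have h2 := (h (m + b.natDegree) (by
      rw [h1]
      exact mul_ne_zero (Finsupp.mem_support_iff.1 hmem)
        (Polynomial.leadingCoeff_ne_zero.2 hb0))).2
    have h3 : i ≤ m := Finset.le_max' _ _ (Finsupp.mem_support_iff.2 hi')
    omega

/-- The lowest level of a product. -/
private theorem gap_level {H T B : Lam k} (hH : H = T * B)
    (hB : PowerSeries.constantCoeff B ≠ 0) (n : ℕ)
    (hz : ∀ m : ℕ, m < n → ∀ i, cf H m i = 0) :
    ∃ P : LaurentPolynomial k, ∀ i, cf H n i = (P * PowerSeries.constantCoeff B).coeff i := by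
  have hXB : ¬ (PowerSeries.X : Lam k) ∣ B := by
    rw [PowerSeries.X_dvd_iff]
    exact hB
  have h1 : (PowerSeries.X : Lam k) ^ n ∣ H := by
    rw [PowerSeries.X_pow_dvd_iff]
    intro m hm
    refine LaurentPolynomial.ext fun i => ?_
    rw [← cf_nat, hz m hm, AddMonoidAlgebra.coeff_zero, Finsupp.coe_zero, Pi.zero_apply]
  rw [hH] at h1
  obtain ⟨T', hT'⟩ := PowerSeries.X_prime.pow_dvd_of_dvd_mul_right n hXB h1
  refine ⟨PowerSeries.constantCoeff T', fun i => ?_⟩
  rw [cf_nat, hH, hT', mul_assoc, PowerSeries.coeff_X_pow_mul', if_pos le_rfl, Nat.sub_self,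
    PowerSeries.coeff_zero_eq_constantCoeff_apply, map_mul]

/-- PROOF. `c = π ^ v * unit`; by induction on `v`: if `π * H' = T₀ * B` then modulo `π`
`0 = T₀(0) B(0)` in the domain `k[u, 1/u]`, so `π ∣ T₀`. -/
theorem gauss_dvd {c : PowerSeries k} (hc : c ≠ 0) {H T0 B : Lam k}
    (hB : PowerSeries.constantCoeff B ≠ 0) (h : iota c * H = T0 * B) :
    ∃ T : Lam k, T0 = iota c * T ∧ H = T * B := by
  have hXB : ¬ (PowerSeries.X : Lam k) ∣ B := by
    rw [PowerSeries.X_dvd_iff]
    exact hB
  obtain ⟨n, u, hu⟩ := IsDiscreteValuationRing.eq_unit_mul_pow_irreducible hc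
    (PowerSeries.X_prime (R := k)).irreducible
  have h1 : iota c = iota (u : PowerSeries k) * (PowerSeries.X : Lam k) ^ n := by
    rw [hu, map_mul, map_pow, iota_X]
  have h2 : (PowerSeries.X : Lam k) ^ n ∣ T0 * B := by
    refine ⟨iota (u : PowerSeries k) * H, ?_⟩
    rw [← h, h1]
    ring
  obtain ⟨T1, hT1⟩ := PowerSeries.X_prime.pow_dvd_of_dvd_mul_right n hXB h2
  have h3 : iota ((u⁻¹ : (PowerSeries k)ˣ) : PowerSeries k) * iota (u : PowerSeries k) = 1 := by
    rw [← map_mul, Units.inv_mul, map_one]
  have hX : (PowerSeries.X : Lam k) ^ n ≠ 0 := pow_ne_zero _ PowerSeries.X_prime.ne_zero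
  refine ⟨iota ((u⁻¹ : (PowerSeries k)ˣ) : PowerSeries k) * T1, ?_, ?_⟩
  · rw [hT1, h1]
    linear_combination (-(PowerSeries.X : Lam k) ^ n * T1) * h3
  · have h4 : iota (u : PowerSeries k) * H = T1 * B := by
      apply mul_left_cancel₀ hX
      rw [hT1, h1] at h
      linear_combination h
    linear_combination iota ((u⁻¹ : (PowerSeries k)ˣ) : PowerSeries k) * h4 - H * h3

private theorem gap_arith (e h i w : ℤ) (he : 2 * h ≤ e) (hw : h * (e - h) ≤ w)
    (h1 : w ≤ i * (e - i)) : h ≤ i ∧ i ≤ e - h := by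
  have h2 : 0 ≤ (i - h) * (e - h - i) := by nlinarith
  constructor
  · by_contra hcon
    push Not at hcon
    nlinarith
  · by_contra hcon
    push Not at hcon
    nlinarith

/-- All levels below vanish. -/
private theorem gap_aux {H T B : Lam k} (hH : H = T * B) (b : Polynomial k) (hb : b.coeff 0 = 1)
    (hB : PowerSeries.constantCoeff B = Polynomial.toLaurent b) (e : ℕ) (μ : ℤ)
    (hw : ∀ n l : ℤ, n + 2 * l * (e - l) < μ → cf H n l = 0) (lo hi n₀ : ℤ)
    (hlt : hi - lo < b.natDegree)
    (hs : ∀ n i : ℤ, n < n₀ → μ ≤ n + 2 * i * (e - i) → lo ≤ i ∧ i ≤ hi) :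
    ∀ n : ℕ, (n : ℤ) < n₀ → ∀ i, cf H n i = 0 := by
  intro n
  induction n using Nat.strong_induction_on with
  | _ n ih =>
    intro hn i
    have hb0 : b ≠ 0 := by
      rintro rfl
      rw [Polynomial.coeff_zero] at hb
      exact zero_ne_one hb
    have hB0 : PowerSeries.constantCoeff B ≠ 0 := by
      rw [hB]
      exact Polynomial.toLaurent_ne_zero.2 hb0
    obtain ⟨P, hP⟩ := gap_level hH hB0 n (fun m hm j => ih m hm (by omega) j)
    rw [hB] at hP
    have hP0 : P = 0 := by
      refine LaurentPolynomial.ext fun j => ?_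
      rw [AddMonoidAlgebra.coeff_zero, Finsupp.coe_zero, Pi.zero_apply]
      by_contra hne
      have h1 := gap_support P b (by rw [hb]; exact one_ne_zero) lo hi (fun l hl => by
        rw [← hP] at hl
        refine hs n l hn ?_
        by_contra hcon
        exact hl (hw n l (by omega))) j hne
      omega
    rw [hP, hP0, zero_mul, AddMonoidAlgebra.coeff_zero, Finsupp.coe_zero, Pi.zero_apply]

/-- PROOF. Let `n₀ = μ - 2 h (e - h)` and suppose that some coefficient of `H` at a level `≤ n₀`
(for part (2): `< n₀`) is not zero; let `n'` be the least such level, `n' ≥ 0`. `H = π ^ n' H'`, hence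
`T = π ^ n' T'` (`B` is not divisible by `π`) and `H' mod π = (T' mod π) b`. By the weights the coefficients
of `u ^ i` in `H' mod π` vanish unless `2 i (e - i) ≥ μ - n' ≥ 2 h (e - h)`, so unless `h ≤ i ≤ e - h`
(part (2): `h < i < e - h`). But a nonzero multiple of `b` in `k[u, 1/u]` has lowest and highest
exponent at distance `≥ natDegree b` (multiply the lowest terms and the highest terms). -/
theorem gap_zero {H T B : Lam k} (hH : H = T * B) (b : Polynomial k) (hb : b.coeff 0 = 1)
    (hB : PowerSeries.constantCoeff B = Polynomial.toLaurent b) (e : ℕ) (μ : ℤ)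
    (hw : ∀ n l : ℤ, n + 2 * l * (e - l) < μ → cf H n l = 0) (h : ℤ) (h0 : 0 ≤ h)
    (he : 2 * h ≤ e) (hlt : (e : ℤ) - 2 * h < b.natDegree) (i : ℤ) :
    cf H (μ - 2 * h * (e - h)) i = 0 := by
  rcases lt_or_ge (μ - 2 * h * (e - h)) 0 with hn | hn
  · exact cf_neg H hn i
  · obtain ⟨n, hn'⟩ := Int.eq_ofNat_of_zero_le hn
    rw [hn']
    refine gap_aux hH b hb hB e μ hw h (e - h) (μ - 2 * h * (e - h) + 1) (by omega) ?_ n
      (by omega) i
    intro m j hm hj
    refine gap_arith e h j (h * (e - h)) he le_rfl ?_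
    nlinarith

/-- PROOF. As above, all coefficients of `H` at levels `< n₀ = μ - 2 h (e - h)` are zero, so
`H = π ^ n₀ H'` (if `n₀ ≥ 0`; otherwise both sides are zero), `H' mod π` is supported on `[h, e - h]` and
is a multiple of `b`, whose degree is `e - 2 h`; hence `H' mod π = λ u ^ h b`. -/
theorem gap_tie {H T B : Lam k} (hH : H = T * B) (b : Polynomial k) (hb : b.coeff 0 = 1)
    (hB : PowerSeries.constantCoeff B = Polynomial.toLaurent b) (e : ℕ) (μ : ℤ)
    (hw : ∀ n l : ℤ, n + 2 * l * (e - l) < μ → cf H n l = 0) (h : ℤ) (h0 : 0 ≤ h)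
    (he : 2 * h ≤ e) (heq : (e : ℤ) - 2 * h = b.natDegree) :
    cf H (μ - 2 * h * (e - h)) (e - h) = b.leadingCoeff * cf H (μ - 2 * h * (e - h)) h := by
  rcases lt_or_ge (μ - 2 * h * (e - h)) 0 with hn | hn
  · rw [cf_neg H hn, cf_neg H hn, mul_zero]
  · obtain ⟨n, hn'⟩ := Int.eq_ofNat_of_zero_le hn
    have hlow : ∀ m : ℕ, m < n → ∀ i, cf H m i = 0 := by
      intro m hm i
      refine gap_aux hH b hb hB e μ hw (h + 1) (e - h - 1) (μ - 2 * h * (e - h)) (by omega) ?_ m
        (by omega) i
      intro m' j hm' hj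
      have h1 : h * (e - h) < j * (e - j) := by nlinarith
      have h2 := gap_arith e h j (h * (e - h)) he le_rfl h1.le
      constructor
      · by_contra hcon
        have h3 : j = h := by omega
        rw [h3] at h1
        exact lt_irrefl _ h1
      · by_contra hcon
        have h3 : j = e - h := by omega
        rw [h3] at h1
        have h4 : (↑e - h) * (↑e - (↑e - h)) = h * (↑e - h) := by ring
        rw [h4] at h1
        exact lt_irrefl _ h1
    have hb0 : b ≠ 0 := by
      rintro rfl
      rw [Polynomial.coeff_zero] at hb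
      exact zero_ne_one hb
    have hB0 : PowerSeries.constantCoeff B ≠ 0 := by
      rw [hB]
      exact Polynomial.toLaurent_ne_zero.2 hb0
    obtain ⟨P, hP⟩ := gap_level hH hB0 n hlow
    rw [hB] at hP
    have hPs : ∀ j, j ≠ h → P.coeff j = 0 := by
      intro j hj
      by_contra hne
      have h1 := gap_support P b (by rw [hb]; exact one_ne_zero) h (e - h) (fun l hl => by
        rw [← hP] at hl
        have h2 : μ ≤ n + 2 * l * (e - l) := by
          by_contra hcon
          exact hl (hw n l (by omega))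
        refine gap_arith e h l (h * (e - h)) he le_rfl ?_
        nlinarith) j hne
      omega
    have hval : ∀ j, (P * Polynomial.toLaurent b).coeff j
        = P.coeff h * (Polynomial.toLaurent b).coeff (j - h) := by
      intro j
      rw [gap_coeff_mul]
      by_cases hh : P.coeff h = 0
      · rw [hh, zero_mul]
        apply Finset.sum_eq_zero
        intro l _
        by_cases hl : l = h
        · rw [hl, hh, zero_mul]
        · rw [hPs l hl, zero_mul]
      · rw [Finset.sum_eq_single h]
        · intro l _ hl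
          rw [hPs l hl, zero_mul]
        · intro h1
          exact absurd (Finsupp.mem_support_iff.2 hh) h1
    rw [hn', hP, hP, hval, hval, sub_self, show (0 : ℤ) = ((0 : ℕ) : ℤ) from rfl,
      gap_toLaurent_nat, hb, show (e : ℤ) - h - h = (b.natDegree : ℤ) by omega,
      gap_toLaurent_nat]
    change P.coeff h * b.leadingCoeff = b.leadingCoeff * (P.coeff h * 1)
    ring

end ShghT
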