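import Pool.Agent.ShghT.Interp
import Pool.Agent.ShghT.Comb

/-!
# Ranks with the two top values exchanged

A point of multiplicity `m` is placed on the circle `circO e p o`. For `o = some s` (ordinary circle)
it puts `m + 1 - rk p s l` conditions on the column `l`; for `o = none` (circle half-way between the
columns `p` and `p + 1`) we use the pattern in which the two largest values are exchanged: `m` conditions
on the column `p + 1`, `m - 1` on the column `p`, `m + 1 - rk p true l` on the others.
-/

namespace ShghT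

/-- The rank with the two first columns exchanged. -/
noncomputable def rkB (p l : ℤ) : ℤ := if l = p then 2 else if l = p + 1 then 1 else rk p true l

/-- The rank belonging to a mode. -/
noncomputable def rkO (p : ℤ) : Option Bool → ℤ → ℤ
  | some s => rk p s
  | none => rkB p

/-- The circle belonging to a mode. -/
def circO (e : ℕ) (p : ℤ) : Option Bool → ℤ
  | some s => circ e p s
  | none => 2 * (e - 2 * p - 1)

/-- The number of conditions on the residue class `ρ`. -/
noncomputable def NO (e : ℕ) (m : ℕ) (p : ℤ) (o : Option Bool) (ρ : ℕ) : ℕ :=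
  ∑ j ∈ (Finset.Icc (p - (m : ℤ)) (p + m)).filter (fun j : ℤ => j % e = ρ),
    ((m : ℤ) + 1 - rkO p o j).toNat

theorem NO_some (e m : ℕ) (p : ℤ) (s : Bool) (ρ : ℕ) : NO e m p (some s) ρ = Nr e m p s ρ := rfl

private theorem Ranks_rk_pos (p : ℤ) (s : Bool) (l : ℤ) : 1 ≤ rk p s l := by
  unfold rk
  cases s
  · rw [if_neg (by decide)]
    rcases le_or_gt (p - l) 0 with h | h
    · exact le_max_of_le_right (by omega)
    · exact le_max_of_le_left (by omega)
  · rw [if_pos rfl]
    rcases le_or_gt (l - p) 0 with h | h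
    · exact le_max_of_le_right (by omega)
    · exact le_max_of_le_left (by omega)

private theorem Ranks_rk_le (p : ℤ) (s : Bool) (l : ℤ) : 2 * (l - p) ≤ rk p s l + 1 ∧
    2 * (p - l) ≤ rk p s l + 1 := by
  unfold rk
  cases s
  · rw [if_neg (by decide)]
    have h1 := le_max_left (2 * (p - l)) (1 - 2 * (p - l))
    have h2 := le_max_right (2 * (p - l)) (1 - 2 * (p - l))
    constructor <;> omega
  · rw [if_pos rfl]
    have h1 := le_max_left (2 * (l - p)) (1 - 2 * (l - p))
    have h2 := le_max_right (2 * (l - p)) (1 - 2 * (l - p))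
    constructor <;> omega

private theorem Ranks_rk_shift (p c : ℤ) (s : Bool) (l : ℤ) : rk (p + c) s (l + c) = rk p s l := by
  unfold rk
  have h1 : l + c - (p + c) = l - p := by ring
  have h2 : p + c - (l + c) = p - l := by ring
  rw [h1, h2]

private theorem Ranks_rkO_shift (p c : ℤ) (o : Option Bool) (l : ℤ) :
    rkO (p + c) o (l + c) = rkO p o l := by
  cases o with
  | some s => exact Ranks_rk_shift p c s l
  | none =>
    show rkB (p + c) (l + c) = rkB p l
    unfold rkB
    rw [Ranks_rk_shift]
    have e1 : (l + c = p + c) = (l = p) := propext ⟨fun h => by omega, fun h => by omega⟩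
    have e2 : (l + c = p + c + 1) = (l = p + 1) := propext ⟨fun h => by omega, fun h => by omega⟩
    rw [if_congr (Iff.of_eq e1) rfl rfl, if_congr (Iff.of_eq e2) rfl rfl]

theorem rkO_pos (p : ℤ) (o : Option Bool) (l : ℤ) : 1 ≤ rkO p o l := by
  cases o with
  | some s => exact Ranks_rk_pos p s l
  | none =>
    show 1 ≤ rkB p l
    unfold rkB
    split_ifs
    · norm_num
    · norm_num
    · exact Ranks_rk_pos p true l

theorem mem_Icc_of_rkO_le (p : ℤ) (o : Option Bool) (m : ℕ) (l : ℤ) (h : rkO p o l ≤ m) :
    l ∈ Finset.Icc (p - (m : ℤ)) (p + m) := by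
  rw [Finset.mem_Icc]
  cases o with
  | some s =>
    have h1 : rk p s l ≤ m := h
    have h2 := Ranks_rk_le p s l
    have h3 := Ranks_rk_pos p s l
    omega
  | none =>
    have h1 : rkB p l ≤ m := h
    unfold rkB at h1
    split_ifs at h1 with h4 h5
    · omega
    · omega
    · have h2 := Ranks_rk_le p true l
      have h3 := Ranks_rk_pos p true l
      omega

/-- Monotone in the multiplicity. -/
theorem NO_mono (e : ℕ) {m m' : ℕ} (h : m ≤ m') (p : ℤ) (o : Option Bool) (ρ : ℕ) :
    NO e m p o ρ ≤ NO e m' p o ρ := by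
  unfold NO
  refine le_trans (Finset.sum_le_sum (g := fun j : ℤ => ((m' : ℤ) + 1 - rkO p o j).toNat)
    fun j _ => ?_) (Finset.sum_le_sum_of_subset ?_)
  · apply Int.toNat_le_toNat
    have : (m : ℤ) ≤ m' := by exact_mod_cast h
    omega
  · apply Finset.filter_subset_filter
    apply Finset.Icc_subset_Icc <;> omega

/-- Invariant under `p ↦ p + e`. -/
theorem NO_shift (e : ℕ) (m : ℕ) (p : ℤ) (o : Option Bool) (ρ : ℕ) (t : ℤ) :
    NO e m (p + e * t) o ρ = NO e m p o ρ := by
  unfold NO
  symm
  refine Finset.sum_nbij' (fun j => j + e * t) (fun j => j - e * t) ?_ ?_ ?_ ?_ ?_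
  · intro j hj
    rw [Finset.mem_filter, Finset.mem_Icc] at hj ⊢
    obtain ⟨⟨h1, h2⟩, h3⟩ := hj
    refine ⟨⟨?_, ?_⟩, ?_⟩
    · show p + (e : ℤ) * t - m ≤ j + e * t
      linarith
    · show j + (e : ℤ) * t ≤ p + e * t + m
      linarith
    · show (j + (e : ℤ) * t) % e = ρ
      rw [Int.add_mul_emod_self_left]
      exact h3
  · intro j hj
    rw [Finset.mem_filter, Finset.mem_Icc] at hj ⊢
    obtain ⟨⟨h1, h2⟩, h3⟩ := hj
    refine ⟨⟨?_, ?_⟩, ?_⟩
    · show p - m ≤ j - (e : ℤ) * t
      linarith
    · show j - (e : ℤ) * t ≤ p + m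
      linarith
    · show (j - (e : ℤ) * t) % e = ρ
      have : j - (e : ℤ) * t = j + e * (-t) := by ring
      rw [this, Int.add_mul_emod_self_left]
      exact h3
  · intro j _
    show j + (e : ℤ) * t - e * t = j
    ring
  · intro j _
    show j - (e : ℤ) * t + e * t = j
    ring
  · intro j _
    show ((m : ℤ) + 1 - rkO p o j).toNat = ((m : ℤ) + 1 - rkO (p + e * t) o (j + e * t)).toNat
    rw [Ranks_rkO_shift]

/-- The exchanged pattern differs from the ordinary one by one unit moved from the column `p` to the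
column `p + 1`. -/
theorem NO_none (e : ℕ) (he : 0 < e) (m : ℕ) (hm : 1 ≤ m) (p : ℤ) (ρ : ℕ) (hρ : ρ < e) :
    (NO e m p none ρ : ℤ) = NO e m p (some true) ρ - (if p % e = ρ then 1 else 0) +
      (if (p + 1) % e = ρ then 1 else 0) := by
  unfold NO
  push_cast
  have hm' : (1 : ℤ) ≤ m := by exact_mod_cast hm
  have key : ∀ j ∈ (Finset.Icc (p - (m : ℤ)) (p + m)).filter (fun j : ℤ => j % e = ρ),
      ((((m : ℤ) + 1 - rkO p none j).toNat : ℕ) : ℤ) =
        (((m : ℤ) + 1 - rkO p (some true) j).toNat : ℕ) - (if j = p then 1 else 0) +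
          (if j = p + 1 then 1 else 0) := by
    intro j _
    show ((((m : ℤ) + 1 - rkB p j).toNat : ℕ) : ℤ) =
        (((m : ℤ) + 1 - rk p true j).toNat : ℕ) - (if j = p then 1 else 0) +
          (if j = p + 1 then 1 else 0)
    by_cases h1 : j = p
    · have h2 : rk p true j = 1 := by
        unfold rk
        rw [h1]
        simp
      have h3 : rkB p j = 2 := by
        unfold rkB
        rw [if_pos h1]
      rw [h2, h3, if_pos h1, if_neg (by omega)]
      rw [Int.toNat_of_nonneg (by omega), Int.toNat_of_nonneg (by omega)]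
      omega
    · by_cases h4 : j = p + 1
      · have h2 : rk p true j = 2 := by
          unfold rk
          rw [h4]
          simp
        have h3 : rkB p j = 1 := by
          unfold rkB
          rw [if_neg h1, if_pos h4]
        rw [h2, h3, if_neg h1, if_pos h4]
        rw [Int.toNat_of_nonneg (by omega), Int.toNat_of_nonneg (by omega)]
        omega
      · have h3 : rkB p j = rk p true j := by
          unfold rkB
          rw [if_neg h1, if_neg h4]
        rw [h3, if_neg h1, if_neg h4]
        omega
  rw [Finset.sum_congr rfl key, Finset.sum_add_distrib, Finset.sum_sub_distrib,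
    Finset.sum_ite_eq', Finset.sum_ite_eq']
  have m1 : p ∈ (Finset.Icc (p - (m : ℤ)) (p + m)).filter (fun j : ℤ => j % e = ρ) ↔
      p % e = ρ := by
    rw [Finset.mem_filter, Finset.mem_Icc]
    constructor
    · exact fun h => h.2
    · exact fun h => ⟨⟨by omega, by omega⟩, h⟩
  have m2 : p + 1 ∈ (Finset.Icc (p - (m : ℤ)) (p + m)).filter (fun j : ℤ => j % e = ρ) ↔
      (p + 1) % e = ρ := by
    rw [Finset.mem_filter, Finset.mem_Icc]
    constructor
    · exact fun h => h.2
    · exact fun h => ⟨⟨by omega, by omega⟩, h⟩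
  rw [if_congr m1 rfl rfl, if_congr m2 rfl rfl]

private theorem Ranks_ind_sum (e : ℕ) (he : 0 < e) (x : ℤ) :
    ∑ ρ ∈ Finset.range e, (if x % e = ρ then (1 : ℤ) else 0) = 1 := by
  have h1 : 0 ≤ x % e := Int.emod_nonneg _ (by omega)
  have h2 : x % e < e := Int.emod_lt_of_pos _ (by omega)
  have h3 : ∀ ρ ∈ Finset.range e, (if x % e = ρ then (1 : ℤ) else 0) =
      if ρ = (x % e).toNat then 1 else 0 := by
    intro ρ _
    apply if_congr _ rfl rfl
    omega
  rw [Finset.sum_congr rfl h3, Finset.sum_ite_eq', if_pos]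
  rw [Finset.mem_range]
  omega

/-- The number of conditions is `m (m + 1) / 2`. -/
theorem sum_NO (e : ℕ) (he : 0 < e) (m : ℕ) (p : ℤ) (o : Option Bool) :
    ∑ ρ ∈ Finset.range e, NO e m p o ρ = (m + 1).choose 2 := by
  cases o with
  | some s => exact Nr_sum e he m p s
  | none =>
    rcases Nat.eq_zero_or_pos m with h0 | hm
    · subst h0
      show _ = 0
      apply Finset.sum_eq_zero
      intro ρ _
      unfold NO
      apply Finset.sum_eq_zero
      intro j _
      have := rkO_pos p none j
      omega
    · have h1 : ((∑ ρ ∈ Finset.range e, NO e m p none ρ : ℕ) : ℤ) =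
          ((∑ ρ ∈ Finset.range e, NO e m p (some true) ρ : ℕ) : ℤ) := by
        push_cast
        rw [Finset.sum_congr rfl fun ρ hρ => NO_none e he m hm p ρ (Finset.mem_range.1 hρ),
          Finset.sum_add_distrib, Finset.sum_sub_distrib, Ranks_ind_sum e he, Ranks_ind_sum e he]
        ring
      have h2 : ∑ ρ ∈ Finset.range e, NO e m p none ρ =
          ∑ ρ ∈ Finset.range e, NO e m p (some true) ρ := by exact_mod_cast h1
      rw [h2]
      exact Nr_sum e he m p true

/-- The ordinary pattern as a sum over a window of offsets. -/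
theorem NO_true_eq (e : ℕ) (he : 0 < e) (m : ℕ) (p : ℤ) (ρ : ℕ) :
    NO e m p (some true) ρ = ∑ j ∈ Finset.Icc (-(m : ℤ)) m,
      if (p + j) % e = ρ then ((m : ℤ) + 1 - rk 0 true j).toNat else 0 := by
  unfold NO
  rw [Finset.sum_filter]
  symm
  refine Finset.sum_nbij' (fun j => p + j) (fun j => j - p) ?_ ?_ ?_ ?_ ?_
  · intro j hj
    rw [Finset.mem_Icc] at hj ⊢
    constructor
    · show p - (m : ℤ) ≤ p + j
      omega
    · show p + j ≤ p + (m : ℤ)
      omega
  · intro j hj
    rw [Finset.mem_Icc] at hj ⊢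
    constructor
    · show -(m : ℤ) ≤ j - p
      omega
    · show j - p ≤ (m : ℤ)
      omega
  · intro j _
    show p + j - p = j
    ring
  · intro j _
    show p + (j - p) = j
    ring
  · intro j _
    show (if (p + j) % e = ρ then ((m : ℤ) + 1 - rk 0 true j).toNat else 0) =
      if (p + j) % e = ρ then ((m : ℤ) + 1 - rk p true (p + j)).toNat else 0
    have h1 := Ranks_rk_shift 0 p true j
    rw [zero_add, add_comm j p] at h1
    rw [h1]

/-- Every residue class and mode has a representative on an admissible circle. -/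
theorem exists_rep (e : ℕ) (he : 0 < e) (p : ℤ) (o : Option Bool) :
    ∃ t : ℤ, 0 ≤ circO e (p + e * t) o ∧ circO e (p + e * t) o < 4 * e := by
  have he' : (0 : ℤ) < e := by exact_mod_cast he
  have key : ∀ t : ℤ, circO e (p + e * t) o = circO e p o - 4 * e * t := by
    intro t
    cases o with
    | some s =>
      show circ e (p + e * t) s = circ e p s - 4 * e * t
      unfold circ
      cases s
      · rw [if_neg (by decide), if_neg (by decide)]
        ring
      · rw [if_pos rfl, if_pos rfl]
        ring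
    | none =>
      show 2 * ((e : ℤ) - 2 * (p + e * t) - 1) = 2 * (e - 2 * p - 1) - 4 * e * t
      ring
  refine ⟨circO e p o / (4 * e), ?_⟩
  rw [key]
  have h1 := Int.emod_add_mul_ediv (circO e p o) (4 * e)
  have h2 := Int.emod_nonneg (circO e p o) (b := 4 * (e : ℤ)) (by omega)
  have h3 := Int.emod_lt_of_pos (circO e p o) (b := 4 * (e : ℤ)) (by omega)
  constructor <;> linarith

end ShghT
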