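import Pool.Agent.ShghT.Lin
import Pool.Agent.ShghW.Ranks

/-!
# The conditions of one point on the leading polynomials

`G ρ j` is the coefficient of `X ^ j` of the leading polynomial of the column `ρ`.
-/

namespace ShghT

variable {k : Type*} [Field k]

/-- The `b`-th Hasse derivative (times `x ^ b`) of the leading polynomial of the class of `l` at
`x = ν ^ (l / e) t`. -/
noncomputable def Sl (e J : ℕ) (ν t : k) (G : ℕ → ℕ → k) (l : ℤ) (b : ℕ) : k :=
  ∑ j ∈ Finset.range (J + 1), (j.choose b : k) * (ν ^ (l / (e : ℤ)) * t) ^ j * G (l % e).toNat j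

/-- The conditions which a point puts on the leading polynomials. -/
def Rel (e J : ℕ) (γ ν : k) (G : ℕ → ℕ → k) (m : ℕ) (p : ℤ) (α t : k) : Option Bool → Prop
  | some s => ∀ (b : ℕ) (l : ℤ), rk p s l + b ≤ m → Sl e J ν t G l b = 0
  | none => (∀ (b : ℕ) (l : ℤ), 2 * max (p - l) (l - p - 1) + 2 + b ≤ m → Sl e J ν t G l b = 0) ∧
      ∀ (b r : ℕ), 2 * r + 1 + b = m →
        γ ^ ((p - r) / (e : ℤ)) * α ^ (p - r) * Sl e J ν t G (p - r) b +
          γ ^ ((p + 1 + r) / (e : ℤ)) * α ^ (p + 1 + r) * Sl e J ν t G (p + 1 + r) b = 0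

/-- The weight. -/
private def linAW (e : ℕ) (c l : ℤ) : ℤ := 2 * l * (l - e) + c * l

/-- The coefficients of a theta function along a circle. -/
private theorem linA_formula (e : ℕ) (he : 0 < e) (γ : k) (hγ : γ ≠ 0) (f : Lam k)
    (hf : IsTh (4 * e) e γ f) (c n l : ℤ) :
    cf f (n - c * l) l =
      γ ^ (l / e) * cf f (n - linAW e c l - 2 * (l % e) * (e - l % e)) (l % e) := by
  rw [IsTh.formula he hγ hf]
  congr 2
  have h := Qf_eq e he l
  have h' : ((4 * e : ℕ) : ℤ) * Qf e l = 2 * (l * (l - e) + (l % e) * (e - l % e)) := by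
    rw [← h]; push_cast; ring
  rw [h', linAW]
  ring

/-- `4 e Q + c l` is nonnegative. -/
private theorem linA_nonneg (e : ℕ) (he : 0 < e) (c l : ℤ) (hc0 : 0 ≤ c) (hc1 : c < 4 * e) :
    0 ≤ linAW e c l + 2 * (l % e) * (e - l % e) := by
  have he' : (0 : ℤ) < e := by exact_mod_cast he
  have h0 : 0 ≤ l % e := Int.emod_nonneg _ he'.ne'
  have h1 : l % e < e := Int.emod_lt_of_pos _ he'
  have h2 : l = l % e + e * (l / e) := (Int.emod_add_mul_ediv l e).symm
  generalize l % e = ρ at *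
  generalize l / e = s at *
  have h3 : linAW e c l + 2 * ρ * (e - ρ) = 2 * e * (s * (2 * ρ + e * (s - 1))) + c * l := by
    rw [linAW, h2]; ring
  rw [h3]
  rcases le_or_gt 0 s with hs | hs
  · have hl : 0 ≤ l := by rw [h2]; positivity
    have h4 : 0 ≤ s * (2 * ρ + e * (s - 1)) := by
      rcases hs.eq_or_lt with h | h
      · rw [← h]; simp
      · have : 0 ≤ s - 1 := by omega
        positivity
    positivity
  · have hl : l ≤ 0 := by rw [h2]; nlinarith
    have h4 : 0 ≤ (s + 1) * (2 * ρ + e * s) := by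
      rcases (show s + 1 ≤ 0 by omega).eq_or_lt with h | h
      · rw [h]; simp
      · refine mul_nonneg_of_nonpos_of_nonpos h.le ?_
        nlinarith
    have h5 : 4 * e * l ≤ c * l := mul_le_mul_of_nonpos_right hc1.le hl
    have h6 : 2 * e * (s * (2 * ρ + e * (s - 1))) + 4 * e * l =
        2 * e * ((s + 1) * (2 * ρ + e * s)) := by
      rw [h2]; ring
    have h7 : 0 ≤ 2 * (e : ℤ) * ((s + 1) * (2 * ρ + e * s)) := by positivity
    linarith

private theorem linA_vander (lo : ℤ) (b : ℕ) : ∃ d : ℕ → ℤ, ∀ x : ℤ,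
    ∑ a ∈ Finset.range (b + 1), d a * Ring.choose (lo + x) a = Ring.choose x b := by
  refine ⟨fun a => Ring.choose (-lo) (b - a), fun x => ?_⟩
  have h := Ring.add_choose_eq b (Commute.all (lo + x) (-lo))
  rw [show lo + x + -lo = x by ring] at h
  rw [h, Finset.Nat.sum_antidiagonal_eq_sum_range_succ
    (fun i j => Ring.choose (lo + x) i * Ring.choose (-lo) j)]
  exact Finset.sum_congr rfl fun a _ => mul_comm _ _

/-- A combination of the conditions at one level. -/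
private theorem linA_comb (J : ℕ) (H : ℕ → Lam k) (M b : ℕ) (c : ℤ) (α t : k)
    (n : ℕ) (hcond : ∀ a, a < M → ∑ j ∈ Finset.range (J + 1),
      t ^ j * (j.choose b : k) * (∑ᶠ l : ℤ, cf (H j) (n - c * l) l *
        α ^ l * ((Ring.choose l a : ℤ) : k)) = 0)
    (I : Finset ℤ) (hsupp : ∀ j ≤ J, ∀ l, l ∉ I → cf (H j) (n - c * l) l = 0) (d : ℕ → ℤ) :
    ∑ l ∈ I, ((∑ a ∈ Finset.range M, d a * Ring.choose l a : ℤ) : k) *
      ∑ j ∈ Finset.range (J + 1), t ^ j * (j.choose b : k) *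
        (cf (H j) (n - c * l) l * α ^ l) = 0 := by
  have hfin : ∀ j ≤ J, ∀ a, (∑ᶠ l : ℤ, cf (H j) (n - c * l) l *
      α ^ l * ((Ring.choose l a : ℤ) : k)) = ∑ l ∈ I,
      cf (H j) (n - c * l) l * α ^ l * ((Ring.choose l a : ℤ) : k) := by
    intro j hj a
    refine finsum_eq_sum_of_support_subset _ ?_
    intro l hl
    by_contra h
    refine hl ?_
    simp only
    rw [hsupp j hj l (by simpa using h), zero_mul, zero_mul]
  have h0 : ∑ a ∈ Finset.range M, ((d a : ℤ) : k) * ∑ j ∈ Finset.range (J + 1),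
      t ^ j * (j.choose b : k) * (∑ᶠ l : ℤ, cf (H j) (n - c * l) l *
      α ^ l * ((Ring.choose l a : ℤ) : k)) = 0 := by
    refine Finset.sum_eq_zero fun a ha => ?_
    rw [hcond a (Finset.mem_range.1 ha), mul_zero]
  rw [← h0]
  have h1 : ∀ a ∈ Finset.range M, ((d a : ℤ) : k) * ∑ j ∈ Finset.range (J + 1),
      t ^ j * (j.choose b : k) * (∑ᶠ l : ℤ, cf (H j) (n - c * l) l *
      α ^ l * ((Ring.choose l a : ℤ) : k)) =
      ∑ l ∈ I, ((d a * Ring.choose l a : ℤ) : k) * ∑ j ∈ Finset.range (J + 1),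
        t ^ j * (j.choose b : k) * (cf (H j) (n - c * l) l * α ^ l) := by
    intro a _
    simp_rw [Finset.mul_sum]
    rw [Finset.sum_comm]
    refine Finset.sum_congr rfl fun j hj => ?_
    rw [Finset.mem_range] at hj
    rw [hfin j (by omega) a, Finset.mul_sum, Finset.mul_sum]
    refine Finset.sum_congr rfl fun l _ => ?_
    push_cast
    ring
  rw [Finset.sum_congr rfl h1, Finset.sum_comm]
  refine Finset.sum_congr rfl fun l _ => ?_
  rw [← Finset.sum_mul]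
  push_cast
  rfl

/-- The sum over `j` at the level of `l`. -/
private theorem linA_level (e : ℕ) (he : 0 < e) (J : ℕ) (γ ν : k) (hγ : γ ≠ 0) (hν : ν ≠ 0)
    (H : ℕ → Lam k) (hH : ∀ j ≤ J, IsTh (4 * e) e (γ * ν ^ j) (H j)) (c n μ l : ℤ) (α t : k)
    (b : ℕ) (hn : n = μ + linAW e c l) :
    ∑ j ∈ Finset.range (J + 1), t ^ j * (j.choose b : k) *
        (cf (H j) (n - c * l) l * α ^ l) =
      γ ^ (l / (e : ℤ)) * α ^ l *
        Sl e J ν t (fun ρ j => cf (H j) (μ - 2 * ρ * (e - ρ)) ρ) l b := by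
  have he' : (0 : ℤ) < e := by exact_mod_cast he
  have hγj : ∀ j, γ * ν ^ j ≠ 0 := fun j => mul_ne_zero hγ (pow_ne_zero _ hν)
  have hρ : (((l % e).toNat : ℕ) : ℤ) = l % e := Int.toNat_of_nonneg (Int.emod_nonneg _ he'.ne')
  unfold Sl
  rw [Finset.mul_sum]
  refine Finset.sum_congr rfl fun j hj => ?_
  rw [Finset.mem_range] at hj
  rw [linA_formula e he _ (hγj j) _ (hH j (by omega)), hn]
  simp only [hρ]
  rw [show μ + linAW e c l - linAW e c l - 2 * (l % e) * (e - l % e) =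
    μ - 2 * (l % e) * (e - l % e) by ring]
  have hz : (ν ^ (l / (e : ℤ))) ^ j = (ν ^ j) ^ (l / (e : ℤ)) := by
    rw [← zpow_natCast (ν ^ (l / (e : ℤ))) j, ← zpow_natCast ν j, ← zpow_mul, ← zpow_mul,
      mul_comm]
  rw [mul_zpow, mul_pow, hz]
  ring

/-- At a negative level everything vanishes. -/
private theorem linA_negLevel (e : ℕ) (he : 0 < e) (J : ℕ) (ν : k)
    (H : ℕ → Lam k) (c μ l : ℤ) (t : k) (b : ℕ) (hc0 : 0 ≤ c) (hc1 : c < 4 * e)
    (hn : μ + linAW e c l < 0) :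
    Sl e J ν t (fun ρ j => cf (H j) (μ - 2 * ρ * (e - ρ)) ρ) l b = 0 := by
  have he' : (0 : ℤ) < e := by exact_mod_cast he
  have hρ : (((l % e).toNat : ℕ) : ℤ) = l % e := Int.toNat_of_nonneg (Int.emod_nonneg _ he'.ne')
  unfold Sl
  refine Finset.sum_eq_zero fun j _ => ?_
  simp only [hρ]
  rw [cf_neg, mul_zero]
  have := linA_nonneg e he c l hc0 hc1
  linarith

/-- Vanishing at levels above. -/
private theorem linA_supp (e : ℕ) (he : 0 < e) (J : ℕ) (γ ν : k) (hγ : γ ≠ 0) (hν : ν ≠ 0)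
    (H : ℕ → Lam k) (hH : ∀ j ≤ J, IsTh (4 * e) e (γ * ν ^ j) (H j)) (c n μ : ℤ)
    (hμ : ∀ j ≤ J, ∀ ρ : ℤ, 0 ≤ ρ → ρ < e → ∀ n, n + 2 * ρ * (e - ρ) < μ → cf (H j) n ρ = 0)
    (j : ℕ) (hj : j ≤ J) (l : ℤ) (hl : n < μ + linAW e c l) : cf (H j) (n - c * l) l = 0 := by
  have he' : (0 : ℤ) < e := by exact_mod_cast he
  have hγj : ∀ j, γ * ν ^ j ≠ 0 := fun j => mul_ne_zero hγ (pow_ne_zero _ hν)
  rw [linA_formula e he _ (hγj j) _ (hH j hj), hμ j hj (l % e) (Int.emod_nonneg _ he'.ne')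
    (Int.emod_lt_of_pos _ he'), mul_zero]
  linarith

/-- One condition on one column. -/
private theorem linA_one (e : ℕ) (he : 0 < e) (J : ℕ) (γ ν : k) (hγ : γ ≠ 0) (hν : ν ≠ 0)
    (H : ℕ → Lam k) (hH : ∀ j ≤ J, IsTh (4 * e) e (γ * ν ^ j) (H j)) (M b : ℕ) (c : ℤ)
    (α t : k) (hα : α ≠ 0) (hc0 : 0 ≤ c) (hc1 : c < 4 * e)
    (hcond : ∀ a, a < M → ∀ n : ℕ, ∑ j ∈ Finset.range (J + 1),
      t ^ j * (j.choose b : k) * (∑ᶠ l : ℤ, cf (H j) (n - c * l) l *
        α ^ l * ((Ring.choose l a : ℤ) : k)) = 0)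
    (μ : ℤ) (hμ : ∀ j ≤ J, ∀ ρ : ℤ, 0 ≤ ρ → ρ < e → ∀ n, n + 2 * ρ * (e - ρ) < μ →
      cf (H j) n ρ = 0)
    (l₀ lo : ℤ) (hlo1 : lo ≤ l₀) (hlo2 : l₀ < lo + M)
    (hout : ∀ l, ¬ (lo ≤ l ∧ l < lo + M) → linAW e c l₀ < linAW e c l) :
    Sl e J ν t (fun ρ j => cf (H j) (μ - 2 * ρ * (e - ρ)) ρ) l₀ b = 0 := by
  rcases lt_or_ge (μ + linAW e c l₀) 0 with hn | hn
  · exact linA_negLevel e he J ν H c μ l₀ t b hc0 hc1 hn
  obtain ⟨n, hn'⟩ := Int.eq_ofNat_of_zero_le hn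
  obtain ⟨d, hd⟩ := interp lo M (l₀ - lo).toNat (by omega)
  have hd' : ∀ l ∈ Finset.Ico lo (lo + M),
      ∑ a ∈ Finset.range M, d a * Ring.choose l a = if l = l₀ then 1 else 0 := by
    intro l hl
    rw [Finset.mem_Ico] at hl
    have h := hd (l - lo).toNat (by omega)
    rw [show lo + ((l - lo).toNat : ℤ) = l by omega] at h
    rw [h]
    congr 1
    rw [eq_iff_iff]
    constructor <;> intro h' <;> omega
  have hcomb := linA_comb J H M b c α t n (fun a ha => hcond a ha n) (Finset.Ico lo (lo + M))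
    (fun j hj l hl => linA_supp e he J γ ν hγ hν H hH c n μ hμ j hj l (by
      rw [Finset.mem_Ico] at hl
      have := hout l hl
      rw [← hn']
      linarith)) d
  rw [Finset.sum_eq_single_of_mem l₀ (Finset.mem_Ico.2 ⟨hlo1, hlo2⟩) (fun l hl hne => by
    rw [hd' l hl, if_neg hne]; simp), hd' l₀ (Finset.mem_Ico.2 ⟨hlo1, hlo2⟩), if_pos rfl,
    linA_level e he J γ ν hγ hν H hH c n μ l₀ α t b hn'.symm, Int.cast_one, one_mul] at hcomb
  exact (mul_eq_zero.mp hcomb).resolve_left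
    (mul_ne_zero (zpow_ne_zero _ hγ) (zpow_ne_zero _ hα))

/-- The condition shared by two columns. -/
private theorem linA_two (e : ℕ) (he : 0 < e) (J : ℕ) (γ ν : k) (hγ : γ ≠ 0) (hν : ν ≠ 0)
    (H : ℕ → Lam k) (hH : ∀ j ≤ J, IsTh (4 * e) e (γ * ν ^ j) (H j)) (r b : ℕ) (c : ℤ)
    (α t : k) (hc0 : 0 ≤ c) (hc1 : c < 4 * e)
    (hcond : ∀ a, a < 2 * r + 1 → ∀ n : ℕ, ∑ j ∈ Finset.range (J + 1),
      t ^ j * (j.choose b : k) * (∑ᶠ l : ℤ, cf (H j) (n - c * l) l *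
        α ^ l * ((Ring.choose l a : ℤ) : k)) = 0)
    (μ : ℤ) (hμ : ∀ j ≤ J, ∀ ρ : ℤ, 0 ≤ ρ → ρ < e → ∀ n, n + 2 * ρ * (e - ρ) < μ →
      cf (H j) n ρ = 0)
    (l₁ l₂ : ℤ) (hl : l₂ = l₁ + (2 * r + 1)) (hw : linAW e c l₂ = linAW e c l₁)
    (hout : ∀ l, ¬ (l₁ ≤ l ∧ l ≤ l₂) → linAW e c l₁ < linAW e c l) :
    γ ^ (l₁ / (e : ℤ)) * α ^ l₁ *
        Sl e J ν t (fun ρ j => cf (H j) (μ - 2 * ρ * (e - ρ)) ρ) l₁ b +
      γ ^ (l₂ / (e : ℤ)) * α ^ l₂ *
        Sl e J ν t (fun ρ j => cf (H j) (μ - 2 * ρ * (e - ρ)) ρ) l₂ b = 0 := by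
  rcases lt_or_ge (μ + linAW e c l₁) 0 with hn | hn
  · rw [linA_negLevel e he J ν H c μ l₁ t b hc0 hc1 hn,
      linA_negLevel e he J ν H c μ l₂ t b hc0 hc1 (by rw [hw]; exact hn)]
    ring
  obtain ⟨n, hn'⟩ := Int.eq_ofNat_of_zero_le hn
  obtain ⟨d, hd⟩ := linA_vander (l₁ + 1) (2 * r)
  have hd1 : ∀ l : ℤ, ∑ a ∈ Finset.range (2 * r + 1), d a * Ring.choose l a =
      Ring.choose (l - (l₁ + 1)) (2 * r) := by
    intro l
    have h := hd (l - (l₁ + 1))
    rwa [show l₁ + 1 + (l - (l₁ + 1)) = l by ring] at h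
  have hmid : ∀ l : ℤ, l₁ < l → l < l₂ →
      ∑ a ∈ Finset.range (2 * r + 1), d a * Ring.choose l a = 0 := by
    intro l h1 h2
    rw [hd1]
    obtain ⟨x, hx⟩ := Int.eq_ofNat_of_zero_le (show 0 ≤ l - (l₁ + 1) by omega)
    rw [hx, Ring.choose_natCast, Nat.choose_eq_zero_of_lt (by omega), Nat.cast_zero]
  have hend2 : ∑ a ∈ Finset.range (2 * r + 1), d a * Ring.choose l₂ a = 1 := by
    rw [hd1, show l₂ - (l₁ + 1) = ((2 * r : ℕ) : ℤ) by rw [hl]; push_cast; ring,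
      Ring.choose_natCast, Nat.choose_self, Nat.cast_one]
  have hend1 : ∑ a ∈ Finset.range (2 * r + 1), d a * Ring.choose l₁ a = 1 := by
    rw [hd1, show l₁ - (l₁ + 1) = -1 by ring, Ring.choose_neg', Ring.multichoose_one,
      Int.negOnePow_even _ ⟨(r : ℤ), by push_cast; ring⟩, one_smul]
  have hcomb := linA_comb J H (2 * r + 1) b c α t n (fun a ha => hcond a ha n)
    (Finset.Icc l₁ l₂)
    (fun j hj l hl' => linA_supp e he J γ ν hγ hν H hH c n μ hμ j hj l (by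
      rw [Finset.mem_Icc] at hl'
      have := hout l hl'
      rw [← hn']
      linarith)) d
  have hne : l₁ ≠ l₂ := by omega
  have hsub : ({l₁, l₂} : Finset ℤ) ⊆ Finset.Icc l₁ l₂ := by
    intro l hl'
    rw [Finset.mem_insert, Finset.mem_singleton] at hl'
    rw [Finset.mem_Icc]
    omega
  rw [← Finset.sum_subset hsub (fun l hl' hl'' => by
    rw [Finset.mem_Icc] at hl'
    rw [Finset.mem_insert, Finset.mem_singleton, not_or] at hl''
    rw [hmid l (by omega) (by omega), Int.cast_zero, zero_mul]), Finset.sum_pair hne,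
    hend1, hend2, Int.cast_one, one_mul, one_mul,
    linA_level e he J γ ν hγ hν H hH c n μ l₁ α t b hn'.symm,
    linA_level e he J γ ν hγ hν H hH c n μ l₂ α t b (by rw [hw]; exact hn'.symm)] at hcomb
  exact hcomb

/-- PROOF. For `o = some s` this is the private lemma `lin_key` of `ShghT/Lin.lean` (copy it; it only
needs `0 ≤ circ`). For `o = none`, `c = circO e p none = 2 (e - 2 p - 1)`, so that
`linW e c l = 2 l (l - e) + c l = 2 l (l - 2 p - 1)` is symmetric about `p + 1/2` and strictly increasing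
in the distance `d(l) = max (p - l) (l - p - 1)`, `d = 0` for `l = p, p + 1`. Fix `b < m`, `M = m - b`.
(i) `2 d(l₀) + 2 ≤ M`: exactly as in `lin_key`. At the level `n = μ + linW l₀` the terms with
`d(l) > d(l₀)` vanish (`linW l > linW l₀`, minimality of `μ`); the remaining `2 d(l₀) + 2 ≤ M`
consecutive integers can be separated by a combination of the conditions `a < M` (`interp`).
(ii) `M = 2 r + 1`: at the level `n = μ + linW (p - r) = μ + linW (p + 1 + r)` only the `M + 1` integers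
of `[p - r, p + 1 + r]` survive. Take the combination `∑_a c_a Ring.choose l a = Ring.choose (l - (p - r) - 1) (M - 1)`
(Vandermonde, `Ring.add_choose_eq`: `c_a = Ring.choose (-(p - r) - 1) (M - 1 - a)`); it is `0` for
`p - r < l < p + 1 + r`, `1` for `l = p + 1 + r`, and `Ring.choose (-1) (2 r) = 1` for `l = p - r`.
What remains is the asserted relation (use `lin_formula`: `cf (H j) (n - c l) l = (γ ν ^ j) ^ (l / e) *
cf (H j) (n - linW e c l - 2 (l % e) (e - l % e)) (l % e)`). If the level is negative then all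
coefficients `cf (H j) (μ - 2 (l % e) (e - l % e)) (l % e)` in question are zero (`lin_nonneg`, valid for
`0 ≤ c`). -/
theorem rel_of_cond (e : ℕ) (he : 0 < e) (J : ℕ) (γ ν : k) (hγ : γ ≠ 0) (hν : ν ≠ 0)
    (H : ℕ → Lam k) (hH : ∀ j ≤ J, IsTh (4 * e) e (γ * ν ^ j) (H j)) (m : ℕ) (p : ℤ)
    (o : Option Bool) (α t : k) (hα : α ≠ 0) (hcirc : 0 ≤ circO e p o ∧ circO e p o < 4 * e)
    (hcond : ∀ a b, a + b < m → ∀ n : ℕ, ∑ j ∈ Finset.range (J + 1),
      t ^ j * (j.choose b : k) * (∑ᶠ l : ℤ, cf (H j) (n - circO e p o * l) l *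
        α ^ l * ((Ring.choose l a : ℤ) : k)) = 0)
    (μ : ℤ) (hμ : ∀ j ≤ J, ∀ ρ : ℤ, 0 ≤ ρ → ρ < e → ∀ n, n + 2 * ρ * (e - ρ) < μ →
      cf (H j) n ρ = 0) :
    Rel e J γ ν (fun ρ j => cf (H j) (μ - 2 * ρ * (e - ρ)) ρ) m p α t o := by
  match o with
  | some s =>
    intro b l₀ hl₀
    have hrk := rk_pos p s l₀
    obtain ⟨M, hM⟩ : ∃ M : ℕ, m = M + b := ⟨m - b, by omega⟩
    have hM0 : 0 < M := by omega
    have hl₀M : rk p s l₀ ≤ M := by omega
    obtain ⟨lo, hlo⟩ := rk_le_iff p s M hM0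
    obtain ⟨hlo1, hlo2⟩ := (hlo l₀).mp hl₀M
    refine linA_one e he J γ ν hγ hν H hH M b (circ e p s) α t hα hcirc.1 hcirc.2
      (fun a ha n => hcond a b (by omega) n) μ hμ l₀ lo hlo1 hlo2 ?_
    intro l hl
    rw [← hlo l, not_le] at hl
    exact weight_lt e p s (lt_of_le_of_lt hl₀M hl)
  | none =>
    -- the weight is strictly increasing in the distance
    have hwt : ∀ l : ℤ, linAW e (2 * ((e : ℤ) - 2 * p - 1)) l =
        2 * ((l - p) * (l - p - 1)) - 2 * (p * (p + 1)) := by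
      intro l
      unfold linAW
      ring
    refine ⟨?_, ?_⟩
    · intro b l₀ hl₀
      obtain ⟨d, hd⟩ : ∃ d : ℕ, (d : ℤ) = max (p - l₀) (l₀ - p - 1) :=
        ⟨(max (p - l₀) (l₀ - p - 1)).toNat, Int.toNat_of_nonneg (by omega)⟩
      obtain ⟨M, hM⟩ : ∃ M : ℕ, m = M + b := ⟨m - b, by omega⟩
      refine linA_one e he J γ ν hγ hν H hH M b (2 * ((e : ℤ) - 2 * p - 1)) α t hα hcirc.1
        hcirc.2 (fun a ha n => hcond a b (by omega) n) μ hμ l₀ (p - d) (by omega) (by omega) ?_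
      intro l hl
      rw [hwt, hwt]
      have h1 : (l₀ - p) * (l₀ - p - 1) ≤ d * (d + 1) := by
        rcases le_or_gt l₀ p with h | h
        · have h2 : p - l₀ ≤ d := by omega
          nlinarith
        · have h2 : l₀ - p - 1 ≤ d := by omega
          nlinarith
      have h3 : d * (d + 1) < (l - p) * (l - p - 1) := by
        rcases le_or_gt l p with h | h
        · have h2 : (d : ℤ) + 1 ≤ p - l := by omega
          nlinarith
        · have h2 : (d : ℤ) + 1 ≤ l - p - 1 := by omega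
          nlinarith
      linarith
    · intro b r hr
      refine linA_two e he J γ ν hγ hν H hH r b (2 * ((e : ℤ) - 2 * p - 1)) α t hcirc.1
        hcirc.2 (fun a ha n => hcond a b (by omega) n) μ hμ (p - r) (p + 1 + r) (by ring) ?_ ?_
      · rw [hwt, hwt]
        ring
      · intro l hl
        rw [hwt, hwt]
        rcases le_or_gt l p with h | h
        · have h2 : (r : ℤ) + 1 ≤ p - l := by omega
          nlinarith
        · have h2 : (r : ℤ) + 1 ≤ l - p - 1 := by omega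
          nlinarith

/-- All weights of a theta function. PROOF. `IsTh.formula`, `Qf_eq`: the coefficient of `u ^ l` is
`γ ^ (l / e) π ^ (2 (l (l - e) + ρ (e - ρ)))` times the coefficient of `u ^ ρ`, `ρ = l % e`. -/
theorem weight_all (e : ℕ) (he : 0 < e) (γ : k) (hγ : γ ≠ 0) (f : Lam k)
    (hf : IsTh (4 * e) e γ f) (μ : ℤ)
    (hμ : ∀ ρ : ℤ, 0 ≤ ρ → ρ < e → ∀ n, n + 2 * ρ * (e - ρ) < μ → cf f n ρ = 0) (n l : ℤ)
    (h : n + 2 * l * (e - l) < μ) : cf f n l = 0 := by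
  have he' : (0 : ℤ) < e := by exact_mod_cast he
  rw [IsTh.formula he hγ hf, hμ (l % e) (Int.emod_nonneg _ he'.ne')
    (Int.emod_lt_of_pos _ he'), mul_zero]
  have h1 := Qf_eq e he l
  have h2 : ((4 * e : ℕ) : ℤ) * Qf e l = 2 * (l * (l - e) + (l % e) * (e - l % e)) := by
    rw [← h1]; push_cast; ring
  rw [h2]
  linarith

end ShghT
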