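import Pool.Agent.ShghT.Div

/-!
# The involution `u ↦ c / u`
-/

namespace ShghT

variable {k : Type*} [Field k]

/-- The substitution `u ↦ c / u` (the coefficients in `π` are kept). -/
noncomputable def inv (c : kˣ) : Lam k →+* Lam k :=
  PowerSeries.map ((LaurentPolynomial.eval₂ (LaurentPolynomial.C)
    (Units.mk (LaurentPolynomial.C (c : k) * LaurentPolynomial.T (-1))
      (LaurentPolynomial.C ((c⁻¹ : kˣ) : k) * LaurentPolynomial.T 1)
      (by
        rw [mul_mul_mul_comm, ← map_mul, ← LaurentPolynomial.T_add]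
        simp)
      (by
        rw [mul_mul_mul_comm, ← map_mul, ← LaurentPolynomial.T_add]
        simp)) : LaurentPolynomial k →+* LaurentPolynomial k))

private theorem Sym_zpow (c : kˣ) (U : (LaurentPolynomial k)ˣ)
    (hU : (U : LaurentPolynomial k) = LaurentPolynomial.C (c : k) * LaurentPolynomial.T (-1))
    (n : ℤ) : ((U ^ n : (LaurentPolynomial k)ˣ) : LaurentPolynomial k) =
      LaurentPolynomial.C ((c ^ n : kˣ) : k) * LaurentPolynomial.T (-n) := by
  have hT : IsUnit (LaurentPolynomial.T (-1) : LaurentPolynomial k) :=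
    LaurentPolynomial.isUnit_T (-1)
  obtain ⟨t, ht⟩ := hT
  have hUe : U = Units.map (LaurentPolynomial.C : k →+* LaurentPolynomial k).toMonoidHom c * t := by
    ext1
    rw [hU, Units.val_mul, ht]
    rfl
  have htn : ∀ n : ℤ, ((t ^ n : (LaurentPolynomial k)ˣ) : LaurentPolynomial k) =
      LaurentPolynomial.T (-n) := by
    intro n
    induction n using Int.induction_on with
    | zero => rw [zpow_zero, Units.val_one, neg_zero, LaurentPolynomial.T_zero]
    | succ n ih =>
      rw [zpow_add_one, Units.val_mul, ih, ht, ← LaurentPolynomial.T_add]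
      congr 1
      ring
    | pred n ih =>
      have h1 : (t ^ (-(n : ℤ) - 1) : (LaurentPolynomial k)ˣ) * t = t ^ (-(n : ℤ)) := by
        rw [← zpow_add_one]
        congr 1
        ring
      have h2 := congrArg (fun u : (LaurentPolynomial k)ˣ => (u : LaurentPolynomial k)) h1
      simp only [Units.val_mul] at h2
      rw [ih] at h2
      refine t.isUnit.mul_right_cancel ?_
      rw [h2, ht, ← LaurentPolynomial.T_add]
      congr 1
      ring
  rw [hUe, mul_zpow, Units.val_mul, htn, ← map_zpow]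
  rfl

theorem cf_inv (c : kˣ) (f : Lam k) (n j : ℤ) :
    cf (inv c f) n j = ((c ^ (-j) : kˣ) : k) * cf f n (-j) := by
  rcases lt_or_ge n 0 with hn | hn
  · rw [cf_neg _ hn, cf_neg _ hn, mul_zero]
  · obtain ⟨m, rfl⟩ := Int.eq_ofNat_of_zero_le hn
    rw [cf_nat, cf_nat, inv, PowerSeries.coeff_map]
    generalize PowerSeries.coeff m f = p
    induction p using LaurentPolynomial.induction_on' with
    | add p q hp hq =>
      rw [map_add, AddMonoidAlgebra.coeff_add, Finsupp.add_apply, hp, hq,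
        AddMonoidAlgebra.coeff_add, Finsupp.add_apply, mul_add]
    | C_mul_T i a =>
      rw [LaurentPolynomial.eval₂_C_mul_T, Sym_zpow c _ rfl, ← mul_assoc, ← map_mul,
        ← LaurentPolynomial.single_eq_C_mul_T, ← LaurentPolynomial.single_eq_C_mul_T,
        AddMonoidAlgebra.coeff_single, AddMonoidAlgebra.coeff_single, Finsupp.single_apply,
        Finsupp.single_apply]
      by_cases h : -i = j
      · subst h
        rw [if_pos rfl, if_pos (by ring), neg_neg, mul_comm]
      · rw [if_neg h, if_neg (fun h1 => h (by rw [h1]; ring)), mul_zero]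

/-- The power `u ^ i` as an element of `Lam k`. -/
noncomputable def upow (i : ℤ) : Lam k := PowerSeries.C (LaurentPolynomial.T i)

theorem cf_upow_mul (i : ℤ) (f : Lam k) (n j : ℤ) : cf (upow i * f) n j = cf f n (j - i) := by
  rcases lt_or_ge n 0 with hn | hn
  · rw [cf_neg _ hn, cf_neg _ hn]
  · obtain ⟨m, rfl⟩ := Int.eq_ofNat_of_zero_le hn
    rw [cf_nat, cf_nat, upow, PowerSeries.coeff_C_mul]
    have h : (LaurentPolynomial.T i : LaurentPolynomial k) = AddMonoidAlgebra.single i 1 := rfl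
    rw [h, AddMonoidAlgebra.coeff_single_mul_apply, one_mul]
    congr 1
    ring

private theorem Sym_upow_add (i j : ℤ) : (upow (i + j) : Lam k) = upow i * upow j := by
  rw [upow, upow, upow, ← map_mul, LaurentPolynomial.T_add]

private theorem Sym_upow_zero : (upow 0 : Lam k) = 1 := by
  rw [upow, LaurentPolynomial.T_zero, map_one]

private theorem Sym_inv_iota (c : kˣ) (b : PowerSeries k) : inv c (iota b) = iota b := by
  refine cf_ext fun n j => ?_
  rw [cf_inv, cf_iota, cf_iota]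
  by_cases h : j = 0
  · subst h
    simp
  · rw [if_neg (by omega), if_neg h, mul_zero]

private theorem Sym_const_mul (c : kˣ) (p q : ℕ) :
    (iota (PowerSeries.C ((c ^ (p + q) : kˣ) : k)) : Lam k) =
      iota (PowerSeries.C ((c ^ p : kˣ) : k)) * iota (PowerSeries.C ((c ^ q : kˣ) : k)) := by
  rw [← map_mul, ← map_mul, ← Units.val_mul, ← pow_add]

/-- `T` is symmetric of degree `2 p`. -/
def IsSym (c : kˣ) (p : ℕ) (T : Lam k) : Prop :=
  upow (2 * p) * inv c T = iota (PowerSeries.C ((c ^ p : kˣ) : k)) * T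

theorem IsSym.zero (c : kˣ) (p : ℕ) : IsSym c p 0 := by
  rw [IsSym, map_zero, mul_zero, mul_zero]

theorem IsSym.add {c : kˣ} {p : ℕ} {S T : Lam k} (hS : IsSym c p S) (hT : IsSym c p T) :
    IsSym c p (S + T) := by
  rw [IsSym] at *
  rw [map_add, mul_add, mul_add, hS, hT]

theorem IsSym.iota_mul {c : kˣ} {p : ℕ} {T : Lam k} (b : PowerSeries k) (hT : IsSym c p T) :
    IsSym c p (iota b * T) := by
  rw [IsSym] at *
  rw [map_mul, Sym_inv_iota, mul_left_comm, hT, mul_left_comm]

theorem IsSym.mul {c : kˣ} {p q : ℕ} {S T : Lam k} (hS : IsSym c p S) (hT : IsSym c q T) :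
    IsSym c (p + q) (S * T) := by
  rw [IsSym] at *
  rw [Sym_const_mul, map_mul, Nat.cast_add, mul_add, Sym_upow_add, mul_mul_mul_comm, hS, hT,
    mul_mul_mul_comm]

theorem IsSym.pow {c : kˣ} {p : ℕ} {S : Lam k} (hS : IsSym c p S) (n : ℕ) :
    IsSym c (n * p) (S ^ n) := by
  induction n with
  | zero =>
    rw [IsSym, zero_mul, pow_zero, pow_zero, map_one, Nat.cast_zero, mul_zero, Sym_upow_zero,
      Units.val_one, map_one, map_one]
  | succ n ih =>
    rw [pow_succ, Nat.succ_mul]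
    exact ih.mul hS

/-- Cancel constants. -/
theorem IsSym.of_iota_mul {c : kˣ} {p : ℕ} {T : Lam k} {b : PowerSeries k} (hb : b ≠ 0)
    (hT : IsSym c p (iota b * T)) : IsSym c p T := by
  rw [IsSym] at *
  have hb' : (iota b : Lam k) ≠ 0 := by
    intro h
    apply hb
    apply iota_injective
    rw [h, map_zero]
  rw [map_mul, Sym_inv_iota, mul_left_comm, mul_left_comm _ (iota b)] at hT
  exact mul_left_cancel₀ hb' hT

/-- Theta functions of degree two are symmetric. PROOF. `IsTh.formula` with `d = 2`: for `j` and `2 - j`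
the residues `ρ` and the exponents `Qf 2` agree (`Qf 2 j = (j (j - 2) + ρ (2 - ρ)) / 4`) and
`(2 - j) / 2 - j / 2 = 1 - j`, so `cf s n (2 - j) = γ ^ (1 - j) cf s n j`. -/
theorem isSym_of_isTh {N : ℕ} {γ : kˣ} {s : Lam k} (hs : IsTh N 2 (γ : k) s) :
    IsSym γ⁻¹ 1 s := by
  have key : ∀ n j : ℤ, cf s n (2 - j) = ((γ ^ (1 - j) : kˣ) : k) * cf s n j := by
    intro n j
    have hγ : (γ : k) ≠ 0 := Units.ne_zero γ
    rw [hs.formula two_pos hγ n (2 - j), hs.formula two_pos hγ n j]
    have h2 : ((2 : ℕ) : ℤ) = 2 := rfl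
    obtain ⟨t, ht⟩ : ∃ t, j = 2 * t ∨ j = 2 * t + 1 := ⟨j / 2, by omega⟩
    have hmod : (2 - j) % ((2 : ℕ) : ℤ) = j % ((2 : ℕ) : ℤ) := by rw [h2]; omega
    have hdiv : (2 - j) / ((2 : ℕ) : ℤ) = (1 - j) + j / ((2 : ℕ) : ℤ) := by rw [h2]; omega
    have hQ : Qf 2 (2 - j) = Qf 2 j := by
      rw [Qf, Qf, hmod, h2]
      rcases ht with rfl | rfl
      · have e1 : (2 * t : ℤ) % 2 = 0 := by omega
        have e2 : (2 - 2 * t : ℤ) / 2 = 1 - t := by omega
        have e3 : (2 * t : ℤ) / 2 = t := by omega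
        rw [e1, e2, e3]
        have e4 : (1 - t) * (1 - t - 1) = t * (t - 1) := by ring
        rw [e4]
        ring
      · have e1 : (2 * t + 1 : ℤ) % 2 = 1 := by omega
        have e2 : (2 - (2 * t + 1) : ℤ) / 2 = -t := by omega
        have e3 : (2 * t + 1 : ℤ) / 2 = t := by omega
        rw [e1, e2, e3]
        have e4 : (-t) * (-t - 1) / 2 = t * (t - 1) / 2 + t := by
          rw [← Int.add_mul_ediv_right _ _ (two_ne_zero)]
          congr 1
          ring
        rw [e4]
        ring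
    rw [hmod, hQ, hdiv, zpow_add₀ hγ, Units.val_zpow_eq_zpow_val, mul_assoc]
  rw [IsSym]
  refine cf_ext fun n j => ?_
  rw [cf_upow_mul, cf_inv, cf_iota_mul]
  have h1 : -(j - 2 * ((1 : ℕ) : ℤ)) = 2 - j := by push_cast; ring
  rw [h1, key]
  have h2 : ∑ᶠ i : ℤ, cR (PowerSeries.C (((γ⁻¹) ^ 1 : kˣ) : k)) i * cf s (n - i) j =
      (((γ⁻¹) ^ 1 : kˣ) : k) * cf s n j := by
    rw [finsum_eq_single _ 0]
    · rw [cR, if_neg (lt_irrefl 0), sub_zero]
      simp
    · intro i hi
      rcases lt_or_gt_of_ne hi with h | h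
      · rw [cR, if_pos h, zero_mul]
      · rw [cR, if_neg (by omega), PowerSeries.coeff_C, if_neg (by omega), zero_mul]
  rw [h2, ← mul_assoc, ← Units.val_mul]
  congr 2
  rw [inv_zpow', ← zpow_add, pow_one, ← zpow_neg_one]
  congr 1
  ring

private theorem Sym_toLaurent (Q : Polynomial k) (m : ℕ) :
    (Polynomial.toLaurent Q).coeff (m : ℤ) = Q.coeff m := by
  induction Q using Polynomial.induction_on' with
  | add p q hp hq =>
    rw [map_add, AddMonoidAlgebra.coeff_add, Finsupp.add_apply, hp, hq, Polynomial.coeff_add]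
  | monomial n c =>
    rw [Polynomial.toLaurent_C_mul_T, ← LaurentPolynomial.single_eq_C_mul_T,
      Polynomial.coeff_monomial, AddMonoidAlgebra.coeff_single, Finsupp.single_apply]
    by_cases h : n = m
    · rw [if_pos h, if_pos (by exact_mod_cast h)]
    · rw [if_neg h, if_neg (fun h1 => h (by exact_mod_cast h1))]

/-- A product formula: the weights of the first factor and the bounds of the second factor leave
only one term. -/
private theorem Sym_single {F G : Lam k} (e : ℕ) (he : 0 < e) (μ : ℤ)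
    (hF : ∀ n l : ℤ, n + 2 * l * (e - l) < μ → cf F n l = 0)
    (hG : ∀ n s : ℤ, 0 < s → n < 4 * e * s → cf G n (-s) = 0) (i : ℤ) (h0 : 0 ≤ i)
    (hi : 2 * i ≤ e) :
    cf (F * G) (μ - 2 * i * (e - i)) i = cf F (μ - 2 * i * (e - i)) i * cf G 0 0 := by
  have he' : (0 : ℤ) < e := by exact_mod_cast he
  rw [cf_mul, finsum_eq_single _ (μ - 2 * i * (e - i), i)]
  · show cf F (μ - 2 * i * (e - i)) i *
      cf G (μ - 2 * i * (e - i) - (μ - 2 * i * (e - i))) (i - i) = _
    rw [sub_self, sub_self]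
  · rintro ⟨n₁, j₁⟩ hne
    show cf F n₁ j₁ * cf G (μ - 2 * i * (e - i) - n₁) (i - j₁) = 0
    by_contra h
    have h1 := left_ne_zero_of_mul h
    have h2 := right_ne_zero_of_mul h
    have h3 : μ ≤ n₁ + 2 * j₁ * (e - j₁) := by
      by_contra h4
      exact h1 (hF _ _ (not_le.mp h4))
    have h4 : 0 ≤ μ - 2 * i * (e - i) - n₁ := by
      by_contra h5
      exact h2 (cf_neg _ (not_le.mp h5) _)
    obtain ⟨j, hj⟩ : ∃ j, j = i - j₁ := ⟨_, rfl⟩
    have hj₁ : j₁ = i - j := by rw [hj]; ring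
    subst hj₁
    have hij : i - (i - j) = j := by ring
    rw [hij] at h2
    have h5 : μ - 2 * i * (e - i) + 2 * j * (e - 2 * i + j) ≤ n₁ := by
      have : 2 * (i - j) * ((e : ℤ) - (i - j)) = 2 * i * (e - i) - 2 * j * (e - 2 * i + j) := by
        ring
      rw [this] at h3
      linarith
    rcases lt_trichotomy j 0 with hj0 | hj0 | hj0
    · obtain ⟨s, hs⟩ : ∃ s, s = -j := ⟨_, rfl⟩
      have hjs : j = -s := by rw [hs]; ring
      subst hjs
      have hs0 : 0 < s := by omega
      have h6 : 4 * e * s ≤ μ - 2 * i * (e - i) - n₁ := by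
        by_contra h7
        exact h2 (hG _ s hs0 (not_le.mp h7))
      have h7 : 2 * (-s) * ((e : ℤ) - 2 * i + -s) = -(2 * s * (e - 2 * i - s)) := by ring
      rw [h7] at h5
      have h8 : 0 < 2 * s * ((e : ℤ) + 2 * i + s) := by positivity
      have h9 : 4 * (e : ℤ) * s - 2 * s * (e - 2 * i - s) = 2 * s * (e + 2 * i + s) := by ring
      linarith
    · subst hj0
      apply hne
      have h6 : n₁ = μ - 2 * i * (e - i) := by
        simp only [mul_zero, zero_mul, add_zero] at h5
        omega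
      rw [h6, sub_zero]
    · have h6 : 0 < 2 * j * ((e : ℤ) - 2 * i + j) := by
        have : 0 < (e : ℤ) - 2 * i + j := by linarith
        positivity
      linarith

/-- The relation between the coefficients at `u ^ i` and `u ^ (e - i)` of `H = T * B`, `T` symmetric of degree `2 p`,
`B` a theta function of degree `κ = e - 2 p`, `B = b` modulo `π`.
PROOF. Put `F~ = upow d * inv c F` for `F = H, T, B` and `d = e, 2 p, κ`. Then `H~ = T~ B~ = c ^ p T B~`,
so `H~ B = c ^ p H B~`. Compare the coefficients of `π ^ n u ^ i`, `n = μ - 2 i (e - i)`. We have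
`cf H~ n j = c ^ (e - j) cf H n (e - j)`, so `H~` has all weights `≥ μ`, too. In `cf_mul` for `H~ B` the term
`(n₁, i - j), (n₂, j)` with `n₁ + n₂ = n`: for `j > 0` the weight bound gives
`n₁ ≥ μ - 2 (i - j) (e - i + j) > n` (the difference is `2 j (e - 2 i + j) > 0`), so `n₂ < 0`; for
`j = - s < 0` we have `n₂ ≥ 4 e s` (`hBann`) and `n₁ ≥ μ - 2 (i + s) (e - i - s)`, so
`n₁ + n₂ - n ≥ 4 e s - 2 s (e - 2 i - s) > 0`; for `j = 0` only `n₂ = 0` is possible. So the left hand side is
`cf H~ n i = c ^ (e - i) cf H n (e - i)`. For `H B~` the same with `cf B~ n j = c ^ (κ - j) cf B n (κ - j)`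
(for `j = - s < 0`: `cf B n₂ (κ + s) ≠ 0` implies `n₂ ≥ 4 e s` since `cf B n₂ (κ + s) =
β cf B (n₂ - 4 e s) s`) gives `c ^ κ cf B 0 κ cf H n i = c ^ κ b.coeff κ cf H n i`. -/
theorem sym_tie {H T B : Lam k} (hH : H = T * B) (e p κ : ℕ) (hpe : 2 * p + κ = e) (he : 0 < e)
    (c : kˣ) (hT : IsSym c p T) {β : k} (hβ : β ≠ 0) (hBth : IsTh (4 * e) κ β B) (hBann : B ∈ Bann k (4 * e))
    (b : Polynomial k) (hb : b.coeff 0 = 1)
    (hB : PowerSeries.constantCoeff B = Polynomial.toLaurent b) (μ : ℤ)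
    (hw : ∀ n l : ℤ, n + 2 * l * (e - l) < μ → cf H n l = 0) (i : ℤ) (h0 : 0 ≤ i)
    (hi : 2 * i ≤ e) :
    ((c ^ ((e : ℤ) - i) : kˣ) : k) * cf H (μ - 2 * i * (e - i)) (e - i) =
      ((c ^ ((p : ℤ) + κ) : kˣ) : k) * b.coeff κ * cf H (μ - 2 * i * (e - i)) i := by
  have hcf0 : ∀ m : ℕ, cf B 0 m = b.coeff m := by
    intro m
    rw [← constantCoeff_coeff, hB, Sym_toLaurent]
  have hB00 : cf B 0 0 = 1 := by
    have h1 := hcf0 0
    rw [Nat.cast_zero] at h1
    rw [h1, hb]
  have hrel : upow (e : ℤ) * inv c H * B =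
      iota (PowerSeries.C ((c ^ p : kˣ) : k)) * (H * (upow (κ : ℤ) * inv c B)) := by
    rw [IsSym] at hT
    have he2 : (e : ℤ) = 2 * (p : ℤ) + κ := by exact_mod_cast hpe.symm
    calc upow (e : ℤ) * inv c H * B
        = (upow (2 * (p : ℤ)) * inv c T) * (upow (κ : ℤ) * inv c B) * B := by
          rw [he2, Sym_upow_add, hH, map_mul]
          ring
      _ = iota (PowerSeries.C ((c ^ p : kˣ) : k)) * (H * (upow (κ : ℤ) * inv c B)) := by
          rw [hT, hH]
          ring
  have hcfT : ∀ (F : Lam k) (d : ℕ) (n j : ℤ), cf (upow (d : ℤ) * inv c F) n j =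
      ((c ^ ((d : ℤ) - j) : kˣ) : k) * cf F n (d - j) := by
    intro F d n j
    rw [cf_upow_mul, cf_inv, neg_sub]
  have hL : cf (upow (e : ℤ) * inv c H * B) (μ - 2 * i * (e - i)) i =
      ((c ^ ((e : ℤ) - i) : kˣ) : k) * cf H (μ - 2 * i * (e - i)) (e - i) := by
    rw [Sym_single e he μ (F := upow (e : ℤ) * inv c H) (G := B) ?_ ?_ i h0 hi, hcfT, hB00, mul_one]
    · intro n l hn
      rw [hcfT, hw n (e - l) (by
        have : n + 2 * ((e : ℤ) - l) * (e - (e - l)) = n + 2 * l * (e - l) := by ring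
        rw [this]
        exact hn), mul_zero]
    · intro n s hs hn
      by_contra h
      have h1 := mem_Bann.mp hBann n (-s) h
      push_cast at h1
      have h2 : n + 4 * (e : ℤ) * -s = n - 4 * e * s := by ring
      rw [h2] at h1
      linarith
  have hR : cf (H * (upow (κ : ℤ) * inv c B)) (μ - 2 * i * (e - i)) i =
      cf H (μ - 2 * i * (e - i)) i * (((c ^ (κ : ℤ) : kˣ) : k) * b.coeff κ) := by
    rw [Sym_single e he μ (F := H) (G := upow (κ : ℤ) * inv c B) hw ?_ i h0 hi, hcfT, sub_zero,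
      hcf0]
    intro n s hs hn
    rw [hcfT]
    have h1 := hBth (n - ((4 * e : ℕ) : ℤ) * s) s
    rw [sub_add_cancel, cf_neg B (n := n - ((4 * e : ℕ) : ℤ) * s) (by push_cast; linarith),
      mul_zero] at h1
    have h2 : (κ : ℤ) - -s = s + κ := by ring
    rw [h2, h1, mul_zero]
  have hconst : ∀ (a : k) (F : Lam k) (n j : ℤ), cf (iota (PowerSeries.C a) * F) n j =
      a * cf F n j := by
    intro a F n j
    rw [cf_iota_mul, finsum_eq_single _ 0]
    · rw [cR, if_neg (lt_irrefl 0), sub_zero]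
      simp
    · intro i hi
      rcases lt_or_gt_of_ne hi with h | h
      · rw [cR, if_pos h, zero_mul]
      · rw [cR, if_neg (by omega), PowerSeries.coeff_C, if_neg (by omega), zero_mul]
  rw [← hL, hrel, hconst, hR, zpow_add, Units.val_mul]
  simp only [zpow_natCast]
  ring

end ShghT
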