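import Pool.Agent.ShghW.CoreW
import Pool.Agent.ShghW.Gap
import Pool.Agent.ShghW.Sym
import Pool.Agent.ShghW.LinA

/-!
# Vanishing and ties of the leading coefficients at every level
-/

namespace ShghT

variable {k : Type*} [Field k]

/-- The fixed part modulo `π`. -/
noncomputable def bpol (a : Fin 9 → kˣ) (kap : ℕ) (κ : Fin 9 → ℕ) : Polynomial k :=
  (1 - Polynomial.C (((a12 a)⁻¹ : kˣ) : k) * Polynomial.X) ^ kap *
    ∏ l, (1 - Polynomial.C (((a l)⁻¹ : kˣ) : k) * Polynomial.X) ^ κ l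

private theorem lin_ne (c : kˣ) : (1 - Polynomial.C (c : k) * Polynomial.X : Polynomial k) ≠ 0 := by
  intro h
  have := congrArg (fun p : Polynomial k => p.coeff 0) h
  simp at this

private theorem lin_natDegree (c : kˣ) :
    (1 - Polynomial.C (c : k) * Polynomial.X : Polynomial k).natDegree = 1 := by
  have h : (1 - Polynomial.C (c : k) * Polynomial.X : Polynomial k) =
      Polynomial.C (-(c : k)) * Polynomial.X + Polynomial.C 1 := by
    rw [map_neg, map_one]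
    ring
  rw [h]
  exact Polynomial.natDegree_linear (neg_ne_zero.2 c.ne_zero)

theorem bpol_ne_zero (a : Fin 9 → kˣ) (kap : ℕ) (κ : Fin 9 → ℕ) : bpol a kap κ ≠ 0 :=
  mul_ne_zero (pow_ne_zero _ (lin_ne _)) (Finset.prod_ne_zero_iff.2 fun _ _ =>
    pow_ne_zero _ (lin_ne _))

theorem bpol_natDegree (a : Fin 9 → kˣ) (kap : ℕ) (κ : Fin 9 → ℕ) :
    (bpol a kap κ).natDegree = kap + ∑ l, κ l := by
  rw [bpol, Polynomial.natDegree_mul (pow_ne_zero _ (lin_ne _)) (Finset.prod_ne_zero_iff.2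
    fun _ _ => pow_ne_zero _ (lin_ne _)), Polynomial.natDegree_pow, lin_natDegree,
    Polynomial.natDegree_prod _ _ fun l _ => pow_ne_zero _ (lin_ne _), mul_one]
  congr 1
  exact Finset.sum_congr rfl fun l _ => by
    rw [Polynomial.natDegree_pow, lin_natDegree, mul_one]

theorem bpol_coeff_zero (a : Fin 9 → kˣ) (kap : ℕ) (κ : Fin 9 → ℕ) :
    (bpol a kap κ).coeff 0 = 1 := by
  rw [Polynomial.coeff_zero_eq_eval_zero, bpol, Polynomial.eval_mul, Polynomial.eval_pow,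
    Polynomial.eval_prod]
  simp

theorem constantCoeff_Bf {N : ℕ} (hN : 0 < N) (a : Fin 9 → kˣ) (kap : ℕ) (κ : Fin 9 → ℕ) :
    PowerSeries.constantCoeff (Bf N a kap κ) = Polynomial.toLaurent (bpol a kap κ) := by
  rw [Bf, bpol, map_mul, map_mul, map_pow, map_pow, map_prod, map_prod, th_const hN]
  have h : ∀ c : kˣ, Polynomial.toLaurent (1 - Polynomial.C (c : k) * Polynomial.X) =
      1 - LaurentPolynomial.C (c : k) * LaurentPolynomial.T 1 := by
    intro c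
    rw [map_sub, map_one, map_mul, Polynomial.toLaurent_C, Polynomial.toLaurent_X]
  rw [h]
  congr 1
  exact Finset.prod_congr rfl fun l _ => by rw [map_pow, map_pow, th_const hN, h]

theorem Bf_isTh {N : ℕ} (hN : 0 < N) (a : Fin 9 → kˣ) (kap : ℕ) (κ : Fin 9 → ℕ) :
    IsTh N (kap + ∑ l, κ l) ((-(((a12 a)⁻¹ : kˣ) : k)) ^ kap *
      ∏ l, (-(((a l)⁻¹ : kˣ) : k)) ^ κ l) (Bf N a kap κ) := by
  refine IsTh.mul ?_ ?_
  · have := (th_isTh hN (a12 a)).pow kap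
    rwa [mul_one] at this
  · refine IsTh.prod Finset.univ (fun l => th N (a l) ^ κ l) κ
      (fun l => (-(((a l)⁻¹ : kˣ) : k)) ^ κ l) fun l _ => ?_
    have := (th_isTh hN (a l)).pow (κ l)
    rwa [mul_one] at this

theorem Bf_type_ne (a : Fin 9 → kˣ) (kap : ℕ) (κ : Fin 9 → ℕ) :
    ((-(((a12 a)⁻¹ : kˣ) : k)) ^ kap * ∏ l, (-(((a l)⁻¹ : kˣ) : k)) ^ κ l) ≠ 0 :=
  mul_ne_zero (pow_ne_zero _ (neg_ne_zero.2 (Units.ne_zero _)))
    (Finset.prod_ne_zero_iff.2 fun l _ => pow_ne_zero _ (neg_ne_zero.2 (Units.ne_zero _)))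

theorem hm_two_le {e ρ : ℕ} : 2 * hm e ρ ≤ e := by
  rw [hm]
  omega

theorem hm_weight {e ρ : ℕ} (hρ : ρ ≤ e) :
    2 * (hm e ρ : ℤ) * (e - (hm e ρ : ℕ)) = 2 * (ρ : ℤ) * (e - ρ) := by
  rw [hm]
  rcases le_total ρ (e - ρ) with h | h
  · rw [min_eq_left h]
  · rw [min_eq_right h, Nat.cast_sub hρ]
    ring

/-- The leading coefficients of high level vanish. -/
theorem level_vanish {e : ℕ} (he : 0 < e) (a : Fin 9 → kˣ) (kap : ℕ) (κ : Fin 9 → ℕ)
    {H T : Lam k} (hH : H = T * Bf (4 * e) a kap κ) (μ : ℤ)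
    (hw : ∀ n l : ℤ, n + 2 * l * (e - l) < μ → cf H n l = 0) {ρ : ℕ} (hρ : ρ ≤ e)
    (hlt : e < kap + ∑ l, κ l + 2 * hm e ρ) : cf H (μ - 2 * ρ * (e - ρ)) ρ = 0 := by
  have hN0 : 0 < 4 * e := by omega
  have h2 := hm_two_le (e := e) (ρ := ρ)
  have h := gap_zero hH (bpol a kap κ) (bpol_coeff_zero a kap κ) (constantCoeff_Bf hN0 a kap κ) e μ
    hw (hm e ρ) (by positivity) (by exact_mod_cast h2) (by
      rw [bpol_natDegree]
      push_cast
      have : (e : ℤ) < kap + ∑ l, (κ l : ℤ) + 2 * (hm e ρ : ℤ) := by exact_mod_cast hlt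
      linarith) ρ
  rwa [hm_weight hρ] at h

/-- Ties given by the fixed part. -/
theorem level_tie {e : ℕ} (he : 0 < e) (a : Fin 9 → kˣ) (kap : ℕ) (κ : Fin 9 → ℕ) {ρ σ : ℕ}
    (hρσ : σ + ρ = e) (heq : kap + ∑ l, κ l + 2 * hm e ρ = e) :
    ∃ c : k, ∀ (H T : Lam k), H = T * Bf (4 * e) a kap κ → ∀ μ : ℤ,
      (∀ n l : ℤ, n + 2 * l * (e - l) < μ → cf H n l = 0) →
      cf H (μ - 2 * ρ * (e - ρ)) ρ = c * cf H (μ - 2 * σ * (e - σ)) σ := by
  have hN0 : 0 < 4 * e := by omega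
  have hlc : (bpol a kap κ).leadingCoeff ≠ 0 :=
    Polynomial.leadingCoeff_ne_zero.2 (bpol_ne_zero a kap κ)
  have hσ : (σ : ℤ) = e - ρ := by
    have : (σ : ℤ) + ρ = e := by exact_mod_cast hρσ
    linarith
  rcases le_total ρ σ with h | h
  · refine ⟨((bpol a kap κ).leadingCoeff)⁻¹, fun H T hH μ hw => ?_⟩
    have hhm : hm e ρ = ρ := by
      rw [hm]
      omega
    rw [hhm] at heq
    have h1 := gap_tie hH (bpol a kap κ) (bpol_coeff_zero a kap κ) (constantCoeff_Bf hN0 a kap κ)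
      e μ hw ρ (by positivity) (by omega) (by
        rw [bpol_natDegree]
        push_cast
        have : (kap : ℤ) + ∑ l, (κ l : ℤ) + 2 * (ρ : ℤ) = e := by exact_mod_cast heq
        linarith)
    have e1 : (μ - 2 * (σ : ℤ) * (e - σ)) = μ - 2 * ρ * (e - ρ) := by
      rw [hσ]
      ring
    rw [e1, hσ, h1, inv_mul_cancel_left₀ hlc]
  · refine ⟨(bpol a kap κ).leadingCoeff, fun H T hH μ hw => ?_⟩
    have hhm : hm e ρ = σ := by
      rw [hm]
      omega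
    rw [hhm] at heq
    have h1 := gap_tie hH (bpol a kap κ) (bpol_coeff_zero a kap κ) (constantCoeff_Bf hN0 a kap κ)
      e μ hw σ (by positivity) (by omega) (by
        rw [bpol_natDegree]
        push_cast
        have : (kap : ℤ) + ∑ l, (κ l : ℤ) + 2 * (σ : ℤ) = e := by exact_mod_cast heq
        linarith)
    have e1 : (μ - 2 * (ρ : ℤ) * (e - ρ)) = μ - 2 * σ * (e - σ) := by
      rw [hσ]
      ring
    have e2 : (ρ : ℤ) = e - σ := by
      rw [hσ]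
      ring
    rw [e1, e2, h1]

/-- Ties given by the symmetry of the pencil. -/
theorem level_sym {e : ℕ} (he : 0 < e) (a : Fin 9 → kˣ) (kap : ℕ) (κ : Fin 9 → ℕ) (p : ℕ)
    (hp : 2 * p + (kap + ∑ l, κ l) = e) (cc : kˣ) {ρ σ : ℕ} (hρσ : σ + ρ = e) :
    ∃ c : k, ∀ (H T : Lam k), H = T * Bf (4 * e) a kap κ → IsSym cc p T → ∀ μ : ℤ,
      (∀ n l : ℤ, n + 2 * l * (e - l) < μ → cf H n l = 0) →
      cf H (μ - 2 * ρ * (e - ρ)) ρ = c * cf H (μ - 2 * σ * (e - σ)) σ := by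
  have hN0 : 0 < 4 * e := by omega
  have hlc : (bpol a kap κ).coeff (kap + ∑ l, κ l) ≠ 0 := by
    rw [← bpol_natDegree a kap κ]
    exact Polynomial.leadingCoeff_ne_zero.2 (bpol_ne_zero a kap κ)
  have hσ : (σ : ℤ) = e - ρ := by
    have : (σ : ℤ) + ρ = e := by exact_mod_cast hρσ
    linarith
  have hB := Bf_isTh hN0 a kap κ
  have hβ := Bf_type_ne a kap κ
  rcases le_total ρ σ with h | h
  · refine ⟨(((cc ^ ((p : ℤ) + (kap + ∑ l, κ l : ℕ)) : kˣ) : k) *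
      (bpol a kap κ).coeff (kap + ∑ l, κ l))⁻¹ * ((cc ^ ((e : ℤ) - ρ) : kˣ) : k),
      fun H T hH hT μ hw => ?_⟩
    have h1 := sym_tie hH e p (kap + ∑ l, κ l) hp he cc hT hβ hB (hB.mem_Bann hβ) (bpol a kap κ)
      (bpol_coeff_zero a kap κ) (constantCoeff_Bf hN0 a kap κ) μ hw ρ (by positivity) (by omega)
    have e1 : (μ - 2 * (σ : ℤ) * (e - σ)) = μ - 2 * ρ * (e - ρ) := by
      rw [hσ]
      ring
    rw [e1, hσ, mul_assoc (_)⁻¹, h1, inv_mul_cancel_left₀ (mul_ne_zero (Units.ne_zero _) hlc)]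
  · refine ⟨((cc ^ ((e : ℤ) - σ) : kˣ) : k)⁻¹ * (((cc ^ ((p : ℤ) + (kap + ∑ l, κ l : ℕ)) : kˣ) : k) *
      (bpol a kap κ).coeff (kap + ∑ l, κ l)), fun H T hH hT μ hw => ?_⟩
    have h1 := sym_tie hH e p (kap + ∑ l, κ l) hp he cc hT hβ hB (hB.mem_Bann hβ) (bpol a kap κ)
      (bpol_coeff_zero a kap κ) (constantCoeff_Bf hN0 a kap κ) μ hw σ (by positivity) (by omega)
    have e1 : (μ - 2 * (ρ : ℤ) * (e - ρ)) = μ - 2 * σ * (e - σ) := by
      rw [hσ]
      ring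
    have e2 : (ρ : ℤ) = e - σ := by
      rw [hσ]
      ring
    rw [e1, mul_assoc (_)⁻¹, ← h1, inv_mul_cancel_left₀ (Units.ne_zero _), e2]

end ShghT
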