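import Mathlib

/-!
# One parameter families of linear conditions
-/

namespace ShghT

open Polynomial in
private def switchT (k : Type*) [Field k] : Subring k[X] where
  carrier := {p | p.coeff 1 = 0}
  mul_mem' := by
    intro a b ha hb
    show (a * b).coeff 1 = 0
    rw [Polynomial.mul_coeff_one, show a.coeff 1 = 0 from ha, show b.coeff 1 = 0 from hb]
    ring
  one_mem' := by
    show (1 : k[X]).coeff 1 = 0
    simp [Polynomial.coeff_one]
  add_mem' := by
    intro a b ha hb
    show (a + b).coeff 1 = 0
    rw [Polynomial.coeff_add, show a.coeff 1 = 0 from ha, show b.coeff 1 = 0 from hb, add_zero]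
  zero_mem' := by
    show (0 : k[X]).coeff 1 = 0
    simp
  neg_mem' := by
    intro a ha
    show (-a).coeff 1 = 0
    rw [Polynomial.coeff_neg, show a.coeff 1 = 0 from ha, neg_zero]

open Polynomial in
private theorem switch_det_coeff {k : Type*} [Field k] {d : ℕ} (M : Matrix (Fin d) (Fin d) k[X])
    (h : ∀ i j, (M i j).coeff 1 = 0) : M.det.coeff 1 = 0 := by
  have h1 : M.det ∈ switchT k := by
    rw [Matrix.det_apply']
    refine Subring.sum_mem _ fun σ _ => Subring.mul_mem _ ?_ ?_
    · exact intCast_mem _ _
    · exact Subring.prod_mem _ fun i _ => h _ _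
  exact h1

private theorem switch_rows {k : Type*} [Field k] {n d : ℕ} (N : Matrix (Fin n) (Fin d) k)
    (hN : ∀ c : Fin d → k, N.mulVec c = 0 → c = 0) :
    ∃ f : Fin d → Fin n, Function.Injective f ∧ (N.submatrix f id).det ≠ 0 := by
  classical
  obtain ⟨κ, a, ha, hsp, hli⟩ := exists_linearIndependent' k (fun r => N r)
  have hκ : Finite κ := Finite.of_injective a ha
  have := Fintype.ofFinite κ
  have hfin : Module.finrank k (Submodule.span k (Set.range (fun r => N r))) = N.rank := by
    rw [Matrix.rank_eq_finrank_span_row]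
    rfl
  have hrank : N.rank = d := by
    have h1 : LinearMap.ker N.mulVecLin = ⊥ := by
      rw [LinearMap.ker_eq_bot']
      intro c hc
      exact hN c hc
    have h2 := LinearMap.finrank_range_add_finrank_ker N.mulVecLin
    rw [h1, finrank_bot, add_zero] at h2
    simpa [Matrix.rank] using h2
  have hcard : Fintype.card κ = d := by
    rw [← hrank, ← hfin, ← hsp, finrank_span_eq_card hli]
  let e : Fin d ≃ κ := Fintype.equivOfCardEq (by rw [Fintype.card_fin, hcard])
  refine ⟨a ∘ e, ha.comp e.injective, ?_⟩
  have h2 : IsUnit (N.submatrix (a ∘ e) id) :=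
    Matrix.linearIndependent_rows_iff_isUnit.1 (hli.comp e e.injective)
  exact ((Matrix.isUnit_iff_isUnit_det _).1 h2).ne_zero

open Polynomial in
/-- `A 0 + α B 0, A j + α ^ (K j) B j` (`0 < j < n`, `K j ≥ 2`) have no common zero on `W` for almost
all `α` if `B 0, A j` (`0 < j < n`) have none.
PROOF. `d = dim W`, `L : W → kⁿ`, `v ↦ (B 0 v, A 1 v, ..., A (n-1) v)` is injective, so some `d` of its
coordinates, `f : Fin d → Fin n`, give a nonzero determinant (in a basis of `W`). Let `M(X)` be the
`d × d` matrix over `k[X]` with rows `A (f i) + X ^ (K (f i)) B (f i)` (`f i ≠ 0`), `A 0 + X B 0`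
(`f i = 0`). A bad `α` is a root of `det M`. `det M ≠ 0`: if `0 ∉ range f` then `det M(0)` is the minor.
If `f i₀ = 0` then `det M = det M_A + X det M_B` (multilinear in the row `i₀`), all entries of `M_A` have
no coefficient at `X ^ 1`, hence neither has `det M_A`, and `det M_B (0)` is the minor. -/
theorem switch {k V : Type*} [Field k] [AddCommGroup V] [Module k V] [FiniteDimensional k V]
    (W : Submodule k V) (n : ℕ) (hn : 0 < n) (A B : ℕ → (V →ₗ[k] k)) (K : ℕ → ℕ)
    (hK : ∀ j, 0 < j → 2 ≤ K j)
    (h : ∀ v ∈ W, B 0 v = 0 → (∀ j, 0 < j → j < n → A j v = 0) → v = 0) :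
    {α : k | ∃ v ∈ W, v ≠ 0 ∧ A 0 v + α * B 0 v = 0 ∧
      ∀ j, 0 < j → j < n → A j v + α ^ K j * B j v = 0}.Finite := by
  classical
  obtain ⟨d, ⟨b⟩⟩ : ∃ d : ℕ, Nonempty (Module.Basis (Fin d) k W) :=
    ⟨Module.finrank k W, ⟨Module.finBasis k W⟩⟩
  have hsum : ∀ (ℓ : V →ₗ[k] k) (c : Fin d → k),
      ℓ ((∑ j, c j • b j : W) : V) = ∑ j, ℓ (b j : V) * c j := by
    intro ℓ c
    rw [Submodule.coe_sum, map_sum]
    refine Finset.sum_congr rfl fun j _ => ?_
    rw [Submodule.coe_smul, map_smul, smul_eq_mul, mul_comm]
  set N : Matrix (Fin n) (Fin d) k :=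
    fun i j => if (i : ℕ) = 0 then B 0 (b j : V) else A i (b j : V) with hNdef
  obtain ⟨f, hf, hdet⟩ := switch_rows N (by
    intro c hc
    have h0 : ((∑ j, c j • b j : W) : V) = 0 := by
      apply h _ (Submodule.coe_mem _)
      · rw [hsum]
        have := congrFun hc ⟨0, hn⟩
        simpa [Matrix.mulVec, dotProduct, hNdef] using this
      · intro j hj hjn
        rw [hsum]
        have := congrFun hc ⟨j, hjn⟩
        simpa [Matrix.mulVec, dotProduct, hNdef, hj.ne'] using this
    have h1 : (∑ j, c j • b j : W) = 0 := Subtype.ext h0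
    have h2 := (Fintype.linearIndependent_iff.1 b.linearIndependent) c h1
    exact funext h2)
  have hN0 : ∀ i j, (i : Fin n).val = 0 → N i j = B 0 (b j : V) := fun i j hi => if_pos hi
  have hN1 : ∀ i j, (i : Fin n).val ≠ 0 → N i j = A i (b j : V) := fun i j hi => if_neg hi
  clear_value N
  -- the matrix over the polynomial ring
  obtain ⟨M, hM0, hM1⟩ : ∃ M : Matrix (Fin d) (Fin d) k[X],
      (∀ i j, (f i : ℕ) = 0 → M i j = C (A 0 (b j : V)) + X * C (B 0 (b j : V))) ∧
      (∀ i j, (f i : ℕ) ≠ 0 → M i j = C (A (f i) (b j : V)) + X ^ K (f i) *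
        C (B (f i) (b j : V))) :=
    ⟨Matrix.of fun i j => if (f i : ℕ) = 0 then C (A 0 (b j : V)) + X * C (B 0 (b j : V))
      else C (A (f i) (b j : V)) + X ^ K (f i) * C (B (f i) (b j : V)),
      fun i j h => by rw [Matrix.of_apply, if_pos h], fun i j h => by
        rw [Matrix.of_apply, if_neg h]⟩
  have hne : M.det ≠ 0 := by
    by_cases h0 : ∃ i₀, (f i₀ : ℕ) = 0
    · obtain ⟨i₀, hi₀⟩ := h0
      have hother : ∀ i, i ≠ i₀ → (f i : ℕ) ≠ 0 := by
        intro i hi h1
        apply hi
        apply hf
        exact Fin.ext (h1.trans hi₀.symm)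
      have hrow : M = M.updateRow i₀ ((fun j => C (A 0 (b j : V))) +
          (X : k[X]) • (fun j => C (B 0 (b j : V)))) := by
        apply Matrix.ext
        intro i j
        by_cases hi : i = i₀
        · subst hi
          rw [Matrix.updateRow_self, hM0 i j hi₀]
          simp
        · rw [Matrix.updateRow_ne hi]
      have hd : M.det = (M.updateRow i₀ (fun j => C (A 0 (b j : V)))).det +
          X * (M.updateRow i₀ (fun j => C (B 0 (b j : V)))).det := by
        conv_lhs => rw [hrow]
        rw [Matrix.det_updateRow_add, Matrix.det_updateRow_smul]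
      have hcoef : M.det.coeff 1 ≠ 0 := by
        have hA1 : (M.updateRow i₀ (fun j => C (A 0 (b j : V)))).det.coeff 1 = 0 := by
          apply switch_det_coeff
          intro i j
          by_cases hi : i = i₀
          · subst hi
            rw [Matrix.updateRow_self, Polynomial.coeff_C, if_neg one_ne_zero]
          · rw [Matrix.updateRow_ne hi]
            have h1 := hother i hi
            have h2 := hK (f i) (Nat.pos_of_ne_zero h1)
            rw [hM1 i j h1, Polynomial.coeff_add, Polynomial.coeff_X_pow_mul',
              if_neg (by omega), add_zero, Polynomial.coeff_C, if_neg one_ne_zero]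
        rw [hd, Polynomial.coeff_add, hA1, zero_add, show (1 : ℕ) = 0 + 1 from rfl,
          Polynomial.coeff_X_mul, Polynomial.coeff_zero_eq_eval_zero,
          ← Polynomial.coe_evalRingHom, RingHom.map_det]
        have hmat : (evalRingHom (0 : k)).mapMatrix
            (M.updateRow i₀ (fun j => C (B 0 (b j : V)))) = N.submatrix f id := by
          apply Matrix.ext
          intro i j
          rw [RingHom.mapMatrix_apply, Matrix.map_apply, Matrix.submatrix_apply]
          by_cases hi : i = i₀
          · subst hi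
            rw [Matrix.updateRow_self, hN0 _ _ hi₀]
            simp
          · have h1 := hother i hi
            have h2 : K (f i) ≠ 0 := by
              have := hK (f i) (Nat.pos_of_ne_zero h1)
              omega
            rw [Matrix.updateRow_ne hi, hN1 _ _ h1, hM1 i j h1]
            simp [h2]
        rw [hmat]
        exact hdet
      intro hz
      rw [hz] at hcoef
      simp at hcoef
    · intro hz
      apply hdet
      have h1 : (evalRingHom (0 : k)) M.det = 0 := by rw [hz, map_zero]
      rw [RingHom.map_det] at h1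
      rw [← h1]
      congr 1
      apply Matrix.ext
      intro i j
      have h2 : (f i : ℕ) ≠ 0 := fun h2 => h0 ⟨i, h2⟩
      have h3 : K (f i) ≠ 0 := by
        have := hK (f i) (Nat.pos_of_ne_zero h2)
        omega
      rw [RingHom.mapMatrix_apply, Matrix.map_apply, Matrix.submatrix_apply, hN1 _ _ h2,
        hM1 i j h2]
      simp [h3]
  refine (M.det.roots.toFinset.finite_toSet).subset ?_
  rintro α ⟨v, hvW, hv0, hA0, hAj⟩
  have hroot : M.det.IsRoot α := by
    obtain ⟨c, hc⟩ : ∃ c : Fin d → k, (∑ j, c j • b j : W) = ⟨v, hvW⟩ :=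
      ⟨fun j => b.repr ⟨v, hvW⟩ j, b.sum_repr _⟩
    have hcv : ∀ ℓ : V →ₗ[k] k, ℓ v = ∑ j, ℓ (b j : V) * c j := by
      intro ℓ
      rw [← hsum ℓ c, hc]
    have hc0 : c ≠ 0 := by
      intro h3
      apply hv0
      have h4 : (⟨v, hvW⟩ : W) = 0 := by
        rw [← hc, h3]
        simp
      exact congrArg Subtype.val h4
    have h1 : ((evalRingHom α).mapMatrix M).mulVec c = 0 := by
      funext i
      by_cases h2 : (f i : ℕ) = 0
      · have e1 : ((evalRingHom α).mapMatrix M).mulVec c i = A 0 v + α * B 0 v := by
          rw [hcv, hcv, Finset.mul_sum, ← Finset.sum_add_distrib]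
          simp only [Matrix.mulVec, dotProduct, RingHom.mapMatrix_apply, Matrix.map_apply]
          refine Finset.sum_congr rfl fun j _ => ?_
          rw [hM0 i j h2]
          simp
          ring
        rw [e1, hA0]
        rfl
      · have e1 : ((evalRingHom α).mapMatrix M).mulVec c i =
            A (f i) v + α ^ K (f i) * B (f i) v := by
          rw [hcv, hcv, Finset.mul_sum, ← Finset.sum_add_distrib]
          simp only [Matrix.mulVec, dotProduct, RingHom.mapMatrix_apply, Matrix.map_apply]
          refine Finset.sum_congr rfl fun j _ => ?_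
          rw [hM1 i j h2]
          simp
          ring
        rw [e1, hAj _ (Nat.pos_of_ne_zero h2) (f i).2]
        rfl
    have h2 : ((evalRingHom α).mapMatrix M).det = 0 := by
      rw [← Matrix.exists_mulVec_eq_zero_iff]
      exact ⟨c, hc0, h1⟩
    have h3 : evalRingHom α M.det = 0 := by
      rw [RingHom.map_det]
      exact h2
    exact h3
  simp only [Finset.mem_coe, Multiset.mem_toFinset]
  exact (Polynomial.mem_roots hne).2 hroot

end ShghT
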