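import Pool.Agent.ShghW.LinA
import Pool.Agent.ShghW.Switch

/-!
# The system for the leading polynomials has the zero solution only
-/

namespace ShghT

variable {k : Type*} [Field k]

private theorem linB_Sl_add (e J : ℕ) (ν t : k) (G G' : ℕ → ℕ → k) (l : ℤ) (b : ℕ) :
    Sl e J ν t (fun ρ j => G ρ j + G' ρ j) l b = Sl e J ν t G l b + Sl e J ν t G' l b := by
  unfold Sl
  rw [← Finset.sum_add_distrib]
  exact Finset.sum_congr rfl fun j _ => by ring

private theorem linB_Sl_smul (e J : ℕ) (ν t : k) (c : k) (G : ℕ → ℕ → k) (l : ℤ) (b : ℕ) :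
    Sl e J ν t (fun ρ j => c * G ρ j) l b = c * Sl e J ν t G l b := by
  unfold Sl
  rw [Finset.mul_sum]
  exact Finset.sum_congr rfl fun j _ => by ring

private theorem linB_Sl_congr {e J : ℕ} (he : 0 < e) (ν t : k) {G G' : ℕ → ℕ → k}
    (h : ∀ ρ < e, ∀ j ≤ J, G ρ j = G' ρ j) (l : ℤ) (b : ℕ) :
    Sl e J ν t G l b = Sl e J ν t G' l b := by
  unfold Sl
  refine Finset.sum_congr rfl fun j hj => ?_
  have he' : (0 : ℤ) < e := by exact_mod_cast he
  have h1 := Int.emod_nonneg l he'.ne'
  have h2 := Int.emod_lt_of_pos l he'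
  rw [h (l % e).toNat (by omega) j (by rw [Finset.mem_range] at hj; omega)]

private theorem linB_Rel_add {e J : ℕ} {γ ν : k} {G G' : ℕ → ℕ → k} {m : ℕ} {p : ℤ} {α t : k}
    {o : Option Bool} (h : Rel e J γ ν G m p α t o) (h' : Rel e J γ ν G' m p α t o) :
    Rel e J γ ν (fun ρ j => G ρ j + G' ρ j) m p α t o := by
  cases o with
  | some s =>
    intro b l hb
    rw [linB_Sl_add, h b l hb, h' b l hb, add_zero]
  | none =>
    refine ⟨fun b l hb => by rw [linB_Sl_add, h.1 b l hb, h'.1 b l hb, add_zero],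
      fun b r hb => ?_⟩
    rw [linB_Sl_add, linB_Sl_add]
    linear_combination h.2 b r hb + h'.2 b r hb

private theorem linB_Rel_smul {e J : ℕ} {γ ν : k} (c : k) {G : ℕ → ℕ → k} {m : ℕ} {p : ℤ}
    {α t : k} {o : Option Bool} (h : Rel e J γ ν G m p α t o) :
    Rel e J γ ν (fun ρ j => c * G ρ j) m p α t o := by
  cases o with
  | some s =>
    intro b l hb
    rw [linB_Sl_smul, h b l hb, mul_zero]
  | none =>
    refine ⟨fun b l hb => by rw [linB_Sl_smul, h.1 b l hb, mul_zero], fun b r hb => ?_⟩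
    rw [linB_Sl_smul, linB_Sl_smul]
    linear_combination c * h.2 b r hb

private theorem linB_Rel_congr {e J : ℕ} (he : 0 < e) {γ ν : k} {G G' : ℕ → ℕ → k}
    (hG : ∀ ρ < e, ∀ j ≤ J, G ρ j = G' ρ j) {m : ℕ} {p : ℤ} {α t : k}
    {o : Option Bool} (h : Rel e J γ ν G m p α t o) : Rel e J γ ν G' m p α t o := by
  cases o with
  | some s =>
    intro b l hb
    rw [← linB_Sl_congr he ν t hG]
    exact h b l hb
  | none =>
    refine ⟨fun b l hb => ?_, fun b r hb => ?_⟩
    · rw [← linB_Sl_congr he ν t hG]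
      exact h.1 b l hb
    · rw [← linB_Sl_congr he ν t hG, ← linB_Sl_congr he ν t hG]
      exact h.2 b r hb

/-- A polynomial with too many conditions vanishes. -/
private theorem linB_poly (e : ℕ) (J : ℕ) (ν : k) (hν : ν ≠ 0) {r : ℕ} (m : Fin r → ℕ)
    (p : Fin r → ℤ) (o : Fin r → Option Bool) (t : Fin r → k) (ht : ∀ i, t i ≠ 0)
    (hdist : ∀ i i' (l l' : ℤ), l ∈ Finset.Icc (p i - (m i : ℤ)) (p i + m i) →
      l' ∈ Finset.Icc (p i' - (m i' : ℤ)) (p i' + m i') →
      ν ^ (l / e) * t i = ν ^ (l' / e) * t i' → i = i' ∧ l / e = l' / e)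
    (G : ℕ → ℕ → k) (hG : ∀ i (b : ℕ) (l : ℤ), rkO (p i) (o i) l + b ≤ m i →
      Sl e J ν (t i) G l b = 0) (ρ : ℕ)
    (hdeg : ∀ j ≤ J, (∑ i, NO e (m i) (p i) (o i) ρ) ≤ j → G ρ j = 0) :
    ∀ j ≤ J, G ρ j = 0 := by
  let P : Polynomial k := ∑ j ∈ Finset.range (J + 1), Polynomial.monomial j (G ρ j)
  have hPc : ∀ j, P.coeff j = if j < J + 1 then G ρ j else 0 := by
    intro j
    simp only [P, Polynomial.finsetSum_coeff, Polynomial.coeff_monomial]
    rw [Finset.sum_ite_eq']
    simp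
  have hP : P = 0 := by
    refine hermite (Finset.univ.sigma fun i : Fin r =>
      (Finset.Icc (p i - (m i : ℤ)) (p i + m i)).filter (fun j : ℤ => j % e = ρ))
      (fun x => ν ^ (x.2 / (e : ℤ)) * t x.1) ?_
      (fun x => ((m x.1 : ℤ) + 1 - rkO (p x.1) (o x.1) x.2).toNat) P ?_ ?_
    · rintro ⟨i, l⟩ hl ⟨i', l'⟩ hl' heq
      simp only [Finset.coe_sigma, Set.mem_sigma_iff, Finset.mem_coe, Finset.mem_filter] at hl hl'
      obtain ⟨h1, h2⟩ := hdist i i' l l' hl.2.1 hl'.2.1 heq
      subst h1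
      have h3 : l = l' := by
        rw [← Int.emod_add_mul_ediv l e, ← Int.emod_add_mul_ediv l' e, h2, hl.2.2, hl'.2.2]
      rw [h3]
    · rintro ⟨i, l⟩ hl b hb
      simp only [Finset.mem_sigma, Finset.mem_filter] at hl
      simp only at hb ⊢
      have hx : ν ^ (l / (e : ℤ)) * t i ≠ 0 := mul_ne_zero (zpow_ne_zero _ hν) (ht i)
      have hkey := hG i b l (by omega)
      unfold Sl at hkey
      rw [hl.2.2, Int.toNat_natCast] at hkey
      refine (mul_eq_zero.mp ?_).resolve_left (pow_ne_zero b hx)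
      rw [← hkey]
      simp only [P, map_sum, Polynomial.hasseDeriv_monomial, Polynomial.eval_finsetSum,
        Polynomial.eval_monomial, Finset.mul_sum]
      refine Finset.sum_congr rfl fun j hj => ?_
      rcases lt_or_ge j b with hjb | hjb
      · rw [Nat.choose_eq_zero_of_lt hjb]
        simp
      · rw [show (ν ^ (l / (e : ℤ)) * t i) ^ j = (ν ^ (l / (e : ℤ)) * t i) ^ b *
          (ν ^ (l / (e : ℤ)) * t i) ^ (j - b) by rw [← pow_add]; congr 1; omega]
        ring
    · intro j hj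
      rw [hPc]
      split_ifs with hjJ
      · refine hdeg j (by omega) ?_
        rw [Finset.sum_sigma] at hj
        exact hj
      · rfl
  intro j hj
  have h := hPc j
  rw [hP, Polynomial.coeff_zero, if_pos (by omega)] at h
  exact h.symm

private def linBext {e J : ℕ} (v : Fin e → Fin (J + 1) → k) (ρ j : ℕ) : k :=
  if h : ρ < e ∧ j < J + 1 then v ⟨ρ, h.1⟩ ⟨j, h.2⟩ else 0

private theorem linBext_add {e J : ℕ} (v w : Fin e → Fin (J + 1) → k) :
    linBext (v + w) = fun ρ j => linBext v ρ j + linBext w ρ j := by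
  funext ρ j
  unfold linBext
  split_ifs
  · rfl
  · rw [add_zero]

private theorem linBext_smul {e J : ℕ} (c : k) (v : Fin e → Fin (J + 1) → k) :
    linBext (c • v) = fun ρ j => c * linBext v ρ j := by
  funext ρ j
  unfold linBext
  split_ifs
  · rfl
  · rw [mul_zero]

private theorem linBext_restrict {e J : ℕ} (G : ℕ → ℕ → k) : ∀ ρ < e, ∀ j ≤ J,
    linBext (fun (ρ : Fin e) (j : Fin (J + 1)) => G ρ j) ρ j = G ρ j := by
  intro ρ hρ j hj
  unfold linBext
  rw [dif_pos ⟨hρ, by omega⟩]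

private noncomputable def linBSl (e J : ℕ) (ν t : k) (l : ℤ) (b : ℕ) :
    (Fin e → Fin (J + 1) → k) →ₗ[k] k where
  toFun v := Sl e J ν t (linBext v) l b
  map_add' v w := by rw [linBext_add, linB_Sl_add]
  map_smul' c v := by rw [linBext_smul, linB_Sl_smul]; rfl

/-- The ranks of the exchanged pattern. -/
private theorem linB_rk (p l : ℤ) (b m : ℕ) (h : rkO p none l + b ≤ m) :
    2 * max (p - l) (l - p - 1) + 2 + b ≤ m ∨ (l = p + 1 ∧ 1 + b = m) ∨
      ∃ j : ℕ, 0 < j ∧ l = p - j ∧ 2 * j + 1 + b = m := by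
  by_cases h1 : 2 * max (p - l) (l - p - 1) + 2 + b ≤ m
  · left
    exact h1
  right
  change rkB p l + b ≤ m at h
  unfold rkB at h
  by_cases h2 : l = p
  · exfalso
    subst h2
    rw [if_pos rfl] at h
    apply h1
    rw [max_eq_left (by omega)]
    omega
  rw [if_neg h2] at h
  by_cases h3 : l = p + 1
  · left
    subst h3
    rw [if_pos rfl] at h
    rw [max_eq_right (by omega)] at h1
    exact ⟨rfl, by omega⟩
  rw [if_neg h3] at h
  unfold rk at h
  rw [if_pos rfl] at h
  right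
  rcases lt_or_ge l p with h4 | h4
  · rw [max_eq_right (by omega)] at h
    rw [max_eq_left (by omega)] at h1
    exact ⟨(p - l).toNat, by omega, by omega, by omega⟩
  · exfalso
    rw [max_eq_left (by omega)] at h
    rw [max_eq_right (by omega)] at h1
    omega

/-- The choice of the parameters `α i`.
PROOF. Work in `V = Fin e → Fin (J + 1) → k` (finite dimensional); `V₀` = the subspace given by the degree
conditions and by the ties. For a set `S` of points consider the system: `G ∈ V₀`; for `i ∈ S`: `Rel` with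
the parameter `α i`; for `i ∉ S`: the graded conditions `∀ b l, rkO (p i) (o i) l + b ≤ m i → Sl l b = 0`.
Claim: for every `S` there are `α i ∉ bad i` such that the system has the zero solution only. Induction on `S`.
`S = ∅`: for a class `ρ` with `Dg ρ + 1 ≤ ∑ NO` the polynomial `∑_j G ρ j X ^ j` has degree `≤ Dg ρ` and
zeros of order `m i + 1 - rkO l` at the distinct points `ν ^ (l / e) t i`, `l % e = ρ` (the values
`b = 0, ..., m i - rkO l` of `b`), so it is zero by `hermite` (as in the proof of `lin`, ShghT/Lin.lean).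
For the other classes first treat `σ`, then `G ρ (Dg ρ) = c σ ρ * G σ (Dg σ) = 0`, so the degree is
`< Dg ρ ≤ ∑ NO` and again `hermite` applies.
Step `S → insert i S`: for `o i = some s` the graded conditions and `Rel` are the same. For `o i = none`,
`p = p i`, `m = m i` (`m = 0` is trivial): the graded conditions are `Sl l b = 0` for
(1) `2 d(l) + 2 + b ≤ m`, `d(l) = max (p - l) (l - p - 1)`; (2) `l = p + 1`, `b = m - 1`;
(3) `l = p - r`, `b = m - 1 - 2 r`, `1 ≤ r`, `2 r + 1 ≤ m`. Apply `switch` with `W` = the solutions of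
`V₀`, of the conditions of all other points, and of (1); `B 0 = γ ^ ((p+1)/e) Sl (p+1) (m-1)`,
`A 0 = γ ^ (p/e) Sl p (m-1)`, `A r = γ ^ ((p-r)/e) Sl (p-r) (m-1-2r)`,
`B r = γ ^ ((p+1+r)/e) Sl (p+1+r) (m-1-2r)`, `K r = 2 r + 1`, `r < n = (m+1)/2`. The second part of `Rel`
divided by `α ^ (p-r)` is `A r + α ^ (2r+1) B r = 0`. Choose `α i` outside of `bad i` and of the finite set
of `switch` (`k` is infinite). -/
theorem exists_alpha_sys [Infinite k] (e : ℕ) (he : 0 < e) (J : ℕ) (γ ν : k) (hγ : γ ≠ 0)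
    (hν : ν ≠ 0) {r : ℕ} (m : Fin r → ℕ) (p : Fin r → ℤ) (o : Fin r → Option Bool) (t : Fin r → k)
    (ht : ∀ i, t i ≠ 0)
    (hdist : ∀ i i' (l l' : ℤ), l ∈ Finset.Icc (p i - (m i : ℤ)) (p i + m i) →
      l' ∈ Finset.Icc (p i' - (m i' : ℤ)) (p i' + m i') →
      ν ^ (l / e) * t i = ν ^ (l' / e) * t i' → i = i' ∧ l / e = l' / e)
    (Dg : ℕ → ℕ) (hDgJ : ∀ ρ < e, Dg ρ ≤ J) (tie : ℕ → ℕ → Prop) (c : ℕ → ℕ → k)
    (hN : ∀ ρ < e, Dg ρ + 1 ≤ ∑ i, NO e (m i) (p i) (o i) ρ ∨
      ∃ σ < e, tie σ ρ ∧ Dg ρ ≤ ∑ i, NO e (m i) (p i) (o i) ρ ∧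
        Dg σ + 1 ≤ ∑ i, NO e (m i) (p i) (o i) σ)
    (bad : Fin r → Set kˣ) (hbad : ∀ i, (bad i).Finite) :
    ∃ α : Fin r → kˣ, (∀ i, α i ∉ bad i) ∧ ∀ G : ℕ → ℕ → k,
      (∀ ρ < e, ∀ j ≤ J, Dg ρ < j → G ρ j = 0) →
      (∀ σ < e, ∀ ρ < e, tie σ ρ → G ρ (Dg ρ) = c σ ρ * G σ (Dg σ)) →
      (∀ i, Rel e J γ ν G (m i) (p i) (α i) (t i) (o i)) → ∀ ρ < e, ∀ j ≤ J, G ρ j = 0 := by
  classical
  have hexists : ∀ (i : Fin r) (T : Set k), T.Finite → ∃ a : kˣ, a ∉ bad i ∧ (a : k) ∉ T := by
    intro i T hT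
    have hfin : (({0} : Set k) ∪ ((fun u : kˣ => (u : k)) '' bad i ∪ T)).Finite :=
      (Set.finite_singleton _).union (((hbad i).image _).union hT)
    obtain ⟨x, hx⟩ := hfin.exists_notMem
    have h0 : x ≠ 0 := fun h => hx (Or.inl h)
    refine ⟨Units.mk0 x h0, fun h => hx (Or.inr (Or.inl ⟨_, h, rfl⟩)), fun h => ?_⟩
    exact hx (Or.inr (Or.inr h))
  have claim : ∀ S : Finset (Fin r), ∃ α : Fin r → kˣ, (∀ i, α i ∉ bad i) ∧ ∀ G : ℕ → ℕ → k,
      (∀ ρ < e, ∀ j ≤ J, Dg ρ < j → G ρ j = 0) →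
      (∀ σ < e, ∀ ρ < e, tie σ ρ → G ρ (Dg ρ) = c σ ρ * G σ (Dg σ)) →
      (∀ i ∈ S, Rel e J γ ν G (m i) (p i) (α i) (t i) (o i)) →
      (∀ i, i ∉ S → ∀ (b : ℕ) (l : ℤ), rkO (p i) (o i) l + b ≤ m i → Sl e J ν (t i) G l b = 0) →
      ∀ ρ < e, ∀ j ≤ J, G ρ j = 0 := by
    intro S
    induction S using Finset.induction_on with
    | empty =>
      choose α hα using fun i => hexists i ∅ Set.finite_empty
      refine ⟨α, fun i => (hα i).1, fun G h1 h2 _ h4 ρ hρ => ?_⟩
      have h4' : ∀ i (b : ℕ) (l : ℤ), rkO (p i) (o i) l + b ≤ m i →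
          Sl e J ν (t i) G l b = 0 := fun i b l h => h4 i (Finset.notMem_empty i) b l h
      rcases hN ρ hρ with h5 | ⟨σ, hσ, h6, h7, h8⟩
      · refine linB_poly e J ν hν m p o t ht hdist G h4' ρ fun j hj hj' => ?_
        exact h1 ρ hρ j hj (by omega)
      · have h9 : ∀ j ≤ J, G σ j = 0 := by
          refine linB_poly e J ν hν m p o t ht hdist G h4' σ fun j hj hj' => ?_
          exact h1 σ hσ j hj (by omega)
        have h10 : G ρ (Dg ρ) = 0 := by
          rw [h2 σ hσ ρ hρ h6, h9 _ (hDgJ σ hσ), mul_zero]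
        refine linB_poly e J ν hν m p o t ht hdist G h4' ρ fun j hj hj' => ?_
        rcases eq_or_lt_of_le (h7.trans hj') with h11 | h11
        · rw [← h11]
          exact h10
        · exact h1 ρ hρ j hj h11
    | insert i₀ S hi₀ ih =>
      obtain ⟨α, hα, hsys⟩ := ih
      -- the cases in which nothing changes
      have easy : (∀ G : ℕ → ℕ → k, ∀ a : kˣ, Rel e J γ ν G (m i₀) (p i₀) a (t i₀) (o i₀) →
          ∀ (b : ℕ) (l : ℤ), rkO (p i₀) (o i₀) l + b ≤ m i₀ → Sl e J ν (t i₀) G l b = 0) →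
          ∃ α : Fin r → kˣ, (∀ i, α i ∉ bad i) ∧ ∀ G : ℕ → ℕ → k,
          (∀ ρ < e, ∀ j ≤ J, Dg ρ < j → G ρ j = 0) →
          (∀ σ < e, ∀ ρ < e, tie σ ρ → G ρ (Dg ρ) = c σ ρ * G σ (Dg σ)) →
          (∀ i ∈ insert i₀ S, Rel e J γ ν G (m i) (p i) (α i) (t i) (o i)) →
          (∀ i, i ∉ insert i₀ S → ∀ (b : ℕ) (l : ℤ), rkO (p i) (o i) l + b ≤ m i →
            Sl e J ν (t i) G l b = 0) →
          ∀ ρ < e, ∀ j ≤ J, G ρ j = 0 := by
        intro h0
        refine ⟨α, hα, fun G h1 h2 h3 h4 => ?_⟩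
        refine hsys G h1 h2 (fun i hi => h3 i (Finset.mem_insert_of_mem hi)) fun i hi => ?_
        by_cases hii : i = i₀
        · subst hii
          exact h0 G (α i) (h3 i (Finset.mem_insert_self _ _))
        · exact h4 i fun h => (Finset.mem_insert.1 h).elim hii hi
      rcases ho : o i₀ with _ | s
      swap
      · refine easy fun G a h => ?_
        rw [ho] at h ⊢
        exact h
      rcases Nat.eq_zero_or_pos (m i₀) with hm0 | hm0
      · refine easy fun G a _ b l hb => ?_
        exfalso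
        have := rkO_pos (p i₀) (o i₀) l
        omega
      clear easy
      -- the switch
      let W : Submodule k (Fin e → Fin (J + 1) → k) :=
        { carrier := {v | (∀ ρ < e, ∀ j ≤ J, Dg ρ < j → linBext v ρ j = 0) ∧
            (∀ σ < e, ∀ ρ < e, tie σ ρ → linBext v ρ (Dg ρ) = c σ ρ * linBext v σ (Dg σ)) ∧
            (∀ i ∈ S, Rel e J γ ν (linBext v) (m i) (p i) (α i) (t i) (o i)) ∧
            (∀ i, i ∉ insert i₀ S → ∀ (b : ℕ) (l : ℤ), rkO (p i) (o i) l + b ≤ m i →
              Sl e J ν (t i) (linBext v) l b = 0) ∧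
            (∀ (b : ℕ) (l : ℤ), 2 * max (p i₀ - l) (l - p i₀ - 1) + 2 + b ≤ m i₀ →
              Sl e J ν (t i₀) (linBext v) l b = 0)}
          zero_mem' := by
            have hz : linBext (0 : Fin e → Fin (J + 1) → k) = fun _ _ => 0 := by
              funext ρ j
              unfold linBext
              split_ifs <;> rfl
            have hS : ∀ (t : k) (l : ℤ) (b : ℕ), Sl e J ν t (fun _ _ => (0 : k)) l b = 0 := by
              intro t l b
              unfold Sl
              simp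
            show _ ∧ _ ∧ _ ∧ _ ∧ _
            rw [hz]
            refine ⟨fun _ _ _ _ _ => rfl, fun _ _ _ _ _ => by rw [mul_zero], fun i _ => ?_,
              fun i _ b l _ => hS _ _ _, fun b l _ => hS _ _ _⟩
            cases o i with
            | some s => exact fun b l _ => hS _ _ _
            | none => exact ⟨fun b l _ => hS _ _ _, fun b r _ => by
                rw [hS, hS, mul_zero, mul_zero, add_zero]⟩
          add_mem' := by
            rintro v w ⟨a1, a2, a3, a4, a5⟩ ⟨b1, b2, b3, b4, b5⟩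
            show _ ∧ _ ∧ _ ∧ _ ∧ _
            rw [linBext_add]
            refine ⟨fun ρ hρ j hj h => ?_, fun σ hσ ρ hρ h => ?_,
              fun i hi => linB_Rel_add (a3 i hi) (b3 i hi), fun i hi b l h => ?_,
              fun b l h => ?_⟩
            · show linBext v ρ j + linBext w ρ j = 0
              rw [a1 ρ hρ j hj h, b1 ρ hρ j hj h, add_zero]
            · show linBext v ρ (Dg ρ) + linBext w ρ (Dg ρ) =
                c σ ρ * (linBext v σ (Dg σ) + linBext w σ (Dg σ))
              rw [a2 σ hσ ρ hρ h, b2 σ hσ ρ hρ h, mul_add]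
            · rw [linB_Sl_add, a4 i hi b l h, b4 i hi b l h, add_zero]
            · rw [linB_Sl_add, a5 b l h, b5 b l h, add_zero]
          smul_mem' := by
            rintro x v ⟨a1, a2, a3, a4, a5⟩
            show _ ∧ _ ∧ _ ∧ _ ∧ _
            rw [linBext_smul]
            refine ⟨fun ρ hρ j hj h => ?_, fun σ hσ ρ hρ h => ?_,
              fun i hi => linB_Rel_smul x (a3 i hi), fun i hi b l h => ?_,
              fun b l h => ?_⟩
            · show x * linBext v ρ j = 0
              rw [a1 ρ hρ j hj h, mul_zero]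
            · show x * linBext v ρ (Dg ρ) = c σ ρ * (x * linBext v σ (Dg σ))
              rw [a2 σ hσ ρ hρ h]
              ring
            · rw [linB_Sl_smul, a4 i hi b l h, mul_zero]
            · rw [linB_Sl_smul, a5 b l h, mul_zero] }
      have hfin := switch W ((m i₀ + 1) / 2) (by omega)
        (fun j => γ ^ ((p i₀ - j) / (e : ℤ)) • linBSl e J ν (t i₀) (p i₀ - j) (m i₀ - 1 - 2 * j))
        (fun j => γ ^ ((p i₀ + 1 + j) / (e : ℤ)) •
          linBSl e J ν (t i₀) (p i₀ + 1 + j) (m i₀ - 1 - 2 * j))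
        (fun j => 2 * j + 1) (fun j hj => by omega) (by
          rintro v ⟨a1, a2, a3, a4, a5⟩ hB hA
          have hB' : Sl e J ν (t i₀) (linBext v) (p i₀ + 1) (m i₀ - 1) = 0 := by
            have h1 : γ ^ ((p i₀ + 1 + ((0 : ℕ) : ℤ)) / (e : ℤ)) *
              Sl e J ν (t i₀) (linBext v) (p i₀ + 1 + ((0 : ℕ) : ℤ)) (m i₀ - 1 - 2 * 0) = 0 := hB
            have h2 := (mul_eq_zero.1 h1).resolve_left (zpow_ne_zero _ hγ)
            simpa using h2
          have hA' : ∀ j : ℕ, 0 < j → j < (m i₀ + 1) / 2 →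
              Sl e J ν (t i₀) (linBext v) (p i₀ - j) (m i₀ - 1 - 2 * j) = 0 := by
            intro j hj hj'
            have h1 : γ ^ ((p i₀ - (j : ℤ)) / (e : ℤ)) *
              Sl e J ν (t i₀) (linBext v) (p i₀ - j) (m i₀ - 1 - 2 * j) = 0 := hA j hj hj'
            exact (mul_eq_zero.1 h1).resolve_left (zpow_ne_zero _ hγ)
          have hz : ∀ ρ < e, ∀ j ≤ J, linBext v ρ j = 0 := by
            refine hsys (linBext v) a1 a2 a3 fun i hi b l hb => ?_
            by_cases hii : i = i₀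
            · rw [hii] at hb ⊢
              rw [ho] at hb
              rcases linB_rk _ _ _ _ hb with h1 | ⟨h1, h2⟩ | ⟨j, hj, h1, h2⟩
              · exact a5 b l h1
              · rw [h1, show b = m i₀ - 1 by omega]
                exact hB'
              · rw [h1, show b = m i₀ - 1 - 2 * j by omega]
                exact hA' j hj (by omega)
            · exact a4 i (fun h => (Finset.mem_insert.1 h).elim hii hi) b l hb
          funext ρ j
          have h1 := hz ρ ρ.2 j (by omega)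
          unfold linBext at h1
          rw [dif_pos ⟨ρ.2, j.2⟩] at h1
          exact h1)
      obtain ⟨a, ha, haT⟩ := hexists i₀ _ hfin
      refine ⟨Function.update α i₀ a, fun i => ?_, fun G h1 h2 h3 h4 => ?_⟩
      · by_cases hii : i = i₀
        · subst hii
          rw [Function.update_self]
          exact ha
        · rw [Function.update_of_ne hii]
          exact hα i
      · let v : Fin e → Fin (J + 1) → k := fun ρ j => G ρ j
        have hv : ∀ ρ < e, ∀ j ≤ J, linBext v ρ j = G ρ j := linBext_restrict G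
        have hv' : ∀ ρ < e, ∀ j ≤ J, G ρ j = linBext v ρ j := fun ρ hρ j hj => (hv ρ hρ j hj).symm
        have hrel := h3 i₀ (Finset.mem_insert_self _ _)
        rw [ho, Function.update_self] at hrel
        have hvW : v ∈ W := by
          refine ⟨fun ρ hρ j hj h => ?_, fun σ hσ ρ hρ h => ?_, fun i hi => ?_,
            fun i hi b l h => ?_, fun b l h => ?_⟩
          · rw [hv ρ hρ j hj]
            exact h1 ρ hρ j hj h
          · rw [hv ρ hρ _ (hDgJ ρ hρ), hv σ hσ _ (hDgJ σ hσ)]
            exact h2 σ hσ ρ hρ h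
          · have hii : i ≠ i₀ := fun h => hi₀ (h ▸ hi)
            have h5 := h3 i (Finset.mem_insert_of_mem hi)
            rw [Function.update_of_ne hii] at h5
            exact linB_Rel_congr he hv' h5
          · rw [linB_Sl_congr he ν (t i) hv]
            exact h4 i hi b l h
          · rw [linB_Sl_congr he ν (t i₀) hv]
            exact hrel.1 b l h
        have hcond : ∀ j : ℕ, j < (m i₀ + 1) / 2 →
            γ ^ ((p i₀ - (j : ℤ)) / (e : ℤ)) *
              Sl e J ν (t i₀) (linBext v) (p i₀ - j) (m i₀ - 1 - 2 * j) +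
            (a : k) ^ (2 * j + 1) * (γ ^ ((p i₀ + 1 + (j : ℤ)) / (e : ℤ)) *
              Sl e J ν (t i₀) (linBext v) (p i₀ + 1 + j) (m i₀ - 1 - 2 * j)) = 0 := by
          intro j hj
          have h5 := hrel.2 (m i₀ - 1 - 2 * j) j (by omega)
          rw [linB_Sl_congr he ν (t i₀) hv', linB_Sl_congr he ν (t i₀) hv'] at h5
          have ha0 : (a : k) ≠ 0 := a.ne_zero
          have h6 : (a : k) ^ (p i₀ + 1 + (j : ℤ)) =
              (a : k) ^ (p i₀ - (j : ℤ)) * (a : k) ^ (2 * j + 1) := by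
            rw [← zpow_natCast (a : k) (2 * j + 1), ← zpow_add₀ ha0]
            congr 1
            push_cast
            ring
          rw [h6] at h5
          refine (mul_eq_zero.1 ?_).resolve_left (zpow_ne_zero (p i₀ - (j : ℤ)) ha0)
          rw [← h5]
          ring
        have hv0 : v = 0 := by
          by_contra hne
          apply haT
          refine ⟨v, hvW, hne, ?_, fun j _ hj => ?_⟩
          · have h5 := hcond 0 (by omega)
            rw [mul_zero, zero_add, pow_one] at h5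
            exact h5
          · exact hcond j hj
        intro ρ hρ j hj
        have h5 := congrFun (congrFun hv0 ⟨ρ, hρ⟩) ⟨j, by omega⟩
        exact h5
  obtain ⟨α, hα, h⟩ := claim Finset.univ
  exact ⟨α, hα, fun G h1 h2 h3 => h G h1 h2 (fun i _ => h3 i)
    fun i hi => absurd (Finset.mem_univ i) hi⟩

end ShghT
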