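import Pool.Agent.ShghW.Prof

/-!
# The sum of the profile is the Euler characteristic
-/

namespace ShghT

open scoped Classical in
/-- The demand of the column `ρ`: the ties are used to lower the demand of the columns `ρ < e / 2`. -/
noncomputable def Qd (δ : ℕ) (M : Fin 9 → ℕ) (e ρ : ℕ) : ℕ :=
  Dg δ M e ρ + 1 - (if 2 * ρ < e ∧ Tie δ M e (e - ρ) ρ then 1 else 0)

namespace ProfSum

/-- The columns counted at the level `j`. -/
def Cnt (δ : ℕ) (M : Fin 9 → ℕ) (e j ρ : ℕ) : Prop :=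
  kp δ M j + 2 * hm e ρ ≤ e ∧ ¬ (0 < ρ ∧ 2 * ρ < e ∧
    ((0 < kp δ M j ∧ kp δ M j + 2 * ρ = e) ∨ (Pen δ M ∧ j = Jt δ M ∧ kp δ M j + 2 * ρ ≤ e)))

variable {δ : ℕ} {M : Fin 9 → ℕ} {e : ℕ}

theorem hm_eq {ρ : ℕ} (h : 2 * ρ < e) : hm e ρ = ρ := by
  unfold hm
  omega

open scoped Classical in
theorem Qd_eq (h : Std δ M e) {ρ : ℕ} (hρ : ρ < e) :
    Qd δ M e ρ = ∑ j ∈ Finset.range (Jt δ M + 1), if Cnt δ M e j ρ then 1 else 0 := by
  obtain ⟨g, hg⟩ : ∃ g, g = Dg δ M e ρ := ⟨_, rfl⟩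
  have hgJ : g ≤ Jt δ M := by rw [hg]; exact Dg_le δ M e ρ
  have hkg : kp δ M g + 2 * hm e ρ ≤ e := by rw [hg]; exact kp_Dg h hρ.le
  have h1 : ∑ j ∈ Finset.range (Jt δ M + 1), (if Cnt δ M e j ρ then 1 else 0) =
      ∑ j ∈ Finset.range (g + 1), if Cnt δ M e j ρ then 1 else 0 := by
    symm
    refine Finset.sum_subset (Finset.range_mono (by omega)) fun j hj hj' => ?_
    rw [Finset.mem_range] at hj hj'
    refine if_neg fun hc => ?_
    have := lt_kp h (ρ := ρ) (j := j) (by omega) (by omega)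
    exact absurd hc.1 (by omega)
  have h2 : ∀ j ∈ Finset.range g, (if Cnt δ M e j ρ then 1 else 0) = 1 := by
    intro j hj
    rw [Finset.mem_range] at hj
    have h3 := kp_mono h hj.le hgJ
    refine if_pos ⟨by omega, ?_⟩
    rintro ⟨h4, h5, ⟨h6, h7⟩ | ⟨_, h6, _⟩⟩
    · rw [hm_eq h5] at hkg
      exact kp_strict h hj hgJ (by omega) (by omega)
    · omega
  rw [h1, Finset.sum_range_succ, Finset.sum_congr rfl h2, Finset.sum_const, Finset.card_range,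
    smul_eq_mul, mul_one]
  unfold Qd
  rw [← hg]
  have h3 : (2 * ρ < e ∧ Tie δ M e (e - ρ) ρ) ↔ ¬ Cnt δ M e g ρ := by
    unfold Cnt Tie
    rw [← hg]
    constructor
    · rintro ⟨h4, h5, h6, h7, h8, h9⟩ ⟨_, h10⟩
      refine h10 ⟨h6, h4, ?_⟩
      rw [hm_eq h4] at h9
      rcases h9 with h9 | ⟨h9, h11⟩
      · exact Or.inl h9
      · right
        have h12 : Dg δ M e ρ = Jt δ M := Dg_pen (by rw [hm_eq h4]; exact h11)
        refine ⟨h9, by rw [hg, h12], ?_⟩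
        rw [hg, h12]
        exact h11
    · intro h4
      have h5 : 0 < ρ ∧ 2 * ρ < e ∧ ((0 < kp δ M g ∧ kp δ M g + 2 * ρ = e) ∨
          (Pen δ M ∧ g = Jt δ M ∧ kp δ M g + 2 * ρ ≤ e)) := by
        by_contra h6
        exact h4 ⟨hkg, h6⟩
      obtain ⟨h6, h7, h8⟩ := h5
      refine ⟨h7, by omega, h6, by omega, by omega, ?_⟩
      rw [hm_eq h7]
      rcases h8 with h8 | ⟨h8, h9, h10⟩
      · exact Or.inl h8
      · right
        refine ⟨h8, ?_⟩
        rw [← h9]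
        exact h10
  by_cases h4 : Cnt δ M e g ρ
  · rw [if_pos h4, if_neg (fun h5 => (h3.1 h5) h4)]
    omega
  · rw [if_neg h4, if_pos (h3.2 h4)]
    omega

theorem card_a {k : ℕ} (he : 0 < e) (hk : k ≤ e) :
    ((Finset.range e).filter fun ρ => k + 2 * hm e ρ ≤ e ∧
      ¬ (0 < ρ ∧ 2 * ρ < e ∧ 0 < k ∧ k + 2 * ρ = e)).card = max (e - k) 1 := by
  rcases Nat.eq_zero_or_pos k with rfl | hk0
  · rw [Finset.filter_true_of_mem, Finset.card_range]
    · omega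
    · intro ρ hρ
      rw [Finset.mem_range] at hρ
      unfold hm
      omega
  · have h1 : ((Finset.range e).filter fun ρ => k + 2 * hm e ρ ≤ e ∧
        ¬ (0 < ρ ∧ 2 * ρ < e ∧ 0 < k ∧ k + 2 * ρ = e)) =
        Finset.range ((e - k - 1) / 2 + 1) ∪ Finset.Ico (e - (e - k) / 2) e := by
      ext ρ
      simp only [Finset.mem_filter, Finset.mem_range, Finset.mem_union, Finset.mem_Ico]
      unfold hm
      omega
    rw [h1, Finset.card_union_of_disjoint, Finset.card_range, Nat.card_Ico]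
    · omega
    · rw [Finset.disjoint_left]
      intro ρ h2 h3
      rw [Finset.mem_range] at h2
      rw [Finset.mem_Ico] at h3
      omega

theorem card_b {k p : ℕ} (he : 0 < e) (hk : 2 * p + k = e) :
    ((Finset.range e).filter fun ρ => k + 2 * hm e ρ ≤ e ∧
      ¬ (0 < ρ ∧ 2 * ρ < e ∧ k + 2 * ρ ≤ e)).card = p + 1 := by
  have h1 : ((Finset.range e).filter fun ρ => k + 2 * hm e ρ ≤ e ∧
      ¬ (0 < ρ ∧ 2 * ρ < e ∧ k + 2 * ρ ≤ e)) = insert 0 (Finset.Ico (e - p) e) := by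
    ext ρ
    simp only [Finset.mem_filter, Finset.mem_range, Finset.mem_insert, Finset.mem_Ico]
    unfold hm
    omega
  rw [h1, Finset.card_insert_of_notMem, Nat.card_Ico]
  · omega
  · rw [Finset.mem_Ico]
    omega

/-- The Euler characteristic at the level `j`. -/
def hh (δ : ℕ) (M : Fin 9 → ℕ) (j : ℕ) : ℚ :=
  (((δ - 3 * j : ℕ) : ℚ) + 2) * (((δ - 3 * j : ℕ) : ℚ) + 1) / 2 -
    ∑ l, (((M l - j : ℕ) : ℚ) + 1) * ((M l - j : ℕ) : ℚ) / 2 +
    ((kl δ M j : ℕ) : ℚ) * (((kl δ M j : ℕ) : ℚ) - 1) / 2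

theorem mu_step (m j : ℕ) : (((m - j : ℕ) : ℚ) + 1) * ((m - j : ℕ) : ℚ) / 2 -
    (((m - (j + 1) : ℕ) : ℚ) + 1) * ((m - (j + 1) : ℕ) : ℚ) / 2 = ((m - j : ℕ) : ℚ) := by
  obtain ⟨k, hk⟩ : ∃ k, k = m - j := ⟨_, rfl⟩
  have h1 : m - (j + 1) = k - 1 := by omega
  rw [h1, ← hk]
  rcases k with _ | k
  · simp
  · rw [Nat.add_sub_cancel]
    push_cast
    ring

theorem kl_step (h : Std δ M e) {j : ℕ} (hj : j < Jt δ M) :
    ((kl δ M (j + 1) : ℕ) : ℚ) * (((kl δ M (j + 1) : ℕ) : ℚ) - 1) =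
      ((kl δ M j : ℕ) : ℚ) * (((kl δ M j : ℕ) : ℚ) + 1) := by
  have h1 := (le_Jt_iff h (j + 1)).1 hj
  have h2 := mu_le h (j := j) hj.le 0
  have h3 := h.anti (show (0 : Fin 9) ≤ 1 by decide)
  have h4 : (0 < kl δ M j ∧ kl δ M (j + 1) = kl δ M j + 1) ∨
      (kl δ M j = 0 ∧ kl δ M (j + 1) ≤ 1) := by
    unfold kl
    omega
  rcases h4 with ⟨_, h4⟩ | ⟨h4, h5⟩
  · rw [h4]
    push_cast
    ring
  · rw [h4]
    interval_cases h6 : kl δ M (j + 1) <;> simp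

theorem hh_step (h : Std δ M e) {j : ℕ} (hj : j < Jt δ M) :
    hh δ M j - hh δ M (j + 1) = (e : ℚ) - ((kp δ M j : ℕ) : ℚ) := by
  have h1 := (le_Jt_iff h (j + 1)).1 hj
  have h2 := kl_step h hj
  have h3 : ((3 * (δ - 3 * j) + kp δ M j : ℕ) : ℚ) =
      ((e + ∑ l, (M l - j) + kl δ M j : ℕ) : ℚ) := by rw [kp_eq h hj.le]
  push_cast at h3
  have h4 : δ - 3 * j = (δ - 3 * (j + 1)) + 3 := by omega
  have h5 : ∑ l, (((M l - j : ℕ) : ℚ) + 1) * ((M l - j : ℕ) : ℚ) / 2 -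
      ∑ l, (((M l - (j + 1) : ℕ) : ℚ) + 1) * ((M l - (j + 1) : ℕ) : ℚ) / 2 =
      ∑ l, ((M l - j : ℕ) : ℚ) := by
    rw [← Finset.sum_sub_distrib]
    exact Finset.sum_congr rfl fun l _ => mu_step (M l) j
  unfold hh
  rw [h4] at h3 ⊢
  push_cast at h3 ⊢
  linear_combination -h5 - h2 / 2 + h3

theorem hh_zero (h : Std δ M e) : hh δ M 0 = ((δ : ℚ) + 2) * ((δ : ℚ) + 1) / 2 -
    ∑ l, ((M l : ℚ) + 1) * (M l : ℚ) / 2 := by
  have h1 : kl δ M 0 = 0 := by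
    unfold kl
    have := h.std
    omega
  unfold hh
  rw [h1]
  simp

theorem sum_two {α : Type*} [AddCommMonoid α] {F : Fin 9 → α} (hF : ∀ l : Fin 9, 2 ≤ l → F l = 0) :
    ∑ l, F l = F 0 + F 1 := by
  rw [Fin.sum_univ_succ, Fin.sum_univ_succ, Finset.sum_eq_zero]
  · rw [add_zero]
    rfl
  · intro i _
    exact hF _ (by
      rw [Fin.le_def]
      simp only [Fin.val_succ]
      have : ((2 : Fin 9) : ℕ) = 2 := rfl
      omega)

theorem hh_pen (h : Std δ M e) (hp : Pen δ M) : hh δ M (Jt δ M) =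
    ((δ - 3 * Jt δ M - (M 1 - Jt δ M) : ℕ) : ℚ) + 1 := by
  unfold Pen at hp
  have h3 := h.anti (show (0 : Fin 9) ≤ 1 by decide)
  have hz := fun l hl => mu_zero h (j := Jt δ M) le_rfl (by omega) l hl
  have hk : kl δ M (Jt δ M) = M 1 - Jt δ M := by
    unfold kl
    omega
  unfold hh
  rw [sum_two (F := fun l => (((M l - Jt δ M : ℕ) : ℚ) + 1) * ((M l - Jt δ M : ℕ) : ℚ) / 2)
    (fun l hl => by simp [hz l hl]), hk, ← hp]
  have h4 : ((δ - 3 * Jt δ M - (M 1 - Jt δ M) : ℕ) : ℚ) =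
      ((δ - 3 * Jt δ M : ℕ) : ℚ) - ((M 1 - Jt δ M : ℕ) : ℚ) := Nat.cast_sub (by omega)
  rw [h4]
  ring

theorem hh_not_pen (h : Std δ M e) (hp : ¬ Pen δ M) : hh δ M (Jt δ M) =
    ((max (e - kp δ M (Jt δ M)) 1 : ℕ) : ℚ) := by
  unfold Pen at hp
  have hJ1 : ¬ (3 * (Jt δ M + 1) ≤ δ ∧ M 0 - (Jt δ M + 1) ≤ δ - 3 * (Jt δ M + 1)) := by
    rw [← le_Jt_iff h]
    omega
  have h1 := mu_le h (j := Jt δ M) le_rfl 0
  have h3 := h.anti (show (0 : Fin 9) ≤ 1 by decide)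
  have hz : ∀ l : Fin 9, 2 ≤ l → M l - Jt δ M = 0 := by
    intro l hl
    by_cases hb : M 1 - Jt δ M = 0
    · have h4 := h.anti (show (1 : Fin 9) ≤ l from le_trans (by decide) hl)
      omega
    · exact mu_zero h le_rfl (by omega) l hl
  have hs : ∑ l, (M l - Jt δ M) = (M 0 - Jt δ M) + (M 1 - Jt δ M) :=
    sum_two (F := fun l => M l - Jt δ M) hz
  have h5 := kp_eq h (j := Jt δ M) le_rfl
  rw [hs] at h5
  have hkle := kp_le h (j := Jt δ M) le_rfl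
  unfold hh
  rw [sum_two (F := fun l => (((M l - Jt δ M : ℕ) : ℚ) + 1) * ((M l - Jt δ M : ℕ) : ℚ) / 2)
    (fun l hl => by simp [hz l hl])]
  have hkl : kl δ M (Jt δ M) = (M 0 - Jt δ M) + (M 1 - Jt δ M) - (δ - 3 * Jt δ M) := rfl
  obtain ⟨a, ha⟩ : ∃ a, a = M 0 - Jt δ M := ⟨_, rfl⟩
  obtain ⟨b, hb⟩ : ∃ b, b = M 1 - Jt δ M := ⟨_, rfl⟩
  obtain ⟨D, hD⟩ : ∃ D, D = δ - 3 * Jt δ M := ⟨_, rfl⟩
  obtain ⟨k, hk⟩ : ∃ k, k = kp δ M (Jt δ M) := ⟨_, rfl⟩
  rw [hkl] at h5 ⊢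
  rw [← ha, ← hb, ← hD, ← hk] at h5
  rw [← hk] at hkle
  rw [← ha, ← hb, ← hD, ← hk]
  have hba : b ≤ a := by omega
  have haD : a < D := by omega
  rcases Nat.eq_zero_or_pos a with h0 | h0
  · have hb0 : b = 0 := by omega
    have hD2 : D = 1 ∨ D = 2 := by omega
    rcases hD2 with h6 | h6
    · have h7 : max (e - k) 1 = 3 := by omega
      have h8 : a + b - D = 0 := by omega
      rw [h7, h8, h0, hb0, h6]
      norm_num
    · have h7 : max (e - k) 1 = 6 := by omega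
      have h8 : a + b - D = 0 := by omega
      rw [h7, h8, h0, hb0, h6]
      norm_num
  · have hDa : D = a + 1 := by omega
    rcases Nat.eq_zero_or_pos b with hb0 | hb0
    · have h7 : max (e - k) 1 = 2 * a + 3 := by omega
      have h8 : a + b - D = 0 := by omega
      rw [h7, h8, hb0, hDa]
      push_cast
      ring
    · obtain ⟨b', rfl⟩ : ∃ b', b = b' + 1 := ⟨b - 1, by omega⟩
      obtain ⟨c, rfl⟩ : ∃ c, a = b' + 1 + c := ⟨a - (b' + 1), by omega⟩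
      have h7 : max (e - k) 1 = 2 * c + 4 := by omega
      have h8 : b' + 1 + c + (b' + 1) - D = b' := by omega
      rw [h7, h8, hDa]
      push_cast
      ring

open scoped Classical in
theorem sum_Cnt (h : Std δ M e) (he : 0 < e) {j : ℕ} (hj : j ≤ Jt δ M)
    (hn : ¬ (Pen δ M ∧ j = Jt δ M)) :
    (∑ ρ ∈ Finset.range e, if Cnt δ M e j ρ then 1 else 0) = max (e - kp δ M j) 1 := by
  rw [← card_a he (kp_le h hj), Finset.card_filter]
  refine Finset.sum_congr rfl fun ρ _ => ?_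
  refine if_congr ?_ rfl rfl
  unfold Cnt
  tauto

open scoped Classical in
theorem sum_Cnt_pen (h : Std δ M e) (he : 0 < e) (hp : Pen δ M) :
    (∑ ρ ∈ Finset.range e, if Cnt δ M e (Jt δ M) ρ then 1 else 0) =
      δ - 3 * Jt δ M - (M 1 - Jt δ M) + 1 := by
  rw [← card_b he (pen_eq h hp), Finset.card_filter]
  refine Finset.sum_congr rfl fun ρ _ => ?_
  refine if_congr ?_ rfl rfl
  unfold Cnt
  refine and_congr_right fun _ => not_congr (and_congr_right fun _ => and_congr_right fun _ => ?_)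
  constructor
  · rintro (⟨_, h1⟩ | ⟨_, _, h1⟩)
    · exact h1.le
    · exact h1
  · exact fun h1 => Or.inr ⟨hp, rfl, h1⟩

theorem kp_lt (h : Std δ M e) (he : 0 < e) {j : ℕ} (hj : j < Jt δ M) : kp δ M j < e := by
  have h1 := kp_mono h (show j ≤ j + 1 by omega) (show j + 1 ≤ Jt δ M by omega)
  have h2 := kp_le h (show j + 1 ≤ Jt δ M by omega)
  by_contra h3
  exact kp_strict h (show j < j + 1 by omega) (show j + 1 ≤ Jt δ M by omega) (by omega) (by omega)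

end ProfSum

open ProfSum in
/-- PROOF. (1) `∑_{ρ < e} (Dg ρ + 1) = ∑_{j ≤ Jt} #{ρ < e : 2 hm e ρ ≤ e - kp j}` (`kp` is monotone, so
`j ≤ Dg ρ` iff `kp j + 2 hm ρ ≤ e`). For `kp j = 0` the number is `e`; for `kp j > 0`, `e' = e - kp j < e`, it
is `1 + 2 (e' / 2)`, that is `e'` for `e'` odd and `e' + 1` for `e'` even.
(2) The ties: not in the pencil case: the `ρ` with `0 < 2 ρ < e` which are ties correspond bijectively to the levels
`j` with `kp j > 0`, `e - kp j = 2 ρ > 0` (then `Dg ρ = j`, as `kp` is strictly increasing once positive). In the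
pencil case at the level `Jt`, `e - kp Jt = 2 p`, all `1 ≤ ρ ≤ p`, `2 ρ < e`, are ties.
So the sum of the demands is `∑_{j < Jt} c_j + c_Jt` with `c_j = max (e - kp j) 1` and `c_Jt = p + 1` in the pencil case.
(3) Put `h_j = C(δ - 3 j + 2, 2) - ∑ C(M l - j + 1, 2) + C(kl j, 2)`. Then `h_j - h_{j+1} = e - kp j` for
`j < Jt`, `h_0 = C(δ+2,2) - ∑ C(M l + 1, 2)` and `h_Jt = c_Jt`. -/
theorem sum_Qd {δ : ℕ} {M : Fin 9 → ℕ} {e : ℕ} (h : Std δ M e) (he : 0 < e) :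
    ∑ ρ ∈ Finset.range e, Qd δ M e ρ + ∑ l, (M l + 1).choose 2 = (δ + 2).choose 2 := by
  classical
  have h1 : ∑ ρ ∈ Finset.range e, Qd δ M e ρ =
      ∑ j ∈ Finset.range (Jt δ M + 1), ∑ ρ ∈ Finset.range e, if Cnt δ M e j ρ then 1 else 0 := by
    rw [Finset.sum_comm]
    exact Finset.sum_congr rfl fun ρ hρ => Qd_eq h (Finset.mem_range.1 hρ)
  have h2 : ((∑ ρ ∈ Finset.range e, Qd δ M e ρ : ℕ) : ℚ) = hh δ M 0 := by
    rw [h1, Finset.sum_range_succ, Nat.cast_add]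
    have h3 : ((∑ ρ ∈ Finset.range e, if Cnt δ M e (Jt δ M) ρ then 1 else 0 : ℕ) : ℚ) =
        hh δ M (Jt δ M) := by
      by_cases hp : Pen δ M
      · rw [sum_Cnt_pen h he hp, hh_pen h hp]
        push_cast
        ring
      · rw [sum_Cnt h he le_rfl (fun hh => hp hh.1), hh_not_pen h hp]
    have h4 : ((∑ j ∈ Finset.range (Jt δ M), ∑ ρ ∈ Finset.range e,
        if Cnt δ M e j ρ then 1 else 0 : ℕ) : ℚ) = hh δ M 0 - hh δ M (Jt δ M) := by
      rw [← Finset.sum_range_sub', Nat.cast_sum]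
      refine Finset.sum_congr rfl fun j hj => ?_
      have hj' := Finset.mem_range.1 hj
      rw [sum_Cnt h he hj'.le (fun hh => by omega), hh_step h hj']
      have h5 := kp_lt h he hj'
      rw [max_eq_left (by omega), Nat.cast_sub h5.le]
    rw [h3, h4]
    ring
  have h6 : ((∑ ρ ∈ Finset.range e, Qd δ M e ρ + ∑ l, (M l + 1).choose 2 : ℕ) : ℚ) =
      (((δ + 2).choose 2 : ℕ) : ℚ) := by
    rw [Nat.cast_add, h2, hh_zero h, Nat.cast_choose_two, Nat.cast_sum]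
    have h7 : ∀ l, (((M l + 1).choose 2 : ℕ) : ℚ) = ((M l : ℚ) + 1) * (M l : ℚ) / 2 := by
      intro l
      rw [Nat.cast_choose_two]
      push_cast
      ring
    simp only [h7]
    push_cast
    ring
  exact_mod_cast h6

end ShghT
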