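import Pool.Agent.ShghW.LevelB
import Pool.Agent.ShghW.LinB
import Pool.Agent.ShghW.ProfSum

/-!
# There are no theta functions satisfying the conditions of all points
-/

namespace ShghT

variable {k : Type*} [Field k]

/-- The levels are products of the fixed part and a moving part. -/
def LevOK (e d : ℕ) (M : Fin 9 → ℕ) (a : Fin 9 → kˣ) (H : ℕ → Lam k) : Prop :=
  ∀ j, H j ≠ 0 → j ≤ Jt d M ∧ ∃ T : Lam k,
    H j = T * Bf (4 * e) a (kl d M j) (fun l => j - M l) ∧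
    (M 0 - j = d - 3 * j → IsSym (-(a 0))⁻¹ (d - 3 * j - (M 1 - j)) T)

/-- The constants of the ties. -/
theorem exists_tie {e : ℕ} (he : 0 < e) (d : ℕ) (M : Fin 9 → ℕ) (hstd : Std d M e)
    (a : Fin 9 → kˣ) (σ ρ : ℕ) : ∃ c : k, Tie d M e σ ρ → ∀ H : ℕ → Lam k, LevOK e d M a H →
      ∀ μ : ℤ, (∀ j, ∀ n l : ℤ, n + 2 * l * (e - l) < μ → cf (H j) n l = 0) →
      cf (H (Dg d M e ρ)) (μ - 2 * ρ * (e - ρ)) ρ =
        c * cf (H (Dg d M e σ)) (μ - 2 * σ * (e - σ)) σ := by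
  by_cases ht : Tie d M e σ ρ
  · obtain ⟨hσ0, hρ0, hne, hsum, htie⟩ := ht
    have hD : Dg d M e σ = Dg d M e ρ := by
      have := Dg_symm d M (e := e) (ρ := ρ) (by omega)
      rwa [show e - ρ = σ by omega] at this
    rw [hD]
    rcases htie with ⟨-, h2⟩ | ⟨hp, h2⟩
    · obtain ⟨c, hc⟩ := level_tie (k := k) he a (kl d M (Dg d M e ρ))
        (fun l => Dg d M e ρ - M l) (σ := σ) (ρ := ρ) hsum (by
          rw [kp] at h2
          exact h2)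
      refine ⟨c, fun _ H hH μ hw => ?_⟩
      by_cases h0 : H (Dg d M e ρ) = 0
      · rw [h0, cf_zero, cf_zero, mul_zero]
      · obtain ⟨-, T, hT, -⟩ := hH _ h0
        exact hc _ T hT μ (hw _)
    · have hDJ : Dg d M e ρ = Jt d M := Dg_pen h2
      rw [hDJ]
      have hpe := pen_eq hstd hp
      rw [kp] at hpe
      obtain ⟨c, hc⟩ := level_sym (k := k) he a (kl d M (Jt d M)) (fun l => Jt d M - M l)
        (d - 3 * Jt d M - (M 1 - Jt d M)) hpe (-(a 0))⁻¹ (σ := σ) (ρ := ρ) hsum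
      refine ⟨c, fun _ H hH μ hw => ?_⟩
      by_cases h0 : H (Jt d M) = 0
      · rw [h0, cf_zero, cf_zero, mul_zero]
      · obtain ⟨-, T, hT, hT2⟩ := hH _ h0
        exact hc _ T hT (hT2 (by rw [Pen] at hp; exact hp.symm)) μ (hw _)
  · exact ⟨0, fun h => absurd h ht⟩

/-- The leading coefficients of high level vanish. -/
theorem lev_vanish {e : ℕ} (he : 0 < e) {d : ℕ} {M : Fin 9 → ℕ} (hstd : Std d M e)
    {a : Fin 9 → kˣ} {H : ℕ → Lam k} (hH : LevOK e d M a H) (μ : ℤ)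
    (hw : ∀ j, ∀ n l : ℤ, n + 2 * l * (e - l) < μ → cf (H j) n l = 0) {ρ : ℕ} (hρ : ρ < e)
    {j : ℕ} (hj : Dg d M e ρ < j) : cf (H j) (μ - 2 * ρ * (e - ρ)) ρ = 0 := by
  by_cases h0 : H j = 0
  · rw [h0, cf_zero]
  · obtain ⟨hjJ, T, hT, -⟩ := hH _ h0
    have h1 := lt_kp hstd hjJ hj
    rw [kp] at h1
    exact level_vanish he a _ _ hT μ (hw j) hρ.le h1

theorem no_theta {e : ℕ} (he : 0 < e) {d : ℕ} {M : Fin 9 → ℕ} (hstd : Std d M e)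
    {a : Fin 9 → kˣ} (γ ν : k) (hγ : γ ≠ 0) (hν : ν ≠ 0) {r : ℕ} (m : Fin r → ℕ) (p : Fin r → ℤ)
    (o : Fin r → Option Bool)
    (hc : ∀ i, 0 ≤ circO e (p i) (o i) ∧ circO e (p i) (o i) < 4 * (e : ℤ))
    (αi t : Fin r → k) (hα : ∀ i, αi i ≠ 0) (c : ℕ → ℕ → k)
    (hcc : ∀ σ ρ, Tie d M e σ ρ → ∀ H : ℕ → Lam k, LevOK e d M a H →
      ∀ μ : ℤ, (∀ j, ∀ n l : ℤ, n + 2 * l * (e - l) < μ → cf (H j) n l = 0) →
      cf (H (Dg d M e ρ)) (μ - 2 * ρ * (e - ρ)) ρ =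
        c σ ρ * cf (H (Dg d M e σ)) (μ - 2 * σ * (e - σ)) σ)
    (hsys : ∀ G : ℕ → ℕ → k, (∀ ρ < e, ∀ j ≤ Jt d M, Dg d M e ρ < j → G ρ j = 0) →
      (∀ σ < e, ∀ ρ < e, Tie d M e σ ρ → G ρ (Dg d M e ρ) = c σ ρ * G σ (Dg d M e σ)) →
      (∀ i, Rel e (Jt d M) γ ν G (m i) (p i) (αi i) (t i) (o i)) →
      ∀ ρ < e, ∀ j ≤ Jt d M, G ρ j = 0)
    (H : ℕ → Lam k) (hH : ∀ j ≤ Jt d M, IsTh (4 * e) e (γ * ν ^ j) (H j))
    (hlev : LevOK e d M a H)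
    (hcond : ∀ i a b, a + b < m i → ∀ n : ℕ, ∑ j ∈ Finset.range (Jt d M + 1),
      t i ^ j * (j.choose b : k) * (∑ᶠ l : ℤ, cf (H j) (n - circO e (p i) (o i) * l) l *
        αi i ^ l * ((Ring.choose l a : ℤ) : k)) = 0) :
    ∀ j ≤ Jt d M, H j = 0 := by
  by_contra hcon
  push Not at hcon
  obtain ⟨j₀, hj₀, hHj₀⟩ := hcon
  have he' : (0 : ℤ) < e := by exact_mod_cast he
  have hγj : ∀ j, γ * ν ^ j ≠ 0 := fun j => mul_ne_zero hγ (pow_ne_zero _ hν)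
  classical
  have hex : ∃ v : ℕ, ∃ j ≤ Jt d M, ∃ ρ : ℕ, ρ < e ∧ ∃ n : ℤ, cf (H j) n ρ ≠ 0 ∧
      n + 2 * ρ * (e - ρ) = v := by
    by_contra hne
    refine hHj₀ ((hH j₀ hj₀).eq_zero he (hγj j₀) fun ρ hρ n => ?_)
    by_contra hc
    have hn : 0 ≤ n := by
      by_contra hn
      exact hc (cf_neg _ (not_le.mp hn) _)
    have h1 : 0 ≤ n + 2 * (ρ : ℤ) * (e - ρ) := by
      have : (0 : ℤ) ≤ e - ρ := by omega
      positivity
    obtain ⟨v, hv⟩ := Int.eq_ofNat_of_zero_le h1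
    exact hne ⟨v, j₀, hj₀, ρ, hρ, n, hc, hv⟩
  obtain ⟨j₁, hj₁, ρ₁, hρ₁, n₁, hc₁, hv₁⟩ := Nat.find_spec hex
  have hmin := fun v hv => Nat.find_min hex (m := v) hv
  generalize Nat.find hex = μ at *
  have hμ : ∀ j ≤ Jt d M, ∀ ρ : ℤ, 0 ≤ ρ → ρ < e → ∀ n, n + 2 * ρ * (e - ρ) < μ →
      cf (H j) n ρ = 0 := by
    intro j hj ρ hρ0 hρ n hn
    obtain ⟨ρ, rfl⟩ := Int.eq_ofNat_of_zero_le hρ0
    have hρ : ρ < e := by omega
    by_contra hc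
    have hn0 : 0 ≤ n := by
      by_contra hn
      exact hc (cf_neg _ (not_le.mp hn) _)
    have h1 : 0 ≤ n + 2 * (ρ : ℤ) * (e - ρ) := by
      have : (0 : ℤ) ≤ e - ρ := by omega
      positivity
    obtain ⟨v, hv⟩ := Int.eq_ofNat_of_zero_le h1
    exact hmin v (by omega) ⟨j, hj, ρ, hρ, n, hc, hv⟩
  have hw : ∀ j, ∀ n l : ℤ, n + 2 * l * (e - l) < μ → cf (H j) n l = 0 := by
    intro j n l hnl
    by_cases h0 : H j = 0
    · rw [h0, cf_zero]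
    · have hjJ := (hlev j h0).1
      exact weight_all e he _ (hγj j) (H j) (hH j hjJ) μ (hμ j hjJ) n l hnl
  have hG := hsys (fun ρ j => cf (H j) (μ - 2 * ρ * (e - ρ)) ρ)
    (fun ρ hρ j _ hlt => lev_vanish he hstd hlev μ hw hρ hlt)
    (fun σ _ ρ _ htie => hcc σ ρ htie H hlev μ hw)
    (fun i => rel_of_cond e he (Jt d M) γ ν hγ hν H hH (m i) (p i) (o i) (αi i) (t i) (hα i)
      (hc i) (hcond i) μ hμ) ρ₁ hρ₁ j₁ hj₁
  rw [← hv₁, show n₁ + 2 * (ρ₁ : ℤ) * (e - ρ₁) - 2 * ρ₁ * (e - ρ₁) = n₁ by ring] at hG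
  exact hc₁ hG

end ShghT
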