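import Pool.Agent.ShghT.Interp

/-!
# Exact placement of many points: the distribution

`A q j = (q + 1 - rk 0 true j)⁺` is the pattern of a point of multiplicity `q` (`q` at `j = 0`, `q - 1` at `1`,
`q - 2` at `-1`, `q - 3` at `2`, ...).
-/

namespace ShghT

/-- The pattern of a point of multiplicity `q` with centre `0`. -/
noncomputable def pat (q : ℕ) (j : ℤ) : ℤ := (((q : ℤ) + 1 - rk 0 true j).toNat : ℤ)

theorem CombZ_two_choose (n : ℕ) : 2 * (((n + 1).choose 2 : ℕ) : ℤ) = n * (n + 1) := by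
  induction n with
  | zero => simp
  | succ n ih =>
    rw [Nat.choose_succ_succ (n + 1) 1, Nat.choose_one_right]
    push_cast at ih ⊢
    linarith

theorem CombZ_sum_sym (f : ℤ → ℤ) (n : ℕ) : ∑ j ∈ Finset.Icc (-(n : ℤ)) n, f j =
    f 0 + ∑ i ∈ Finset.range n, (f (i + 1) + f (-(i + 1))) := by
  induction n with
  | zero => simp
  | succ n ih =>
    have h1 : Finset.Icc (-((n + 1 : ℕ) : ℤ)) ((n + 1 : ℕ) : ℤ) =
        insert ((n : ℤ) + 1) (insert (-((n : ℤ) + 1)) (Finset.Icc (-(n : ℤ)) n)) := by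
      ext j
      simp only [Finset.mem_Icc, Finset.mem_insert]
      push_cast
      omega
    rw [h1, Finset.sum_insert, Finset.sum_insert, ih, Finset.sum_range_succ]
    · ring
    · rw [Finset.mem_Icc]
      omega
    · simp only [Finset.mem_insert, Finset.mem_Icc]
      omega

theorem CombZ_pat_eq (q : ℕ) (j : ℤ) :
    pat q j = max 0 ((q : ℤ) + 1 - max (2 * j) (1 - 2 * j)) := by
  unfold pat rk
  simp only [if_true, sub_zero]
  omega

theorem CombZ_tri (n : ℕ) : ∀ m : ℕ, m ≤ 2 * n + 1 →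
    2 * ∑ i ∈ Finset.range n, (max 0 ((m : ℤ) - 1 - 2 * i) + max 0 ((m : ℤ) - 2 - 2 * i)) =
      (m : ℤ) * (m - 1) := by
  induction n with
  | zero =>
    intro m hm
    have : m = 0 ∨ m = 1 := by omega
    rcases this with rfl | rfl <;> simp
  | succ n ih =>
    intro m hm
    rw [Finset.sum_range_succ']
    by_cases h2 : 2 ≤ m
    · obtain ⟨m', rfl⟩ : ∃ m', m = m' + 2 := ⟨m - 2, by omega⟩
      have h3 := ih m' (by omega)
      have h4 : ∀ i ∈ Finset.range n, (max 0 (((m' + 2 : ℕ) : ℤ) - 1 - 2 * ((i + 1 : ℕ) : ℤ)) +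
          max 0 (((m' + 2 : ℕ) : ℤ) - 2 - 2 * ((i + 1 : ℕ) : ℤ))) =
          max 0 ((m' : ℤ) - 1 - 2 * i) + max 0 ((m' : ℤ) - 2 - 2 * i) := fun i _ => by
        push_cast
        congr 2 <;> ring
      rw [Finset.sum_congr rfl h4, mul_add, h3]
      have h5 : max (0 : ℤ) (((m' + 2 : ℕ) : ℤ) - 1 - 2 * ((0 : ℕ) : ℤ)) = m' + 1 := by
        push_cast
        omega
      have h6 : max (0 : ℤ) (((m' + 2 : ℕ) : ℤ) - 2 - 2 * ((0 : ℕ) : ℤ)) = m' := by
        push_cast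
        omega
      rw [h5, h6]
      push_cast
      ring
    · have h7 : ∀ i : ℕ, (max 0 ((m : ℤ) - 1 - 2 * (i : ℤ)) +
          max 0 ((m : ℤ) - 2 - 2 * (i : ℤ))) = 0 := fun i => by omega
      rw [Finset.sum_eq_zero fun i _ => h7 (i + 1), h7 0]
      have : m = 0 ∨ m = 1 := by omega
      rcases this with rfl | rfl <;> simp

/-- `∑ A q j = w_q = q (q + 1) / 2`. -/
theorem sum_pat (q : ℕ) : ∑ j ∈ Finset.Icc (-(q : ℤ)) q, pat q j = ((q + 1).choose 2 : ℕ) := by
  rw [CombZ_sum_sym]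
  have h1 := CombZ_tri q q (by omega)
  have h2 := CombZ_two_choose q
  have h3 : pat q 0 = q := by
    rw [CombZ_pat_eq]
    omega
  have h4 : ∀ i ∈ Finset.range q, (pat q ((i : ℤ) + 1) + pat q (-((i : ℤ) + 1))) =
      max 0 ((q : ℤ) - 1 - 2 * i) + max 0 ((q : ℤ) - 2 - 2 * i) := fun i _ => by
    rw [CombZ_pat_eq, CombZ_pat_eq]
    congr 1 <;> omega
  rw [h3, Finset.sum_congr rfl h4]
  nlinarith

/-- `∑ j A q j = μ_q = h (h + 1) / 2`, `h = q / 2`. (The `k`-th unit interval `{rk ≤ k}` of the pattern is centred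
at `0` for odd `k`, at `1/2` for even `k`.) -/
theorem sum_mul_pat (q : ℕ) : ∑ j ∈ Finset.Icc (-(q : ℤ)) q, j * pat q j =
    ((q / 2 + 1).choose 2 : ℕ) := by
  rw [CombZ_sum_sym (fun j => j * pat q j)]
  have h4 : ∀ i ∈ Finset.range q, (((i : ℤ) + 1) * pat q ((i : ℤ) + 1) +
      -((i : ℤ) + 1) * pat q (-((i : ℤ) + 1))) = if i < q / 2 then (i : ℤ) + 1 else 0 := by
    intro i _
    rw [CombZ_pat_eq, CombZ_pat_eq]
    have h5 : max 0 ((q : ℤ) + 1 - max (2 * ((i : ℤ) + 1)) (1 - 2 * ((i : ℤ) + 1))) -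
        max 0 ((q : ℤ) + 1 - max (2 * (-((i : ℤ) + 1))) (1 - 2 * (-((i : ℤ) + 1)))) =
        if i < q / 2 then 1 else 0 := by
      split_ifs with h <;> omega
    have h6 : ∀ a b c : ℤ, a * b + -a * c = a * (b - c) := fun a b c => by ring
    rw [h6, h5]
    split_ifs <;> ring
  rw [Finset.sum_congr rfl h4]
  have h7 : ∑ i ∈ Finset.range q, (if i < q / 2 then (i : ℤ) + 1 else 0) =
      ∑ i ∈ Finset.range (q / 2), ((i : ℤ) + 1) := by
    rw [← Finset.sum_filter]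
    refine Finset.sum_congr ?_ fun _ _ => rfl
    ext i
    simp only [Finset.mem_filter, Finset.mem_range]
    omega
  rw [h7]
  have h8 : ∀ n : ℕ, 2 * ∑ i ∈ Finset.range n, ((i : ℤ) + 1) = n * (n + 1) := by
    intro n
    induction n with
    | zero => simp
    | succ n ih =>
      rw [Finset.sum_range_succ, mul_add, ih]
      push_cast
      ring
  have h9 := h8 (q / 2)
  have h10 := CombZ_two_choose (q / 2)
  have h11 : (0 : ℤ) * pat q 0 = 0 := zero_mul _
  rw [h11]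
  linarith

/-- The support of the pattern. -/
theorem pat_eq_zero (q : ℕ) (j : ℤ) (h : ((q / 2 : ℕ) : ℤ) < |j|) : pat q j = 0 := by
  rw [CombZ_pat_eq]
  rcases abs_cases j with ⟨h1, h2⟩ | ⟨h1, h2⟩ <;> rw [h1] at h <;> omega

theorem CombZ_pat_nonneg (q : ℕ) (j : ℤ) : 0 ≤ pat q j := by
  rw [CombZ_pat_eq]
  exact le_max_left _ _

/-- A function with given differences. -/
theorem CombZ_primitive (Q : ℤ → ℤ) : ∃ P : ℤ → ℤ, P (-1) = 0 ∧ ∀ x, P x - P (x - 1) = Q x := by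
  refine ⟨fun x => ∑ y ∈ Finset.Ico 0 (x + 1), Q y - ∑ y ∈ Finset.Ico (x + 1) 0, Q y, by simp,
    fun x => ?_⟩
  simp only [sub_add_cancel]
  rcases le_or_gt 0 x with h | h
  · have h1 : Finset.Ico 0 (x + 1) = insert x (Finset.Ico 0 x) := by
      ext y
      simp only [Finset.mem_Ico, Finset.mem_insert]
      omega
    have h2 : Finset.Ico (x + 1) 0 = ∅ := Finset.Ico_eq_empty (by omega)
    have h3 : Finset.Ico x 0 = ∅ := Finset.Ico_eq_empty (by omega)
    rw [h1, h2, h3, Finset.sum_insert (by simp)]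
    simp
  · have h1 : Finset.Ico x 0 = insert x (Finset.Ico (x + 1) 0) := by
      ext y
      simp only [Finset.mem_Ico, Finset.mem_insert]
      omega
    have h2 : Finset.Ico 0 (x + 1) = ∅ := Finset.Ico_eq_empty (by omega)
    have h3 : Finset.Ico 0 x = ∅ := Finset.Ico_eq_empty (by omega)
    rw [h1, h2, h3, Finset.sum_insert (by simp)]
    simp

section

variable {Q P : ℤ → ℤ}

theorem CombZ_Q_add (hs : ∀ x, |Q (x + 1) - Q x| ≤ 3) (x : ℤ) (n : ℕ) :
    |Q (x + n) - Q x| ≤ 3 * n := by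
  induction n with
  | zero => simp
  | succ n ih =>
    have h1 := hs (x + n)
    have h2 : x + ((n + 1 : ℕ) : ℤ) = x + n + 1 := by push_cast; ring
    rw [h2]
    rw [abs_le] at *
    push_cast
    constructor <;> linarith

theorem CombZ_Q_sub (hs : ∀ x, |Q (x + 1) - Q x| ≤ 3) (x j : ℤ) :
    |Q (x - j) - Q x| ≤ 3 * |j| := by
  rcases le_total 0 j with h | h
  · obtain ⟨n, rfl⟩ := Int.eq_ofNat_of_zero_le h
    have h1 := CombZ_Q_add hs (x - n) n
    rw [sub_add_cancel, abs_sub_comm] at h1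
    rw [Nat.abs_cast]
    exact h1
  · obtain ⟨n, hn⟩ := Int.eq_ofNat_of_zero_le (neg_nonneg.mpr h)
    obtain rfl : j = -(n : ℤ) := by omega
    have h1 := CombZ_Q_add hs x n
    rw [sub_neg_eq_add, abs_neg, Nat.abs_cast]
    exact h1

theorem CombZ_P_add (hs : ∀ x, |Q (x + 1) - Q x| ≤ 3) (hP : ∀ x, P x - P (x - 1) = Q x) (x : ℤ)
    (n : ℕ) : 2 * |P (x + n) - P x - n * Q x| ≤ 3 * (n * (n + 1)) := by
  induction n with
  | zero => simp
  | succ n ih =>
    have h1 := hP (x + n + 1)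
    rw [add_sub_cancel_right] at h1
    have h2 : x + ((n + 1 : ℕ) : ℤ) = x + n + 1 := by push_cast; ring
    have h3 := CombZ_Q_add hs x (n + 1)
    rw [h2] at h3 ⊢
    push_cast at h3 ⊢
    have h4 : P (x + n + 1) - P x - (n + 1) * Q x = (P (x + n) - P x - n * Q x) +
        (Q (x + n + 1) - Q x) := by linarith
    rw [h4]
    have h5 := abs_add_le (P (x + n) - P x - n * Q x) (Q (x + n + 1) - Q x)
    nlinarith

theorem CombZ_P_sub' (hs : ∀ x, |Q (x + 1) - Q x| ≤ 3) (hP : ∀ x, P x - P (x - 1) = Q x) (x : ℤ)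
    (n : ℕ) : 2 * |P (x - n) - P x + n * Q x| ≤ 3 * (n * (n + 1)) := by
  induction n with
  | zero => simp
  | succ n ih =>
    have h1 := hP (x - n)
    have h2 : x - ((n + 1 : ℕ) : ℤ) = x - n - 1 := by push_cast; ring
    have h3 := CombZ_Q_sub hs x n
    rw [Nat.abs_cast] at h3
    rw [h2]
    push_cast
    have h4 : P (x - n - 1) - P x + (n + 1) * Q x = (P (x - n) - P x + n * Q x) -
        (Q (x - n) - Q x) := by linarith
    rw [h4]
    have h5 := abs_sub (P (x - n) - P x + n * Q x) (Q (x - n) - Q x)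
    nlinarith

theorem CombZ_P_sub (hs : ∀ x, |Q (x + 1) - Q x| ≤ 3) (hP : ∀ x, P x - P (x - 1) = Q x) (x j : ℤ)
    {h : ℕ} (hj : |j| ≤ h) : |P (x - j) - P x + j * Q x| ≤ 3 * (((h + 1).choose 2 : ℕ) : ℤ) := by
  have hch := CombZ_two_choose h
  have key : 2 * |P (x - j) - P x + j * Q x| ≤ 3 * (|j| * (|j| + 1)) := by
    rcases le_total 0 j with h0 | h0
    · obtain ⟨n, rfl⟩ := Int.eq_ofNat_of_zero_le h0
      have h1 := CombZ_P_sub' hs hP x n
      rw [Nat.abs_cast]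
      exact h1
    · obtain ⟨n, hn⟩ := Int.eq_ofNat_of_zero_le (neg_nonneg.mpr h0)
      obtain rfl : j = -(n : ℤ) := by omega
      have h1 := CombZ_P_add hs hP x n
      rw [abs_neg, Nat.abs_cast, sub_neg_eq_add]
      have h2 : P (x + n) - P x + -(n : ℤ) * Q x = P (x + n) - P x - n * Q x := by ring
      rw [h2]
      exact h1
  have h0 : 0 ≤ |j| := abs_nonneg j
  nlinarith

end

theorem CombZ_mu_le (q : ℕ) : 3 * (((q / 2 + 1).choose 2 : ℕ) : ℤ) ≤ (((q + 1).choose 2 : ℕ) : ℤ) := by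
  have h1 := CombZ_two_choose q
  have h2 := CombZ_two_choose (q / 2)
  have h3 : 2 * ((q / 2 : ℕ) : ℤ) ≤ q := by omega
  have h4 : (0 : ℤ) ≤ ((q / 2 : ℕ) : ℤ) := by positivity
  have h5 : ((q / 2 : ℕ) : ℤ) ≤ ((q / 2 : ℕ) : ℤ) * ((q / 2 : ℕ) : ℤ) := by
    rcases Nat.eq_zero_or_pos (q / 2) with h | h
    · rw [h]; simp
    · have : (1 : ℤ) ≤ ((q / 2 : ℕ) : ℤ) := by exact_mod_cast h
      nlinarith
  nlinarith

/-- The sum of the pattern against `R`. -/
theorem CombZ_conv {Q P : ℤ → ℤ} (hs : ∀ x, |Q (x + 1) - Q x| ≤ 3)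
    (hP : ∀ x, P x - P (x - 1) = Q x) (q : ℕ) (x : ℤ) :
    |∑ j ∈ Finset.Icc (-(q : ℤ)) q, pat q j *
      ((((q + 1).choose 2 : ℕ) : ℤ) * P (x - j) + (((q / 2 + 1).choose 2 : ℕ) : ℤ) * Q (x - j)) -
      (((q + 1).choose 2 : ℕ) : ℤ) ^ 2 * P x| ≤ (((q + 1).choose 2 : ℕ) : ℤ) ^ 2 *
        (3 * (((q / 2 + 1).choose 2 : ℕ) : ℤ) + ((q / 2 : ℕ) : ℤ)) := by
  set w : ℤ := (((q + 1).choose 2 : ℕ) : ℤ) with hw
  set μ : ℤ := (((q / 2 + 1).choose 2 : ℕ) : ℤ) with hμ
  have h1 := sum_pat q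
  have h2 := sum_mul_pat q
  have hμw := CombZ_mu_le q
  have hw0 : 0 ≤ w := by positivity
  have hμ0 : 0 ≤ μ := by positivity
  have h3 : ∑ j ∈ Finset.Icc (-(q : ℤ)) q, pat q j * (w * P (x - j) + μ * Q (x - j)) - w ^ 2 * P x =
      ∑ j ∈ Finset.Icc (-(q : ℤ)) q, pat q j * (w * (P (x - j) - P x + j * Q x) +
        μ * (Q (x - j) - Q x)) := by
    have h4 : ∀ j ∈ Finset.Icc (-(q : ℤ)) q, pat q j * (w * (P (x - j) - P x + j * Q x) +
        μ * (Q (x - j) - Q x)) = pat q j * (w * P (x - j) + μ * Q (x - j)) -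
        (w * P x + μ * Q x) * pat q j + w * Q x * (j * pat q j) := fun j _ => by ring
    rw [Finset.sum_congr rfl h4, Finset.sum_add_distrib, Finset.sum_sub_distrib,
      ← Finset.mul_sum, ← Finset.mul_sum, h1, h2]
    ring
  rw [h3]
  refine (Finset.abs_sum_le_sum_abs _ _).trans ?_
  calc ∑ j ∈ Finset.Icc (-(q : ℤ)) q, |pat q j * (w * (P (x - j) - P x + j * Q x) +
        μ * (Q (x - j) - Q x))|
      ≤ ∑ j ∈ Finset.Icc (-(q : ℤ)) q, pat q j * (w * (3 * μ + ((q / 2 : ℕ) : ℤ))) := by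
        refine Finset.sum_le_sum fun j _ => ?_
        rw [abs_mul, abs_of_nonneg (CombZ_pat_nonneg q j)]
        by_cases hj : |j| ≤ ((q / 2 : ℕ) : ℤ)
        · refine mul_le_mul_of_nonneg_left ?_ (CombZ_pat_nonneg q j)
          have h5 := CombZ_P_sub hs hP x j hj
          have h6 := CombZ_Q_sub hs x j
          have h7 := abs_add_le (w * (P (x - j) - P x + j * Q x)) (μ * (Q (x - j) - Q x))
          rw [abs_mul, abs_mul, abs_of_nonneg hw0, abs_of_nonneg hμ0] at h7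
          have h8 : w * |P (x - j) - P x + j * Q x| ≤ w * (3 * μ) :=
            mul_le_mul_of_nonneg_left h5 hw0
          have h9 : μ * |Q (x - j) - Q x| ≤ μ * (3 * ((q / 2 : ℕ) : ℤ)) :=
            mul_le_mul_of_nonneg_left (h6.trans (by linarith)) hμ0
          have h10 : μ * (3 * ((q / 2 : ℕ) : ℤ)) ≤ w * ((q / 2 : ℕ) : ℤ) := by
            have : (0 : ℤ) ≤ ((q / 2 : ℕ) : ℤ) := by positivity
            nlinarith
          linarith
        · rw [pat_eq_zero q j (not_le.mp hj), zero_mul, zero_mul]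
    _ = w ^ 2 * (3 * μ + ((q / 2 : ℕ) : ℤ)) := by
        rw [← Finset.sum_mul, h1]
        ring

/-- The numerical inequality. -/
theorem CombZ_num (mx : ℕ) (hmx : 3 ≤ mx) :
    (((mx + 1).choose 2 : ℕ) : ℤ) * (∑ q ∈ Finset.Icc 1 mx, (((q + 1).choose 2 : ℕ) : ℤ) +
      4 * (3 * (((mx / 2 + 1).choose 2 : ℕ) : ℤ) + ((mx / 2 : ℕ) : ℤ)) + 2 * mx) ≤
      (mx : ℤ) ^ 5 - 1 := by
  have hW : ∀ n : ℕ, 6 * ∑ q ∈ Finset.Icc 1 n, (((q + 1).choose 2 : ℕ) : ℤ) =
      n * (n + 1) * (n + 2) := by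
    intro n
    induction n with
    | zero => simp
    | succ n ih =>
      rw [Finset.sum_Icc_succ_top (by omega), mul_add, ih]
      have := CombZ_two_choose (n + 1)
      push_cast at this ⊢
      nlinarith
  by_cases h3 : mx = 3
  · subst h3
    decide
  by_cases h4 : mx = 4
  · subst h4
    decide
  have h5 : 5 ≤ mx := by omega
  have h6 := hW mx
  have h7 := CombZ_two_choose mx
  have h8 := CombZ_two_choose (mx / 2)
  set w : ℤ := (((mx + 1).choose 2 : ℕ) : ℤ)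
  set μ : ℤ := (((mx / 2 + 1).choose 2 : ℕ) : ℤ)
  set W : ℤ := ∑ q ∈ Finset.Icc 1 mx, (((q + 1).choose 2 : ℕ) : ℤ)
  have h9 : 2 * ((mx / 2 : ℕ) : ℤ) ≤ mx := by omega
  have h10 : (0 : ℤ) ≤ ((mx / 2 : ℕ) : ℤ) := by positivity
  have h11 : 8 * μ ≤ (mx : ℤ) * (mx + 2) := by nlinarith
  have h12 : 6 * (W + 4 * (3 * μ + ((mx / 2 : ℕ) : ℤ)) + 2 * mx) ≤
      (mx : ℤ) * ((mx : ℤ) ^ 2 + 12 * mx + 44) := by nlinarith
  have h13 : 12 * (w * (W + 4 * (3 * μ + ((mx / 2 : ℕ) : ℤ)) + 2 * mx)) ≤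
      ((mx : ℤ) * (mx + 1)) * ((mx : ℤ) * ((mx : ℤ) ^ 2 + 12 * mx + 44)) := by
    have h14 : (0 : ℤ) ≤ (mx : ℤ) * (mx + 1) := by positivity
    calc 12 * (w * (W + 4 * (3 * μ + ((mx / 2 : ℕ) : ℤ)) + 2 * mx)) = (2 * w) *
          (6 * (W + 4 * (3 * μ + ((mx / 2 : ℕ) : ℤ)) + 2 * mx)) := by ring
      _ = ((mx : ℤ) * (mx + 1)) * (6 * (W + 4 * (3 * μ + ((mx / 2 : ℕ) : ℤ)) + 2 * mx)) := by
          rw [h7]
      _ ≤ _ := mul_le_mul_of_nonneg_left h12 h14
  obtain ⟨k, rfl⟩ : ∃ k, mx = k + 5 := ⟨mx - 5, by omega⟩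
  have h15 : (((k + 5 : ℕ) : ℤ) * (((k + 5 : ℕ) : ℤ) + 1)) * (((k + 5 : ℕ) : ℤ) *
      ((((k + 5 : ℕ) : ℤ)) ^ 2 + 12 * ((k + 5 : ℕ) : ℤ) + 44)) ≤
      12 * ((((k + 5 : ℕ) : ℤ)) ^ 5 - 1) := by
    push_cast
    have hk : (0 : ℤ) ≤ (k : ℤ) := by positivity
    have h2 : (0 : ℤ) ≤ (k : ℤ) ^ 2 := by positivity
    have h3 : (0 : ℤ) ≤ (k : ℤ) ^ 3 := by positivity
    have h4 : (0 : ℤ) ≤ (k : ℤ) ^ 4 := by positivity
    have h5 : (0 : ℤ) ≤ (k : ℤ) ^ 5 := by positivity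
    nlinarith
  linarith

/-- Placing the points of multiplicity `q` proportionally to the demand `Q` and correcting by moving `u x` units
from the column `x` to the column `x + 1`.

PROOF. Notation: `S = ∑_{0 ≤ x < e} Q x > 0`, `w_q = q (q + 1) / 2`, `h = q / 2`, `μ_q = h (h + 1) / 2`,
`P(x) = S (x / e) + ∑_{0 ≤ y ≤ x % e} Q y` (so `P(x) - P(x - 1) = Q x`, `P(x + e) = P(x) + S`, `0 < P(x) - S (x / e) ≤ S`),
`R_q(x) = w_q P(x) + μ_q Q(x)`, `N q x = ⌊a_q R_q(x) / (w_q S)⌋` (`ℤ`-division), `T = ∑ a_q w_q = S + sur`,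
`Φ(x) = ∑_q ∑_j A_q(j) N_q(x - j)`, `P⁺(x) = P(x) + sur (x / e + 1)`, `D = 3 h' (h' + 1) / 2 + h'` with `h' = mx / 2`,
`W = ∑_{q ≤ mx} w_q`, `θ = W + 2 D + mx`, `u(x) = Φ(x) - P⁺(x) + θ`.
(1) `R_q(x) - R_q(x - 1) = w_q Q(x) + μ_q (Q(x) - Q(x - 1)) ≥ w_q (Q(x) - 1) ≥ 0`, because `3 μ_q ≤ w_q`. So `N q` is
monotone; `N q (x + e) = N q x + a_q`.
(2) `∑_j A_q(j) R_q(x - j) = w_q ² P(x) + E`, `|E| ≤ w_q ² (3 h (h + 1) / 2 + h)`: use `P(x - j) = P(x) - j Q(x) + r_j`,
`|r_j| ≤ 3 |j| (|j| + 1) / 2`, `|Q(x - j) - Q(x)| ≤ 3 |j|`, `|j| ≤ h` on the support, `∑ A_q(j) = w_q`, `∑ j A_q(j) = μ_q`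
(the terms with `Q(x)` cancel) and `3 μ_q ≤ w_q`.
(3) Hence (`a_q R / (w_q S) - 1 < N ≤ a_q R / (w_q S)`, `T ≤ 2 S`): `(T/S) P(x) - W - 2 D ≤ Φ(x) ≤ (T/S) P(x) + 2 D`.
(4) `0 ≤ P⁺(x) - (T/S) P(x) ≤ sur ≤ mx`. So `0 ≤ u(x) ≤ W + 4 D + mx`.
(5) `∑_q (N q x - N q (x-1)) ≥ ∑_q (a_q (Q(x) - 1) / S - 1) ≥ (Q(x) - 1) / w_mx - mx`, because
`∑ a_q w_mx ≥ T ≥ S`. For `mx ≥ 3`, `Q(x) ≥ mx ^ 5` this is `≥ W + 4 D + mx`, i.e. `2 (mx^5 - 1) ≥ mx (mx+1) (W + 4 D + 2 mx)`
[`W = mx (mx+1) (mx+2) / 6`, `4 D ≤ 3 mx² / 2 + 5 mx`; check `mx = 3, 4` by hand].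
(6) `u` is `e`-periodic, and `Φ(x) - Φ(x-1) = (P⁺(x) - P⁺(x-1)) + u(x) - u(x-1) = Q(x) + sur [e ∣ x] + u(x) - u(x-1)`. -/
theorem combZ_core (e : ℕ) (he : 0 < e) (mx : ℕ) (hmx : 3 ≤ mx) (Q : ℤ → ℤ)
    (hper : ∀ x, Q (x + e) = Q x) (hQ : ∀ x, (mx : ℤ) ^ 5 ≤ Q x)
    (hs : ∀ x, |Q (x + 1) - Q x| ≤ 3) (a : ℕ → ℕ) (sur : ℕ) (hsur : sur ≤ mx)
    (hT : ∑ q ∈ Finset.Icc 1 mx, ((a q : ℤ) * ((q + 1).choose 2 : ℕ)) =
      ∑ x ∈ Finset.range e, Q x + sur) :
    ∃ (N : ℕ → ℤ → ℤ) (u : ℤ → ℤ), (∀ q, Monotone (N q)) ∧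
      (∀ q ∈ Finset.Icc 1 mx, ∀ x, N q (x + e) = N q x + a q) ∧
      (∀ x, u (x + e) = u x) ∧ (∀ x, 0 ≤ u x) ∧
      (∀ x, u x ≤ ∑ q ∈ Finset.Icc 1 mx, (N q x - N q (x - 1))) ∧
      ∀ x, ∑ q ∈ Finset.Icc 1 mx, ∑ j ∈ Finset.Icc (-(q : ℤ)) q,
        pat q j * (N q (x - j) - N q (x - 1 - j)) =
          Q x + (if (e : ℤ) ∣ x then (sur : ℤ) else 0) + u x - u (x - 1) := by
  obtain ⟨P, hP0, hP⟩ := CombZ_primitive Q
  set S : ℤ := ∑ x ∈ Finset.range e, Q x with hS
  have he' : (0 : ℤ) < e := by exact_mod_cast he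
  have hmx' : (3 : ℤ) ≤ mx := by exact_mod_cast hmx
  have hmx5 : (mx : ℤ) ≤ (mx : ℤ) ^ 5 := by
    have h1 : (1 : ℤ) ≤ (mx : ℤ) ^ 4 := one_le_pow₀ (by linarith)
    calc (mx : ℤ) = mx * 1 := (mul_one _).symm
      _ ≤ mx * (mx : ℤ) ^ 4 := mul_le_mul_of_nonneg_left h1 (by linarith)
      _ = (mx : ℤ) ^ 5 := by ring
  have hQmx : ∀ x, (mx : ℤ) ≤ Q x := fun x => hmx5.trans (hQ x)
  have hQ1 : ∀ x, 1 ≤ Q x := fun x => by linarith [hQmx x]
  -- the primitive
  have hPn : ∀ n : ℕ, P (n - 1) = ∑ x ∈ Finset.range n, Q x := by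
    intro n
    induction n with
    | zero => simpa using hP0
    | succ n ih =>
      rw [Finset.sum_range_succ, ← ih]
      have h1 := hP n
      push_cast
      rw [add_sub_cancel_right]
      linarith
  have hPe : ∀ x, P (x + e) = P x + S := by
    have h1 : ∀ x, P (x + e) - P x = P (x - 1 + e) - P (x - 1) := fun x => by
      have h2 := hP x
      have h3 := hP (x + e)
      rw [hper] at h3
      have h4 : x + (e : ℤ) - 1 = x - 1 + e := by ring
      rw [h4] at h3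
      linarith
    have h5 : ∀ x, P (x + e) - P x = S := by
      intro x
      induction x using Int.induction_on with
      | zero =>
        rw [h1 0]
        have h6 := hPn e
        have h7 : (0 : ℤ) - 1 + e = e - 1 := by ring
        have h8 : (0 : ℤ) - 1 = -1 := by norm_num
        rw [h7, h8, h6, hP0]
        simp [hS]
      | succ n ih =>
        rw [h1, add_sub_cancel_right]
        exact ih
      | pred n ih =>
        rw [h1] at ih
        exact ih
    intro x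
    linarith [h5 x]
  have hPmono : ∀ x, P (x - 1) < P x := fun x => by linarith [hP x, hQ1 x]
  have hPmn : ∀ (x : ℤ) (n : ℕ), P x ≤ P (x + n) := by
    intro x n
    induction n with
    | zero => simp
    | succ n ih =>
      have h1 := hPmono (x + n + 1)
      rw [add_sub_cancel_right] at h1
      push_cast
      rw [← add_assoc]
      linarith
  have hPper : ∀ (k : ℤ) (x : ℤ), P (x + k * e) = P x + k * S := by
    intro k
    induction k using Int.induction_on with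
    | zero => intro x; simp
    | succ n ih =>
      intro x
      have h1 : x + ((n : ℤ) + 1) * e = (x + n * e) + e := by ring
      rw [h1, hPe, ih]
      ring
    | pred n ih =>
      intro x
      have h1 : x + (-(n : ℤ)) * e = (x + (-(n : ℤ) - 1) * e) + e := by ring
      have h2 := ih x
      rw [h1, hPe] at h2
      linarith
  have hPb : ∀ x, S * (x / e) < P x ∧ P x ≤ S * (x / e) + S := by
    intro x
    have h1 := hPper (x / e) (x % e)
    have h2 : x % e + x / e * e = x := by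
      rw [mul_comm]
      exact Int.emod_add_mul_ediv x e
    rw [h2] at h1
    have h3 := Int.emod_nonneg x he'.ne'
    have h4 := Int.emod_lt_of_pos x he'
    have h5 : 0 < P (x % e) := by
      obtain ⟨n, hn⟩ := Int.eq_ofNat_of_zero_le h3
      have h6 := hPmono 0
      have h7 := hPmn 0 n
      rw [zero_add] at h7
      rw [hn]
      have h8 : (0 : ℤ) - 1 = -1 := by norm_num
      rw [h8, hP0] at h6
      linarith
    have h9 : P (x % e) ≤ S := by
      obtain ⟨n, hn⟩ := Int.eq_ofNat_of_zero_le (show (0 : ℤ) ≤ e - 1 - x % e by omega)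
      have h10 := hPmn (x % e) n
      have h11 : x % e + (n : ℤ) = e - 1 := by omega
      rw [h11, hPn e] at h10
      exact h10
    rw [h1]
    constructor <;> linarith [mul_comm S (x / e)]
  have hSpos : 0 < S := by
    have h1 := hPb 0
    linarith [h1.1, h1.2]
  have hSmx : (mx : ℤ) ≤ S := by
    have h1 : ∑ x ∈ Finset.range e, Q x ≥ Q 0 := by
      have h2 : Q ((0 : ℕ) : ℤ) ≤ ∑ x ∈ Finset.range e, Q (x : ℤ) :=
        Finset.single_le_sum (f := fun x : ℕ => Q (x : ℤ))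
          (fun x _ => by linarith [hQ1 x]) (Finset.mem_range.mpr he)
      simpa using h2
    rw [hS]
    linarith [hQmx 0]
  -- notation
  set w : ℕ → ℤ := fun q => (((q + 1).choose 2 : ℕ) : ℤ) with hw
  set μ : ℕ → ℤ := fun q => (((q / 2 + 1).choose 2 : ℕ) : ℤ) with hμ
  set W : ℤ := ∑ q ∈ Finset.Icc 1 mx, w q with hW
  set D : ℤ := 3 * μ mx + ((mx / 2 : ℕ) : ℤ) with hD
  set T : ℤ := ∑ q ∈ Finset.Icc 1 mx, (a q : ℤ) * w q with hTdef
  have hTS : T = S + sur := hT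
  have hwpos : ∀ q ∈ Finset.Icc 1 mx, 0 < w q := fun q hq => by
    have h1 : 1 ≤ q := (Finset.mem_Icc.mp hq).1
    simp only [hw]
    exact_mod_cast Nat.choose_pos (by omega)
  have hw0 : ∀ q, 0 ≤ w q := fun q => by simp only [hw]; positivity
  have hμ0 : ∀ q, 0 ≤ μ q := fun q => by simp only [hμ]; positivity
  have hμw : ∀ q, 3 * μ q ≤ w q := fun q => CombZ_mu_le q
  have hwmx : ∀ q ∈ Finset.Icc 1 mx, w q ≤ w mx := fun q hq => by
    simp only [hw]
    exact_mod_cast Nat.choose_le_choose 2 (by have := (Finset.mem_Icc.mp hq).2; omega)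
  have hDq : ∀ q ∈ Finset.Icc 1 mx, 3 * μ q + ((q / 2 : ℕ) : ℤ) ≤ D := fun q hq => by
    have h1 : q ≤ mx := (Finset.mem_Icc.mp hq).2
    have h2 : μ q ≤ μ mx := by
      simp only [hμ]
      exact_mod_cast Nat.choose_le_choose 2 (by omega)
    have h3 : ((q / 2 : ℕ) : ℤ) ≤ ((mx / 2 : ℕ) : ℤ) := by
      exact_mod_cast Nat.div_le_div_right h1
    rw [hD]
    linarith
  have hD0 : 0 ≤ D := by
    rw [hD]
    have := hμ0 mx
    positivity
  set R : ℕ → ℤ → ℤ := fun q x => w q * P x + μ q * Q x with hR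
  have hRmono : ∀ q x, w q * (Q x - 1) ≤ R q x - R q (x - 1) := fun q x => by
    have h1 := hP x
    have h2 := hs (x - 1)
    rw [sub_add_cancel, abs_le] at h2
    have h3 : R q x - R q (x - 1) = w q * (P x - P (x - 1)) + μ q * (Q x - Q (x - 1)) := by
      simp only [hR]
      ring
    rw [h3, h1]
    nlinarith [hμw q, hμ0 q, h2.1]
  have hRe : ∀ q x, R q (x + e) = R q x + w q * S := fun q x => by
    simp only [hR]
    rw [hPe, hper]
    ring
  set N : ℕ → ℤ → ℤ := fun q x => (a q : ℤ) * R q x / (w q * S) with hN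
  have hKpos : ∀ q ∈ Finset.Icc 1 mx, 0 < w q * S := fun q hq => mul_pos (hwpos q hq) hSpos
  have hNle : ∀ q ∈ Finset.Icc 1 mx, ∀ x, w q * S * N q x ≤ (a q : ℤ) * R q x := fun q hq x =>
    Int.mul_ediv_self_le (hKpos q hq).ne'
  have hNlt : ∀ q ∈ Finset.Icc 1 mx, ∀ x, (a q : ℤ) * R q x < w q * S * N q x + w q * S :=
    fun q hq x => by
      have := Int.lt_mul_ediv_self_add (x := (a q : ℤ) * R q x) (hKpos q hq)
      exact this
  -- the function `Φ`
  set Φ : ℤ → ℤ := fun x => ∑ q ∈ Finset.Icc 1 mx, ∑ j ∈ Finset.Icc (-(q : ℤ)) q,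
    pat q j * N q (x - j) with hΦ
  set PP : ℤ → ℤ := fun x => P x + sur * (x / e + 1) with hPP
  set θ : ℤ := W + 2 * D + mx with hθ
  -- bounds for one `q`
  have hq1 : ∀ q ∈ Finset.Icc 1 mx, ∀ x, S * ∑ j ∈ Finset.Icc (-(q : ℤ)) q,
      pat q j * N q (x - j) ≤ (a q : ℤ) * w q * (P x + D) := by
    intro q hq x
    have h1 := (abs_le.mp (CombZ_conv hs hP q x)).2
    have h2 : w q * (S * ∑ j ∈ Finset.Icc (-(q : ℤ)) q, pat q j * N q (x - j)) ≤
        (a q : ℤ) * ∑ j ∈ Finset.Icc (-(q : ℤ)) q, pat q j * R q (x - j) := by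
      rw [Finset.mul_sum, Finset.mul_sum, Finset.mul_sum]
      refine Finset.sum_le_sum fun j _ => ?_
      have h3 := mul_le_mul_of_nonneg_left (hNle q hq (x - j)) (CombZ_pat_nonneg q j)
      calc w q * (S * (pat q j * N q (x - j))) = pat q j * (w q * S * N q (x - j)) := by ring
        _ ≤ pat q j * ((a q : ℤ) * R q (x - j)) := h3
        _ = _ := by ring
    have h4 : ∑ j ∈ Finset.Icc (-(q : ℤ)) q, pat q j * R q (x - j) ≤ w q ^ 2 * (P x + D) := by
      have h5 : w q ^ 2 * (3 * μ q + ((q / 2 : ℕ) : ℤ)) ≤ w q ^ 2 * D :=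
        mul_le_mul_of_nonneg_left (hDq q hq) (sq_nonneg _)
      have h6 : ∑ j ∈ Finset.Icc (-(q : ℤ)) q, pat q j * R q (x - j) - w q ^ 2 * P x ≤
          w q ^ 2 * (3 * μ q + ((q / 2 : ℕ) : ℤ)) := h1
      linarith
    have h7 : (a q : ℤ) * ∑ j ∈ Finset.Icc (-(q : ℤ)) q, pat q j * R q (x - j) ≤
        (a q : ℤ) * (w q ^ 2 * (P x + D)) := mul_le_mul_of_nonneg_left h4 (Nat.cast_nonneg _)
    have h8 : w q * (S * ∑ j ∈ Finset.Icc (-(q : ℤ)) q, pat q j * N q (x - j)) ≤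
        w q * ((a q : ℤ) * w q * (P x + D)) := by
      refine (h2.trans h7).trans (le_of_eq ?_)
      ring
    exact le_of_mul_le_mul_left h8 (hwpos q hq)
  have hq2 : ∀ q ∈ Finset.Icc 1 mx, ∀ x, (a q : ℤ) * w q * (P x - D) - S * w q ≤
      S * ∑ j ∈ Finset.Icc (-(q : ℤ)) q, pat q j * N q (x - j) := by
    intro q hq x
    have h1 := (abs_le.mp (CombZ_conv hs hP q x)).1
    have h2 : (a q : ℤ) * ∑ j ∈ Finset.Icc (-(q : ℤ)) q, pat q j * R q (x - j) ≤
        w q * (S * ∑ j ∈ Finset.Icc (-(q : ℤ)) q, pat q j * N q (x - j)) + w q * S * w q := by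
      have h0 : w q * S * w q = ∑ j ∈ Finset.Icc (-(q : ℤ)) q, pat q j * (w q * S) := by
        rw [← Finset.sum_mul, sum_pat q]
        ring
      rw [h0, Finset.mul_sum, Finset.mul_sum, Finset.mul_sum, ← Finset.sum_add_distrib]
      refine Finset.sum_le_sum fun j _ => ?_
      have h3 := mul_le_mul_of_nonneg_left (hNlt q hq (x - j)).le (CombZ_pat_nonneg q j)
      calc (a q : ℤ) * (pat q j * R q (x - j)) = pat q j * ((a q : ℤ) * R q (x - j)) := by ring
        _ ≤ pat q j * (w q * S * N q (x - j) + w q * S) := h3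
        _ = _ := by ring
    have h4 : w q ^ 2 * (P x - D) ≤ ∑ j ∈ Finset.Icc (-(q : ℤ)) q, pat q j * R q (x - j) := by
      have h5 : w q ^ 2 * (3 * μ q + ((q / 2 : ℕ) : ℤ)) ≤ w q ^ 2 * D :=
        mul_le_mul_of_nonneg_left (hDq q hq) (sq_nonneg _)
      have h6 : -(w q ^ 2 * (3 * μ q + ((q / 2 : ℕ) : ℤ))) ≤
          ∑ j ∈ Finset.Icc (-(q : ℤ)) q, pat q j * R q (x - j) - w q ^ 2 * P x := h1
      linarith
    have h7 : (a q : ℤ) * (w q ^ 2 * (P x - D)) ≤
        (a q : ℤ) * ∑ j ∈ Finset.Icc (-(q : ℤ)) q, pat q j * R q (x - j) :=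
      mul_le_mul_of_nonneg_left h4 (Nat.cast_nonneg _)
    have h8 : w q * ((a q : ℤ) * w q * (P x - D) - S * w q) ≤
        w q * (S * ∑ j ∈ Finset.Icc (-(q : ℤ)) q, pat q j * N q (x - j)) := by
      have h9 := h7.trans h2
      have h10 : w q * ((a q : ℤ) * w q * (P x - D) - S * w q) =
          (a q : ℤ) * (w q ^ 2 * (P x - D)) - w q * S * w q := by ring
      rw [h10]
      linarith
    exact le_of_mul_le_mul_left h8 (hwpos q hq)
  have hT2 : T * D ≤ 2 * S * D := by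
    refine mul_le_mul_of_nonneg_right ?_ hD0
    have : (sur : ℤ) ≤ mx := by exact_mod_cast hsur
    linarith
  have hsurmx : (sur : ℤ) ≤ mx := by exact_mod_cast hsur
  have hsur0 : (0 : ℤ) ≤ sur := Nat.cast_nonneg _
  have hΦ1 : ∀ x, S * Φ x ≤ T * P x + 2 * S * D := by
    intro x
    have h1 : S * Φ x ≤ T * (P x + D) := by
      simp only [hΦ, hTdef]
      rw [Finset.mul_sum, Finset.sum_mul]
      exact Finset.sum_le_sum fun q hq => hq1 q hq x
    linarith [mul_add T (P x) D]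
  have hΦ2 : ∀ x, T * P x - 2 * S * D - S * W ≤ S * Φ x := by
    intro x
    have h1 : T * (P x - D) - S * W ≤ S * Φ x := by
      simp only [hΦ, hTdef, hW]
      rw [Finset.mul_sum, Finset.mul_sum, Finset.sum_mul, ← Finset.sum_sub_distrib]
      exact Finset.sum_le_sum fun q hq => hq2 q hq x
    linarith [mul_sub T (P x) D]
  have hPP1 : ∀ x, T * P x ≤ S * PP x ∧ S * PP x ≤ T * P x + S * sur := by
    intro x
    obtain ⟨h1, h2⟩ := hPb x
    have h3 := mul_le_mul_of_nonneg_left h1.le hsur0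
    have h4 := mul_le_mul_of_nonneg_left h2 hsur0
    have h5 : S * PP x = S * P x + sur * (S * (x / e)) + S * sur := by
      simp only [hPP]
      ring
    rw [hTS, h5]
    constructor
    · linarith [add_mul S (sur : ℤ) (P x), mul_add (sur : ℤ) (S * (x / e)) S,
        mul_comm (sur : ℤ) S]
    · linarith [add_mul S (sur : ℤ) (P x)]
  have hu1 : ∀ x, Φ x - PP x ≤ 2 * D := by
    intro x
    have h1 := hΦ1 x
    have h2 := (hPP1 x).1
    have h3 : S * (Φ x - PP x) ≤ S * (2 * D) := by linarith [mul_sub S (Φ x) (PP x)]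
    exact le_of_mul_le_mul_left h3 hSpos
  have hu2 : ∀ x, -(2 * D + W + sur) ≤ Φ x - PP x := by
    intro x
    have h1 := hΦ2 x
    have h2 := (hPP1 x).2
    have h3 : S * (-(2 * D + W + sur)) ≤ S * (Φ x - PP x) := by
      have h4 : S * (-(2 * D + W + sur)) = -(2 * S * D) - S * W - S * sur := by ring
      rw [h4]
      linarith [mul_sub S (Φ x) (PP x)]
    exact le_of_mul_le_mul_left h3 hSpos
  have hNmono : ∀ q, Monotone (N q) := by
    intro q
    have hRm : Monotone (R q) := by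
      refine monotone_int_of_le_succ fun x => ?_
      have h1 := hRmono q (x + 1)
      rw [add_sub_cancel_right] at h1
      have h2 : 0 ≤ w q * (Q (x + 1) - 1) := mul_nonneg (hw0 q) (by linarith [hQ1 (x + 1)])
      linarith
    intro x y hxy
    simp only [hN]
    rcases eq_or_lt_of_le (mul_nonneg (hw0 q) hSpos.le) with h0 | h0
    · rw [← h0, Int.ediv_zero, Int.ediv_zero]
    · exact Int.ediv_le_ediv h0 (mul_le_mul_of_nonneg_left (hRm hxy) (Nat.cast_nonneg _))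
  have hNe : ∀ q ∈ Finset.Icc 1 mx, ∀ x, N q (x + e) = N q x + a q := by
    intro q hq x
    simp only [hN]
    rw [hRe]
    have h1 : (a q : ℤ) * (R q x + w q * S) = (a q : ℤ) * R q x + (a q : ℤ) * (w q * S) := by ring
    rw [h1, Int.add_mul_ediv_right _ _ (hKpos q hq).ne']
  have hΦe : ∀ x, Φ (x + e) = Φ x + T := by
    intro x
    simp only [hΦ, hTdef]
    rw [← Finset.sum_add_distrib]
    refine Finset.sum_congr rfl fun q hq => ?_
    have h1 : (a q : ℤ) * w q = ∑ j ∈ Finset.Icc (-(q : ℤ)) q, pat q j * (a q : ℤ) := by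
      rw [← Finset.sum_mul, sum_pat q]
      ring
    rw [h1, ← Finset.sum_add_distrib]
    refine Finset.sum_congr rfl fun j _ => ?_
    have h2 : x + (e : ℤ) - j = x - j + e := by ring
    rw [h2, hNe q hq]
    ring
  have hPPe : ∀ x, PP (x + e) = PP x + T := by
    intro x
    simp only [hPP]
    rw [hPe, hTS, Int.add_ediv_of_dvd_right (dvd_refl _), Int.ediv_self he'.ne']
    ring
  refine ⟨N, fun x => Φ x - PP x + θ, hNmono, hNe, fun x => ?_, fun x => ?_, fun x => ?_,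
    fun x => ?_⟩
  · simp only
    rw [hΦe, hPPe]
    ring
  · have := hu2 x
    simp only
    linarith
  · -- enough points
    simp only
    have h1 : ∀ q ∈ Finset.Icc 1 mx, (a q : ℤ) * (Q x - 1) - S ≤ S * (N q x - N q (x - 1)) := by
      intro q hq
      have h2 := hNlt q hq x
      have h3 := hNle q hq (x - 1)
      have h4 := mul_le_mul_of_nonneg_left (hRmono q x) (Nat.cast_nonneg (α := ℤ) (a q))
      have h5 : w q * ((a q : ℤ) * (Q x - 1) - S) ≤ w q * (S * (N q x - N q (x - 1))) := by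
        have e1 : w q * ((a q : ℤ) * (Q x - 1) - S) =
            (a q : ℤ) * (w q * (Q x - 1)) - w q * S := by ring
        have e2 : w q * (S * (N q x - N q (x - 1))) =
            w q * S * N q x - w q * S * N q (x - 1) := by ring
        rw [e1, e2]
        linarith [mul_sub (a q : ℤ) (R q x) (R q (x - 1))]
      exact le_of_mul_le_mul_left h5 (hwpos q hq)
    set M : ℤ := ∑ q ∈ Finset.Icc 1 mx, (N q x - N q (x - 1)) with hM
    have h2 : (∑ q ∈ Finset.Icc 1 mx, (a q : ℤ)) * (Q x - 1) - mx * S ≤ S * M := by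
      have h3 := Finset.sum_le_sum h1
      rw [Finset.sum_sub_distrib, ← Finset.sum_mul, Finset.sum_const, Nat.card_Icc,
        ← Finset.mul_sum, nsmul_eq_mul] at h3
      have h4 : ((mx + 1 - 1 : ℕ) : ℤ) = mx := by simp
      rw [h4] at h3
      exact h3
    have h3 : T ≤ w mx * ∑ q ∈ Finset.Icc 1 mx, (a q : ℤ) := by
      rw [Finset.mul_sum]
      refine Finset.sum_le_sum fun q hq => ?_
      rw [mul_comm]
      exact mul_le_mul_of_nonneg_right (hwmx q hq) (Nat.cast_nonneg _)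
    have hQx1 : 0 ≤ Q x - 1 := by linarith [hQ1 x]
    have h4 : S * (Q x - 1) - mx * S * w mx ≤ S * (w mx * M) := by
      have h5 := mul_le_mul_of_nonneg_left h2 (hw0 mx)
      have h6 := mul_le_mul_of_nonneg_right h3 hQx1
      have h7 := mul_le_mul_of_nonneg_right (show S ≤ T by linarith) hQx1
      have e1 : w mx * ((∑ q ∈ Finset.Icc 1 mx, (a q : ℤ)) * (Q x - 1) - mx * S) =
          w mx * (∑ q ∈ Finset.Icc 1 mx, (a q : ℤ)) * (Q x - 1) - mx * S * w mx := by ring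
      rw [e1] at h5
      have e2 : w mx * (S * M) = S * (w mx * M) := by ring
      rw [e2] at h5
      linarith
    have h5 : Q x - 1 - mx * w mx ≤ w mx * M := by
      have h6 : S * (Q x - 1 - mx * w mx) ≤ S * (w mx * M) := by
        have e1 : S * (Q x - 1 - mx * w mx) = S * (Q x - 1) - mx * S * w mx := by ring
        rw [e1]
        exact h4
      exact le_of_mul_le_mul_left h6 hSpos
    have h6 : w mx * (W + 4 * D + 2 * mx) ≤ (mx : ℤ) ^ 5 - 1 := CombZ_num mx hmx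
    have h7 : w mx * (W + 4 * D + mx) ≤ w mx * M := by
      have e1 : w mx * (W + 4 * D + 2 * mx) = w mx * (W + 4 * D + mx) + mx * w mx := by ring
      rw [e1] at h6
      linarith [hQ x]
    have h8 : W + 4 * D + mx ≤ M :=
      le_of_mul_le_mul_left h7 (hwpos mx (Finset.mem_Icc.mpr ⟨by omega, le_rfl⟩))
    have h9 := hu1 x
    linarith
  · -- the differences
    have h1 : ∑ q ∈ Finset.Icc 1 mx, ∑ j ∈ Finset.Icc (-(q : ℤ)) q,
        pat q j * (N q (x - j) - N q (x - 1 - j)) = Φ x - Φ (x - 1) := by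
      simp only [hΦ]
      rw [← Finset.sum_sub_distrib]
      refine Finset.sum_congr rfl fun q _ => ?_
      rw [← Finset.sum_sub_distrib]
      exact Finset.sum_congr rfl fun j _ => by ring
    have h2 : x / e - (x - 1) / e = if (e : ℤ) ∣ x then 1 else 0 := by
      by_cases hd : (e : ℤ) ∣ x
      · rw [if_pos hd]
        obtain ⟨k, rfl⟩ := hd
        rw [Int.mul_ediv_cancel_left _ he'.ne']
        have h3 : ((e : ℤ) * k - 1) / e = k - 1 := by
          rw [Int.ediv_eq_iff_of_pos he']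
          constructor
          · nlinarith
          · nlinarith
        rw [h3]
        ring
      · rw [if_neg hd]
        have h4 : 1 ≤ x % e := by
          have h5 := Int.emod_nonneg x he'.ne'
          rcases eq_or_lt_of_le h5 with h6 | h6
          · exact absurd (Int.dvd_of_emod_eq_zero h6.symm) hd
          · exact h6
        have h5 : (x - 1) / e = x / e := by
          have h6 := Int.emod_add_mul_ediv x e
          have h7 := Int.emod_lt_of_pos x he'
          rw [Int.ediv_eq_iff_of_pos he']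
          constructor
          · nlinarith
          · nlinarith
        rw [h5]
        ring
    have h3 : PP x - PP (x - 1) = Q x + (if (e : ℤ) ∣ x then (sur : ℤ) else 0) := by
      have h4 : PP x - PP (x - 1) = (P x - P (x - 1)) + sur * (x / e - (x - 1) / e) := by
        simp only [hPP]
        ring
      rw [h4, hP, h2]
      split_ifs <;> ring
    simp only
    rw [h1, ← h3]
    ring

end ShghT
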