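import Pool.Agent.ShghT.Main

/-!
# Formal points on the circles `|u| = |π| ^ c`, `0 ≤ c < N`
-/

namespace ShghT

variable {k : Type*} [Field k]

/-- The formal point `u = π ^ c a (1 + z)`, `0 ≤ c < N`. -/
noncomputable def Te (N : ℕ) (c : ℤ) (hc : 0 ≤ c) (hcN : c < N) (a : kˣ) :
    Bann k N →+* PowerSeries (PowerSeries k) :=
  if h : c = 0 then (Ta a).comp (Bann k N).subtype
  else Tc N c (lt_of_le_of_ne hc (Ne.symm h)) hcN a

private theorem Eval_zero {N : ℕ} (hc : (0 : ℤ) ≤ 0) (hcN : (0 : ℤ) < N) (a : kˣ) (f : Bann k N) :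
    Te N 0 hc hcN a f = Ta a (f : Lam k) := by
  rw [Te, dif_pos rfl]
  rfl

private theorem Eval_pos {N : ℕ} {c : ℤ} (hc : 0 ≤ c) (hcN : c < N) (a : kˣ) (h : 0 < c) :
    Te N c hc hcN a = Tc N c h hcN a := by
  rw [Te, dif_neg h.ne']

theorem coeff_Te {N : ℕ} {c : ℤ} (hc : 0 ≤ c) (hcN : c < N) (a : kˣ) (f : Bann k N) (m n : ℕ) :
    PowerSeries.coeff n (PowerSeries.coeff m (Te N c hc hcN a f)) =
      ∑ᶠ j : ℤ, cf (f : Lam k) (n - c * j) j * ((a ^ j : kˣ) : k) *
        ((Ring.choose j m : ℤ) : k) := by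
  rcases hc.eq_or_lt with h | h
  · subst h
    rw [Eval_zero, coeff_Ta]
    simp only [zero_mul, sub_zero]
  · rw [Eval_pos hc hcN a h, coeff_Tc]

theorem Te_iota {N : ℕ} {c : ℤ} (hc : 0 ≤ c) (hcN : c < N) (a : kˣ) (b : PowerSeries k) :
    Te N c hc hcN a (iotaB N b) = PowerSeries.C b := by
  rcases hc.eq_or_lt with h | h
  · subst h
    rw [Eval_zero, iotaB, Ta_iota]
  · rw [Eval_pos hc hcN a h, iotaB, Tc_iota]

private theorem Eval_value {a : kˣ} {P : LaurentPolynomial k} (h : P ∈
      Ideal.span {(LaurentPolynomial.C 1 : LaurentPolynomial k) -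
        LaurentPolynomial.C ((a⁻¹ : kˣ) : k) * LaurentPolynomial.T 1}) :
    LaurentPolynomial.eval₂ (RingHom.id k) a P = 0 := by
  obtain ⟨Q, hQ⟩ := Ideal.mem_span_singleton'.mp h
  rw [← hQ, map_mul, map_sub, map_mul, LaurentPolynomial.eval₂_C, LaurentPolynomial.eval₂_C,
    LaurentPolynomial.eval₂_T]
  simp

private theorem Eval_finite_Ta {g : Lam k} (hg : g ≠ 0) :
    {a : kˣ | PowerSeries.constantCoeff (Ta a g) = 0}.Finite := by
  classical
  obtain ⟨n, hn⟩ : ∃ n : ℕ, PowerSeries.coeff n g ≠ 0 := by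
    by_contra hcon
    push Not at hcon
    exact hg (PowerSeries.ext fun n => by rw [hcon n, map_zero])
  obtain ⟨m, p, hp⟩ := LaurentPolynomial.exists_T_pow (PowerSeries.coeff n g)
  have hp0 : p ≠ 0 := by
    intro h0
    apply hn
    have h1 : PowerSeries.coeff n g = Polynomial.toLaurent p * LaurentPolynomial.T (-m) := by
      rw [hp, LaurentPolynomial.mul_T_assoc]
      simp
    rw [h1, h0, map_zero, zero_mul]
  have hfin : {b : k | b ∈ p.roots.toFinset}.Finite := p.roots.toFinset.finite_toSet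
  refine (hfin.preimage (f := (Units.val : kˣ → k)) Units.val_injective.injOn).subset ?_
  intro a ha
  have h1 := Eval_value (constantCoeff_Ta_eq_zero ha n)
  have h2 : p.eval (a : k) = 0 := by
    have h3 : LaurentPolynomial.eval₂ (RingHom.id k) a (Polynomial.toLaurent p) = 0 := by
      rw [hp, map_mul, h1, zero_mul]
    rw [LaurentPolynomial.eval₂_toLaurent] at h3
    exact h3
  simp only [Set.mem_preimage, Set.mem_setOf_eq, Multiset.mem_toFinset]
  exact (Polynomial.mem_roots hp0).mpr h2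

/-- A nonzero element of the annulus ring vanishes at finitely many points of the circle only.
PROOF. As `exists_alpha` in `ShghT/Tay.lean`: some coefficient of `shear f` (of `f` if `c = 0`) is a
nonzero Laurent polynomial; the bad `a` are among its zeros, and `T ^ n * P` is a nonzero
polynomial, which has finitely many roots. (The private lemmas of `Tay.lean` have to be copied.) -/
theorem Te_finite {N : ℕ} {c : ℤ} (hc : 0 ≤ c) (hcN : c < N) (H : Bann k N) (hH : H ≠ 0) :
    {a : kˣ | PowerSeries.constantCoeff (Te N c hc hcN a H) = 0}.Finite := by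
  rcases hc.eq_or_lt with h | h
  · subst h
    have hH' : (H : Lam k) ≠ 0 := fun h0 => hH (Subtype.ext h0)
    simp only [Eval_zero]
    exact Eval_finite_Ta hH'
  · have h1 : shear N c h hcN H ≠ 0 := by
      intro h0
      apply hH
      apply shear_injective h hcN
      rw [h0, map_zero]
    simp only [Eval_pos hc hcN _ h, Tc, RingHom.comp_apply]
    exact Eval_finite_Ta h1

end ShghT
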