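import Pool.Agent.ShghW.LevelA

/-!
# The moving part of a level
-/

namespace ShghT

variable {k : Type*} [Field k]

open MvPolynomial

private theorem LevelT_map_inj :
    Function.Injective (MvPolynomial.map (σ := Fin 2) (algebraMap (PowerSeries k) (KK k))) :=
  MvPolynomial.map_injective _ (IsFractionRing.injective (PowerSeries k) (KK k))

private theorem LevelT_map_lineP (x y : Fin 2 → PowerSeries k) (p q : Fin 2 → KK k)
    (hx : ∀ i, p i = algebraMap (PowerSeries k) (KK k) (x i))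
    (hy : ∀ i, q i = algebraMap (PowerSeries k) (KK k) (y i)) :
    MvPolynomial.map (algebraMap (PowerSeries k) (KK k)) (lineP x y) = lineP p q := by
  simp only [lineP, hx, hy, map_sub, map_mul, MvPolynomial.map_X, MvPolynomial.map_C]

private theorem LevelT_lin_deg {R : Type*} [CommRing R] [Nontrivial R] (c : R) (i : Fin 2) :
    (X i - C c : MvPolynomial (Fin 2) R).totalDegree ≤ 1 := by
  refine (MvPolynomial.totalDegree_sub_C_le _ _).trans ?_
  rw [MvPolynomial.totalDegree_X]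

private theorem LevelT_line_deg {R : Type*} [CommRing R] [Nontrivial R] (x y : Fin 2 → R) :
    (lineP x y).totalDegree ≤ 1 := by
  unfold lineP
  refine (MvPolynomial.totalDegree_sub _ _).trans (max_le ?_ ?_)
  · refine (MvPolynomial.totalDegree_mul _ _).trans ?_
    rw [MvPolynomial.totalDegree_C, zero_add]
    exact LevelT_lin_deg _ _
  · refine (MvPolynomial.totalDegree_mul _ _).trans ?_
    rw [MvPolynomial.totalDegree_C, zero_add]
    exact LevelT_lin_deg _ _

private theorem LevelT_const {N : ℕ} (hN : 0 < N) (b : kˣ) (a : Fin 9 → kˣ) (n : ℕ)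
    (μ : Fin 9 → ℕ) :
    PowerSeries.constantCoeff (th N b ^ n * ∏ l, th N (a l) ^ μ l) ≠ 0 := by
  have h1 : ∀ c : kˣ, PowerSeries.constantCoeff (th N c) ≠ 0 := by
    intro c h
    have h2 := th_cf hN c 0
    rw [if_pos rfl, ← constantCoeff_coeff, h] at h2
    simp at h2
  rw [map_mul, map_pow, map_prod]
  refine mul_ne_zero (pow_ne_zero _ (h1 b)) (Finset.prod_ne_zero_iff.2 fun l _ => ?_)
  rw [map_pow]
  exact pow_ne_zero _ (h1 _)

/-- division by the thetas of the base points -/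
private theorem LevelT_div {N : ℕ} (hN : 0 < N) (a : Fin 9 → kˣ) (ha : Function.Injective a)
    (D : ℕ) (ν : Fin 9 → ℕ) (hsum : ∑ l, ν l ≤ 3 * D)
    (g : MvPolynomial (Fin 2) (PowerSeries k)) (hg : g.totalDegree ≤ D)
    (gK : MvPolynomial (Fin 2) (KK k)) (c : KK k)
    (hmap : MvPolynomial.map (algebraMap (PowerSeries k) (KK k)) g = MvPolynomial.C c * gK)
    (hmem : ∀ l, gK ∈ pt (bp (TB N (a l)) 0) (bp (TB N (a l)) 1) ^ ν l) :
    ∃ T : Lam k, Phi N D g = T * ∏ l, th N (a l) ^ ν l := by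
  obtain ⟨d', hd'⟩ := Nat.exists_eq_add_of_le hsum
  have h1 : IsTh N (d' + ∑ l ∈ Finset.univ, ν l) 1 (Phi N D g) := by
    rw [add_comm d', ← hd']
    exact Phi_isTh hN hg
  obtain ⟨h, -, hf⟩ := div_prod hN one_ne_zero Finset.univ a (ha.injOn) ν h1
    (fun l _ => base_order hN (a l) (ν l) D g hg c gK hmap (hmem l))
  exact ⟨h, by rw [hf, mul_comm]⟩

/-- sums of symmetric functions -/
private theorem LevelT_sym_sum {c : kˣ} {p : ℕ} {ι : Type*} (s : Finset ι) (F : ι → Lam k)
    (h : ∀ i ∈ s, IsSym c p (F i)) : IsSym c p (∑ i ∈ s, F i) := by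
  classical
  induction s using Finset.induction_on with
  | empty => rw [Finset.sum_empty]; exact IsSym.zero c p
  | insert i s hi ih =>
    rw [Finset.sum_insert hi]
    exact (h i (Finset.mem_insert_self i s)).add
      (ih fun j hj => h j (Finset.mem_insert_of_mem hj))

/-- the linear forms through the first base point -/
private theorem LevelT_lin {N : ℕ} (hN : 0 < N) (a : kˣ) (x : PowerSeries k) (i : Fin 2)
    (hx : bp (TB N a) i = algebraMap (PowerSeries k) (KK k) x) :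
    ∃ s : Lam k, IsSym (-a)⁻¹ 1 s ∧ Phi N 1 (X i - C x) = th N a * s := by
  have h1 : IsTh N (2 + 1) 1 (Phi N 1 (X i - C x : MvPolynomial (Fin 2) (PowerSeries k))) :=
    Phi_isTh hN (LevelT_lin_deg x i)
  have hmem : (X i - C (bp (TB N a) i) : MvPolynomial (Fin 2) (KK k)) ∈
      pt (bp (TB N a) 0) (bp (TB N a) 1) ^ 1 := by
    rw [pow_one]
    unfold pt
    apply Ideal.subset_span
    fin_cases i
    · exact Set.mem_insert _ _
    · exact Set.mem_insert_of_mem _ rfl
  have hmap : MvPolynomial.map (algebraMap (PowerSeries k) (KK k)) (X i - C x)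
      = MvPolynomial.C 1 * (X i - C (bp (TB N a) i)) := by
    rw [map_sub, MvPolynomial.map_X, MvPolynomial.map_C, hx, MvPolynomial.C_1, one_mul]
  have h2 := base_order hN a 1 1 (X i - C x) (LevelT_lin_deg x i) 1 _ hmap hmem
  obtain ⟨s, hs, hf⟩ := div_pow hN one_ne_zero 1 h1 a h2
  refine ⟨s, ?_, by rw [hf, pow_one]⟩
  have h3 : (-(a : k)) ^ 1 * 1 = ((-a : kˣ) : k) := by
    rw [pow_one, mul_one, Units.val_neg]
  rw [h3] at hs
  exact isSym_of_isTh hs

private theorem LevelT_prod_two (F : Fin 9 → Lam k) (ν : Fin 9 → ℕ)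
    (h : ∀ l, 2 ≤ l → ν l = 0) : ∏ l, F l ^ ν l = F 0 ^ ν 0 * F 1 ^ ν 1 := by
  rw [← Finset.prod_subset (Finset.subset_univ ({0, 1} : Finset (Fin 9)))]
  · rw [Finset.prod_pair (by decide)]
  · intro l _ hl
    have hl2 : 2 ≤ l := by
      simp only [Finset.mem_insert, Finset.mem_singleton, not_or] at hl
      obtain ⟨h0, h1⟩ := hl
      rw [Fin.le_def]
      have h0' : (l : ℕ) ≠ 0 := fun hc => h0 (Fin.ext hc)
      have h1' : (l : ℕ) ≠ 1 := fun hc => h1 (Fin.ext hc)
      have h2' : ((2 : Fin 9) : ℕ) = 2 := rfl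
      omega
    rw [h l hl2, pow_zero]

/-- the symmetric case -/
private theorem LevelT_sym {N : ℕ} (hN : 0 < N) (a : kˣ) (P : ℕ) (x : Fin 2 → PowerSeries k)
    (hx : ∀ i, bp (TB N a) i = algebraMap (PowerSeries k) (KK k) (x i))
    (g2 : MvPolynomial (Fin 2) (PowerSeries k)) (hg2 : g2.totalDegree ≤ P)
    (g1 : MvPolynomial (Fin 2) (KK k)) (hg1 : g1.totalDegree ≤ P)
    (d : PowerSeries k)
    (hmap : MvPolynomial.map (algebraMap (PowerSeries k) (KK k)) g2
      = MvPolynomial.C (algebraMap (PowerSeries k) (KK k) d) * g1)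
    (hmem : g1 ∈ pt (bp (TB N a) 0) (bp (TB N a) 1) ^ P)
    (T2 : Lam k) (hT2 : Phi N P g2 = T2 * th N a ^ P) : IsSym (-a)⁻¹ P T2 := by
  obtain ⟨cc, hcc⟩ := cone (bp (TB N a)) P g1 hg1 hmem
  obtain ⟨e, he, w, hw⟩ := exists_scale (S := PowerSeries k) (K := KK k) P
    (fun i => (C (cc i) : MvPolynomial (Fin 2) (KK k)))
  set lam : ℕ → PowerSeries k := fun i => (w i).coeff 0 with hlam
  have hl : ∀ i, i ≤ P → algebraMap (PowerSeries k) (KK k) (lam i)
      = algebraMap (PowerSeries k) (KK k) e * cc i := by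
    intro i hi
    have h1 := congrArg (MvPolynomial.coeff 0) (hw i hi)
    rw [MvPolynomial.coeff_map, MvPolynomial.coeff_C_mul, MvPolynomial.coeff_zero_C] at h1
    exact h1
  set G : MvPolynomial (Fin 2) (PowerSeries k) := ∑ i ∈ Finset.range (P + 1),
      C (lam i) * ((X 0 - C (x 0)) ^ i * (X 1 - C (x 1)) ^ (P - i)) with hG
  have hGmap : MvPolynomial.map (algebraMap (PowerSeries k) (KK k)) G
      = C (algebraMap (PowerSeries k) (KK k) e) * g1 := by
    rw [hcc, hG, map_sum, Finset.mul_sum]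
    refine Finset.sum_congr rfl fun i hi => ?_
    rw [Finset.mem_range] at hi
    simp only [map_mul, map_pow, map_sub, MvPolynomial.map_X, MvPolynomial.map_C]
    rw [hl i (by omega), hx 0, hx 1, C_mul, mul_assoc]
  have hcomp : C e * g2 = C d * G := by
    apply LevelT_map_inj
    rw [map_mul, map_mul, MvPolynomial.map_C, MvPolynomial.map_C, hmap, hGmap]
    ring
  have hPhi : iota e * Phi N P g2 = iota d * Phi N P G := by
    rw [← Phi_C_mul, ← Phi_C_mul, hcomp]
  obtain ⟨s0, hs0, hf0⟩ := LevelT_lin hN a (x 0) 0 (hx 0)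
  obtain ⟨s1, hs1, hf1⟩ := LevelT_lin hN a (x 1) 1 (hx 1)
  have hpowdeg : ∀ (j : Fin 2) (n : ℕ),
      ((X j - C (x j) : MvPolynomial (Fin 2) (PowerSeries k)) ^ n).totalDegree ≤ n * 1 := by
    intro j n
    exact (MvPolynomial.totalDegree_pow _ _).trans
      (Nat.mul_le_mul_left _ (LevelT_lin_deg (x j) j))
  have hmon : ∀ i ∈ Finset.range (P + 1), Phi N P
      (C (lam i) * ((X 0 - C (x 0)) ^ i * (X 1 - C (x 1)) ^ (P - i)))
      = th N a ^ P * (iota (lam i) * (s0 ^ i * s1 ^ (P - i))) := by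
    intro i hi
    rw [Finset.mem_range] at hi
    have hPi : i * 1 + (P - i) * 1 = P := by omega
    have h1 := Phi_mul N (hpowdeg 0 i) (hpowdeg 1 (P - i))
    rw [Phi_pow N (LevelT_lin_deg (x 0) 0) i, Phi_pow N (LevelT_lin_deg (x 1) 1) (P - i), hPi,
      hf0, hf1] at h1
    rw [Phi_C_mul, h1, mul_pow, mul_pow]
    have h2 : th N a ^ P = th N a ^ i * th N a ^ (P - i) := by
      rw [← pow_add]
      congr 1
      omega
    rw [h2]
    ring
  have hGdeg : ∀ i ∈ Finset.range (P + 1),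
      (C (lam i) * ((X 0 - C (x 0)) ^ i * (X 1 - C (x 1)) ^ (P - i)) :
        MvPolynomial (Fin 2) (PowerSeries k)).totalDegree ≤ P := by
    intro i hi
    rw [Finset.mem_range] at hi
    refine (MvPolynomial.totalDegree_mul _ _).trans ?_
    rw [MvPolynomial.totalDegree_C, zero_add]
    refine (MvPolynomial.totalDegree_mul _ _).trans ?_
    have h1 := hpowdeg 0 i
    have h2 := hpowdeg 1 (P - i)
    omega
  have hPG : Phi N P G = th N a ^ P *
      ∑ i ∈ Finset.range (P + 1), iota (lam i) * (s0 ^ i * s1 ^ (P - i)) := by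
    rw [hG, Phi_sum N P _ _ hGdeg, Finset.mul_sum]
    exact Finset.sum_congr rfl hmon
  have hcancel : iota e * T2 = iota d *
      ∑ i ∈ Finset.range (P + 1), iota (lam i) * (s0 ^ i * s1 ^ (P - i)) := by
    have hne : th N a ^ P ≠ 0 := pow_ne_zero _ (th_ne_zero hN a)
    apply mul_left_cancel₀ hne
    have h1 := hPhi
    rw [hT2, hPG] at h1
    linear_combination h1
  apply IsSym.of_iota_mul he
  rw [hcancel]
  apply IsSym.iota_mul
  refine LevelT_sym_sum _ _ fun i hi => ?_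
  rw [Finset.mem_range] at hi
  apply IsSym.iota_mul
  have h1 := (hs0.pow i).mul (hs1.pow (P - i))
  have hPi : i * 1 + (P - i) * 1 = P := by omega
  rw [hPi] at h1
  exact h1

/-- Factorization of `Phi N D g`. `k₀ = μ 0 + μ 1 - D` is the multiplicity of the line through the first
two base points.
PROOF. (A) If `D > μ 0 + μ 1` then `k₀ = 0` and `Phi N D g` is divisible by `∏ th (a l) ^ μ l`
(`base_order`, `div_prod`, as in `exists_H`).
(B) If `D ≤ μ 0 + μ 1` then `μ l = 0` for `l ≥ 2`. By `line_factor` over `KK k`, `gK = ℓ ^ k₀ g₁`. Scale: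
`d g₁` is the image of an integral `g₂`, `d ≠ 0` integral, and `ℓ` is the image of the integral
`lineP x y` (`bp_integral`). So `C d' * g = lineP x y ^ k₀ * g₂` for some integral `d' ≠ 0` (`MvPolynomial.map` is
injective), `Phi` is multiplicative and `Phi N (D - k₀) g₂ = T₂ ∏_{l = 0, 1} th (a l) ^ (μ l - k₀)`
as in (A). With `Phi_line`: `iota d' * Phi N D g = iota c ^ k₀ T₂ th (a12) ^ k₀ ∏ th (a l) ^ μ l`. Remove
`iota d'` by `gauss_dvd` (all `th` have nonzero constant coefficient, `th_const`).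
(C) If moreover `μ 0 = D` then `k₀ = μ 1`, `p = D - μ 1`, and `g₁` is a cone with vertex the first base point
(`cone`): `g₂ = ∑ λ_i (X 0 - C x₀) ^ i (X 1 - C x₁) ^ (p - i)` after scaling;
`Phi N 1 (X i - C x_i) = th (a 0) s_i`, `s_i` of degree `2` and type `- a 0`, so `T₂ = ∑ iota λ_i s₀ ^ i s₁ ^ (p - i)`
is symmetric with respect to `c = (- a 0)⁻¹` (`isSym_of_isTh`); the scalars are removed by `IsSym.of_iota_mul`. -/
theorem level_T {N : ℕ} (hN : 0 < N) {α β δ : PowerSeries k}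
    (hα : PowerSeries.constantCoeff α = 0) (hβ : PowerSeries.constantCoeff β = -1)
    (hδ : PowerSeries.constantCoeff δ = -1)
    (hrel : iota α * x3 k N 0 ^ 3 + iota β * x3 k N 1 ^ 3 +
      iota δ * x3 k N 2 ^ 3 + x3 k N 0 * x3 k N 1 * x3 k N 2 = 0)
    (a : Fin 9 → kˣ) (ha : Function.Injective a) (D : ℕ) (μ : Fin 9 → ℕ)
    (hμD : μ 0 ≤ D ∧ μ 1 ≤ D) (hsum : ∑ l, μ l ≤ 3 * D)
    (hμ2 : D ≤ μ 0 + μ 1 → ∀ l, 2 ≤ l → μ l = 0)
    (g : MvPolynomial (Fin 2) (PowerSeries k)) (hg : g.totalDegree ≤ D)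
    (gK : MvPolynomial (Fin 2) (KK k)) (c : KK k) (hc : c ≠ 0)
    (hmap : MvPolynomial.map (algebraMap (PowerSeries k) (KK k)) g = MvPolynomial.C c * gK)
    (hmem : ∀ l, gK ∈ pt (bp (TB N (a l)) 0) (bp (TB N (a l)) 1) ^ μ l) :
    ∃ T : Lam k, Phi N D g = T * th N (a12 a) ^ (μ 0 + μ 1 - D) * ∏ l, th N (a l) ^ μ l ∧
      (μ 0 = D → IsSym (-(a 0))⁻¹ (D - μ 1) T) := by
  by_cases hD : D ≤ μ 0 + μ 1
  swap
  · obtain ⟨T, hT⟩ := LevelT_div hN a ha D μ hsum g hg gK c hmap hmem
    have h0 : μ 0 + μ 1 - D = 0 := by omega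
    refine ⟨T, by rw [h0, pow_zero, mul_one, hT], fun h => absurd h (by omega)⟩
  obtain ⟨hμ0D, hμ1D⟩ := hμD
  have hμ2' := hμ2 hD
  choose x hx using fun i => bp_integral hN (a 0) i
  choose y hy using fun i => bp_integral hN (a 1) i
  have hpq : bp (TB N (a 0)) ≠ bp (TB N (a 1)) := fun h => absurd (ha (bp_inj hN h)) (by decide)
  obtain ⟨k0, hk0⟩ := Nat.exists_eq_add_of_le hD
  have hk0' : μ 0 + μ 1 - D = k0 := by omega
  have hgKd : gK.totalDegree ≤ D := by
    have h1 : gK = C c⁻¹ * MvPolynomial.map (algebraMap (PowerSeries k) (KK k)) g := by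
      rw [hmap, ← mul_assoc, ← C_mul, inv_mul_cancel₀ hc, C_1, one_mul]
    rw [h1]
    refine (MvPolynomial.totalDegree_mul _ _).trans ?_
    rw [MvPolynomial.totalDegree_C, zero_add]
    have h2 : (MvPolynomial.map (algebraMap (PowerSeries k) (KK k)) g).totalDegree
        = g.totalDegree := by
      rw [totalDegree, totalDegree, support_map_of_injective _
        (IsFractionRing.injective (PowerSeries k) (KK k))]
    rw [h2]
    exact hg
  obtain ⟨g1, hfac, hg1d, hg10, hg11⟩ := line_factor (bp (TB N (a 0))) (bp (TB N (a 1))) hpq D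
    (μ 0) (μ 1) k0 hk0 hμ0D hμ1D gK hgKd (hmem 0) (hmem 1)
  obtain ⟨d, hd, w, hw⟩ := exists_scale (S := PowerSeries k) (K := KK k) 0
    (fun _ => (C c * g1 : MvPolynomial (Fin 2) (KK k)))
  set g2 := w 0 with hg2
  have hmap2 : MvPolynomial.map (algebraMap (PowerSeries k) (KK k)) g2
      = C (algebraMap (PowerSeries k) (KK k) d) * (C c * g1) := hw 0 le_rfl
  have hcg1 : (C c * g1 : MvPolynomial (Fin 2) (KK k)).totalDegree ≤ D - k0 := by
    refine (MvPolynomial.totalDegree_mul _ _).trans ?_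
    rw [MvPolynomial.totalDegree_C, zero_add]
    exact hg1d
  have hg2d : g2.totalDegree ≤ D - k0 := (totalDegree_of_map _ _ hmap2).trans hcg1
  have hkey : C d * g = lineP x y ^ k0 * g2 := by
    apply LevelT_map_inj
    rw [map_mul, map_mul, map_pow, LevelT_map_lineP x y _ _ hx hy, MvPolynomial.map_C, hmap,
      hmap2, hfac]
    ring
  obtain ⟨c0, hc0, hPl⟩ := Phi_line hN a ha x y hx hy
  have hlinedeg : (lineP x y).totalDegree ≤ 1 := LevelT_line_deg x y
  have hlpow : (lineP x y ^ k0).totalDegree ≤ k0 * 1 :=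
    (MvPolynomial.totalDegree_pow _ _).trans (Nat.mul_le_mul_left _ hlinedeg)
  have hDk : k0 * 1 + (D - k0) = D := by omega
  have hPhi : iota d * Phi N D g = Phi N 1 (lineP x y) ^ k0 * Phi N (D - k0) g2 := by
    rw [← Phi_C_mul, hkey, ← Phi_pow N hlinedeg k0, ← Phi_mul N hlpow hg2d, hDk]
  -- the remaining part
  set ν : Fin 9 → ℕ := fun l => if l = 0 then μ 0 - k0 else if l = 1 then μ 1 - k0 else 0 with hν
  have hν0 : ν 0 = μ 0 - k0 := by simp [hν]
  have hν1 : ν 1 = μ 1 - k0 := by simp [hν]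
  have hν2 : ∀ l, 2 ≤ l → ν l = 0 := by
    intro l hl
    have h0 : l ≠ 0 := by
      rintro rfl
      exact absurd hl (by decide)
    have h1 : l ≠ 1 := by
      rintro rfl
      exact absurd hl (by decide)
    simp [hν, h0, h1]
  have hνsum : ∑ l, ν l ≤ 3 * (D - k0) := by
    have h1 : ∑ l, ν l = ν 0 + ν 1 := by
      rw [← Finset.sum_subset (Finset.subset_univ ({0, 1} : Finset (Fin 9)))]
      · rw [Finset.sum_pair (by decide)]
      · intro l _ hl
        simp only [Finset.mem_insert, Finset.mem_singleton, not_or] at hl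
        simp [hν, hl.1, hl.2]
    rw [h1, hν0, hν1]
    omega
  obtain ⟨T2, hT2⟩ := LevelT_div hN a ha (D - k0) ν hνsum g2 hg2d (C c * g1) _ hmap2 (by
    intro l
    by_cases h0 : l = 0
    · subst h0
      rw [hν0]
      exact Ideal.mul_mem_left _ _ hg10
    · by_cases h1 : l = 1
      · subst h1
        rw [hν1]
        exact Ideal.mul_mem_left _ _ hg11
      · have h2 : ν l = 0 := by simp [hν, h0, h1]
        rw [h2, pow_zero, Ideal.one_eq_top]
        trivial)
  rw [LevelT_prod_two _ ν hν2, hν0, hν1] at hT2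
  have hfin : iota d * Phi N D g = (iota (c0 ^ k0) * T2) *
      (th N (a12 a) ^ k0 * ∏ l, th N (a l) ^ μ l) := by
    rw [hPhi, hPl, hT2, LevelT_prod_two _ μ hμ2', map_pow]
    have e0 : th N (a 0) ^ μ 0 = th N (a 0) ^ k0 * th N (a 0) ^ (μ 0 - k0) := by
      rw [← pow_add]
      congr 1
      omega
    have e1 : th N (a 1) ^ μ 1 = th N (a 1) ^ k0 * th N (a 1) ^ (μ 1 - k0) := by
      rw [← pow_add]
      congr 1
      omega
    rw [e0, e1]
    ring
  obtain ⟨T, hT0, hH⟩ := gauss_dvd hd (LevelT_const hN (a12 a) a k0 μ) hfin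
  refine ⟨T, by rw [hk0', hH]; ring, fun hμ0 => ?_⟩
  apply IsSym.of_iota_mul hd
  rw [← hT0]
  apply IsSym.iota_mul
  have hk1 : k0 = μ 1 := by omega
  have hP : μ 0 - k0 = D - μ 1 := by omega
  have hP' : μ 1 - k0 = 0 := by omega
  rw [hk1] at hT2 hg2d hcg1
  refine LevelT_sym hN (a 0) (D - μ 1) x hx g2 hg2d (C c * g1) hcg1 d hmap2 ?_ T2 ?_
  · rw [← hP]
    exact Ideal.mul_mem_left _ _ hg10
  · rw [hT2]
    have h3 : μ 0 - μ 1 = D - μ 1 := by omega
    rw [h3, Nat.sub_self, pow_zero, mul_one]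

end ShghT
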