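import Mathlib

/-!
# The profile of a standard class

`M` antitone, `M 0 + M 1 + M 2 ≤ δ`, `3 δ = e + ∑ M`. At the level `j` we look at curves of degree `δ - 3 j` with
multiplicities `M l - j`. `kl` = multiplicity of the line through the first two points, `kp` = degree of the fixed part.
-/

namespace ShghT

/-- Multiplicity of the fixed line at the level `j`. -/
def kl (δ : ℕ) (M : Fin 9 → ℕ) (j : ℕ) : ℕ := (M 0 - j) + (M 1 - j) - (δ - 3 * j)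

/-- Degree of the fixed part at the level `j`. -/
def kp (δ : ℕ) (M : Fin 9 → ℕ) (j : ℕ) : ℕ := kl δ M j + ∑ l, (j - M l)

/-- The last level. -/
def Jt (δ : ℕ) (M : Fin 9 → ℕ) : ℕ := min (δ / 3) ((δ - M 0) / 2)

/-- The distance of the column `ρ` from the column `0` on the circle `ℤ/e`. -/
def hm (e ρ : ℕ) : ℕ := min ρ (e - ρ)

/-- The degree of the leading polynomial of the column `ρ`. -/
def Dg (δ : ℕ) (M : Fin 9 → ℕ) (e ρ : ℕ) : ℕ :=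
  Nat.findGreatest (fun j => kp δ M j + 2 * hm e ρ ≤ e) (Jt δ M)

/-- The pencil at the last level: the curves are unions of lines through the first point. -/
def Pen (δ : ℕ) (M : Fin 9 → ℕ) : Prop := δ - 3 * Jt δ M = M 0 - Jt δ M

/-- The leading coefficients of the columns `σ`, `ρ` are proportional. -/
def Tie (δ : ℕ) (M : Fin 9 → ℕ) (e σ ρ : ℕ) : Prop :=
  0 < σ ∧ 0 < ρ ∧ σ ≠ ρ ∧ σ + ρ = e ∧
    ((0 < kp δ M (Dg δ M e ρ) ∧ kp δ M (Dg δ M e ρ) + 2 * hm e ρ = e) ∨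
      (Pen δ M ∧ kp δ M (Jt δ M) + 2 * hm e ρ ≤ e))

variable {δ : ℕ} {M : Fin 9 → ℕ} {e : ℕ}

/-- Standard classes. -/
structure Std (δ : ℕ) (M : Fin 9 → ℕ) (e : ℕ) : Prop where
  anti : Antitone M
  std : M 0 + M 1 + M 2 ≤ δ
  deg : 3 * δ = e + ∑ l, M l

theorem Std.facts (h : Std δ M e) : M 1 ≤ M 0 ∧ M 2 ≤ M 1 ∧ M 3 ≤ M 2 ∧ M 4 ≤ M 3 ∧ M 5 ≤ M 4 ∧
    M 6 ≤ M 5 ∧ M 7 ≤ M 6 ∧ M 8 ≤ M 7 ∧ M 0 + M 1 + M 2 ≤ δ :=
  ⟨h.anti (by decide), h.anti (by decide), h.anti (by decide), h.anti (by decide),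
    h.anti (by decide), h.anti (by decide), h.anti (by decide), h.anti (by decide), h.std⟩

theorem sum_sub_eq (M : Fin 9 → ℕ) (j : ℕ) :
    ∑ l, (j - M l) + ∑ l, M l = ∑ l, (M l - j) + 9 * j := by
  have h1 : ∀ l, (j - M l) + M l = (M l - j) + j := fun l => by omega
  calc ∑ l, (j - M l) + ∑ l, M l = ∑ l, ((j - M l) + M l) := Finset.sum_add_distrib.symm
    _ = ∑ l, ((M l - j) + j) := Finset.sum_congr rfl fun l _ => h1 l
    _ = ∑ l, (M l - j) + 9 * j := by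
      rw [Finset.sum_add_distrib]
      simp

theorem kl_mono (h : Std δ M e) {i j : ℕ} (hij : i ≤ j) (h3 : 3 * j ≤ δ)
    (hm : M 0 - j ≤ δ - 3 * j) : kl δ M i ≤ kl δ M j := by
  obtain ⟨h1, h2, -, -, -, -, -, -, h9⟩ := h.facts
  unfold kl
  omega

theorem kl_strict (h : Std δ M e) {i j : ℕ} (hij : i < j) (h3 : 3 * j ≤ δ)
    (hm : M 0 - j ≤ δ - 3 * j) (hpos : 0 < kl δ M j) : kl δ M i < kl δ M j := by
  obtain ⟨h1, h2, -, -, -, -, -, -, h9⟩ := h.facts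
  unfold kl at *
  omega

theorem le_Jt_iff (h : Std δ M e) (j : ℕ) : j ≤ Jt δ M ↔ 3 * j ≤ δ ∧ M 0 - j ≤ δ - 3 * j := by
  obtain ⟨h1, h2, -, -, -, -, -, -, h9⟩ := h.facts
  unfold Jt
  rw [le_min_iff, Nat.le_div_iff_mul_le (by norm_num), Nat.le_div_iff_mul_le (by norm_num)]
  omega


theorem min_le_Jt (h : Std δ M e) : M 8 ≤ Jt δ M := by
  obtain ⟨h1, h2, h3, h4, h5, h6, h7, h8, h9⟩ := h.facts
  rw [le_Jt_iff h]
  omega


theorem kp_of_le (h : Std δ M e) {j : ℕ} (hj : j ≤ M 8) : kp δ M j = 0 := by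
  obtain ⟨h1, h2, h3, h4, h5, h6, h7, h8, h9⟩ := h.facts
  have hz : ∑ l, (j - M l) = 0 := by
    refine Finset.sum_eq_zero fun l _ => ?_
    have : M 8 ≤ M l := h.anti (Fin.le_last l)
    omega
  unfold kp kl
  rw [hz]
  omega


theorem kp_mono (h : Std δ M e) {i j : ℕ} (hij : i ≤ j) (hj : j ≤ Jt δ M) :
    kp δ M i ≤ kp δ M j := by
  have hJ := (le_Jt_iff h j).1 hj
  have h1 := kl_mono h hij hJ.1 hJ.2
  have h2 : ∑ l, (i - M l) ≤ ∑ l, (j - M l) := Finset.sum_le_sum fun l _ => by omega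
  unfold kp
  omega


/-- Once positive, the degree of the fixed part is strictly increasing. -/
theorem kp_strict (h : Std δ M e) {i j : ℕ} (hij : i < j) (hj : j ≤ Jt δ M)
    (hpos : 0 < kp δ M j) (hne : kp δ M i = kp δ M j) : False := by
  have hJ := (le_Jt_iff h j).1 hj
  have h1 := kl_mono h hij.le hJ.1 hJ.2
  have h2 : ∑ l, (i - M l) ≤ ∑ l, (j - M l) := Finset.sum_le_sum fun l _ => by omega
  rcases Nat.eq_zero_or_pos (kl δ M j) with h3 | h3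
  · have h4 : 0 < ∑ l, (j - M l) := by
      unfold kp at hpos
      omega
    obtain ⟨l, _, hl⟩ := Finset.exists_ne_zero_of_sum_ne_zero h4.ne'
    have h5 : ∑ l, (i - M l) < ∑ l, (j - M l) :=
      Finset.sum_lt_sum (fun l _ => by omega) ⟨l, Finset.mem_univ l, by omega⟩
    unfold kp at hne
    omega
  · have h4 := kl_strict h hij hJ.1 hJ.2 h3
    unfold kp at hne
    omega


theorem Prof.kp_eq_aux (h : Std δ M e) {j : ℕ} (hj : j ≤ Jt δ M) :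
    3 * (δ - 3 * j) + kp δ M j = e + ∑ l, (M l - j) + kl δ M j := by
  have hJ := (le_Jt_iff h j).1 hj
  have h1 := sum_sub_eq M j
  have h2 := h.deg
  unfold kp
  omega

theorem Prof.mu_zero_aux (h : Std δ M e) {j : ℕ} (hj : j ≤ Jt δ M)
    (hle : δ - 3 * j ≤ (M 0 - j) + (M 1 - j)) (l : Fin 9) (hl : 2 ≤ l) : M l - j = 0 := by
  have hJ := (le_Jt_iff h j).1 hj
  obtain ⟨h1, h2, -, -, -, -, -, -, h9⟩ := h.facts
  have h3 : M l ≤ M 2 := h.anti hl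
  omega

theorem Prof.sum_mu_eq (h : Std δ M e) {j : ℕ} (hj : j ≤ Jt δ M)
    (hle : δ - 3 * j ≤ (M 0 - j) + (M 1 - j)) :
    ∑ l, (M l - j) = (M 0 - j) + (M 1 - j) := by
  have h0 : ∀ l : Fin 9, 2 ≤ l → M l - j = 0 := fun l hl => Prof.mu_zero_aux h hj hle l hl
  rw [Fin.sum_univ_succ, Fin.sum_univ_succ]
  have h1 : ∑ i : Fin 7, (M i.succ.succ - j) = 0 := Finset.sum_eq_zero fun i _ => by
    refine h0 _ ?_
    rw [Fin.le_def]
    simp
  rw [h1]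
  rfl

theorem Prof.sum_mu_le_aux (h : Std δ M e) {j : ℕ} (hj : j ≤ Jt δ M) :
    ∑ l, (M l - j) ≤ 3 * (δ - 3 * j) := by
  have hJ := (le_Jt_iff h j).1 hj
  obtain ⟨h1, h2, h3, h4, h5, h6, h7, h8, h9⟩ := h.facts
  by_cases hle : δ - 3 * j ≤ (M 0 - j) + (M 1 - j)
  · rw [Prof.sum_mu_eq h hj hle]
    omega
  · have hs : ∑ l, (M l - j) = (M 0 - j) + (M 1 - j) + (M 2 - j) + (M 3 - j) + (M 4 - j) +
        (M 5 - j) + (M 6 - j) + (M 7 - j) + (M 8 - j) := by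
      rw [Fin.sum_univ_castSucc, Fin.sum_univ_eight]
      rfl
    rw [hs]
    have e0 : (M 0 - j) + (M 1 - j) + (M 2 - j) ≤ δ - 3 * j := by omega
    have e1 : (M 3 - j) + (M 4 - j) + (M 5 - j) ≤ δ - 3 * j := by omega
    have e2 : (M 6 - j) + (M 7 - j) + (M 8 - j) ≤ δ - 3 * j := by omega
    omega

theorem kp_le (h : Std δ M e) {j : ℕ} (hj : j ≤ Jt δ M) : kp δ M j ≤ e := by
  have hJ := (le_Jt_iff h j).1 hj
  have h1 := Prof.kp_eq_aux h hj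
  obtain ⟨g1, g2, -, -, -, -, -, -, g9⟩ := h.facts
  by_cases hle : δ - 3 * j ≤ (M 0 - j) + (M 1 - j)
  · rw [Prof.sum_mu_eq h hj hle] at h1
    unfold kl at h1
    omega
  · have h2 := Prof.sum_mu_le_aux h hj
    have h3 : kl δ M j = 0 := by
      unfold kl
      omega
    omega


theorem kp_eq (h : Std δ M e) {j : ℕ} (hj : j ≤ Jt δ M) :
    3 * (δ - 3 * j) + kp δ M j = e + ∑ l, (M l - j) + kl δ M j := by
  exact Prof.kp_eq_aux h hj


theorem mu_zero (h : Std δ M e) {j : ℕ} (hj : j ≤ Jt δ M)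
    (hle : δ - 3 * j ≤ (M 0 - j) + (M 1 - j)) (l : Fin 9) (hl : 2 ≤ l) : M l - j = 0 := by
  exact Prof.mu_zero_aux h hj hle l hl


theorem mu_le (h : Std δ M e) {j : ℕ} (hj : j ≤ Jt δ M) (l : Fin 9) : M l - j ≤ δ - 3 * j := by
  have hJ := (le_Jt_iff h j).1 hj
  have h1 : M l ≤ M 0 := h.anti (Fin.zero_le l)
  omega


theorem sum_mu_le (h : Std δ M e) {j : ℕ} (hj : j ≤ Jt δ M) :
    ∑ l, (M l - j) ≤ 3 * (δ - 3 * j) := by
  exact Prof.sum_mu_le_aux h hj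


/-- In the pencil: `e - kp (Jt) = 2 (D - μ 1)`, `D = δ - 3 Jt`, `μ 1 = M 1 - Jt`. -/
theorem pen_eq (h : Std δ M e) (hp : Pen δ M) :
    2 * (δ - 3 * Jt δ M - (M 1 - Jt δ M)) + kp δ M (Jt δ M) = e := by
  have hJ := (le_Jt_iff h (Jt δ M)).1 le_rfl
  have h1 := Prof.kp_eq_aux h (le_refl (Jt δ M))
  unfold Pen at hp
  have hle : δ - 3 * Jt δ M ≤ (M 0 - Jt δ M) + (M 1 - Jt δ M) := by omega
  rw [Prof.sum_mu_eq h le_rfl hle] at h1
  obtain ⟨g1, g2, -, -, -, -, -, -, g9⟩ := h.facts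
  have hk : kl δ M (Jt δ M) = M 1 - Jt δ M := by
    unfold kl
    omega
  omega


theorem Dg_le (δ : ℕ) (M : Fin 9 → ℕ) (e ρ : ℕ) : Dg δ M e ρ ≤ Jt δ M := by
  exact Nat.findGreatest_le _


theorem kp_Dg (h : Std δ M e) {ρ : ℕ} (hρ : ρ ≤ e) : kp δ M (Dg δ M e ρ) + 2 * hm e ρ ≤ e := by
  have h0 : kp δ M 0 = 0 := kp_of_le h (Nat.zero_le _)
  have h1 : kp δ M 0 + 2 * hm e ρ ≤ e := by
    unfold hm
    omega
  exact Nat.findGreatest_spec (P := fun j => kp δ M j + 2 * hm e ρ ≤ e) (Nat.zero_le _) h1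


theorem lt_kp (h : Std δ M e) {ρ j : ℕ} (hj : j ≤ Jt δ M) (hlt : Dg δ M e ρ < j) :
    e < kp δ M j + 2 * hm e ρ := by
  have h1 := Nat.findGreatest_is_greatest (P := fun j => kp δ M j + 2 * hm e ρ ≤ e) hlt hj
  omega


theorem Dg_symm (δ : ℕ) (M : Fin 9 → ℕ) {e ρ : ℕ} (hρ : ρ ≤ e) :
    Dg δ M e (e - ρ) = Dg δ M e ρ := by
  have h1 : hm e (e - ρ) = hm e ρ := by
    unfold hm
    omega
  unfold Dg
  rw [h1]


theorem min_le_Dg (h : Std δ M e) {ρ : ℕ} (hρ : ρ ≤ e) : M 8 ≤ Dg δ M e ρ := by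
  refine Nat.le_findGreatest (min_le_Jt h) ?_
  have h0 : kp δ M (M 8) = 0 := kp_of_le h le_rfl
  unfold hm
  omega


theorem Dg_anti (h : Std δ M e) {ρ : ℕ} (hρ : 2 * (ρ + 1) ≤ e) :
    Dg δ M e (ρ + 1) ≤ Dg δ M e ρ := by
  have h1 := kp_Dg h (ρ := ρ + 1) (by omega)
  refine Nat.le_findGreatest (Dg_le δ M e (ρ + 1)) ?_
  unfold hm at *
  omega


/-- PROOF. If `Dg ρ ≥ Dg (ρ + 1) + 3` then the levels `j = Dg (ρ+1) + 1, + 2, + 3` satisfy
`2 ρ ≤ e - kp j < 2 ρ + 2` and `kp j > 0` (since `2 (ρ + 1) ≤ e`), contradicting strict monotonicity. -/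
theorem Dg_slope (h : Std δ M e) {ρ : ℕ} (hρ : 2 * (ρ + 1) ≤ e) :
    Dg δ M e ρ ≤ Dg δ M e (ρ + 1) + 2 := by
  by_contra hcon
  push Not at hcon
  obtain ⟨d, hd⟩ : ∃ d, d = Dg δ M e (ρ + 1) := ⟨_, rfl⟩
  have hJ := Dg_le δ M e ρ
  have hk := kp_Dg h (ρ := ρ) (by omega)
  rw [← hd] at hcon
  have h1 : ∀ j, d < j → j ≤ Dg δ M e ρ →
      e < kp δ M j + 2 * (ρ + 1) ∧ kp δ M j + 2 * ρ ≤ e := by
    intro j hj1 hj2
    have h2 := lt_kp h (ρ := ρ + 1) (hj2.trans hJ) (by omega)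
    have h3 := kp_mono h hj2 hJ
    unfold hm at *
    omega
  have a1 := h1 (d + 1) (by omega) (by omega)
  have a2 := h1 (d + 2) (by omega) (by omega)
  have a3 := h1 (d + 3) (by omega) (by omega)
  have m1 := kp_mono h (i := d + 1) (j := d + 2) (by omega) (by omega)
  have m2 := kp_mono h (i := d + 2) (j := d + 3) (by omega) (by omega)
  have s1 := fun hne => kp_strict h (i := d + 1) (j := d + 2) (by omega) (by omega) (by omega) hne
  have s2 := fun hne => kp_strict h (i := d + 2) (j := d + 3) (by omega) (by omega) (by omega) hne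
  have t1 : kp δ M (d + 1) ≠ kp δ M (d + 2) := s1
  have t2 : kp δ M (d + 2) ≠ kp δ M (d + 3) := s2
  omega


/-- In the pencil all columns with `kp (Jt) + 2 hm ≤ e` have `Dg = Jt`. -/
theorem Dg_pen {ρ : ℕ} (hle : kp δ M (Jt δ M) + 2 * hm e ρ ≤ e) : Dg δ M e ρ = Jt δ M := by
  exact le_antisymm (Dg_le δ M e ρ) (Nat.le_findGreatest le_rfl hle)


end ShghT
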