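import Pool.Agent.ShghT.Main
import Pool.Agent.ShghT.Ord

/-!
# The case `e = 0`: multiples of the anticanonical class of nine points
-/

namespace ShghT

open MvPolynomial

section E0

variable {k : Type*} [Field k]

private theorem E0_type {N : ℕ} (hN : 0 < N) {α β δ : PowerSeries k}
    (hα : PowerSeries.constantCoeff α = 0) (hβ : PowerSeries.constantCoeff β = -1)
    (hδ : PowerSeries.constantCoeff δ = -1)
    (hrel : iota α * x3 k N 0 ^ 3 + iota β * x3 k N 1 ^ 3 +
      iota δ * x3 k N 2 ^ 3 + x3 k N 0 * x3 k N 1 * x3 k N 2 = 0)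
    (a : Fin 9 → kˣ) (ha : Function.Injective a) (t : ℕ)
    (ht : (∏ l, (-(a l : k))) ^ t ≠ 1) (g : MvPolynomial (Fin 2) (KK k))
    (hg : g ∈ LS (3 * t) (fun _ : Fin 9 => t) (fun l => bp (TB N (a l)))) :
    Gp (algebraMap (PowerSeries k) (KK k) α) (algebraMap (PowerSeries k) (KK k) β)
        (algebraMap (PowerSeries k) (KK k) δ) ∣ g := by
  by_contra hG
  obtain ⟨hgd, hgp⟩ := mem_LS.1 hg
  obtain ⟨c, hc, g', hg'⟩ := exists_scale (S := PowerSeries k) (K := KK k) 0 (fun _ => g)
  have hmap := hg' 0 le_rfl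
  have hc' : algebraMap (PowerSeries k) (KK k) c ≠ 0 := by
    rw [Ne, map_eq_zero_iff _ (IsFractionRing.injective (PowerSeries k) (KK k))]
    exact hc
  have hdeg : (g' 0).totalDegree ≤ 3 * t := (totalDegree_of_map _ _ hmap).trans hgd
  have hPhi : Phi N (3 * t) (g' 0) ≠ 0 := by
    intro h0
    exact hG (map_dvd α β δ _ hc' g hmap (Phi_kernel hN hα hβ hδ hrel hdeg h0))
  have hord : ∀ l, (PowerSeries.X : PowerSeries (PowerSeries k)) ^ t ∣
      Ta (a l) (Phi N (3 * t) (g' 0)) := fun l =>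
    base_order hN (a l) t (3 * t) (g' 0) hdeg _ g hmap (hgp l)
  have h1 : IsTh N (0 + ∑ _l : Fin 9, t) 1 (Phi N (3 * t) (g' 0)) := by
    have h2 : 0 + ∑ _l : Fin 9, t = 3 * (3 * t) := by
      rw [Finset.sum_const, Finset.card_univ, Fintype.card_fin, smul_eq_mul]
      ring
    rw [h2]
    exact Phi_isTh hN hdeg
  obtain ⟨h, hh, hf⟩ := div_prod hN one_ne_zero Finset.univ a ha.injOn (fun _ => t) h1
    (fun l _ => hord l)
  have h0 := hh.deg_zero' hN (by
    rw [mul_one, Finset.prod_pow]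
    exact ht)
  apply hPhi
  rw [hf, h0, mul_zero]

private theorem E0_pow {N : ℕ} (hN : 0 < N) {α β δ : PowerSeries k}
    (hα : PowerSeries.constantCoeff α = 0) (hβ : PowerSeries.constantCoeff β = -1)
    (hδ : PowerSeries.constantCoeff δ = -1)
    (hrel : iota α * x3 k N 0 ^ 3 + iota β * x3 k N 1 ^ 3 +
      iota δ * x3 k N 2 ^ 3 + x3 k N 0 * x3 k N 1 * x3 k N 2 = 0)
    (a : Fin 9 → kˣ) (ha : Function.Injective a) (y : ℕ)
    (hy : ∀ t, 0 < t → t ≤ y → (∏ l, (-(a l : k))) ^ t ≠ 1) (g : MvPolynomial (Fin 2) (KK k))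
    (hg : g ∈ LS (3 * y) (fun _ : Fin 9 => y) (fun l => bp (TB N (a l)))) :
    ∃ c : KK k, g = C c * Gp (algebraMap (PowerSeries k) (KK k) α)
      (algebraMap (PowerSeries k) (KK k) β) (algebraMap (PowerSeries k) (KK k) δ) ^ y := by
  have hδ' : algebraMap (PowerSeries k) (KK k) δ ≠ 0 := by
    rw [Ne, map_eq_zero_iff _ (IsFractionRing.injective (PowerSeries k) (KK k))]
    intro h0
    rw [h0, map_zero] at hδ
    exact neg_ne_zero.2 one_ne_zero hδ.symm
  induction y generalizing g with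
  | zero =>
    obtain ⟨hgd, -⟩ := mem_LS.1 hg
    have h1 : g.totalDegree = 0 := by omega
    rw [totalDegree_eq_zero_iff_eq_C] at h1
    exact ⟨_, by rw [pow_zero, mul_one]; exact h1⟩
  | succ t ih =>
    rcases eq_or_ne g 0 with rfl | hg0
    · exact ⟨0, by rw [map_zero, zero_mul]⟩
    obtain ⟨g1, hg1⟩ := E0_type hN hα hβ hδ hrel a ha (t + 1) (hy (t + 1) (Nat.succ_pos t) le_rfl)
      g hg
    obtain ⟨hgd, hgp⟩ := mem_LS.1 hg
    have hg10 : g1 ≠ 0 := by
      rintro rfl
      rw [mul_zero] at hg1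
      exact hg0 hg1
    obtain ⟨c, hc⟩ := ih (fun s hs hst => hy s hs (hst.trans (Nat.le_succ t))) g1 (by
      rw [mem_LS]
      constructor
      · have h1 := totalDegree_Gp_pow_mul (algebraMap (PowerSeries k) (KK k) α)
          (algebraMap (PowerSeries k) (KK k) β) _ hδ' 1 hg10
        rw [pow_one, ← hg1] at h1
        omega
      · intro l
        have h2 := hgp l
        rw [hg1, ← pow_one (Gp (algebraMap (PowerSeries k) (KK k) α)
          (algebraMap (PowerSeries k) (KK k) β) (algebraMap (PowerSeries k) (KK k) δ))] at h2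
        exact colon _ _ _ _ _ (bp_curve (TB_iota N (a l)) (TB_x3_one N hN (a l)) hrel)
          (bp_smooth' (TB_iota N (a l)) (TB_x3_one N hN (a l)) α (TB_smooth hN (a l) hα)) 1
          (t + 1) g1 h2)
    exact ⟨c, by rw [hg1, hc]; ring⟩

private theorem E0_eval {K : Type*} [Field K] {f : MvPolynomial (Fin 2) K} {n : ℕ} (hn : 0 < n)
    (hf : f ∈ pt (0 : K) 0 ^ n) : eval (fun _ => 0) f = 0 := by
  have h1 : f ∈ pt (0 : K) 0 := Ideal.pow_le_self hn.ne' hf
  have h2 : pt (0 : K) 0 ≤ RingHom.ker (eval (fun _ : Fin 2 => (0 : K))) := by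
    unfold pt
    rw [Ideal.span_le]
    intro x hx
    rw [Set.mem_insert_iff, Set.mem_singleton_iff] at hx
    rw [SetLike.mem_coe, RingHom.mem_ker]
    rcases hx with rfl | rfl <;> simp
  exact h2 h1

end E0

/-- PROOF. Lower bound: `le_finrank_LS` (`C(3y+2,2) - 9 C(y+1,2) = 1`). Upper bound: `N = 4`; choose (`exists_params`, as in `setup`)
distinct `a l ∈ Kˣ` and `ν` with `ν ∏ (-a l) = 1` and `ν ^ j ≠ 1` for `1 ≤ j ≤ y` (all but finitely many choices; `K` is infinite).
Let `Q_l = bp (TB 4 (a l))`, and let `R ∈ (KK K)²` be a point with `Gp ≠ 0` there. It suffices (`finrank_LS_le`) to show that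
the space of the `f ∈ LS (3 y) (y, ..., y) Q` is contained in the multiples of `Gp ^ y` (so its dimension is at most one, and
zero if `f` has to vanish at `R` - this is the case if some `m i ≥ 1`, all `R_i = R`). Let `f ≠ 0`, `f = Gp ^ j g` with `Gp ∤ g` (a maximal `j`).
`g` has degree `≤ 3 (y - j)` and multiplicity `≥ y - j` at the `Q_l` (`colon`). Scale `g` to be integral (`exists_scale`):
`Phi N (3 (y - j)) g' ≠ 0` (`Phi_kernel`, `map_dvd`), of degree `9 (y - j)`, type `1`, divisible by `∏ th (a l) ^ (y - j)`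
(`base_order`, `div_prod`); the quotient has degree `0` and type `∏ (-a l) ^ (y - j) = ν ^ (-(y - j))`, so it is zero unless this is
`1` (`IsTh.deg_zero'`), that is `j = y`. Then `g` is a constant. -/
theorem main_E0 {F K : Type*} [Field F] [Field K] [Algebra F K] {r : ℕ}
    (P : Fin (9 + r) → Fin 2 → K)
    (hP : AlgebraicIndependent F (fun ij : Fin (9 + r) × Fin 2 => P ij.1 ij.2))
    (y : ℕ) (M : Fin 9 → ℕ) (hM : ∀ l, M l = y) (m : Fin r → ℕ) :
    (Module.finrank K (LS (3 * y) (Fin.append M m) P) : ℤ) =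
      max 0 (1 - ∑ i, ((m i + 1).choose 2 : ℤ)) := by
  classical
  have : Infinite K := infinite_of_algebraicIndependent _ hP
  obtain rfl : M = fun _ => y := funext hM
  -- lower bound
  have hlow := le_finrank_LS (3 * y) (Fin.append (fun _ : Fin 9 => y) m) P
  rw [Fin.sum_univ_add] at hlow
  simp only [Fin.append_left, Fin.append_right, Finset.sum_const, Finset.card_univ,
    Fintype.card_fin, smul_eq_mul] at hlow
  have hE : (3 * y + 2).choose 2 = 9 * (y + 1).choose 2 + 1 := by
    have h1 : ∀ n : ℕ, 2 * (n + 1).choose 2 = n * (n + 1) := by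
      intro n
      induction n with
      | zero => rfl
      | succ n ih =>
        rw [Nat.choose_succ_succ' (n + 1) 1, Nat.choose_one_right, mul_add, ih]
        ring
    have h2 := h1 (3 * y + 1)
    have h3 := h1 y
    have h4 : 2 * (3 * y + 2).choose 2 = 2 * (9 * (y + 1).choose 2 + 1) := by
      calc 2 * (3 * y + 2).choose 2 = (3 * y + 1) * (3 * y + 1 + 1) := h2
        _ = 9 * (y * (y + 1)) + 2 := by ring
        _ = 2 * (9 * (y + 1).choose 2 + 1) := by rw [← h3]; ring
    omega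
  have hlow' : (1 - ∑ i, ((m i + 1).choose 2 : ℤ)) ≤
      Module.finrank K (LS (3 * y) (Fin.append (fun _ : Fin 9 => y) m) P) := by
    have h1 : (((3 * y + 2).choose 2 : ℕ) : ℤ) ≤
        Module.finrank K (LS (3 * y) (Fin.append (fun _ : Fin 9 => y) m) P) +
        (9 * ((y + 1).choose 2 : ℤ) + ∑ i, ((m i + 1).choose 2 : ℤ)) := by
      exact_mod_cast hlow
    rw [hE] at h1
    push_cast at h1
    linarith
  -- the special points
  obtain ⟨a, ν, t, ha, hν, hdist⟩ := exists_params (k := K) y 1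
  have hprod : ∀ s, 0 < s → s ≤ y → (∏ l, (-(a l : K))) ^ s ≠ 1 := by
    intro s hs hsy h1
    have h2 : ν ^ (s : ℤ) = 1 := by
      rw [zpow_natCast]
      apply Units.ext
      rw [Units.val_pow_eq_pow_val, Units.val_one]
      have h3 : ((ν : K) * ∏ l, (-(a l : K))) ^ s = 1 := by rw [hν, one_pow]
      rwa [mul_pow, h1, mul_one] at h3
    have h4 := (hdist 0 0 (s : ℤ) 0 (by rw [abs_of_nonneg (by positivity)]; exact_mod_cast hsy)
      (by simp) (by rw [h2, zpow_zero])).2
    omega
  obtain ⟨α, β, δ, hα, hβ, hδ, hrel⟩ := curve_rel K (N := 4) (by norm_num)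
  set G := Gp (algebraMap (PowerSeries K) (KK K) α) (algebraMap (PowerSeries K) (KK K) β)
    (algebraMap (PowerSeries K) (KK K) δ) with hG
  have hβ0 : algebraMap (PowerSeries K) (KK K) β ≠ 0 := by
    rw [Ne, map_eq_zero_iff _ (IsFractionRing.injective (PowerSeries K) (KK K))]
    intro h0
    rw [h0, map_zero] at hβ
    exact neg_ne_zero.2 one_ne_zero hβ.symm
  have hG0 : eval (fun _ => 0) G = algebraMap (PowerSeries K) (KK K) β := by
    rw [hG, Gp]
    simp
  let Q : Fin 9 → Fin 2 → KK K := fun l => bp (TB 4 (a l))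
  let R : Fin r → Fin 2 → KK K := fun _ _ => 0
  have hup := finrank_LS_le P hP (Fin.append Q R) (3 * y) (Fin.append (fun _ : Fin 9 => y) m)
  have hform : ∀ f ∈ LS (3 * y) (Fin.append (fun _ : Fin 9 => y) m) (Fin.append Q R),
      ∃ c : KK K, f = C c * G ^ y := by
    intro f hf
    obtain ⟨h1, h2, -⟩ := mem_LS_append.1 hf
    exact E0_pow (by norm_num) hα hβ hδ hrel a ha y hprod f (mem_LS.2 ⟨h1, h2⟩)
  refine le_antisymm ?_ (max_le (by positivity) hlow')
  by_cases hm : ∃ i, 0 < m i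
  · obtain ⟨i, hi⟩ := hm
    have hbot : LS (3 * y) (Fin.append (fun _ : Fin 9 => y) m) (Fin.append Q R) = ⊥ := by
      rw [Submodule.eq_bot_iff]
      intro f hf
      obtain ⟨c, hc⟩ := hform f hf
      have h1 := E0_eval hi ((mem_LS_append.1 hf).2.2 i)
      rw [hc, map_mul, map_pow, hG0, eval_C] at h1
      have h2 := (mul_eq_zero.1 h1).resolve_right (pow_ne_zero _ hβ0)
      rw [hc, h2, map_zero, zero_mul]
    rw [hbot, finrank_bot] at hup
    refine le_trans ?_ (le_max_left _ _)
    exact_mod_cast hup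
  · push Not at hm
    have hm0 : ∀ i, m i = 0 := fun i => Nat.le_zero.1 (hm i)
    have hsum : ∑ i, ((m i + 1).choose 2 : ℤ) = 0 :=
      Finset.sum_eq_zero fun i _ => by rw [hm0 i]; rfl
    rw [hsum, sub_zero]
    refine le_trans ?_ (le_max_right _ _)
    have h1 : LS (3 * y) (Fin.append (fun _ : Fin 9 => y) m) (Fin.append Q R) ≤
        Submodule.span (KK K) {G ^ y} := by
      intro f hf
      obtain ⟨c, hc⟩ := hform f hf
      rw [Submodule.mem_span_singleton]
      exact ⟨c, by rw [hc, smul_eq_C_mul]⟩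
    have h3 : Module.finrank (KK K) (Submodule.span (KK K) {G ^ y}) ≤ 1 := by
      have h4 := finrank_span_finset_le_card (R := KK K) ({G ^ y} : Finset (MvPolynomial (Fin 2) (KK K)))
      rw [Finset.coe_singleton, Finset.card_singleton] at h4
      exact h4
    have h2 := (Submodule.finrank_mono h1).trans h3
    exact_mod_cast hup.trans h2

end ShghT
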