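import Pool.Agent.ShghT.Curve

/-!
# The homogenized value is multiplicative
-/

namespace ShghT

variable {k : Type*} [Field k]

open MvPolynomial

private theorem Phi_eq_sum (N D : ℕ) (f : MvPolynomial (Fin 2) (PowerSeries k))
    (S : Finset (Fin 2 →₀ ℕ)) (hS : f.support ⊆ S) :
    Phi N D f = ∑ s ∈ S, iota (f.coeff s) * x3 k N 0 ^ (s 0) * x3 k N 2 ^ (s 1) *
      x3 k N 1 ^ (D - s 0 - s 1) := by
  rw [Phi]
  refine Finset.sum_subset hS fun s _ hs => ?_
  rw [MvPolynomial.notMem_support_iff.mp hs, map_zero, zero_mul, zero_mul, zero_mul]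

private theorem Phi_add' (N D : ℕ) (f g : MvPolynomial (Fin 2) (PowerSeries k)) :
    Phi N D (f + g) = Phi N D f + Phi N D g := by
  classical
  rw [Phi_eq_sum N D (f + g) (f.support ∪ g.support) MvPolynomial.support_add,
    Phi_eq_sum N D f (f.support ∪ g.support) Finset.subset_union_left,
    Phi_eq_sum N D g (f.support ∪ g.support) Finset.subset_union_right,
    ← Finset.sum_add_distrib]
  refine Finset.sum_congr rfl fun s _ => ?_
  rw [MvPolynomial.coeff_add, map_add]
  ring

private theorem Phi_zero' (N D : ℕ) : Phi N D (0 : MvPolynomial (Fin 2) (PowerSeries k)) = 0 := by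
  rw [Phi, MvPolynomial.support_zero, Finset.sum_empty]

private theorem Phi_sum' {ι : Type*} (N D : ℕ) (s : Finset ι)
    (f : ι → MvPolynomial (Fin 2) (PowerSeries k)) :
    Phi N D (∑ i ∈ s, f i) = ∑ i ∈ s, Phi N D (f i) := by
  classical
  induction s using Finset.induction_on with
  | empty => rw [Finset.sum_empty, Finset.sum_empty, Phi_zero']
  | insert a s ha ih => rw [Finset.sum_insert ha, Finset.sum_insert ha, Phi_add', ih]

private theorem Phi_monomial' (N D : ℕ) (s : Fin 2 →₀ ℕ) (c : PowerSeries k) :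
    Phi N D (monomial s c) = iota c * x3 k N 0 ^ (s 0) * x3 k N 2 ^ (s 1) *
      x3 k N 1 ^ (D - s 0 - s 1) := by
  rw [Phi_eq_sum N D _ {s} MvPolynomial.support_monomial_subset, Finset.sum_singleton,
    MvPolynomial.coeff_monomial, if_pos rfl]

private theorem phiMul_deg_le {D : ℕ} {g : MvPolynomial (Fin 2) (PowerSeries k)}
    (hg : g.totalDegree ≤ D) {s : Fin 2 →₀ ℕ} (hs : s ∈ g.support) : s 0 + s 1 ≤ D := by
  have h1 := (MvPolynomial.le_totalDegree hs).trans hg
  rwa [Finsupp.sum_fintype _ _ (fun _ => rfl), Fin.sum_univ_two] at h1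

theorem Phi_add (N D : ℕ) {f g : MvPolynomial (Fin 2) (PowerSeries k)} (hf : f.totalDegree ≤ D)
    (hg : g.totalDegree ≤ D) : Phi N D (f + g) = Phi N D f + Phi N D g := by
  have _ := hf
  have _ := hg
  exact Phi_add' N D f g

theorem Phi_C_mul (N D : ℕ) (c : PowerSeries k) (f : MvPolynomial (Fin 2) (PowerSeries k)) :
    Phi N D (C c * f) = iota c * Phi N D f := by
  have hS : (C c * f).support ⊆ f.support := by
    intro s hs
    rw [MvPolynomial.mem_support_iff, MvPolynomial.coeff_C_mul] at hs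
    rw [MvPolynomial.mem_support_iff]
    exact right_ne_zero_of_mul hs
  rw [Phi_eq_sum N D _ _ hS, Phi, Finset.mul_sum]
  refine Finset.sum_congr rfl fun s _ => ?_
  rw [MvPolynomial.coeff_C_mul, map_mul]
  ring

theorem Phi_sum {ι : Type*} (N D : ℕ) (s : Finset ι)
    (f : ι → MvPolynomial (Fin 2) (PowerSeries k)) (hf : ∀ i ∈ s, (f i).totalDegree ≤ D) :
    Phi N D (∑ i ∈ s, f i) = ∑ i ∈ s, Phi N D (f i) := by
  have _ := hf
  exact Phi_sum' N D s f

theorem Phi_mul (N : ℕ) {D E : ℕ} {f g : MvPolynomial (Fin 2) (PowerSeries k)}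
    (hf : f.totalDegree ≤ D) (hg : g.totalDegree ≤ E) :
    Phi N (D + E) (f * g) = Phi N D f * Phi N E g := by
  have h1 : f * g = ∑ s ∈ f.support, ∑ t ∈ g.support,
      monomial (s + t) (f.coeff s * g.coeff t) := by
    conv_lhs => rw [MvPolynomial.as_sum f, MvPolynomial.as_sum g]
    rw [Finset.sum_mul_sum]
    refine Finset.sum_congr rfl fun s _ => Finset.sum_congr rfl fun t _ => ?_
    rw [MvPolynomial.monomial_mul]
  rw [h1, Phi_sum']
  simp only [Phi_sum', Phi_monomial']
  rw [Phi, Phi, Finset.sum_mul_sum]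
  refine Finset.sum_congr rfl fun s hs => Finset.sum_congr rfl fun t ht => ?_
  have h2 := phiMul_deg_le hf hs
  have h3 := phiMul_deg_le hg ht
  have h4 : D + E - (s + t) 0 - (s + t) 1 = (D - s 0 - s 1) + (E - t 0 - t 1) := by
    rw [Finsupp.add_apply, Finsupp.add_apply]
    omega
  rw [h4, Finsupp.add_apply, Finsupp.add_apply, map_mul]
  ring

theorem Phi_zero_one (N : ℕ) : Phi N 0 (1 : MvPolynomial (Fin 2) (PowerSeries k)) = 1 := by
  have h1 : (1 : MvPolynomial (Fin 2) (PowerSeries k)) = monomial 0 1 := rfl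
  rw [h1, Phi_monomial', map_one]
  simp

theorem Phi_pow (N : ℕ) {D : ℕ} {f : MvPolynomial (Fin 2) (PowerSeries k)}
    (hf : f.totalDegree ≤ D) (n : ℕ) : Phi N (n * D) (f ^ n) = Phi N D f ^ n := by
  induction n with
  | zero => rw [Nat.zero_mul, pow_zero, pow_zero, Phi_zero_one]
  | succ n ih =>
    have h1 : (f ^ n).totalDegree ≤ n * D :=
      (MvPolynomial.totalDegree_pow f n).trans (Nat.mul_le_mul_left n hf)
    rw [Nat.succ_mul, pow_succ, pow_succ, Phi_mul N h1 hf, ih]

end ShghT
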