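import Pool.Agent.ShghT.CoreA
import Pool.Agent.ShghT.Inj
import Pool.Agent.ShghW.Gap
import Pool.Agent.ShghW.Sym
import Pool.Agent.ShghW.PhiMul
import Pool.Agent.ShghW.LineK

/-!
# The line through the first two base points
-/

namespace ShghT

variable {k : Type*} [Field k]

open MvPolynomial

/-- The third point of the curve on the line through the first two base points. -/
noncomputable def a12 (a : Fin 9 → kˣ) : kˣ := -((a 0)⁻¹ * (a 1)⁻¹)

private theorem LevelA_val {a : kˣ} {f : Lam k} {i : ℤ}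
    (h : PowerSeries.constantCoeff f = LaurentPolynomial.T i) :
    PowerSeries.constantCoeff (PowerSeries.constantCoeff (Ta a f)) = (a : k) ^ i := by
  have h1 := coeff_Ta a f 0 0
  rw [finsum_eq_single _ i] at h1
  · have h2 : cf f ((0 : ℕ) : ℤ) i = 1 := by
      rw [Nat.cast_zero, ← constantCoeff_coeff, h]
      simp [-LaurentPolynomial.single_eq_C_mul_T, LaurentPolynomial.T]
    rw [h2] at h1
    rw [← PowerSeries.coeff_zero_eq_constantCoeff_apply,
      ← PowerSeries.coeff_zero_eq_constantCoeff_apply, h1]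
    simp
  · intro j hj
    have h2 : cf f ((0 : ℕ) : ℤ) j = 0 := by
      rw [Nat.cast_zero, ← constantCoeff_coeff, h]
      simp [-LaurentPolynomial.single_eq_C_mul_T, LaurentPolynomial.T, Finsupp.single_apply]
      intro h3
      exact absurd h3.symm hj
    rw [h2]
    simp

private theorem LevelA_const (N : ℕ) (a : kˣ) (f : Bann k N) :
    PowerSeries.constantCoeff (TB N a f) =
      algebraMap (PowerSeries k) (KK k) (PowerSeries.constantCoeff (Ta a f)) := by
  rw [TB_apply, toK, ← PowerSeries.coeff_zero_eq_constantCoeff_apply, PowerSeries.coeff_map,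
    PowerSeries.coeff_zero_eq_constantCoeff_apply]

private theorem LevelA_cf_one {b : PowerSeries k} {f : Lam k} {j : ℤ}
    (hf : ∀ n, cf f n j = if n = 0 then 1 else 0) (n : ℤ) : cf (iota b * f) n j = cR b n := by
  rw [cf_iota_mul, finsum_eq_single _ n]
  · rw [hf, sub_self, if_pos rfl, mul_one]
  · intro i hi
    rw [hf, if_neg (by omega), mul_zero]

private theorem LevelA_cf_zero {b : PowerSeries k} {f : Lam k} {j : ℤ}
    (hf : ∀ n, cf f n j = 0) (n : ℤ) : cf (iota b * f) n j = 0 := by
  rw [cf_iota_mul]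
  refine finsum_eq_zero_of_forall_eq_zero fun i => ?_
  rw [hf, mul_zero]

private theorem LevelA_cR_mk (f : Lam k) (j n : ℤ) :
    cR (PowerSeries.mk fun m : ℕ => cf f (m : ℤ) j) n = cf f n j := by
  rw [cR]
  split_ifs with h
  · rw [cf_neg f h]
  · rw [PowerSeries.coeff_mk]
    congr 1
    omega

private theorem LevelA_Phi_X (N : ℕ) (i : Fin 2) :
    Phi N 1 (X i : MvPolynomial (Fin 2) (PowerSeries k)) = x3 k N (2 * (i : ℕ)) := by
  rw [Phi, MvPolynomial.support_X, Finset.sum_singleton, MvPolynomial.coeff_X]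
  fin_cases i <;> simp

/-- The base points have integral coordinates. PROOF. `constantCoeff (Ta a (x3 1)) ∈ k[[π]]` is a unit
(`x3_const_one`). -/
theorem bp_integral {N : ℕ} (hN : 0 < N) (a : kˣ) (i : Fin 2) :
    ∃ x : PowerSeries k, bp (TB N a) i = algebraMap (PowerSeries k) (KK k) x := by
  set w : PowerSeries k := PowerSeries.constantCoeff (Ta a (x3 k N 1)) with hw
  have hw0 : PowerSeries.constantCoeff w ≠ 0 := by
    rw [hw, LevelA_val (x3_const_one hN)]
    exact zpow_ne_zero _ a.ne_zero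
  have hinv : w * w⁻¹ = 1 := PowerSeries.mul_inv_cancel _ hw0
  have hinv' : algebraMap (PowerSeries k) (KK k) w⁻¹ = (algebraMap (PowerSeries k) (KK k) w)⁻¹ := by
    have h := congrArg (algebraMap (PowerSeries k) (KK k)) hinv
    rw [map_mul, map_one] at h
    exact eq_inv_of_mul_eq_one_right h
  have key : ∀ f : Bann k N, ∃ x : PowerSeries k,
      PowerSeries.constantCoeff (TB N a f * (TB N a (x3B k N 1))⁻¹) =
        algebraMap (PowerSeries k) (KK k) x := by
    intro f
    refine ⟨PowerSeries.constantCoeff (Ta a f) * w⁻¹, ?_⟩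
    rw [map_mul, PowerSeries.constantCoeff_inv, LevelA_const, LevelA_const, map_mul, hinv']
    rfl
  unfold bp
  fin_cases i
  · obtain ⟨x, hx⟩ := key (x3B k N 0)
    exact ⟨x, by simpa [psi] using hx⟩
  · obtain ⟨x, hx⟩ := key (x3B k N 2)
    exact ⟨x, by simpa [psi] using hx⟩

/-- The line through the first two base points: PROOF. `Phi N 1 ℓ` is a theta function of degree `3`, type `1`,
vanishing at `a 0` and `a 1` (`base_order`), so (`div_prod`) `= th (a 0) th (a 1) h`, `h` a theta function of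
degree one and of the type of `th (a12 a)`; a theta function of degree one is determined by its coefficient at `u ^ 0`
(`IsTh.eq_zero`), so `h = iota c * th (a12 a)`; `c ≠ 0` because `ℓ ≠ 0` (`bp_inj`) and
`Phi N 1 ℓ ≠ 0` (`Phi_kernel`: the cubic does not divide `ℓ`; or compare the coefficients of the `x3 i`). -/
theorem Phi_line {N : ℕ} (hN : 0 < N) (a : Fin 9 → kˣ) (ha : Function.Injective a)
    (x y : Fin 2 → PowerSeries k)
    (hx : ∀ i, bp (TB N (a 0)) i = algebraMap (PowerSeries k) (KK k) (x i))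
    (hy : ∀ i, bp (TB N (a 1)) i = algebraMap (PowerSeries k) (KK k) (y i)) :
    ∃ c : PowerSeries k, c ≠ 0 ∧
      Phi N 1 (lineP x y) = iota c * (th N (a 0) * th N (a 1) * th N (a12 a)) := by
  have ha01 : a 0 ≠ a 1 := fun h => by
    have := ha h
    exact absurd this (by decide)
  have hdeg : (lineP x y).totalDegree ≤ 1 := by
    have h1 : ∀ (b c : PowerSeries k) (i : Fin 2),
        (C b * (X i - C c) : MvPolynomial (Fin 2) (PowerSeries k)).totalDegree ≤ 1 := by
      intro b c i
      refine (totalDegree_mul _ _).trans ?_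
      rw [totalDegree_C, zero_add]
      refine (totalDegree_sub _ _).trans ?_
      rw [totalDegree_X, totalDegree_C]
      simp
    unfold lineP
    exact (totalDegree_sub _ _).trans (max_le (h1 _ _ _) (h1 _ _ _))
  -- the orders of vanishing
  have hmap : MvPolynomial.map (algebraMap (PowerSeries k) (KK k)) (lineP x y) =
      C (algebraMap (PowerSeries k) (KK k) (y 1) - algebraMap (PowerSeries k) (KK k) (x 1)) *
        (X 0 - C (algebraMap (PowerSeries k) (KK k) (x 0))) -
      C (algebraMap (PowerSeries k) (KK k) (y 0) - algebraMap (PowerSeries k) (KK k) (x 0)) *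
        (X 1 - C (algebraMap (PowerSeries k) (KK k) (x 1))) := by
    simp [lineP]
  have h0 : (PowerSeries.X : PowerSeries (PowerSeries k)) ^ 1 ∣ Ta (a 0) (Phi N 1 (lineP x y)) := by
    refine base_order hN (a 0) 1 1 (lineP x y) hdeg 1 _ (by rw [C_1, one_mul]) ?_
    rw [pow_one, hx 0, hx 1, hmap]
    refine Ideal.sub_mem _ (Ideal.mul_mem_left _ _ ?_) (Ideal.mul_mem_left _ _ ?_)
    · exact Ideal.subset_span (by simp)
    · exact Ideal.subset_span (by simp)
  have h1 : (PowerSeries.X : PowerSeries (PowerSeries k)) ^ 1 ∣ Ta (a 1) (Phi N 1 (lineP x y)) := by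
    refine base_order hN (a 1) 1 1 (lineP x y) hdeg 1 _ (by rw [C_1, one_mul]) ?_
    rw [pow_one, hy 0, hy 1, hmap]
    have e : C (algebraMap (PowerSeries k) (KK k) (y 1) - algebraMap (PowerSeries k) (KK k) (x 1)) *
        (X 0 - C (algebraMap (PowerSeries k) (KK k) (x 0))) -
      C (algebraMap (PowerSeries k) (KK k) (y 0) - algebraMap (PowerSeries k) (KK k) (x 0)) *
        (X 1 - C (algebraMap (PowerSeries k) (KK k) (x 1))) =
      (C (algebraMap (PowerSeries k) (KK k) (y 1) - algebraMap (PowerSeries k) (KK k) (x 1)) *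
        (X 0 - C (algebraMap (PowerSeries k) (KK k) (y 0))) -
      C (algebraMap (PowerSeries k) (KK k) (y 0) - algebraMap (PowerSeries k) (KK k) (x 0)) *
        (X 1 - C (algebraMap (PowerSeries k) (KK k) (y 1))) : MvPolynomial (Fin 2) (KK k)) := by
      simp only [map_sub]
      ring
    rw [e]
    refine Ideal.sub_mem _ (Ideal.mul_mem_left _ _ ?_) (Ideal.mul_mem_left _ _ ?_)
    · exact Ideal.subset_span (by simp)
    · exact Ideal.subset_span (by simp)
  -- division by the two theta functions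
  set a' : Fin 2 → kˣ := ![a 0, a 1] with ha'
  have hinj : Function.Injective a' := by
    intro i j hij
    fin_cases i <;> fin_cases j
    · rfl
    · exact absurd hij ha01
    · exact absurd hij.symm ha01
    · rfl
  have hth : IsTh N (1 + ∑ _i ∈ (Finset.univ : Finset (Fin 2)), 1) 1 (Phi N 1 (lineP x y)) := by
    have := Phi_isTh hN hdeg
    simpa using this
  obtain ⟨h, hh, hf⟩ := div_prod hN one_ne_zero Finset.univ a' (hinj.injOn) (fun _ => 1) hth
    (fun i _ => by
      fin_cases i
      · exact h0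
      · exact h1)
  have hγ : (∏ i ∈ (Finset.univ : Finset (Fin 2)), (-(a' i : k)) ^ 1) * 1 =
      -(((a12 a)⁻¹ : kˣ) : k) := by
    simp [ha', a12, Fin.prod_univ_two, mul_comm]
  rw [hγ] at hh
  set c : PowerSeries k := PowerSeries.mk fun m : ℕ => cf h (m : ℤ) 0 with hc
  have hhc : h = iota c * th N (a12 a) := by
    have hd : h - iota c * th N (a12 a) = 0 := by
      refine (hh.sub ((th_isTh hN (a12 a)).iota_mul c)).eq_zero one_pos
        (neg_ne_zero.mpr (Units.ne_zero _)) ?_
      intro ρ hρ n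
      have hρ0 : ρ = 0 := by omega
      subst hρ0
      rw [Nat.cast_zero, cf_sub, LevelA_cf_one (th_cf hN (a12 a)), hc, LevelA_cR_mk, sub_self]
    exact sub_eq_zero.mp hd
  have hPhi : Phi N 1 (lineP x y) = iota c * (th N (a 0) * th N (a 1) * th N (a12 a)) := by
    rw [hf, hhc, Fin.prod_univ_two]
    simp only [ha', pow_one, Matrix.cons_val_zero, Matrix.cons_val_one]
    ring
  refine ⟨c, ?_, hPhi⟩
  intro hc0
  rw [hc0, map_zero, zero_mul] at hPhi
  -- the coefficients
  have hℓ : lineP x y = C (y 1 - x 1) * X 0 + (C (-(y 0 - x 0)) * X 1 +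
      C (-((y 1 - x 1) * x 0) + (y 0 - x 0) * x 1) * 1) := by
    unfold lineP
    simp only [map_add, map_sub, map_neg, map_mul]
    ring
  have hd0 : (C (y 1 - x 1) * X 0 : MvPolynomial (Fin 2) (PowerSeries k)).totalDegree ≤ 1 := by
    refine (totalDegree_mul _ _).trans ?_
    rw [totalDegree_C, totalDegree_X]
  have hd1 : (C (-(y 0 - x 0)) * X 1 : MvPolynomial (Fin 2) (PowerSeries k)).totalDegree ≤ 1 := by
    refine (totalDegree_mul _ _).trans ?_
    rw [totalDegree_C, totalDegree_X]
  have hd2 : (C (-((y 1 - x 1) * x 0) + (y 0 - x 0) * x 1) * 1 :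
      MvPolynomial (Fin 2) (PowerSeries k)).totalDegree ≤ 1 := by
    rw [mul_one, totalDegree_C]
    exact zero_le_one
  have hone : Phi N 1 (1 : MvPolynomial (Fin 2) (PowerSeries k)) = x3 k N 1 := by
    rw [Phi, MvPolynomial.support_one, Finset.sum_singleton]
    simp
  rw [hℓ, Phi_add N 1 hd0 ((totalDegree_add _ _).trans (max_le hd1 hd2)),
    Phi_add N 1 hd1 hd2, Phi_C_mul, Phi_C_mul, Phi_C_mul, LevelA_Phi_X, LevelA_Phi_X, hone] at hPhi
  have x3cf : ∀ (i ρ : ℕ), ρ < 3 → ∀ n : ℤ, cf (x3 k N i) n (ρ : ℤ) =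
      if ρ = i ∧ n = 0 then 1 else 0 := fun i ρ hρ n => x3_cf hN i ρ hρ n
  have hA : y 1 - x 1 = 0 := by
    refine cR_ext fun n => ?_
    have h2 := congrArg (fun f => cf f n ((0 : ℕ) : ℤ)) hPhi
    simp only [cf_add, cf_zero] at h2
    rw [LevelA_cf_one (f := x3 k N (2 * ((0 : Fin 2) : ℕ))) (fun n => by
        rw [x3cf _ 0 (by norm_num)]; simp),
      LevelA_cf_zero (f := x3 k N (2 * ((1 : Fin 2) : ℕ))) (fun n => by
        rw [x3cf _ 0 (by norm_num)]; simp),
      LevelA_cf_zero (f := x3 k N 1) (fun n => by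
        rw [x3cf _ 0 (by norm_num)]; simp), add_zero, add_zero] at h2
    rw [h2, cR]
    split_ifs
    · rfl
    · rw [map_zero]
  have hB : -(y 0 - x 0) = 0 := by
    refine cR_ext fun n => ?_
    have h2 := congrArg (fun f => cf f n ((2 : ℕ) : ℤ)) hPhi
    simp only [cf_add, cf_zero] at h2
    rw [LevelA_cf_zero (f := x3 k N (2 * ((0 : Fin 2) : ℕ))) (fun n => by
        rw [x3cf _ 2 (by norm_num)]; simp),
      LevelA_cf_one (f := x3 k N (2 * ((1 : Fin 2) : ℕ))) (fun n => by
        rw [x3cf _ 2 (by norm_num)]; simp),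
      LevelA_cf_zero (f := x3 k N 1) (fun n => by
        rw [x3cf _ 2 (by norm_num)]; simp), add_zero, zero_add] at h2
    rw [h2, cR]
    split_ifs
    · rfl
    · rw [map_zero]
  have e1 : y 1 = x 1 := sub_eq_zero.mp hA
  have e0 : y 0 = x 0 := sub_eq_zero.mp (neg_eq_zero.mp hB)
  apply ha01
  apply bp_inj hN
  funext i
  fin_cases i
  · show bp (TB N (a 0)) 0 = bp (TB N (a 1)) 0
    rw [hx, hy, e0]
  · show bp (TB N (a 0)) 1 = bp (TB N (a 1)) 1
    rw [hx, hy, e1]

end ShghT
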