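import Pool.Agent.ShghW.Ranks
import Pool.Agent.ShghT.CombA

/-!
# Placement in the cases `e ≤ 2`
-/

namespace ShghT

private theorem Place2_two {r : ℕ} (m : Fin r → ℕ) : ∃ K : ℤ,
    (cnd m : ℤ) = 2 * K + (Finset.univ.filter
      (fun i : Fin r => m i % 4 = 1 ∨ m i % 4 = 2)).card ∧
    ∀ a0 a1 : ℕ, a0 + a1 = (Finset.univ.filter
      (fun i : Fin r => m i % 4 = 1 ∨ m i % 4 = 2)).card →
    ∃ x : Fin r → ℤ × Bool, (∀ i, CombA_adm 2 (x i)) ∧
    (∑ i, (Nr 2 (m i) (x i).1 (x i).2 0 : ℤ)) = K + a0 ∧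
    (∑ i, (Nr 2 (m i) (x i).1 (x i).2 1 : ℤ)) = K + a1 := by
  classical
  choose κ hκA hκ0 using CombA_type2
  set FA := Finset.univ.filter (fun i : Fin r => m i % 4 = 1 ∨ m i % 4 = 2) with hFA
  set F0 := Finset.univ.filter (fun i : Fin r => ¬ (m i % 4 = 1 ∨ m i % 4 = 2)) with hF0
  have key : ∀ a0 a1 : ℕ, a0 + a1 = FA.card →
      ∃ x : Fin r → ℤ × Bool, (∀ i, CombA_adm 2 (x i)) ∧
      (∑ i, (Nr 2 (m i) (x i).1 (x i).2 0 : ℤ)) = (∑ i, κ (m i)) + a0 ∧
      (∑ i, (Nr 2 (m i) (x i).1 (x i).2 1 : ℤ)) = (∑ i, κ (m i)) + a1 := by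
    intro a0 a1 ha
    obtain ⟨xA, hA1, hA2⟩ := CombA_placeA 2 m (fun i => κ (m i)) FA (fun i hi =>
      hκA (m i) (Finset.mem_filter.1 hi).2) (fun ρ => if ρ = 0 then a0 else a1) (by
        rw [Finset.sum_range_succ, Finset.sum_range_one]
        simpa using ha)
    obtain ⟨x0, h01, h02⟩ := CombA_place0 2 m (fun i => κ (m i)) F0 (fun i hi =>
      hκ0 (m i) (by
        have := (Finset.mem_filter.1 hi).2
        omega))
    have hsum : ∀ ρ < 2, ∑ i, (Nr 2 (m i) ((if i ∈ FA then xA i else x0 i)).1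
        ((if i ∈ FA then xA i else x0 i)).2 ρ : ℤ)
        = (∑ i, κ (m i)) + ((if ρ = 0 then a0 else a1 : ℕ) : ℤ) := by
      intro ρ hρ
      rw [← Finset.sum_filter_add_sum_filter_not Finset.univ
        (fun i : Fin r => m i % 4 = 1 ∨ m i % 4 = 2) (fun i => (Nr 2 (m i)
          ((if i ∈ FA then xA i else x0 i)).1 ((if i ∈ FA then xA i else x0 i)).2 ρ : ℤ)),
        ← Finset.sum_filter_add_sum_filter_not Finset.univ
        (fun i : Fin r => m i % 4 = 1 ∨ m i % 4 = 2) (fun i => κ (m i))]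
      rw [← hFA, ← hF0]
      have e1 : ∑ i ∈ FA, (Nr 2 (m i) ((if i ∈ FA then xA i else x0 i)).1
          ((if i ∈ FA then xA i else x0 i)).2 ρ : ℤ)
          = ∑ i ∈ FA, (Nr 2 (m i) (xA i).1 (xA i).2 ρ : ℤ) := by
        apply Finset.sum_congr rfl
        intro i hi
        rw [if_pos hi]
      have e2 : ∑ i ∈ F0, (Nr 2 (m i) ((if i ∈ FA then xA i else x0 i)).1
          ((if i ∈ FA then xA i else x0 i)).2 ρ : ℤ)
          = ∑ i ∈ F0, (Nr 2 (m i) (x0 i).1 (x0 i).2 ρ : ℤ) := by
        apply Finset.sum_congr rfl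
        intro i hi
        have : i ∉ FA := by
          intro h
          exact (Finset.mem_filter.1 hi).2 (Finset.mem_filter.1 h).2
        rw [if_neg this]
      rw [e1, e2, hA2 ρ hρ, h02 ρ hρ]
      ring
    refine ⟨fun i => if i ∈ FA then xA i else x0 i, ?_, ?_, ?_⟩
    · intro i
      by_cases hi : i ∈ FA
      · simp only [if_pos hi]
        exact hA1 i hi
      · simp only [if_neg hi]
        apply h01
        rw [hF0, Finset.mem_filter]
        refine ⟨Finset.mem_univ i, ?_⟩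
        intro h
        exact hi (Finset.mem_filter.2 ⟨Finset.mem_univ i, h⟩)
    · exact hsum 0 (by norm_num)
    · exact hsum 1 (by norm_num)
  refine ⟨∑ i, κ (m i), ?_, key⟩
  obtain ⟨x, -, h0, h1⟩ := key FA.card 0 (by ring)
  have h := CombA_total 2 (by norm_num) m x
  rw [Finset.sum_range_succ, Finset.sum_range_one, h0, h1] at h
  rw [← h]
  push_cast
  ring

private theorem Place2_bal (m : ℕ) (hm : ¬ (m % 4 = 1 ∨ m % 4 = 2)) :
    (Nr 2 m (-1) true 0 : ℤ) = Nr 2 m (-1) true 1 := by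
  obtain ⟨C, hC⟩ := CombA_shift 2 (by norm_num) m
  rw [hC (-1) true 0 (by norm_num), hC (-1) true 1 (by norm_num)]
  have h : m % (2 * 2) = 0 ∨ m % (2 * 2) = 3 := by omega
  rcases h with h | h
  · rw [h]
    have : (Nr 2 0 (-1) true 0 : ℤ) = Nr 2 0 (-1) true 1 := by decide +kernel
    rw [this]
  · rw [h]
    have : (Nr 2 3 (-1) true 0 : ℤ) = Nr 2 3 (-1) true 1 := by decide +kernel
    rw [this]

/-- One column: `p = 0`, `some true`, `sum_NO`. -/
theorem place1 (Q : ℕ → ℕ) {r : ℕ} (m : Fin r → ℕ) (hT : Q 0 ≤ ∑ i, (m i + 1).choose 2) :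
    ∃ (p : Fin r → ℤ) (o : Fin r → Option Bool),
      (∀ i, 0 ≤ circO 1 (p i) (o i) ∧ circO 1 (p i) (o i) < 4 * ((1 : ℕ) : ℤ)) ∧
      ∀ x < 1, Q x ≤ ∑ i, NO 1 (m i) (p i) (o i) x := by
  refine ⟨fun _ => 0, fun _ => some true, fun i => ?_, fun x hx => ?_⟩
  · simp only [circO, circ]
    norm_num
  · have hx0 : x = 0 := by omega
    subst hx0
    refine hT.trans (le_of_eq ?_)
    refine Finset.sum_congr rfl fun i _ => ?_
    have h := sum_NO 1 one_pos (m i) 0 (some true)
    rw [Finset.sum_range_one] at h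
    exact h.symm

/-- Two columns. PROOF. For `e = 2` and the ordinary pattern with centre `p`, `NO(p mod 2) - NO(p + 1 mod 2)` is
`0` for `m ≡ 0, 3 mod 4` and `1` for `m ≡ 1, 2 mod 4`; the exchanged pattern (mode `none`, `m ≥ 1`) moves one unit from the
column `p` to `p + 1`. Let `Δ = Q 0 - Q 1 ∈ {0, 1, 2}`, `W = ∑ C(m i + 1, 2)`, `S = W - Q 0 - Q 1 ≥ 0` and `n₁` the number of
points with `m i ≡ 1, 2 mod 4`; `n₁ ≡ W mod 2`. We want `D := F(0) - F(1)` with `Δ - S ≤ D ≤ Δ + S`; `D ≡ W ≡ Δ + S mod 2`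
automatically. If `S ≥ 1` take `D = 0` (`n₁` even) or `D = 1` (`n₁` odd): pair the `n₁` points with opposite signs. If
`S = 0`: `D = Δ`; for `Δ = 2` and `n₁ = 0` some `m i ≥ 3` (`W ≥ Q 0 > 0`): take its mode `none` with `p` odd, all others
balanced; for `Δ = 2`, `n₁ ≥ 2`: two points with sign `+`, the others balanced. -/
theorem place2 (Q : ℕ → ℕ) (h1 : Q 1 ≤ Q 0) (h2 : Q 0 ≤ Q 1 + 2) (h3 : 1 ≤ Q 1) {r : ℕ}
    (m : Fin r → ℕ) (hT : Q 0 + Q 1 ≤ ∑ i, (m i + 1).choose 2) :
    ∃ (p : Fin r → ℤ) (o : Fin r → Option Bool),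
      (∀ i, 0 ≤ circO 2 (p i) (o i) ∧ circO 2 (p i) (o i) < 4 * ((2 : ℕ) : ℤ)) ∧
      ∀ x < 2, Q x ≤ ∑ i, NO 2 (m i) (p i) (o i) x := by
  classical
  obtain ⟨K, hK, hx⟩ := Place2_two m
  have hcnd : cnd m = ∑ i, (m i + 1).choose 2 := rfl
  rw [← hcnd] at hT
  set n := (Finset.univ.filter (fun i : Fin r => m i % 4 = 1 ∨ m i % 4 = 2)).card with hn
  -- from a distribution of the units to the conclusion
  have fin : ∀ a0 a1 : ℕ, a0 + a1 = n → (Q 0 : ℤ) ≤ K + a0 → (Q 1 : ℤ) ≤ K + a1 →
      ∃ (p : Fin r → ℤ) (o : Fin r → Option Bool),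
      (∀ i, 0 ≤ circO 2 (p i) (o i) ∧ circO 2 (p i) (o i) < 4 * ((2 : ℕ) : ℤ)) ∧
      ∀ x < 2, Q x ≤ ∑ i, NO 2 (m i) (p i) (o i) x := by
    intro a0 a1 ha h0 h1'
    obtain ⟨x, hadm, hs0, hs1⟩ := hx a0 a1 ha
    refine ⟨fun i => (x i).1, fun i => some (x i).2, fun i => ⟨(hadm i).1.le, (hadm i).2⟩,
      fun y hy => ?_⟩
    have hy' : y = 0 ∨ y = 1 := by omega
    rcases hy' with rfl | rfl
    · rw [← hs0] at h0
      exact_mod_cast h0
    · rw [← hs1] at h1'
      exact_mod_cast h1'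
  by_cases hbad : Q 0 = Q 1 + 2 ∧ cnd m = Q 0 + Q 1
  · by_cases hn0 : n = 0
    · -- all the points are balanced
      have hall : ∀ i, ¬ (m i % 4 = 1 ∨ m i % 4 = 2) := by
        intro i hi
        have hmem : i ∈ Finset.univ.filter (fun i : Fin r => m i % 4 = 1 ∨ m i % 4 = 2) :=
          Finset.mem_filter.2 ⟨Finset.mem_univ i, hi⟩
        have hpos := Finset.card_pos.2 ⟨i, hmem⟩
        omega
      have hex : ∃ i0, 1 ≤ m i0 := by
        by_contra hcon
        push Not at hcon
        have hz : cnd m = 0 := by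
          rw [hcnd]
          refine Finset.sum_eq_zero fun i _ => ?_
          have : m i = 0 := by
            have := hcon i
            omega
          rw [this]
          rfl
        omega
      obtain ⟨i0, hi0⟩ := hex
      have hN : ∀ (i : Fin r) (ρ : ℕ), ρ < 2 →
          (2 * NO 2 (m i) (-1) (some true) ρ : ℤ) = (m i + 1).choose 2 := by
        intro i ρ hρ
        have h := sum_NO 2 (by norm_num) (m i) (-1) (some true)
        rw [Finset.sum_range_succ, Finset.sum_range_one] at h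
        have hb := Place2_bal (m i) (hall i)
        rw [← NO_some, ← NO_some] at hb
        have hρ' : ρ = 0 ∨ ρ = 1 := by omega
        rcases hρ' with rfl | rfl
        · omega
        · omega
      refine ⟨fun _ => -1, fun i => if i = i0 then none else some true, fun i => ?_,
        fun y hy => ?_⟩
      · by_cases hi : i = i0
        · simp only [if_pos hi, circO]
          norm_num
        · simp only [if_neg hi, circO, circ]
          norm_num
      · have hval : ∀ i, (2 * NO 2 (m i) (-1) (if i = i0 then none else some true) y : ℤ)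
            = (m i + 1).choose 2 + (if i = i0 then (if y = 0 then 2 else -2) else 0) := by
          intro i
          by_cases hi : i = i0
          · subst hi
            rw [if_pos rfl, if_pos rfl, NO_none 2 (by norm_num) (m i) hi0 (-1) y hy]
            have h2 := hN i y hy
            have hy' : y = 0 ∨ y = 1 := by omega
            rcases hy' with rfl | rfl
            · norm_num
              linarith
            · norm_num
              linarith
          · rw [if_neg hi, if_neg hi, hN i y hy, add_zero]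
        have hsum : 2 * ((∑ i, NO 2 (m i) (-1) (if i = i0 then none else some true) y : ℕ) : ℤ)
            = cnd m + (if y = 0 then 2 else -2) := by
          rw [Nat.cast_sum, Finset.mul_sum, Finset.sum_congr rfl fun i _ => hval i, Finset.sum_add_distrib,
            Finset.sum_ite_eq' Finset.univ i0, if_pos (Finset.mem_univ i0), hcnd]
          push_cast
          rfl
        have hy' : y = 0 ∨ y = 1 := by omega
        rcases hy' with rfl | rfl
        · rw [if_pos rfl] at hsum
          show Q 0 ≤ ∑ i, NO 2 (m i) (-1) (if i = i0 then none else some true) 0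
          omega
        · rw [if_neg one_ne_zero] at hsum
          show Q 1 ≤ ∑ i, NO 2 (m i) (-1) (if i = i0 then none else some true) 1
          omega
    · exact fin (n / 2 + 1) (n - (n / 2 + 1)) (by omega) (by omega) (by omega)
  · exact fin ((n + 1) / 2) (n / 2) (by omega) (by omega) (by omega)

end ShghT
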