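import Pool.Agent.ShghW.Tiles
import Pool.Agent.ShghW.Ranks
import Pool.Agent.ShghT.CombB

/-!
# Placement of double and simple points
-/

namespace ShghT

/-- Representatives on admissible circles. -/
private theorem PlaceD_rep (e : ℕ) (he : 0 < e) (Q : ℕ → ℕ) {r : ℕ} (m : Fin r → ℕ)
    (p : Fin r → ℤ) (o : Fin r → Option Bool)
    (h : ∀ x < e, Q x ≤ ∑ i, NO e (m i) (p i) (o i) x) :
    ∃ (p : Fin r → ℤ) (o : Fin r → Option Bool),
      (∀ i, 0 ≤ circO e (p i) (o i) ∧ circO e (p i) (o i) < 4 * e) ∧
      ∀ x < e, Q x ≤ ∑ i, NO e (m i) (p i) (o i) x := by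
  choose t ht using fun i => exists_rep e he (p i) (o i)
  refine ⟨fun i => p i + e * t i, o, ht, fun x hx => ?_⟩
  refine (h x hx).trans (le_of_eq ?_)
  exact Finset.sum_congr rfl fun i _ => (NO_shift e (m i) (p i) (o i) x (t i)).symm

/-- One term of the number of conditions. -/
private theorem PlaceD_term (e m : ℕ) (p : ℤ) (o : Option Bool) (ρ : ℕ) (j : ℤ)
    (h1 : p - (m : ℤ) ≤ j) (h2 : j ≤ p + m) (h3 : j % e = ρ) :
    ((m : ℤ) + 1 - rkO p o j).toNat ≤ NO e m p o ρ := by
  unfold NO
  exact Finset.single_le_sum (f := fun j : ℤ => ((m : ℤ) + 1 - rkO p o j).toNat)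
    (fun _ _ => Nat.zero_le _)
    (Finset.mem_filter.2 ⟨Finset.mem_Icc.2 ⟨h1, h2⟩, h3⟩)

/-- A simple point. -/
private theorem PlaceD_one (e : ℕ) (x : ℕ) (hx : x < e) :
    1 ≤ NO e 1 (x : ℤ) (some true) x := by
  have h := PlaceD_term e 1 (x : ℤ) (some true) x (x : ℤ) (by push_cast; omega)
    (by push_cast; omega) (Int.emod_eq_of_lt (by omega) (by omega))
  simpa [rkO, rk] using h

/-- A double point, first orientation. -/
private theorem PlaceD_two_true (e : ℕ) (he : 2 ≤ e) (x : ℕ) (hx : x < e) (y : ℕ) :
    (if y = x then 2 else 0) + (if y = (x + 1) % e then 1 else 0) ≤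
      NO e 2 (x : ℤ) (some true) y := by
  have hne : ¬ x = (x + 1) % e := by
    intro h
    rcases Nat.lt_or_ge (x + 1) e with h1 | h1
    · rw [Nat.mod_eq_of_lt h1] at h
      omega
    · have h2 : x + 1 = e := by omega
      rw [h2, Nat.mod_self] at h
      omega
  by_cases h1 : y = x
  · subst h1
    rw [if_pos rfl, if_neg hne]
    have h := PlaceD_term e 2 (y : ℤ) (some true) y (y : ℤ) (by push_cast; omega)
      (by push_cast; omega) (Int.emod_eq_of_lt (by omega) (by omega))
    simpa [rkO, rk] using h
  · by_cases h2 : y = (x + 1) % e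
    · rw [if_neg h1, if_pos h2]
      have h := PlaceD_term e 2 (x : ℤ) (some true) y ((x : ℤ) + 1) (by push_cast; omega)
        (by push_cast; omega) (by rw [h2]; push_cast; rfl)
      simpa [rkO, rk] using h
    · rw [if_neg h1, if_neg h2]
      exact Nat.zero_le _

/-- A double point, second orientation. -/
private theorem PlaceD_two_false (e : ℕ) (he : 2 ≤ e) (x : ℕ) (hx : x < e) (y : ℕ) :
    (if y = x then 1 else 0) + (if y = (x + 1) % e then 2 else 0) ≤
      NO e 2 ((x : ℤ) + 1) (some false) y := by
  have hne : ¬ x = (x + 1) % e := by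
    intro h
    rcases Nat.lt_or_ge (x + 1) e with h1 | h1
    · rw [Nat.mod_eq_of_lt h1] at h
      omega
    · have h2 : x + 1 = e := by omega
      rw [h2, Nat.mod_self] at h
      omega
  by_cases h1 : y = x
  · subst h1
    rw [if_pos rfl, if_neg hne]
    have h := PlaceD_term e 2 ((y : ℤ) + 1) (some false) y (y : ℤ) (by push_cast; omega)
      (by push_cast; omega) (Int.emod_eq_of_lt (by omega) (by omega))
    simpa [rkO, rk] using h
  · by_cases h2 : y = (x + 1) % e
    · rw [if_neg h1, if_pos h2]
      have h := PlaceD_term e 2 ((x : ℤ) + 1) (some false) y ((x : ℤ) + 1) (by push_cast; omega)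
        (by push_cast; omega) (by rw [h2]; push_cast; rfl)
      simpa [rkO, rk] using h
    · rw [if_neg h1, if_neg h2]
      exact Nat.zero_le _

/-- Only simple points, any demand. -/
private theorem PlaceD_simple (e : ℕ) (he : 0 < e) (Q : ℕ → ℕ) {r : ℕ} (m : Fin r → ℕ)
    (B : Finset (Fin r)) (hB : ∀ i ∈ B, m i = 1) (h : ∑ x ∈ Finset.range e, Q x ≤ B.card) :
    ∃ (p : Fin r → ℤ) (o : Fin r → Option Bool),
      ∀ x < e, Q x ≤ ∑ i ∈ B, NO e (m i) (p i) (o i) x := by
  obtain ⟨c, hc, hc'⟩ := CombB_dist e B he Q h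
  refine ⟨fun i => (c i : ℤ), fun _ => some true, fun x hx => (hc' x hx).trans ?_⟩
  rw [Finset.card_filter]
  refine Finset.sum_le_sum fun i hi => ?_
  by_cases h1 : c i = x
  · subst h1
    rw [if_pos rfl, hB i hi]
    exact PlaceD_one e (c i) hx
  · rw [if_neg h1]
    exact Nat.zero_le _

/-- Only simple points. -/
theorem placeS (e : ℕ) (he : 0 < e) (Q : ℕ → ℕ) {r : ℕ} (m : Fin r → ℕ) (hm : ∀ i, m i ≤ 1)
    (hT : ∑ x ∈ Finset.range e, Q x ≤ ∑ i, (m i + 1).choose 2) :
    ∃ (p : Fin r → ℤ) (o : Fin r → Option Bool),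
      (∀ i, 0 ≤ circO e (p i) (o i) ∧ circO e (p i) (o i) < 4 * e) ∧
      ∀ x < e, Q x ≤ ∑ i, NO e (m i) (p i) (o i) x := by
  have hsum : ∑ i, (m i + 1).choose 2 = (Finset.univ.filter fun i => m i = 1).card := by
    rw [Finset.card_filter]
    refine Finset.sum_congr rfl fun i _ => ?_
    have := hm i
    interval_cases h : m i <;> simp
  obtain ⟨p, o, hpo⟩ := PlaceD_simple e he Q m (Finset.univ.filter fun i => m i = 1)
    (fun i hi => (Finset.mem_filter.1 hi).2) (hsum ▸ hT)
  refine PlaceD_rep e he Q m p o fun x hx => (hpo x hx).trans ?_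
  exact Finset.sum_le_sum_of_subset (Finset.filter_subset _ _)

/-- Add one point. -/
private theorem PlaceD_add (e : ℕ) {r : ℕ} (m : Fin r → ℕ) (a : Fin r) (S : Finset (Fin r))
    (ha : a ∉ S) (Q Q1 P : ℕ → ℕ) (p : Fin r → ℤ) (o : Fin r → Option Bool)
    (h : ∀ x < e, Q1 x ≤ ∑ i ∈ S, NO e (m i) (p i) (o i) x) (q : ℤ) (s : Option Bool)
    (hP : ∀ x < e, P x ≤ NO e (m a) q s x) (hQ : ∀ x < e, Q x = Q1 x + P x) :
    ∃ (p : Fin r → ℤ) (o : Fin r → Option Bool),
      ∀ x < e, Q x ≤ ∑ i ∈ insert a S, NO e (m i) (p i) (o i) x := by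
  refine ⟨Function.update p a q, Function.update o a s, fun x hx => ?_⟩
  rw [Finset.sum_insert ha, Function.update_self, Function.update_self]
  have h1 : ∑ i ∈ S, NO e (m i) (Function.update p a q i) (Function.update o a s i) x =
      ∑ i ∈ S, NO e (m i) (p i) (o i) x := by
    refine Finset.sum_congr rfl fun i hi => ?_
    have hia : i ≠ a := ne_of_mem_of_not_mem hi ha
    rw [Function.update_of_ne hia, Function.update_of_ne hia]
  rw [h1, hQ x hx]
  have h2 := h x hx
  have h3 := hP x hx
  omega

/-- The neighbour of a column. -/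
private theorem PlaceD_nb (e x y : ℕ) (hx : x < e) (hy : y < e) :
    (y + e - 1) % e = x ↔ y = (x + 1) % e := by
  rcases Nat.eq_zero_or_pos y with h | h
  · subst h
    rw [Nat.zero_add, Nat.mod_eq_of_lt (by omega)]
    rcases Nat.lt_or_ge (x + 1) e with h1 | h1
    · rw [Nat.mod_eq_of_lt h1]
      omega
    · have h2 : x + 1 = e := by omega
      rw [h2, Nat.mod_self]
      omega
  · have h3 : y + e - 1 = (y - 1) + e := by omega
    rw [h3, Nat.add_mod_right, Nat.mod_eq_of_lt (by omega)]
    rcases Nat.lt_or_ge (x + 1) e with h1 | h1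
    · rw [Nat.mod_eq_of_lt h1]
      omega
    · have h2 : x + 1 = e := by omega
      rw [h2, Nat.mod_self]
      omega

/-- The units of a domino. -/
private theorem PlaceD_units (e : ℕ) (x : ℕ) (hx : x < e) (a b : ℕ) :
    ∑ y ∈ Finset.range e, ((if y = x then a else 0) + (if y = (x + 1) % e then b else 0)) =
      a + b := by
  have h1 : (x + 1) % e < e := Nat.mod_lt _ (by omega)
  rw [Finset.sum_add_distrib, Finset.sum_ite_eq', Finset.sum_ite_eq',
    if_pos (Finset.mem_range.2 hx), if_pos (Finset.mem_range.2 h1)]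

/-- The induction on the double points. -/
private theorem PlaceD_core (e : ℕ) (he : 2 ≤ e) {r : ℕ} (m : Fin r → ℕ)
    (B : Finset (Fin r)) (hB : ∀ i ∈ B, m i = 1) (x0 : ℕ) (hx0 : x0 < e) (u v : ℕ)
    (huv : u + v ≤ 2) (A : Finset (Fin r)) : (∀ i ∈ A, m i = 2) → ∀ (X Y Q : ℕ → ℕ),
    (∀ x < e, Q x = (2 * X x + Y x + (X ((x + e - 1) % e) + 2 * Y ((x + e - 1) % e))) +
      ((if x = x0 then u else 0) + (if x = (x0 + 1) % e then v else 0))) →
    ∑ x ∈ Finset.range e, Q x ≤ 3 * A.card + B.card →
    ∃ (p : Fin r → ℤ) (o : Fin r → Option Bool),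
      ∀ x < e, Q x ≤ ∑ i ∈ A ∪ B, NO e (m i) (p i) (o i) x := by
  classical
  induction A using Finset.induction_on with
  | empty =>
    intro _ X Y Q _ hs
    obtain ⟨p, o, h⟩ := PlaceD_simple e (by omega) Q m B hB (by simpa using hs)
    exact ⟨p, o, fun x hx => by rw [Finset.empty_union]; exact h x hx⟩
  | insert a A ha ih =>
    intro hA X Y Q hQ hs
    have hma : m a = 2 := hA a (Finset.mem_insert_self a A)
    have hA' : ∀ i ∈ A, m i = 2 := fun i hi => hA i (Finset.mem_insert_of_mem hi)
    have haB : a ∉ B := fun h => by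
      have := hB a h
      omega
    have haAB : a ∉ A ∪ B := by
      rw [Finset.mem_union]
      exact fun h => h.elim ha haB
    rw [Finset.card_insert_of_notMem ha] at hs
    rw [Finset.insert_union]
    by_cases hX : ∃ x < e, 0 < X x
    · obtain ⟨x1, hx1, hX1⟩ := hX
      have hdec : ∀ x < e, Q x = ((2 * Function.update X x1 (X x1 - 1) x + Y x +
          (Function.update X x1 (X x1 - 1) ((x + e - 1) % e) + 2 * Y ((x + e - 1) % e))) +
          ((if x = x0 then u else 0) + (if x = (x0 + 1) % e then v else 0))) +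
          ((if x = x1 then 2 else 0) + (if x = (x1 + 1) % e then 1 else 0)) := by
        intro x hx
        rw [hQ x hx]
        have e1 : 2 * X x = 2 * Function.update X x1 (X x1 - 1) x + (if x = x1 then 2 else 0) := by
          by_cases h : x = x1
          · subst h
            rw [Function.update_self, if_pos rfl]
            omega
          · rw [Function.update_of_ne h, if_neg h]
            omega
        have e2 : X ((x + e - 1) % e) = Function.update X x1 (X x1 - 1) ((x + e - 1) % e) +
            (if x = (x1 + 1) % e then 1 else 0) := by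
          by_cases h : x = (x1 + 1) % e
          · rw [if_pos h, (PlaceD_nb e x1 x hx1 hx).2 h, Function.update_self]
            omega
          · rw [if_neg h, Function.update_of_ne (fun h' => h ((PlaceD_nb e x1 x hx1 hx).1 h'))]
            omega
        omega
      set Q1 : ℕ → ℕ := fun x => (2 * Function.update X x1 (X x1 - 1) x + Y x +
          (Function.update X x1 (X x1 - 1) ((x + e - 1) % e) + 2 * Y ((x + e - 1) % e))) +
          ((if x = x0 then u else 0) + (if x = (x0 + 1) % e then v else 0)) with hQ1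
      have hs1 : ∑ x ∈ Finset.range e, Q x = ∑ x ∈ Finset.range e, Q1 x + (2 + 1) := by
        rw [← PlaceD_units e x1 hx1 2 1, ← Finset.sum_add_distrib]
        exact Finset.sum_congr rfl fun x hx => hdec x (Finset.mem_range.1 hx)
      obtain ⟨p, o, h⟩ := ih hA' (Function.update X x1 (X x1 - 1)) Y Q1 (fun x _ => rfl)
        (by omega)
      exact PlaceD_add e m a (A ∪ B) haAB Q Q1
        (fun x => (if x = x1 then 2 else 0) + (if x = (x1 + 1) % e then 1 else 0)) p o h
        (x1 : ℤ) (some true) (fun x _ => by rw [hma]; exact PlaceD_two_true e he x1 hx1 x) hdec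
    · by_cases hY : ∃ x < e, 0 < Y x
      · obtain ⟨x1, hx1, hY1⟩ := hY
        have hdec : ∀ x < e, Q x = ((2 * X x + Function.update Y x1 (Y x1 - 1) x +
            (X ((x + e - 1) % e) + 2 * Function.update Y x1 (Y x1 - 1) ((x + e - 1) % e))) +
            ((if x = x0 then u else 0) + (if x = (x0 + 1) % e then v else 0))) +
            ((if x = x1 then 1 else 0) + (if x = (x1 + 1) % e then 2 else 0)) := by
          intro x hx
          rw [hQ x hx]
          have e1 : Y x = Function.update Y x1 (Y x1 - 1) x + (if x = x1 then 1 else 0) := by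
            by_cases h : x = x1
            · subst h
              rw [Function.update_self, if_pos rfl]
              omega
            · rw [Function.update_of_ne h, if_neg h]
              omega
          have e2 : 2 * Y ((x + e - 1) % e) =
              2 * Function.update Y x1 (Y x1 - 1) ((x + e - 1) % e) +
              (if x = (x1 + 1) % e then 2 else 0) := by
            by_cases h : x = (x1 + 1) % e
            · rw [if_pos h, (PlaceD_nb e x1 x hx1 hx).2 h, Function.update_self]
              omega
            · rw [if_neg h, Function.update_of_ne (fun h' => h ((PlaceD_nb e x1 x hx1 hx).1 h'))]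
              omega
          omega
        set Q1 : ℕ → ℕ := fun x => (2 * X x + Function.update Y x1 (Y x1 - 1) x +
            (X ((x + e - 1) % e) + 2 * Function.update Y x1 (Y x1 - 1) ((x + e - 1) % e))) +
            ((if x = x0 then u else 0) + (if x = (x0 + 1) % e then v else 0)) with hQ1
        have hs1 : ∑ x ∈ Finset.range e, Q x = ∑ x ∈ Finset.range e, Q1 x + (1 + 2) := by
          rw [← PlaceD_units e x1 hx1 1 2, ← Finset.sum_add_distrib]
          exact Finset.sum_congr rfl fun x hx => hdec x (Finset.mem_range.1 hx)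
        obtain ⟨p, o, h⟩ := ih hA' X (Function.update Y x1 (Y x1 - 1)) Q1 (fun x _ => rfl)
          (by omega)
        exact PlaceD_add e m a (A ∪ B) haAB Q Q1
          (fun x => (if x = x1 then 1 else 0) + (if x = (x1 + 1) % e then 2 else 0)) p o h
          ((x1 : ℤ) + 1) (some false)
          (fun x _ => by rw [hma]; exact PlaceD_two_false e he x1 hx1 x) hdec
      · push Not at hX hY
        have hrest : ∀ x < e, Q x =
            (if x = x0 then u else 0) + (if x = (x0 + 1) % e then v else 0) := by
          intro x hx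
          have h1 := hX x hx
          have h2 := hY x hx
          have h3 := hX ((x + e - 1) % e) (Nat.mod_lt _ (by omega))
          have h4 := hY ((x + e - 1) % e) (Nat.mod_lt _ (by omega))
          rw [hQ x hx]
          omega
        by_cases hv : v ≤ 1
        · refine ⟨fun _ => (x0 : ℤ), fun _ => some true, fun x hx => ?_⟩
          rw [Finset.sum_insert haAB, hma, hrest x hx]
          have h1 := PlaceD_two_true e he x0 hx0 x
          have h2 : (if x = x0 then u else 0) + (if x = (x0 + 1) % e then v else 0) ≤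
              (if x = x0 then 2 else 0) + (if x = (x0 + 1) % e then 1 else 0) := by
            split_ifs <;> omega
          exact (h2.trans h1).trans (Nat.le_add_right _ _)
        · refine ⟨fun _ => (x0 : ℤ) + 1, fun _ => some false, fun x hx => ?_⟩
          rw [Finset.sum_insert haAB, hma, hrest x hx]
          have h1 := PlaceD_two_false e he x0 hx0 x
          have h2 : (if x = x0 then u else 0) + (if x = (x0 + 1) % e then v else 0) ≤
              (if x = x0 then 1 else 0) + (if x = (x0 + 1) % e then 2 else 0) := by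
            split_ifs <;> omega
          exact (h2.trans h1).trans (Nat.le_add_right _ _)

/-- Double and simple points. PROOF. Let `D` = number of dominoes of the tiling, `a` = number of double points,
`b` = number of simple points, `3 a + b ≥ 3 D + u + v`. A double point with centre `x`, `some true`, puts `2` conditions on
the column `x` and `1` on `x + 1` (a domino `(2, 1)`), with centre `x + 1`, `some false`, `1` on `x` and `2` on `x + 1`.
If `a ≥ D + 1`: cover all dominoes by double points and the `u + v ≤ 2` remaining units in the columns `x0, x0 + 1`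
by one more. If `a ≤ D`: cover `a` dominoes by double points; the other dominoes and the remaining units have
`3 (D - a) + u + v ≤ b` units: cover them by simple points (as in `placeS`). Use `exists_rep`, `NO_shift`. -/
theorem placeD (e : ℕ) (he : 2 ≤ e) (Q : ℕ → ℕ) (hQ : Tiles' e Q) {r : ℕ} (m : Fin r → ℕ)
    (hm : ∀ i, m i ≤ 2) (hT : ∑ x ∈ Finset.range e, Q x ≤ ∑ i, (m i + 1).choose 2) :
    ∃ (p : Fin r → ℤ) (o : Fin r → Option Bool),
      (∀ i, 0 ≤ circO e (p i) (o i) ∧ circO e (p i) (o i) < 4 * e) ∧
      ∀ x < e, Q x ≤ ∑ i, NO e (m i) (p i) (o i) x := by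
  obtain ⟨x0, hx0, u, v, huv, Q', ⟨X, Y, hXY⟩, hQ'⟩ := hQ
  have hsum : ∑ i, (m i + 1).choose 2 = 3 * (Finset.univ.filter fun i => m i = 2).card +
      (Finset.univ.filter fun i => m i = 1).card := by
    rw [Finset.card_filter, Finset.card_filter, Finset.mul_sum, ← Finset.sum_add_distrib]
    refine Finset.sum_congr rfl fun i _ => ?_
    have := hm i
    interval_cases h : m i <;> simp [Nat.choose]
  obtain ⟨p, o, hpo⟩ := PlaceD_core e he m (Finset.univ.filter fun i => m i = 1)
    (fun i hi => (Finset.mem_filter.1 hi).2) x0 hx0 u v huv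
    (Finset.univ.filter fun i => m i = 2) (fun i hi => (Finset.mem_filter.1 hi).2) X Y Q
    (fun x hx => by rw [hQ' x hx, hXY x hx]) (hsum ▸ hT)
  refine PlaceD_rep e (by omega) Q m p o fun x hx => (hpo x hx).trans ?_
  exact Finset.sum_le_sum_of_subset (Finset.subset_univ _)

end ShghT
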