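import Pool.Agent.ShghW.CombZ
import Pool.Agent.ShghW.Ranks
import Pool.Agent.ShghT.Red

/-!
# Exact placement of many points
-/

namespace ShghT

/-- Distribute a finite set with prescribed numbers of elements of every type at every place. -/
theorem exists_assign {ι : Type*} [Fintype ι] [DecidableEq ι] (e : ℕ) (f : ι → ℕ) (n : ℕ → ℕ → ℕ)
    (h : ∀ q, ∑ x ∈ Finset.range e, n q x = (Finset.univ.filter (fun i => f i = q)).card) :
    ∃ pos : ι → ℕ, (∀ i, pos i < e) ∧
      ∀ q, ∀ x < e, (Finset.univ.filter (fun i => f i = q ∧ pos i = x)).card = n q x := by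
  classical
  have hcard : ∀ q, Fintype.card {i // f i = q} = Fintype.card (Σ x : Fin e, Fin (n q x)) := by
    intro q
    rw [Fintype.card_sigma, Fintype.card_subtype, ← h q]
    simp only [Fintype.card_fin]
    exact (Finset.sum_range (fun x => n q x))
  let E : ∀ q, {i // f i = q} ≃ Σ x : Fin e, Fin (n q x) := fun q =>
    Fintype.equivOfCardEq (hcard q)
  have hE : ∀ (i : ι) (q : ℕ) (hq : f i = q), ((E (f i) ⟨i, rfl⟩).1 : ℕ) = ((E q ⟨i, hq⟩).1 : ℕ) := by
    intro i q hq
    subst hq
    rfl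
  refine ⟨fun i => ((E (f i) ⟨i, rfl⟩).1 : ℕ), fun i => (E (f i) ⟨i, rfl⟩).1.2, fun q x hx => ?_⟩
  rw [← Fintype.card_fin (n q x), ← Finset.card_univ]
  symm
  refine Finset.card_bij (fun k _ => ((E q).symm ⟨⟨x, hx⟩, k⟩).1) (fun k _ => ?_)
    (fun k _ k' _ hkk => ?_) (fun i hi => ?_)
  · rw [Finset.mem_filter]
    have h2 := ((E q).symm ⟨⟨x, hx⟩, k⟩).2
    refine ⟨Finset.mem_univ _, h2, ?_⟩
    beta_reduce
    rw [hE _ q h2]
    have h3 : (⟨((E q).symm ⟨⟨x, hx⟩, k⟩).1, h2⟩ : {i // f i = q}) =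
        (E q).symm ⟨⟨x, hx⟩, k⟩ := rfl
    rw [h3, Equiv.apply_symm_apply]
  · have h2 := (E q).symm.injective (Subtype.ext hkk)
    simpa using h2
  · rw [Finset.mem_filter] at hi
    obtain ⟨-, hi1, hi2⟩ := hi
    beta_reduce at hi2
    rw [hE i q hi1] at hi2
    obtain ⟨s, hs⟩ : ∃ s, s = E q ⟨i, hi1⟩ := ⟨_, rfl⟩
    rw [← hs] at hi2
    obtain ⟨⟨x', hx'⟩, k⟩ := s
    have hxx : x' = x := hi2
    subst hxx
    refine ⟨k, Finset.mem_univ _, ?_⟩
    rw [hs, Equiv.symm_apply_apply]

/-- Decrease the multiplicities until the surplus is less than `mx`. PROOF. Among the `m' ≤ m` with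
`T ≤ cnd m'` take one with minimal `∑ m' i`. If `cnd m' ≥ T + mx` then some `m' i > 0`, and lowering it by one
lowers `cnd` by `m' i ≤ mx` only. (`T = 0` is allowed.) -/
theorem reduce_surplus {r : ℕ} (m : Fin r → ℕ) (mx T : ℕ) (hmx : 0 < mx) (hm : ∀ i, m i ≤ mx)
    (hT : T ≤ ∑ i, (m i + 1).choose 2) :
    ∃ m' : Fin r → ℕ, (∀ i, m' i ≤ m i) ∧ T ≤ ∑ i, (m' i + 1).choose 2 ∧
      ∑ i, (m' i + 1).choose 2 < T + mx := by
  obtain ⟨s, hs⟩ : ∃ s, ∑ i, m i = s := ⟨_, rfl⟩
  induction s using Nat.strong_induction_on generalizing m with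
  | _ s ih =>
    by_cases hlt : ∑ i, (m i + 1).choose 2 < T + mx
    · exact ⟨m, fun i => le_rfl, hT, hlt⟩
    · push Not at hlt
      obtain ⟨i, hi⟩ : ∃ i, 0 < m i := by
        by_contra hcon
        push Not at hcon
        have h1 : ∑ i, (m i + 1).choose 2 = 0 := by
          refine Finset.sum_eq_zero fun i _ => ?_
          have h2 : m i = 0 := by have := hcon i; omega
          rw [h2]
          rfl
        omega
      have h1 : ∑ j, (m j + 1).choose 2 =
          ∑ j, (Function.update m i (m i - 1) j + 1).choose 2 + m i := by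
        rw [← Finset.add_sum_erase _ _ (Finset.mem_univ i),
          ← Finset.add_sum_erase (a := i) _ (fun j => (Function.update m i (m i - 1) j + 1).choose 2)
            (Finset.mem_univ i), Function.update_self]
        have h2 : ∑ j ∈ Finset.univ.erase i, (Function.update m i (m i - 1) j + 1).choose 2 =
            ∑ j ∈ Finset.univ.erase i, (m j + 1).choose 2 :=
          Finset.sum_congr rfl fun j hj => by
            rw [Function.update_of_ne (Finset.ne_of_mem_erase hj)]
        rw [h2]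
        obtain ⟨k, hk⟩ : ∃ k, m i = k + 1 := ⟨m i - 1, by omega⟩
        rw [hk]
        have h3 : (k + 1 + 1).choose 2 = (k + 1) + (k + 1).choose 2 := by
          rw [Nat.choose_succ_succ (k + 1) 1, Nat.choose_one_right]
        rw [h3, Nat.add_sub_cancel]
        ring
      have h4 : ∑ j, Function.update m i (m i - 1) j < s := by
        rw [← hs]
        refine Finset.sum_lt_sum (fun j _ => ?_) ⟨i, Finset.mem_univ i, ?_⟩
        · by_cases hj : j = i
          · subst hj
            rw [Function.update_self]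
            omega
          · rw [Function.update_of_ne hj]
        · rw [Function.update_self]
          omega
      have hle : ∀ j, Function.update m i (m i - 1) j ≤ m j := fun j => by
        by_cases hj : j = i
        · subst hj
          rw [Function.update_self]
          omega
        · rw [Function.update_of_ne hj]
      obtain ⟨m', hm1, hm2, hm3⟩ := ih _ h4 (Function.update m i (m i - 1))
        (fun j => (hle j).trans (hm j)) (by have := hm i; omega) rfl
      exact ⟨m', fun j => (hm1 j).trans (hle j), hm2, hm3⟩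

/-- Sorting a sum by the type and the position. -/
theorem PlaceZ_sort {ι : Type*} [Fintype ι] [DecidableEq ι] (e mx : ℕ) (f pos : ι → ℕ)
    (hf : ∀ i, f i ≤ mx) (hpos : ∀ i, pos i < e) (g : ℕ → ℕ → ℤ) :
    ∑ i, g (f i) (pos i) = ∑ q ∈ Finset.range (mx + 1), ∑ y ∈ Finset.range e,
      ((Finset.univ.filter (fun i => f i = q ∧ pos i = y)).card : ℤ) * g q y := by
  rw [← Finset.sum_product' (Finset.range (mx + 1)) (Finset.range e)
    (fun q y => ((Finset.univ.filter (fun i => f i = q ∧ pos i = y)).card : ℤ) * g q y)]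
  rw [← Finset.sum_fiberwise_of_maps_to (s := Finset.univ) (t := Finset.range (mx + 1) ×ˢ
    Finset.range e) (g := fun i => (f i, pos i)) (fun i _ => by
      rw [Finset.mem_product, Finset.mem_range, Finset.mem_range]
      exact ⟨Nat.lt_succ_of_le (hf i), hpos i⟩)]
  refine Finset.sum_congr rfl fun b _ => ?_
  have h1 : Finset.univ.filter (fun i => (f i, pos i) = b) =
      Finset.univ.filter (fun i => f i = b.1 ∧ pos i = b.2) := by
    refine Finset.filter_congr fun i _ => ?_
    rw [Prod.ext_iff]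
  rw [h1]
  have h2 : ∀ i ∈ Finset.univ.filter (fun i => f i = b.1 ∧ pos i = b.2),
      g (f i) (pos i) = g b.1 b.2 := by
    intro i hi
    rw [Finset.mem_filter] at hi
    rw [hi.2.1, hi.2.2]
  rw [Finset.sum_congr rfl h2, Finset.sum_const, nsmul_eq_mul]

theorem PlaceZ_emod (e : ℕ) (he : 0 < e) (x y : ℕ) (hx : x < e) (hy : y < e) (j : ℤ) :
    ((y : ℤ) + j) % e = x ↔ (y : ℤ) = ((x : ℤ) - j) % e := by
  have he' : (0 : ℤ) < e := by exact_mod_cast he
  have hx' : (x : ℤ) % e = x := Int.emod_eq_of_lt (by positivity) (by exact_mod_cast hx)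
  have hy' : (y : ℤ) % e = y := Int.emod_eq_of_lt (by positivity) (by exact_mod_cast hy)
  constructor
  · intro h
    rw [← h, sub_eq_add_neg, Int.emod_add_emod, add_assoc, add_neg_cancel, add_zero, hy']
  · intro h
    rw [h, Int.emod_add_emod, sub_add_cancel, hx']

theorem PlaceZ_split (g : ℕ → ℤ) (n : ℕ) :
    ∑ q ∈ Finset.range (n + 1), g q = g 0 + ∑ q ∈ Finset.Icc 1 n, g q := by
  induction n with
  | zero => simp
  | succ n ih =>
    rw [Finset.sum_range_succ, ih, Finset.sum_Icc_succ_top (by omega)]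
    ring

/-- The number of conditions before the exchange. -/
theorem PlaceZ_count (e : ℕ) (he : 0 < e) (mx : ℕ) {r : ℕ} (m pos : Fin r → ℕ)
    (hm : ∀ i, m i ≤ mx) (hpos : ∀ i, pos i < e) (dN : ℕ → ℤ → ℤ)
    (hdN : ∀ q ∈ Finset.Icc 1 mx, ∀ x : ℤ, dN q (x % e) = dN q x)
    (hn : ∀ q ∈ Finset.Icc 1 mx, ∀ y < e,
      ((Finset.univ.filter (fun i => m i = q ∧ pos i = y)).card : ℤ) = dN q y)
    (x : ℕ) (hx : x < e) :
    ∑ i, (NO e (m i) (pos i) (some true) x : ℤ) =
      ∑ q ∈ Finset.Icc 1 mx, ∑ j ∈ Finset.Icc (-(q : ℤ)) q, pat q j * dN q (x - j) := by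
  have he' : (0 : ℤ) < e := by exact_mod_cast he
  set F : ℕ → ℕ → ℤ := fun q y => ∑ j ∈ Finset.Icc (-(q : ℤ)) q,
    if ((y : ℤ) + j) % e = x then pat q j else 0 with hF
  have h1 : ∀ i, (NO e (m i) (pos i) (some true) x : ℤ) = F (m i) (pos i) := by
    intro i
    rw [NO_true_eq e he, hF, Nat.cast_sum]
    refine Finset.sum_congr rfl fun j _ => ?_
    split_ifs
    · rfl
    · rfl
  rw [Finset.sum_congr rfl fun i _ => h1 i, PlaceZ_sort e mx m pos hm hpos F,
    PlaceZ_split (fun q => ∑ y ∈ Finset.range e,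
      ((Finset.univ.filter (fun i => m i = q ∧ pos i = y)).card : ℤ) * F q y)]
  have h2 : ∀ y, F 0 y = 0 := by
    intro y
    simp only [hF]
    refine Finset.sum_eq_zero fun j hj => ?_
    have h3 : j = 0 := by
      rw [Finset.mem_Icc] at hj
      push_cast at hj
      omega
    subst h3
    have h4 : pat 0 0 = 0 := by
      rw [CombZ_pat_eq]
      rfl
    rw [h4]
    split_ifs <;> rfl
  have h3 : ∑ y ∈ Finset.range e,
      ((Finset.univ.filter (fun i => m i = 0 ∧ pos i = y)).card : ℤ) * F 0 y = 0 :=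
    Finset.sum_eq_zero fun y _ => by rw [h2, mul_zero]
  rw [h3, zero_add]
  refine Finset.sum_congr rfl fun q hq => ?_
  have h4 : ∀ y ∈ Finset.range e,
      ((Finset.univ.filter (fun i => m i = q ∧ pos i = y)).card : ℤ) * F q y =
      ∑ j ∈ Finset.Icc (-(q : ℤ)) q, if (y : ℤ) = ((x : ℤ) - j) % e then pat q j * dN q (x - j)
        else 0 := by
    intro y hy
    have hy' := Finset.mem_range.mp hy
    rw [hn q hq y hy', hF, Finset.mul_sum]
    refine Finset.sum_congr rfl fun j _ => ?_
    have h5 := PlaceZ_emod e he x y hx hy' j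
    by_cases h6 : (y : ℤ) = ((x : ℤ) - j) % e
    · rw [if_pos h6, if_pos (h5.mpr h6), h6, hdN q hq, mul_comm]
    · rw [if_neg h6, if_neg (fun h => h6 (h5.mp h)), mul_zero]
  rw [Finset.sum_congr rfl h4, Finset.sum_comm]
  refine Finset.sum_congr rfl fun j _ => ?_
  have h5 := Int.emod_nonneg ((x : ℤ) - j) he'.ne'
  have h6 := Int.emod_lt_of_pos ((x : ℤ) - j) he'
  rw [Finset.sum_eq_single ((((x : ℤ) - j) % e).toNat)]
  · rw [if_pos]
    rw [Int.toNat_of_nonneg h5]
  · intro y _ hne
    rw [if_neg]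
    intro h
    apply hne
    rw [← h, Int.toNat_natCast]
  · intro h
    exact absurd (Finset.mem_range.mpr (by omega)) h

/-- The effect of the exchanged points. -/
theorem PlaceZ_exch (e : ℕ) (he : 0 < e) {r : ℕ} (m pos : Fin r → ℕ)
    (hpos : ∀ i, pos i < e) (Cx : ℕ → Finset (Fin r)) (hC : ∀ y < e, ∀ i ∈ Cx y, pos i = y ∧ 1 ≤ m i)
    (o : Fin r → Option Bool) (ho : ∀ i, o i = if i ∈ Cx (pos i) then none else some true)
    (x : ℕ) (hx : x < e) (x' : ℕ) (hx' : x' < e) (hxx : ((x' : ℤ) + 1) % e = x) :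
    ∑ i, (NO e (m i) (pos i) (o i) x : ℤ) =
      ∑ i, (NO e (m i) (pos i) (some true) x : ℤ) - (Cx x).card + (Cx x').card := by
  classical
  have he' : (0 : ℤ) < e := by exact_mod_cast he
  have h1 : ∀ i, (NO e (m i) (pos i) (o i) x : ℤ) = NO e (m i) (pos i) (some true) x -
      (if i ∈ Cx x then 1 else 0) + (if i ∈ Cx x' then 1 else 0) := by
    intro i
    have hposi : ((pos i : ℕ) : ℤ) % e = pos i :=
      Int.emod_eq_of_lt (by positivity) (by exact_mod_cast hpos i)
    by_cases hi : i ∈ Cx (pos i)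
    · rw [ho i, if_pos hi]
      have hmi := (hC _ (hpos i) i hi).2
      rw [NO_none e he (m i) hmi (pos i) x hx]
      have e1 : ((pos i : ℕ) : ℤ) % e = x ↔ i ∈ Cx x := by
        rw [hposi]
        constructor
        · intro h
          have : pos i = x := by exact_mod_cast h
          rw [← this]
          exact hi
        · intro h
          rw [(hC x hx i h).1]
      have e2 : (((pos i : ℕ) : ℤ) + 1) % e = x ↔ i ∈ Cx x' := by
        constructor
        · intro h
          have h2 : ((pos i : ℕ) : ℤ) = ((x : ℤ) - 1) % e :=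
            (PlaceZ_emod e he x (pos i) hx (hpos i) 1).mp h
          have h3 : ((x' : ℕ) : ℤ) = ((x : ℤ) - 1) % e :=
            (PlaceZ_emod e he x x' hx hx' 1).mp hxx
          have h4 : pos i = x' := by exact_mod_cast h2.trans h3.symm
          rw [← h4]
          exact hi
        · intro h
          rw [(hC x' hx' i h).1]
          exact hxx
      simp only [e1, e2]
    · rw [ho i, if_neg hi]
      have e1 : i ∉ Cx x := fun h => hi (by rw [(hC x hx i h).1]; exact h)
      have e2 : i ∉ Cx x' := fun h => hi (by rw [(hC x' hx' i h).1]; exact h)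
      rw [if_neg e1, if_neg e2]
      ring
  rw [Finset.sum_congr rfl fun i _ => h1 i, Finset.sum_add_distrib, Finset.sum_sub_distrib]
  have h2 : ∀ s : Finset (Fin r), ∑ i, (if i ∈ s then (1 : ℤ) else 0) = s.card := by
    intro s
    rw [Finset.sum_ite_mem, Finset.univ_inter, Finset.sum_const, nsmul_eq_mul, mul_one]
  rw [h2, h2]

/-- PROOF. By `reduce_surplus` (and `NO_mono`) we may assume `∑ C(m i + 1, 2) = ∑ Q + sur`, `sur < mx`. Extend `Q`
periodically and apply `combZ_core` with `a q = #{i : m i = q}`. Let `n q x = N q x - N q (x - 1) ≥ 0`, `0 ≤ x < e`;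
`∑_x n q x = a q`. By `exists_assign` there are positions `x_i < e` (`1 ≤ m i ≤ mx`) with `n q x` points of multiplicity `q`
at `x`. At every `x` choose `u x ≤ ∑_q n q x` of the points there (`Finset.exists_subset_card_eq`) and give them the mode
`none`, the others `some true`; `m i = 0`: position `0`. Replace the positions by representatives on admissible circles
(`exists_rep`, `NO_shift`). With `NO_true_eq`, `NO_none`: the number of conditions on the column `x` is
`∑_q ∑_j A_q(j) n_q(x - j) - u x + u (x - 1) = Q x + sur [x = 0] ≥ Q x` (`n_q` extended periodically). -/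
theorem placeZ (e : ℕ) (he : 0 < e) (mx : ℕ) (hmx : 3 ≤ mx) (Q : ℕ → ℕ)
    (hQ : ∀ x < e, mx ^ 5 ≤ Q x)
    (hs : ∀ x, x + 1 < e → Q x ≤ Q (x + 1) + 3 ∧ Q (x + 1) ≤ Q x + 3)
    (hs0 : Q (e - 1) ≤ Q 0 + 3 ∧ Q 0 ≤ Q (e - 1) + 3)
    {r : ℕ} (m : Fin r → ℕ) (hm : ∀ i, m i ≤ mx)
    (hT : ∑ x ∈ Finset.range e, Q x ≤ ∑ i, (m i + 1).choose 2) :
    ∃ (p : Fin r → ℤ) (o : Fin r → Option Bool),
      (∀ i, 0 ≤ circO e (p i) (o i) ∧ circO e (p i) (o i) < 4 * e) ∧
      ∀ x < e, Q x ≤ ∑ i, NO e (m i) (p i) (o i) x := by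
  classical
  have he' : (0 : ℤ) < e := by exact_mod_cast he
  obtain ⟨m', hm'1, hm'2, hm'3⟩ := reduce_surplus m mx (∑ x ∈ Finset.range e, Q x) (by omega) hm hT
  have hm' : ∀ i, m' i ≤ mx := fun i => (hm'1 i).trans (hm i)
  obtain ⟨sur, hsur⟩ : ∃ sur, ∑ i, (m' i + 1).choose 2 = ∑ x ∈ Finset.range e, Q x + sur :=
    ⟨_, (Nat.add_sub_cancel' hm'2).symm⟩
  have hsurmx : sur ≤ mx := by omega
  -- the periodic extension
  set Q' : ℤ → ℤ := fun x => (Q (x % e).toNat : ℤ) with hQ'
  have hQ'n : ∀ x : ℕ, x < e → Q' x = Q x := fun x hx => by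
    simp only [hQ']
    rw [Int.emod_eq_of_lt (by positivity) (by exact_mod_cast hx), Int.toNat_natCast]
  have hmodlt : ∀ x : ℤ, (x % e).toNat < e := fun x => by
    have h1 := Int.emod_nonneg x he'.ne'
    have h2 := Int.emod_lt_of_pos x he'
    omega
  have hper : ∀ x, Q' (x + e) = Q' x := fun x => by
    simp only [hQ']
    rw [Int.add_emod_right]
  have hQ5 : ∀ x, (mx : ℤ) ^ 5 ≤ Q' x := fun x => by
    simp only [hQ']
    exact_mod_cast hQ _ (hmodlt x)
  have hsQ : ∀ x, |Q' (x + 1) - Q' x| ≤ 3 := by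
    intro x
    simp only [hQ']
    have h1 := Int.emod_nonneg x he'.ne'
    have h2 := Int.emod_lt_of_pos x he'
    have h3 : (x + 1) % e = (x % e + 1) % e := by rw [Int.emod_add_emod]
    by_cases h4 : x % e + 1 < e
    · rw [h3, Int.emod_eq_of_lt (by omega) h4]
      have h5 : (x % e + 1).toNat = (x % e).toNat + 1 := by omega
      rw [h5]
      have h6 := hs (x % e).toNat (by omega)
      rw [abs_le]
      omega
    · have h5 : x % e + 1 = e := by omega
      rw [h3, h5, Int.emod_self]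
      have h6 : (x % e).toNat = e - 1 := by omega
      rw [h6, Int.toNat_zero, abs_le]
      omega
  -- the distribution
  set a : ℕ → ℕ := fun q => (Finset.univ.filter (fun i => m' i = q)).card with ha
  have hTa : ∑ q ∈ Finset.Icc 1 mx, ((a q : ℤ) * ((q + 1).choose 2 : ℕ)) =
      ∑ x ∈ Finset.range e, Q' x + sur := by
    have h1 : ∑ x ∈ Finset.range e, Q' x = ((∑ x ∈ Finset.range e, Q x : ℕ) : ℤ) := by
      rw [Nat.cast_sum]
      exact Finset.sum_congr rfl fun x hx => hQ'n x (Finset.mem_range.mp hx)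
    rw [h1, ← Nat.cast_add, ← hsur]
    have h2 : ∑ i, (m' i + 1).choose 2 =
        ∑ q ∈ Finset.range (mx + 1), a q * (q + 1).choose 2 := by
      rw [← Finset.sum_fiberwise_of_maps_to (s := Finset.univ) (t := Finset.range (mx + 1))
        (g := m') (fun i _ => Finset.mem_range.mpr (Nat.lt_succ_of_le (hm' i)))]
      refine Finset.sum_congr rfl fun q _ => ?_
      have h3 : ∀ i ∈ Finset.univ.filter (fun i => m' i = q),
          (m' i + 1).choose 2 = (q + 1).choose 2 := fun i hi => by
        rw [(Finset.mem_filter.mp hi).2]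
      rw [Finset.sum_congr rfl h3, Finset.sum_const, smul_eq_mul]
    rw [h2, Nat.cast_sum]
    have h4 := PlaceZ_split (fun q => ((a q * (q + 1).choose 2 : ℕ) : ℤ)) mx
    have h5 : ((a 0 * (0 + 1).choose 2 : ℕ) : ℤ) = 0 := by
      have : (0 + 1).choose 2 = 0 := rfl
      rw [this, mul_zero]
      rfl
    rw [h4, h5, zero_add]
    exact Finset.sum_congr rfl fun q _ => by push_cast; ring
  obtain ⟨N, u, hNm, hNe, hue, hu0, huN, hdiff⟩ :=
    combZ_core e he mx hmx Q' hper hQ5 hsQ a sur hsurmx hTa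
  set dN : ℕ → ℤ → ℤ := fun q x => N q x - N q (x - 1) with hdN
  have hdN0 : ∀ q x, 0 ≤ dN q x := fun q x => by
    have := hNm q (show x - 1 ≤ x by omega)
    simp only [hdN]
    linarith
  have hdNe : ∀ q ∈ Finset.Icc 1 mx, Function.Periodic (dN q) (e : ℤ) := by
    intro q hq x
    simp only [hdN]
    have h1 : x + (e : ℤ) - 1 = x - 1 + e := by ring
    rw [h1, hNe q hq, hNe q hq]
    ring
  have hmodper : ∀ (g : ℤ → ℤ), Function.Periodic g (e : ℤ) → ∀ x : ℤ, g (x % e) = g x := by
    intro g hg x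
    have h1 := hg.int_mul (x / e) (x % e)
    rw [← h1]
    congr 1
    have h2 := Int.emod_add_mul_ediv x e
    simp only [Int.cast_id]
    linarith [mul_comm (e : ℤ) (x / e)]
  have hdNmod : ∀ q ∈ Finset.Icc 1 mx, ∀ x : ℤ, dN q (x % e) = dN q x := fun q hq =>
    hmodper _ (hdNe q hq)
  -- the numbers of points
  set n : ℕ → ℕ → ℕ := fun q x => if q ∈ Finset.Icc 1 mx then (dN q x).toNat
    else if x = 0 then a q else 0 with hn
  have hsum : ∀ q, ∑ x ∈ Finset.range e, n q x = a q := by
    intro q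
    by_cases hq : q ∈ Finset.Icc 1 mx
    · have h1 : ∀ k : ℕ, ((∑ x ∈ Finset.range k, n q x : ℕ) : ℤ) = N q (k - 1) - N q (-1) := by
        intro k
        induction k with
        | zero => simp
        | succ k ih =>
          rw [Finset.sum_range_succ, Nat.cast_add, ih]
          have h2 : ((n q k : ℕ) : ℤ) = dN q k := by
            simp only [hn, if_pos hq]
            exact Int.toNat_of_nonneg (hdN0 q k)
          rw [h2]
          simp only [hdN]
          push_cast
          rw [add_sub_cancel_right]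
          ring
      have h3 := h1 e
      have h4 := hNe q hq (-1)
      have h5 : (-1 : ℤ) + e = e - 1 := by ring
      rw [h5] at h4
      rw [h4] at h3
      have h6 : N q (-1) + (a q : ℤ) - N q (-1) = a q := by ring
      rw [h6] at h3
      exact_mod_cast h3
    · simp only [hn, if_neg hq]
      rw [Finset.sum_ite_eq' (Finset.range e) 0, if_pos (Finset.mem_range.mpr he)]
  obtain ⟨pos, hpos, hcnt⟩ := exists_assign e m' n hsum
  have hcnt' : ∀ q ∈ Finset.Icc 1 mx, ∀ y < e,
      ((Finset.univ.filter (fun i => m' i = q ∧ pos i = y)).card : ℤ) = dN q y := by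
    intro q hq y hy
    rw [hcnt q y hy]
    simp only [hn, if_pos hq]
    exact Int.toNat_of_nonneg (hdN0 q y)
  -- the exchanged points
  have hBcard : ∀ x < e, (u x).toNat ≤
      (Finset.univ.filter (fun i => pos i = x ∧ 1 ≤ m' i)).card := by
    intro x hx
    have h1 : ((Finset.univ.filter (fun i => pos i = x ∧ 1 ≤ m' i)).card : ℤ) =
        ∑ q ∈ Finset.Icc 1 mx, dN q x := by
      have h2 : Finset.univ.filter (fun i => pos i = x ∧ 1 ≤ m' i) =
          (Finset.Icc 1 mx).biUnion (fun q => Finset.univ.filter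
            (fun i => m' i = q ∧ pos i = x)) := by
        ext i
        simp only [Finset.mem_filter, Finset.mem_univ, true_and, Finset.mem_biUnion,
          Finset.mem_Icc]
        constructor
        · rintro ⟨h3, h4⟩
          exact ⟨m' i, ⟨h4, hm' i⟩, rfl, h3⟩
        · rintro ⟨q, ⟨h3, -⟩, h4, h5⟩
          exact ⟨h5, h4 ▸ h3⟩
      rw [h2, Finset.card_biUnion, Nat.cast_sum]
      · exact Finset.sum_congr rfl fun q hq => hcnt' q hq x hx
      · intro q _ q' _ hne
        rw [Function.onFun, Finset.disjoint_left]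
        intro i hi hi'
        rw [Finset.mem_filter] at hi hi'
        exact hne (hi.2.1.symm.trans hi'.2.1)
    have h3 := huN x
    have h4 : u x ≤ ((Finset.univ.filter (fun i => pos i = x ∧ 1 ≤ m' i)).card : ℤ) := by
      rw [h1]
      exact h3
    omega
  have hCex : ∀ x, ∃ C : Finset (Fin r), x < e → C ⊆ Finset.univ.filter
      (fun i => pos i = x ∧ 1 ≤ m' i) ∧ C.card = (u x).toNat := by
    intro x
    by_cases hx : x < e
    · obtain ⟨C, hC1, hC2⟩ := Finset.exists_subset_card_eq (hBcard x hx)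
      exact ⟨C, fun _ => ⟨hC1, hC2⟩⟩
    · exact ⟨∅, fun h => absurd h hx⟩
  choose Cx hCx using hCex
  set o : Fin r → Option Bool := fun i => if i ∈ Cx (pos i) then none else some true with ho
  have hC : ∀ y < e, ∀ i ∈ Cx y, pos i = y ∧ 1 ≤ m' i := fun y hy i hi => by
    have := (hCx y hy).1 hi
    exact (Finset.mem_filter.mp this).2
  have hCc : ∀ y < e, ((Cx y).card : ℤ) = u y := fun y hy => by
    rw [(hCx y hy).2]
    exact Int.toNat_of_nonneg (hu0 y)
  choose t ht using fun i => exists_rep e he (pos i) (o i)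
  refine ⟨fun i => pos i + e * t i, o, ht, fun x hx => ?_⟩
  have h1 : ∑ i, NO e (m' i) (pos i) (o i) x ≤ ∑ i, NO e (m i) (pos i + e * t i) (o i) x := by
    refine Finset.sum_le_sum fun i _ => ?_
    rw [NO_shift]
    exact NO_mono e (hm'1 i) _ _ _
  refine le_trans ?_ h1
  -- the previous column
  obtain ⟨x', hx', hxx⟩ : ∃ x' : ℕ, x' < e ∧ ((x' : ℤ) + 1) % e = x := by
    have h2 := Int.emod_nonneg ((x : ℤ) - 1) he'.ne'
    have h3 := Int.emod_lt_of_pos ((x : ℤ) - 1) he'
    refine ⟨(((x : ℤ) - 1) % e).toNat, by omega, ?_⟩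
    rw [Int.toNat_of_nonneg h2, Int.emod_add_emod, sub_add_cancel]
    exact Int.emod_eq_of_lt (by positivity) (by exact_mod_cast hx)
  have h2 := PlaceZ_exch e he m' pos hpos Cx hC o (fun i => rfl) x hx x' hx' hxx
  rw [PlaceZ_count e he mx m' pos hm' hpos dN hdNmod hcnt' x hx, hCc x hx, hCc x' hx'] at h2
  have h3 := hdiff x
  have h4 : ∑ q ∈ Finset.Icc 1 mx, ∑ j ∈ Finset.Icc (-(q : ℤ)) q, pat q j * dN q (x - j) =
      ∑ q ∈ Finset.Icc 1 mx, ∑ j ∈ Finset.Icc (-(q : ℤ)) q,
        pat q j * (N q (x - j) - N q (x - 1 - j)) := by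
    refine Finset.sum_congr rfl fun q _ => Finset.sum_congr rfl fun j _ => ?_
    simp only [hdN]
    have : (x : ℤ) - j - 1 = x - 1 - j := by ring
    rw [this]
  have h5 : u x' = u (x - 1) := by
    have h6 : ((x' : ℕ) : ℤ) = ((x : ℤ) - 1) % e := (PlaceZ_emod e he x x' hx hx' 1).mp hxx
    rw [h6]
    exact hmodper u (fun y => hue y) _
  rw [h4, h3, h5, hQ'n x hx] at h2
  have h6 : (0 : ℤ) ≤ if (e : ℤ) ∣ x then (sur : ℤ) else 0 := by
    split_ifs
    · positivity
    · exact le_rfl
  have h7 : (Q x : ℤ) ≤ ∑ i, (NO e (m' i) (pos i) (o i) x : ℤ) := by linarith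
  exact_mod_cast h7

end ShghT
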