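import Pool.Agent.ShghW.Tiles

/-!
# Tilings: the main case
-/

namespace ShghT

private theorem tilesI_spill_le (q r : ℕ) (hr : r < 3) (hq : 3 ≤ q) (h : ¬ (q = 3 ∧ r = 0)) :
    spill q r ≤ q :=
  (spill_step q (q + 1) r hr hq (by omega) (by omega) (by omega) h (by omega)).1

/-- The partial sums are constant modulo `3` along the columns of value `3`. -/
private theorem tilesI_const (e : ℕ) (Q : ℕ → ℕ)
    (hconv : ∀ x y z, 1 ≤ x → x < y → y < z → z < e → Q x = 3 → Q z = 3 → Q y = 3)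
    (x : ℕ) (hx : 1 ≤ x) (hQx : Q x = 3) : ∀ d : ℕ, x + d < e → Q (x + d) = 3 →
      (∑ y ∈ Finset.range (x + d), Q y) % 3 = (∑ y ∈ Finset.range x, Q y) % 3 := by
  intro d
  induction d with
  | zero => intro _ _; rfl
  | succ d ih =>
    intro h1 h2
    have h3 : Q (x + d) = 3 := by
      rcases Nat.eq_zero_or_pos d with h | h
      · subst h; exact hQx
      · exact hconv x (x + d) (x + (d + 1)) hx (by omega) (by omega) h1 hQx h2
    have h4 := ih (by omega) h3
    rw [← add_assoc, Finset.sum_range_succ, h3]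
    omega

private theorem tilesI_choose (A B bad : ℕ) : ∃ k : ℕ, (k + A) % 3 ≠ 0 ∧ (k + B) % 3 ≠ bad := by
  by_contra h
  push Not at h
  have h0 := h 0
  have h1 := h 1
  have h2 := h 2
  omega

/-- PROOF. `n = (∑ Q) % 3` units are left in the column `0` (`x0 = 0`, `u = n`). Choose the residue `r₁ ∈ {0, 1, 2}` at
the column `1`, `r_{x+1} = (r_x + 2 Q x) % 3` (that is `r_x - Q x`), such that `r_x ≠ 0` for the columns with `Q x = 3`
(they form an interval on which `r` is constant, so one value of `r₁` is excluded at most) and such that `r_{e-1}` is not the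
bad residue of `spill_zero` for `a = Q (e - 1)`, `b = Q 0 - n`, `c = Q 1` (again at most one value of `r₁` is excluded:
`r₁ ↦ r_{e-1}` is a bijection). The spills are `spill (Q x) r_x` for `1 ≤ x < e` and the `w` of `spill_zero` for
`x = 0`. Note `r_1 ≡ r_{e-1} - Q (e-1) - (Q 0 - n)` because `∑ Q ≡ n`. -/
theorem tiles_I (e : ℕ) (he : 3 ≤ e) (Q : ℕ → ℕ) (h5 : 5 ≤ Q 0)
    (h3 : ∀ x, 1 ≤ x → x < e → 3 ≤ Q x)
    (hs : ∀ x, 1 ≤ x → x + 1 < e → Q x ≤ Q (x + 1) + 2 ∧ Q (x + 1) ≤ Q x + 2)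
    (hconv : ∀ x y z, 1 ≤ x → x < y → y < z → z < e → Q x = 3 → Q z = 3 → Q y = 3)
    (h0 : Q (e - 1) ≤ Q 0 ∧ Q 0 ≤ Q (e - 1) + 2) (h1 : Q 1 ≤ Q (e - 1) ∧ Q (e - 1) ≤ Q 1 + 1) :
    Tiles' e Q := by
  obtain ⟨n, hn⟩ : ∃ n, n = (∑ y ∈ Finset.range e, Q y) % 3 := ⟨_, rfl⟩
  have hn3 : n < 3 := by rw [hn]; exact Nat.mod_lt _ (by norm_num)
  obtain ⟨bad, hbad⟩ := spill_zero (Q (e - 1)) (Q 0 - n) (Q 1) (h3 _ (by omega) (by omega))
    (by omega) (h3 1 le_rfl (by omega)) (by omega) (by omega) h1.1 h1.2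
  -- the choice of the residues
  obtain ⟨k, hk1, hk2⟩ : ∃ k : ℕ,
      (∀ x, 1 ≤ x → x < e → Q x = 3 → (k + 2 * ∑ y ∈ Finset.range x, Q y) % 3 ≠ 0) ∧
      (k + 2 * ∑ y ∈ Finset.range (e - 1), Q y) % 3 ≠ bad := by
    by_cases hex : ∃ x, 1 ≤ x ∧ x < e ∧ Q x = 3
    · obtain ⟨x, hx1, hxe, hQx⟩ := hex
      obtain ⟨k, hk1, hk2⟩ := tilesI_choose (2 * ∑ y ∈ Finset.range x, Q y)
        (2 * ∑ y ∈ Finset.range (e - 1), Q y) bad
      refine ⟨k, ?_, hk2⟩
      intro z hz1 hze hQz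
      rcases le_total x z with hxz | hzx
      · obtain ⟨d, rfl⟩ := Nat.exists_eq_add_of_le hxz
        have := tilesI_const e Q hconv x hx1 hQx d hze hQz
        omega
      · obtain ⟨d, rfl⟩ := Nat.exists_eq_add_of_le hzx
        have := tilesI_const e Q hconv z hz1 hQz d hxe hQx
        omega
    · push Not at hex
      obtain ⟨k, hk1, hk2⟩ := tilesI_choose 0 (2 * ∑ y ∈ Finset.range (e - 1), Q y) bad
      exact ⟨k, fun x hx1 hxe hQx => absurd hQx (hex x hx1 hxe), hk2⟩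
  -- the residues
  obtain ⟨r, hr⟩ : ∃ r : ℕ → ℕ, r = fun x => (k + 2 * ∑ y ∈ Finset.range x, Q y) % 3 := ⟨_, rfl⟩
  have hr3 : ∀ x, r x < 3 := fun x => by rw [hr]; exact Nat.mod_lt _ (by norm_num)
  have hrs : ∀ x, r (x + 1) = (r x + 2 * Q x) % 3 := by
    intro x
    rw [hr]
    simp only [Finset.sum_range_succ]
    omega
  have hclose : r 1 = (r (e - 1) + 2 * Q (e - 1) + 2 * (Q 0 - n)) % 3 := by
    have ha : r e = (r (e - 1) + 2 * Q (e - 1)) % 3 := by
      have := hrs (e - 1)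
      rwa [Nat.sub_add_cancel (by omega : 1 ≤ e)] at this
    have hb : r e = (k + 2 * ∑ y ∈ Finset.range e, Q y) % 3 := by rw [hr]
    have hc : r 1 = (k + 2 * Q 0) % 3 := by rw [hr]; simp
    omega
  have hne : ∀ x, 1 ≤ x → x < e → ¬ (Q x = 3 ∧ r x = 0) := by
    rintro x hx1 hxe ⟨hQ, hr0⟩
    rw [hr] at hr0
    exact hk1 x hx1 hxe hQ hr0
  have hb0 : r (e - 1) ≠ bad := by rw [hr]; exact hk2
  obtain ⟨w0, hw0, hD1, hD2⟩ := hbad (r (e - 1)) (hr3 _) hb0 (hne _ (by omega) (by omega))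
    (by rw [← hclose]; exact hne 1 le_rfl (by omega))
  rw [← hclose] at hD2
  refine ⟨0, by omega, n, 0, by omega, fun x => if x = 0 then Q 0 - n else Q x, ?_, ?_⟩
  · apply tiles_of_spill e (by omega) _ (fun x => if x = 0 then w0 else spill (Q x) (r x))
    · intro x hx
      rcases Nat.eq_zero_or_pos x with h | h
      · subst h; simpa using hw0
      · simp only [if_neg h.ne']
        exact tilesI_spill_le _ _ (hr3 x) (h3 x h hx) (hne x h hx)
    · intro x hx
      rcases Nat.eq_zero_or_pos x with h | h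
      · subst h; simpa using hD2
      · simp only [if_neg h.ne', Nat.succ_ne_zero, if_false]
        have h6 := spill_step (Q x) (Q (x + 1)) (r x) (hr3 x) (h3 x h (by omega))
          (h3 (x + 1) (by omega) hx) (hs x h hx).1 (hs x h hx).2 (hne x h (by omega))
          (by rw [← hrs]; exact hne (x + 1) (by omega) hx)
        rw [← hrs] at h6
        exact h6.2
    · have h6 : e - 1 ≠ 0 := by omega
      simp only [if_neg h6, if_true]
      exact hD1
  · intro x hx
    rcases Nat.eq_zero_or_pos x with h | h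
    · subst h
      have : (0 : ℕ) ≠ (0 + 1) % e := by
        rw [Nat.mod_eq_of_lt (by omega)]; omega
      simp only [if_true, if_neg this]
      omega
    · simp only [if_neg h.ne']
      split_ifs <;> omega

end ShghT
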