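import Pool.Agent.ShghW.Tiles

/-!
# Tilings: small values
-/

namespace ShghT

/-- a convex set of columns is an interval -/
theorem tilesII_interval (P : ℕ → Prop) [DecidablePred P] (e c : ℕ) (hc : 1 ≤ c) (hce : c ≤ e)
    (hconv : ∀ x y z, 1 ≤ x → x < y → y < z → z < e → P x → P z → P y) :
    ∃ a b, 1 ≤ a ∧ a ≤ b ∧ b ≤ e ∧ (a = b → a = c) ∧ (a < b → P (b - 1)) ∧
      ∀ x, 1 ≤ x → x < e → (P x ↔ a ≤ x ∧ x < b) := by
  set S := (Finset.range e).filter (fun x => 1 ≤ x ∧ P x) with hS
  have hmem : ∀ x, x ∈ S ↔ x < e ∧ 1 ≤ x ∧ P x := by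
    intro x
    rw [hS, Finset.mem_filter, Finset.mem_range]
  rcases S.eq_empty_or_nonempty with h | h
  · refine ⟨c, c, hc, le_rfl, hce, fun _ => rfl, fun h => absurd h (lt_irrefl _), ?_⟩
    intro x h1 h2
    constructor
    · intro hP
      have := (hmem x).2 ⟨h2, h1, hP⟩
      rw [h] at this
      simp at this
    · intro hx
      omega
  · obtain ⟨ha1, ha2, ha3⟩ := (hmem _).1 (S.min'_mem h)
    obtain ⟨hb1, hb2, hb3⟩ := (hmem _).1 (S.max'_mem h)
    have hab : S.min' h ≤ S.max' h := S.min'_le _ (S.max'_mem h)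
    refine ⟨S.min' h, S.max' h + 1, ha2, by omega, by omega, by omega, fun _ => by simpa using hb3,
      ?_⟩
    intro x h1 h2
    constructor
    · intro hP
      have hx := (hmem x).2 ⟨h2, h1, hP⟩
      have e1 := S.min'_le x hx
      have e2 := S.le_max' x hx
      exact ⟨e1, by omega⟩
    · rintro ⟨h3, h4⟩
      rcases Nat.eq_or_lt_of_le h3 with h5 | h5
      · rw [← h5]
        exact ha3
      · rcases Nat.eq_or_lt_of_le (Nat.lt_succ_iff.1 h4) with h6 | h6
        · rw [h6]
          exact hb3
        · exact hconv _ x _ ha2 h5 h6 hb1 ha3 hb3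

/-- position of the column `x` on the circle, counted from the column `b` -/
def tilesIIpos (e b x : ℕ) : ℕ := if x < b then x + e - b else x - b

theorem tilesIIpos_lt {e b x : ℕ} (hb : b ≤ e) (hx : x < e) : tilesIIpos e b x < e := by
  unfold tilesIIpos
  split_ifs <;> omega

theorem tilesIIpos_succ {e b x : ℕ} (hb : b ≤ e) (hx : x + 1 < e) :
    (tilesIIpos e b (x + 1) = tilesIIpos e b x + 1 ∧ tilesIIpos e b x + 1 < e) ∨
      (tilesIIpos e b (x + 1) = 0 ∧ tilesIIpos e b x + 1 = e) := by
  unfold tilesIIpos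
  split_ifs <;> omega

theorem tilesIIpos_last {e b : ℕ} (he : 2 ≤ e) (hb : b ≤ e) :
    (tilesIIpos e b 0 = tilesIIpos e b (e - 1) + 1 ∧ tilesIIpos e b (e - 1) + 1 < e) ∨
      (tilesIIpos e b 0 = 0 ∧ tilesIIpos e b (e - 1) + 1 = e) := by
  unfold tilesIIpos
  split_ifs <;> omega

/-- the column at the position `m` -/
theorem tilesII_col {e b m : ℕ} (he : 2 ≤ e) (hb : b ≤ e) (hm : m < e) :
    ∃ x0 < e, (∀ x < e, (x = x0 ↔ tilesIIpos e b x = m)) ∧
      (m + 1 < e → ∀ x < e, (x = (x0 + 1) % e ↔ tilesIIpos e b x = m + 1)) := by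
  refine ⟨if m + b < e then m + b else m + b - e, ?_, ?_, ?_⟩
  · split_ifs <;> omega
  · intro x hx
    unfold tilesIIpos
    split_ifs <;> omega
  · intro hm1 x hx
    have h2 : ((if m + b < e then m + b else m + b - e) + 1) % e
        = if (if m + b < e then m + b else m + b - e) + 1 = e then 0
          else (if m + b < e then m + b else m + b - e) + 1 := by
      by_cases h3 : (if m + b < e then m + b else m + b - e) + 1 = e
      · rw [if_pos h3, h3, Nat.mod_self]
      · rw [if_neg h3]
        apply Nat.mod_eq_of_lt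
        split_ifs at h3 ⊢ <;> omega
    rw [h2]
    unfold tilesIIpos
    split_ifs <;> omega

/-- first lemma, rotated -/
theorem tilesII_rot (e b K : ℕ) (he : 3 ≤ e) (hb : b ≤ e) (hK : K ≤ e) (Q : ℕ → ℕ)
    (hQ : ∀ x < e, Q x = if tilesIIpos e b x < K then 4 else 3) : Tiles' e Q := by
  set n := K % 3 with hn
  set M := K - n with hM
  have hn3 : n < 3 := Nat.mod_lt _ (by norm_num)
  have hnK : n ≤ K := Nat.mod_le _ _
  have hM3 : M % 3 = 0 := by omega
  set Q' : ℕ → ℕ := fun x => if tilesIIpos e b x < M then 4 else 3 with hQ'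
  have hT : Tiles e Q' := by
    set w : ℕ → ℕ := fun x => if tilesIIpos e b x < M then
      (if tilesIIpos e b x % 3 = 0 then 1 else if tilesIIpos e b x % 3 = 1 then 3 else 2)
      else 1 with hw
    have key : ∀ x y, ((tilesIIpos e b y = tilesIIpos e b x + 1 ∧ tilesIIpos e b x + 1 < e) ∨
        (tilesIIpos e b y = 0 ∧ tilesIIpos e b x + 1 = e)) → Dom (Q' x - w x) (w y) := by
      intro x y h
      simp only [hQ', hw]
      generalize tilesIIpos e b x = px at *
      generalize tilesIIpos e b y = py at *
      unfold Dom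
      have h3 : px % 3 < 3 := Nat.mod_lt _ (by norm_num)
      split_ifs <;> omega
    refine tiles_of_spill e (by omega) Q' w ?_ ?_ ?_
    · intro x _
      simp only [hQ', hw]
      split_ifs <;> omega
    · intro x hx
      exact key x (x + 1) (tilesIIpos_succ hb hx)
    · exact key (e - 1) 0 (tilesIIpos_last (by omega) hb)
  rcases Nat.eq_zero_or_pos n with h0 | hpos
  · refine ⟨0, by omega, 0, 0, by omega, Q', hT, ?_⟩
    intro x hx
    have hMK : M = K := by omega
    rw [hQ x hx]
    simp only [hQ', hMK]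
    simp
  · have hMe : M < e := by omega
    obtain ⟨x0, hx0, hc1, hc2⟩ := tilesII_col (b := b) (by omega : 2 ≤ e) hb hMe
    refine ⟨x0, hx0, 1, n - 1, by omega, Q', hT, ?_⟩
    intro x hx
    rw [hQ x hx]
    simp only [hQ']
    rcases Nat.lt_or_ge n 2 with h2 | h2
    · have e1 : n = 1 := by omega
      have e2 : (if x = (x0 + 1) % e then n - 1 else 0) = 0 := by
        split_ifs <;> omega
      rw [e2]
      have e3 := hc1 x hx
      by_cases hx1 : x = x0
      · rw [if_pos hx1]
        have := e3.1 hx1
        rw [this, if_pos (by omega), if_neg (by omega)]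
      · rw [if_neg hx1]
        have h5 : tilesIIpos e b x ≠ M := fun h => hx1 (e3.2 h)
        split_ifs <;> omega
    · have e1 : n = 2 := by omega
      have e3 := hc1 x hx
      have e4 := hc2 (by omega) x hx
      by_cases hx1 : x = x0
      · rw [if_pos hx1]
        have h6 := e3.1 hx1
        have h7 : ¬ x = (x0 + 1) % e := fun h => by
          have := e4.1 h
          omega
        rw [if_neg h7, h6, if_pos (by omega), if_neg (by omega)]
      · rw [if_neg hx1]
        have h5 : tilesIIpos e b x ≠ M := fun h => hx1 (e3.2 h)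
        by_cases hx2 : x = (x0 + 1) % e
        · rw [if_pos hx2]
          have h6 := e4.1 hx2
          rw [h6, if_pos (by omega), if_neg (by omega)]
          omega
        · rw [if_neg hx2]
          have h8 : tilesIIpos e b x ≠ M + 1 := fun h => hx2 (e4.2 h)
          split_ifs <;> omega

/-- second lemma, rotated -/
theorem tilesIII_rot (e b L : ℕ) (he : 3 ≤ e) (hb : b ≤ e) (hL : L + 2 ≤ e) (Q : ℕ → ℕ)
    (hQ : ∀ x < e, Q x = if tilesIIpos e b x < L then 2 else 3) : Tiles' e Q := by
  set n := (3 - L % 3) % 3 with hn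
  set M := L + n with hM
  have hn3 : n < 3 := Nat.mod_lt _ (by norm_num)
  have hM3 : M % 3 = 0 := by omega
  set Q' : ℕ → ℕ := fun x => if tilesIIpos e b x < M then 2 else 3 with hQ'
  have hT : Tiles e Q' := by
    set w : ℕ → ℕ := fun x => if tilesIIpos e b x < M then
      (if tilesIIpos e b x % 3 = 0 then 1 else if tilesIIpos e b x % 3 = 1 then 2 else 0)
      else 1 with hw
    have key : ∀ x y, ((tilesIIpos e b y = tilesIIpos e b x + 1 ∧ tilesIIpos e b x + 1 < e) ∨
        (tilesIIpos e b y = 0 ∧ tilesIIpos e b x + 1 = e)) → Dom (Q' x - w x) (w y) := by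
      intro x y h
      simp only [hQ', hw]
      generalize tilesIIpos e b x = px at *
      generalize tilesIIpos e b y = py at *
      unfold Dom
      have h3 : px % 3 < 3 := Nat.mod_lt _ (by norm_num)
      split_ifs <;> omega
    refine tiles_of_spill e (by omega) Q' w ?_ ?_ ?_
    · intro x _
      simp only [hQ', hw]
      split_ifs <;> omega
    · intro x hx
      exact key x (x + 1) (tilesIIpos_succ hb hx)
    · exact key (e - 1) 0 (tilesIIpos_last (by omega) hb)
  rcases Nat.eq_zero_or_pos n with h0 | hpos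
  · refine ⟨0, by omega, 0, 0, by omega, Q', hT, ?_⟩
    intro x hx
    have hMK : M = L := by omega
    rw [hQ x hx]
    simp only [hQ', hMK]
    simp
  · have hMe : L < e := by omega
    obtain ⟨x0, hx0, hc1, hc2⟩ := tilesII_col (b := b) (by omega : 2 ≤ e) hb hMe
    refine ⟨x0, hx0, 1, n - 1, by omega, Q', hT, ?_⟩
    intro x hx
    rw [hQ x hx]
    simp only [hQ']
    rcases Nat.lt_or_ge n 2 with h2 | h2
    · have e1 : n = 1 := by omega
      have e2 : (if x = (x0 + 1) % e then n - 1 else 0) = 0 := by
        split_ifs <;> omega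
      rw [e2]
      have e3 := hc1 x hx
      by_cases hx1 : x = x0
      · rw [if_pos hx1]
        have := e3.1 hx1
        rw [this, if_neg (by omega), if_pos (by omega)]
      · rw [if_neg hx1]
        have h5 : tilesIIpos e b x ≠ L := fun h => hx1 (e3.2 h)
        split_ifs <;> omega
    · have e1 : n = 2 := by omega
      have e3 := hc1 x hx
      have e4 := hc2 (by omega) x hx
      by_cases hx1 : x = x0
      · rw [if_pos hx1]
        have h6 := e3.1 hx1
        have h7 : ¬ x = (x0 + 1) % e := fun h => by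
          have := e4.1 h
          omega
        rw [if_neg h7, h6, if_neg (by omega), if_pos (by omega)]
      · rw [if_neg hx1]
        have h5 : tilesIIpos e b x ≠ L := fun h => hx1 (e3.2 h)
        by_cases hx2 : x = (x0 + 1) % e
        · rw [if_pos hx2]
          have h6 := e4.1 hx2
          rw [h6, if_neg (by omega), if_pos (by omega)]
          omega
        · rw [if_neg hx2]
          have h8 : tilesIIpos e b x ≠ L + 1 := fun h => hx2 (e4.2 h)
          split_ifs <;> omega

/-- PROOF. The columns with the value `4` form an interval of the circle containing the column `0`; let `K ≥ 1` be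
their number and `n = K % 3 = (∑ Q) % 3`. Leave one unit in each of the `n` last columns of this interval: now the
number of columns with the value `4` is divisible by `3`. Spills: `1` in the columns with value `3` and, in the interval of
the `4`s, `1, 3, 2, 1, 3, 2, ...`. (If all columns have the value `4` and `n = 0` this is periodic as well.)
`Dom (3 - 1) 1, Dom (4 - 1) 3, Dom (4 - 3) 2, Dom (4 - 2) 1`. -/
theorem tiles_II (e : ℕ) (he : 3 ≤ e) (Q : ℕ → ℕ) (h0 : Q 0 = 4)
    (hv : ∀ x < e, Q x = 3 ∨ Q x = 4)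
    (hconv : ∀ x y z, 1 ≤ x → x < y → y < z → z < e → Q x = 3 → Q z = 3 → Q y = 3) :
    Tiles' e Q := by
  obtain ⟨a, b, ha, hab, hbe, hc, _, h⟩ := tilesII_interval (fun x => Q x = 3) e e (by omega)
    le_rfl hconv
  refine tilesII_rot e b (a + e - b) he hbe (by omega) Q ?_
  intro x hx
  rcases Nat.eq_zero_or_pos x with rfl | hpos
  · rw [h0, if_pos]
    unfold tilesIIpos
    split_ifs <;> omega
  · have h1 := h x hpos hx
    have h2 := hv x hx
    unfold tilesIIpos
    by_cases h3 : a ≤ x ∧ x < b
    · rw [h1.2 h3, if_neg]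
      split_ifs <;> omega
    · have h4 : Q x = 4 := h2.resolve_left fun h => h3 (h1.1 h)
      rw [h4, if_pos]
      split_ifs <;> omega

/-- PROOF. The columns with the value `2` form an interval `[x₁, x₂] ⊆ [1, e - 2]` (or there are none, then all spills are
`1`, `n = 0`). With `n = (∑ Q) % 3` leave one unit in each of the columns `x₂ + 1, ..., x₂ + n` of value `3` (`x₂ + 1 ≤ e - 1`,
`x₂ + 2 ≤ e`, that is the column `0`): now the number of columns with the value `2` is divisible by `3`. Spills: `1` in the
columns with value `3` and, in the interval of the `2`s, `1, 2, 0, 1, 2, 0, ...`. `Dom (2 - 1) 2, Dom (2 - 2) 0, Dom (2 - 0) 1`. -/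
theorem tiles_III (e : ℕ) (he : 3 ≤ e) (Q : ℕ → ℕ) (h0 : Q 0 = 3) (h1 : Q (e - 1) = 3)
    (hv : ∀ x < e, Q x = 2 ∨ Q x = 3)
    (hconv : ∀ x y z, 1 ≤ x → x < y → y < z → z < e → Q x = 2 → Q z = 2 → Q y = 2) :
    Tiles' e Q := by
  obtain ⟨a, b, ha, hab, hbe, hc, hlast, h⟩ := tilesII_interval (fun x => Q x = 2) e 1 le_rfl
    (by omega) hconv
  have hb2 : b + 1 ≤ e := by
    rcases Nat.lt_or_ge a b with h2 | h2
    · have h3 := hlast h2
      by_contra h4
      have : b = e := by omega
      subst this
      omega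
    · have := hc (by omega)
      omega
  refine tilesIII_rot e a (b - a) he (by omega) (by omega) Q ?_
  intro x hx
  rcases Nat.eq_zero_or_pos x with rfl | hpos
  · rw [h0, if_neg]
    unfold tilesIIpos
    split_ifs <;> omega
  · have h1 := h x hpos hx
    have h2 := hv x hx
    unfold tilesIIpos
    by_cases h3 : a ≤ x ∧ x < b
    · rw [h1.2 h3, if_pos]
      split_ifs <;> omega
    · have h4 : Q x = 3 := h2.resolve_left fun h => h3 (h1.1 h)
      rw [h4, if_neg]
      split_ifs <;> omega

end ShghT
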