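import Pool.Agent.ShghW.ProfSum
import Pool.Agent.ShghW.TilesI
import Pool.Agent.ShghW.TilesII

/-!
# The demand can be tiled by dominoes up to two units
-/

namespace ShghT

variable {δ : ℕ} {M : Fin 9 → ℕ} {e : ℕ}

private theorem ProfD_hm {e ρ : ℕ} (h : 2 * ρ ≤ e) : hm e ρ = ρ := by
  unfold hm
  omega

private theorem ProfD_hm_le (e ρ : ℕ) : 2 * hm e ρ ≤ e := by
  unfold hm
  omega

private theorem ProfD_tie {δ : ℕ} {M : Fin 9 → ℕ} {e ρ : ℕ}
    (h : 2 * ρ < e ∧ Tie δ M e (e - ρ) ρ) : Qd δ M e ρ = Dg δ M e ρ := by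
  classical
  unfold Qd
  rw [if_pos h]
  omega

private theorem ProfD_not {δ : ℕ} {M : Fin 9 → ℕ} {e ρ : ℕ}
    (h : ¬ (2 * ρ < e ∧ Tie δ M e (e - ρ) ρ)) : Qd δ M e ρ = Dg δ M e ρ + 1 := by
  classical
  unfold Qd
  rw [if_neg h]
  omega

private theorem ProfD_bounds (δ : ℕ) (M : Fin 9 → ℕ) (e ρ : ℕ) :
    Dg δ M e ρ ≤ Qd δ M e ρ ∧ Qd δ M e ρ ≤ Dg δ M e ρ + 1 := by
  by_cases h : 2 * ρ < e ∧ Tie δ M e (e - ρ) ρ
  · rw [ProfD_tie h]
    omega
  · rw [ProfD_not h]
    omega

private theorem ProfD_zero (h : Std δ M e) : Qd δ M e 0 = Jt δ M + 1 := by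
  have h1 : Dg δ M e 0 = Jt δ M := by
    apply Dg_pen
    have h2 := kp_le h (le_refl (Jt δ M))
    have h3 : hm e 0 = 0 := by
      unfold hm
      omega
    rw [h3]
    omega
  rw [ProfD_not, h1]
  rintro ⟨_, ht⟩
  exact absurd ht.2.1 (lt_irrefl 0)

/-- A tie which is not in the pencil case is at the end of a step of the profile. PROOF. `kp (Dg ρ) + 2 ρ = e`, so
`kp (Dg ρ) + 2 (ρ + 1) > e`. -/
theorem Dg_lt_of_tie (h : Std δ M e) {ρ : ℕ} (hρ : 2 * (ρ + 1) ≤ e)
    (hk : 0 < kp δ M (Dg δ M e ρ)) (ht : kp δ M (Dg δ M e ρ) + 2 * ρ = e) :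
    Dg δ M e (ρ + 1) < Dg δ M e ρ := by
  have h1 := Dg_anti h hρ
  have h2 := kp_Dg h (show ρ + 1 ≤ e by omega)
  rw [ProfD_hm hρ] at h2
  rcases lt_or_eq_of_le h1 with h3 | h3
  · exact h3
  · rw [h3] at h2
    omega

/-- A step of height two ends in a tie on both sides: if `Dg ρ = Dg (ρ + 1) + 2` then the two levels
`Dg (ρ + 1) + 1`, `Dg (ρ + 1) + 2` have `e - kp = 2 ρ + 1` and `2 ρ`, so `ρ` is a tie. -/
theorem tie_of_slope (h : Std δ M e) {ρ : ℕ} (h0 : 0 < ρ) (hρ : 2 * (ρ + 1) ≤ e)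
    (hs : Dg δ M e ρ = Dg δ M e (ρ + 1) + 2) : Tie δ M e (e - ρ) ρ := by
  have hJ := Dg_le δ M e ρ
  have h1 := lt_kp h (show Dg δ M e (ρ + 1) + 1 ≤ Jt δ M by omega) (Nat.lt_succ_self _)
  rw [ProfD_hm hρ] at h1
  have h2 := kp_Dg h (show ρ ≤ e by omega)
  rw [ProfD_hm (show 2 * ρ ≤ e by omega)] at h2
  have h3 : kp δ M (Dg δ M e (ρ + 1) + 1) ≤ kp δ M (Dg δ M e ρ) :=
    kp_mono h (by omega) hJ
  have h4 : kp δ M (Dg δ M e (ρ + 1) + 1) ≠ kp δ M (Dg δ M e ρ) := by
    intro h5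
    exact kp_strict h (by omega) hJ (by omega) h5
  refine ⟨by omega, h0, by omega, by omega, Or.inl ⟨by omega, ?_⟩⟩
  rw [ProfD_hm (show 2 * ρ ≤ e by omega)]
  omega

/-- The slopes of the demand, away from the column `0`. PROOF. For `2 (x + 1) ≤ e` (left half): `Dg x - Dg (x+1) ∈ {0, 1, 2}`;
if it is `2` then `x` is a tie (`tie_of_slope`) and the difference of the demands is `≤ 2`. For `2 x < e < 2 (x + 1)` (so
`e = 2 x + 1`): `Dg` is the same. For `2 x ≥ e`: no ties, `Dg_slope` for `e - x - 1`. -/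
theorem Qd_slope (h : Std δ M e) {x : ℕ} (h1 : 1 ≤ x) (hx : x + 1 < e) :
    Qd δ M e x ≤ Qd δ M e (x + 1) + 2 ∧ Qd δ M e (x + 1) ≤ Qd δ M e x + 2 := by
  have b1 := ProfD_bounds δ M e x
  have b2 := ProfD_bounds δ M e (x + 1)
  by_cases hc : 2 * (x + 1) ≤ e
  · have a1 := Dg_anti h hc
    have a2 := Dg_slope h hc
    rcases Nat.lt_or_ge (Dg δ M e (x + 1) + 1) (Dg δ M e x) with h3 | h3
    · have ht := tie_of_slope h (show 0 < x by omega) hc (by omega)
      rw [ProfD_tie ⟨by omega, ht⟩]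
      omega
    · omega
  · by_cases hd : 2 * x < e
    · have h3 : Dg δ M e (x + 1) = Dg δ M e x := by
        have h4 := Dg_symm δ M (show x ≤ e by omega)
        rw [show e - x = x + 1 by omega] at h4
        exact h4
      omega
    · rw [ProfD_not (show ¬ (2 * x < e ∧ _) from fun h => hd h.1),
        ProfD_not (show ¬ (2 * (x + 1) < e ∧ _) from fun h => by omega)]
      have h4 := Dg_symm δ M (show x ≤ e by omega)
      have h5 := Dg_symm δ M (show x + 1 ≤ e by omega)
      have h6 : 2 * (e - (x + 1) + 1) ≤ e := by omega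
      have a1 := Dg_anti h h6
      have a2 := Dg_slope h h6
      rw [show e - (x + 1) + 1 = e - x by omega] at a1 a2
      omega

theorem Qd_ends (h : Std δ M e) (he : 2 ≤ e) :
    (Qd δ M e (e - 1) ≤ Qd δ M e 0 ∧ Qd δ M e 0 ≤ Qd δ M e (e - 1) + 2) ∧
      (3 ≤ e → Qd δ M e 1 ≤ Qd δ M e (e - 1) ∧ Qd δ M e (e - 1) ≤ Qd δ M e 1 + 1) := by
  have b1 := ProfD_bounds δ M e 1
  have hz : Qd δ M e 0 = Dg δ M e 0 + 1 := ProfD_not (fun ht => absurd ht.2.2.1 (lt_irrefl 0))
  have hz2 : Qd δ M e (e - 1) = Dg δ M e (e - 1) + 1 := ProfD_not (fun ht => by omega)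
  have h4 := Dg_symm δ M (show 1 ≤ e by omega)
  have a1 := Dg_anti h (show 2 * (0 + 1) ≤ e by omega)
  have a2 := Dg_slope h (show 2 * (0 + 1) ≤ e by omega)
  rw [zero_add] at a1 a2
  omega

theorem Qd_slope3 (h : Std δ M e) {x : ℕ} (hx : x + 1 < e) :
    Qd δ M e x ≤ Qd δ M e (x + 1) + 3 ∧ Qd δ M e (x + 1) ≤ Qd δ M e x + 3 := by
  rcases Nat.eq_zero_or_pos x with rfl | h1
  · have b1 := ProfD_bounds δ M e 0
    have b2 := ProfD_bounds δ M e (0 + 1)
    have a1 := Dg_anti h (show 2 * (0 + 1) ≤ e by omega)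
    have a2 := Dg_slope h (show 2 * (0 + 1) ≤ e by omega)
    omega
  · have := Qd_slope h h1 hx
    omega

/-- PROOF. `Dg ρ ≥ M 8`; if `ρ` is a tie outside of the pencil case with `kp (Jt) = 0` then `kp (Dg ρ) > 0`, so
`Dg ρ ≥ M 8 + 1`. -/
theorem Qd_ge (h : Std δ M e) {x : ℕ} (hx : x < e) : M 8 ≤ Qd δ M e x :=
  (min_le_Dg h hx.le).trans (ProfD_bounds δ M e x).1

/-- The demand is larger than `M 8` if there is a fixed part at the last level. -/
private theorem ProfD_gt (h : Std δ M e) (hp : 0 < kp δ M (Jt δ M)) {x : ℕ} (hx : x < e) :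
    M 8 + 1 ≤ Qd δ M e x := by
  have h1 := min_le_Dg h hx.le
  by_cases ht : 2 * x < e ∧ Tie δ M e (e - x) x
  · rw [ProfD_tie ht]
    rcases ht.2.2.2.2.2 with h2 | h2
    · by_contra hc
      have h3 := kp_of_le h (show Dg δ M e x ≤ M 8 by omega)
      omega
    · rw [Dg_pen h2.2]
      by_contra hc
      have h3 := kp_of_le h (show Jt δ M ≤ M 8 by omega)
      omega
  · rw [ProfD_not ht]
    omega

private theorem ProfD_left (h : Std δ M e) (hp : 0 < kp δ M (Jt δ M)) {x : ℕ} (h1 : 1 ≤ x)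
    (hx : 2 * (x + 1) ≤ e) : Qd δ M e (x + 1) ≤ Qd δ M e x := by
  have a1 := Dg_anti h hx
  have b2 := ProfD_bounds δ M e (x + 1)
  by_cases ht : 2 * x < e ∧ Tie δ M e (e - x) x
  · rw [ProfD_tie ht]
    rcases lt_or_eq_of_le a1 with h3 | h3
    · omega
    · rcases ht.2.2.2.2.2 with h2 | h2
      · rw [ProfD_hm (show 2 * x ≤ e by omega)] at h2
        have := Dg_lt_of_tie h hx h2.1 h2.2
        omega
      · have h4 := Dg_pen h2.2
        have h5 := kp_Dg h (show x + 1 ≤ e by omega)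
        rw [h3, h4] at h5
        have h6 : 2 * (x + 1) < e := by
          rw [ProfD_hm hx] at h5
          omega
        have h7 : 2 * (x + 1) < e ∧ Tie δ M e (e - (x + 1)) (x + 1) :=
          ⟨h6, by omega, by omega, by omega, by omega, Or.inr ⟨h2.1, h5⟩⟩
        rw [ProfD_tie h7]
        omega
  · rw [ProfD_not ht]
    omega

private theorem ProfD_right (h : Std δ M e) {x : ℕ}
    (hx : e ≤ 2 * x + 1) (hx2 : x + 1 < e) : Qd δ M e x ≤ Qd δ M e (x + 1) := by
  have b1 := ProfD_bounds δ M e x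
  rw [ProfD_not (show ¬ (2 * (x + 1) < e ∧ _) from fun h => by omega)]
  have h4 := Dg_symm δ M (show x ≤ e by omega)
  have h5 := Dg_symm δ M (show x + 1 ≤ e by omega)
  rcases Nat.lt_or_ge (2 * x) e with hc | hc
  · rw [show e - x = x + 1 by omega] at h4
    omega
  · have h6 : 2 * (e - (x + 1) + 1) ≤ e := by omega
    have a1 := Dg_anti h h6
    rw [show e - (x + 1) + 1 = e - x by omega] at a1
    omega

private theorem ProfD_conv (h : Std δ M e) (hp : 0 < kp δ M (Jt δ M)) {x y z : ℕ} (h1 : 1 ≤ x)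
    (hxy : x < y) (hyz : y < z) (hz : z < e) :
    Qd δ M e y ≤ Qd δ M e x ∨ Qd δ M e y ≤ Qd δ M e z := by
  by_cases hc : 2 * y ≤ e
  · left
    have key : ∀ n, 2 * (x + n) ≤ e → Qd δ M e (x + n) ≤ Qd δ M e x := by
      intro n
      induction n with
      | zero => intro _; exact le_refl _
      | succ n ih =>
        intro hn
        exact (ProfD_left h hp (show 1 ≤ x + n by omega) (by omega)).trans (ih (by omega))
    have := key (y - x) (by omega)
    rwa [show x + (y - x) = y by omega] at this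
  · right
    have key : ∀ n, y + n < e → Qd δ M e y ≤ Qd δ M e (y + n) := by
      intro n
      induction n with
      | zero => intro _; exact le_refl _
      | succ n ih =>
        intro hn
        exact (ih (by omega)).trans (ProfD_right h (x := y + n) (by omega) (by omega))
    have := key (z - y) (by omega)
    rwa [show y + (z - y) = z by omega] at this

/-- No fixed part at all: the profile is constant. -/
private theorem ProfD_flat (h : Std δ M e) (hp : kp δ M (Jt δ M) = 0) (x : ℕ) :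
    Dg δ M e x = Jt δ M := by
  apply Dg_pen
  have := ProfD_hm_le e x
  omega

private theorem ProfD_flat_conv (h : Std δ M e) (hp : kp δ M (Jt δ M) = 0) {x y z : ℕ}
    (h1 : 1 ≤ x) (hxy : x < y) (hyz : y < z) (hz : Qd δ M e z = Jt δ M) :
    Qd δ M e y = Jt δ M := by
  by_cases ht : 2 * z < e ∧ Tie δ M e (e - z) z
  · have hk : Pen δ M := by
      rcases ht.2.2.2.2.2 with h2 | h2
      · rw [ProfD_flat h hp] at h2
        omega
      · exact h2.1
    have h7 : 2 * y < e ∧ Tie δ M e (e - y) y := by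
      refine ⟨by omega, by omega, by omega, by omega, by omega, Or.inr ⟨hk, ?_⟩⟩
      have := ProfD_hm_le e y
      omega
    rw [ProfD_tie h7, ProfD_flat h hp]
  · rw [ProfD_not ht, ProfD_flat h hp] at hz
    omega

/-- PROOF. Cases: `Qd 0 = Dg 0 + 1 = Jt + 1`.
(I) `Qd 0 ≥ 5`: apply `tiles_I`. If the pencil has `kp (Jt) = 0` then all levels have `kp = 0`, `Dg = Jt ≥ 4` everywhere and
`Qd ≥ 4`, nothing to check in `h3` and `hconv`. Otherwise `Qd ≥ M 8 + 1 ≥ 3`, and `Qd` is nonincreasing on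
`1 ≤ x`, `2 (x+1) ≤ e` [if `Dg x = Dg (x+1)` and `x` is a tie then it is a pencil tie (`Dg_lt_of_tie`), `Dg x = Jt`,
`kp Jt > 0`, and then `x + 1` is a pencil tie, too, or `2 (x + 1) = e` and `kp Jt + e ≤ e`, contradiction] and nondecreasing on
`2 x ≥ e - 1`, so `{Qd ≤ 3}` is an interval.
(II) `Qd 0 = 4`: `Jt = 3`, all `Qd x ∈ {3, 4}` [`Dg ∈ {2, 3}` or `M 8 = 3`; if `Dg x = 2` then `kp 2 = 0` (`M 8 ≥ 2`), `x` is not a tie
unless pencil with `kp Jt + 2 x ≤ e`, but then `Dg x = Jt = 3`]; `hconv` as in (I); in the pencil case with `kp (Jt) = 0` the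
columns with `Qd = 3` are exactly `1 ≤ x`, `2 x < e`.
(III) `Qd 0 = 3`: `Jt = 2 = M 8`, all `kp = 0`, all `Dg = 2`; the columns with `Qd = 2` are none (no pencil) or `1 ≤ x`,
`2 x < e`. -/
theorem tiles_Qd (h : Std δ M e) (he : 3 ≤ e) (hy : 2 ≤ M 8) : Tiles' e (Qd δ M e) := by
  have hz := ProfD_zero h
  have hJ := min_le_Jt h
  have hends := Qd_ends h (show 2 ≤ e by omega)
  have hle : ∀ x, Qd δ M e x ≤ Jt δ M + 1 := fun x =>
    (ProfD_bounds δ M e x).2.trans (Nat.succ_le_succ (Dg_le δ M e x))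
  rcases Nat.eq_zero_or_pos (kp δ M (Jt δ M)) with hp | hp
  · have hge : ∀ x, Jt δ M ≤ Qd δ M e x := by
      intro x
      have := (ProfD_bounds δ M e x).1
      rwa [ProfD_flat h hp] at this
    rcases Nat.lt_or_ge 3 (Jt δ M) with hc | hc
    · refine tiles_I e he _ (by omega) (fun x _ _ => ?_) (fun x h1 h2 => Qd_slope h h1 h2) ?_
        hends.1 (hends.2 he)
      · have := hge x
        omega
      · intro x y z _ _ _ _ hx
        have := hge x
        omega
    · rcases Nat.lt_or_ge 2 (Jt δ M) with hd | hd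
      · have hJ3 : Jt δ M = 3 := by omega
        refine tiles_II e he _ (by omega) ?_ ?_
        · intro x _
          have h1 := hge x
          have h2 := hle x
          omega
        · intro x y z h1 h2 h3 _ _ h5
          have := ProfD_flat_conv h hp h1 h2 h3 (by omega)
          omega
      · have hJ2 : Jt δ M = 2 := by omega
        refine tiles_III e he _ (by omega) ?_ ?_ ?_
        · rw [ProfD_not (fun ht => by omega), ProfD_flat h hp, hJ2]
        · intro x _
          have h1 := hge x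
          have h2 := hle x
          omega
        · intro x y z h1 h2 h3 _ _ h5
          have := ProfD_flat_conv h hp h1 h2 h3 (by omega)
          omega
  · have hgt : ∀ x, x < e → 3 ≤ Qd δ M e x := by
      intro x hx
      have := ProfD_gt h hp hx
      omega
    have hconv : ∀ x y z, 1 ≤ x → x < y → y < z → z < e → Qd δ M e x = 3 → Qd δ M e z = 3 →
        Qd δ M e y = 3 := by
      intro x y z h1 h2 h3 h4 h5 h6
      have h7 := hgt y (by omega)
      rcases ProfD_conv h hp h1 h2 h3 h4 with h8 | h8 <;> omega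
    rcases Nat.lt_or_ge 3 (Jt δ M) with hc | hc
    · exact tiles_I e he _ (by omega) (fun x _ hx => hgt x hx) (fun x h1 h2 => Qd_slope h h1 h2)
        hconv hends.1 (hends.2 he)
    · have hJ3 : Jt δ M = 3 := by
        have := hgt 0 (by omega)
        rcases Nat.lt_or_ge (M 8) (Jt δ M) with hd | hd
        · omega
        · have := kp_of_le h hd
          omega
      refine tiles_II e he _ (by omega) ?_ hconv
      intro x hx
      have h1 := hgt x hx
      have h2 := hle x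
      omega

end ShghT
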