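import Pool.Agent.ShghW.SpecialW
import Pool.Agent.ShghW.PlaceZ
import Pool.Agent.ShghW.PlaceD
import Pool.Agent.ShghW.Place2
import Pool.Agent.ShghW.ProfD
import Pool.Agent.ShghW.E0

/-!
# Theorem W
-/

namespace ShghT

open MvPolynomial

/-- The condition on the additional multiplicities. -/
def HypW (e y : ℕ) {r : ℕ} (m : Fin r → ℕ) : Prop :=
  e ≤ 2 ∨ (∀ i, m i ≤ 1) ∨ (2 ≤ y ∧ ∀ i, m i ≤ 2) ∨ ∃ mx, 3 ≤ mx ∧ (∀ i, m i ≤ mx) ∧ mx ^ 5 ≤ y

/-- The demand can be covered. -/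
theorem cover_W {δ : ℕ} {M : Fin 9 → ℕ} {e : ℕ} (hstd : Std δ M e) (he : 0 < e) {r : ℕ}
    (m : Fin r → ℕ) (hyp : HypW e (M 8) m)
    (hT : ∑ x ∈ Finset.range e, Qd δ M e x ≤ ∑ i, (m i + 1).choose 2) :
    ∃ (p : Fin r → ℤ) (o : Fin r → Option Bool),
      (∀ i, 0 ≤ circO e (p i) (o i) ∧ circO e (p i) (o i) < 4 * (e : ℤ)) ∧
      ∀ x < e, Qd δ M e x ≤ ∑ i, NO e (m i) (p i) (o i) x := by
  rcases Nat.lt_or_ge 2 e with h2 | h2
  · rcases hyp with h | h | ⟨hy, h⟩ | ⟨mx, hmx, h, hy⟩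
    · omega
    · exact placeS e he _ m h hT
    · exact placeD e (by omega) _ (tiles_Qd hstd (by omega) hy) m h hT
    · have hends := (Qd_ends hstd (by omega)).1
      exact placeZ e he mx hmx _ (fun x hx => hy.trans (Qd_ge hstd hx))
        (fun x hx => Qd_slope3 hstd hx) ⟨by omega, by omega⟩ m h hT
  · obtain rfl | rfl : e = 1 ∨ e = 2 := by omega
    · exact place1 _ m (by simpa using hT)
    · have hends := (Qd_ends hstd le_rfl).1
      have h1 : 1 ≤ Qd δ M 2 1 := by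
        rw [Qd, if_neg (by omega)]
        omega
      exact place2 _ (by simpa using hends.1) (by simpa using hends.2) h1 m
        (by simpa [Finset.sum_range_succ] using hT)

theorem cnd_append' {r n : ℕ} (m : Fin r → ℕ) :
    ∑ i, (Fin.append m (fun _ : Fin n => 1) i + 1).choose 2 = ∑ i, (m i + 1).choose 2 + n := by
  rw [Fin.sum_univ_add]
  simp

theorem HypW.append {e y r n : ℕ} {m : Fin r → ℕ} (h : HypW e y m) :
    HypW e y (Fin.append m (fun _ : Fin n => 1)) := by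
  have key : ∀ c : ℕ, 1 ≤ c → (∀ i, m i ≤ c) → ∀ i, Fin.append m (fun _ : Fin n => 1) i ≤ c := by
    intro c hc hm i
    refine Fin.addCases (fun i => ?_) (fun i => ?_) i
    · rw [Fin.append_left]
      exact hm i
    · rw [Fin.append_right]
      exact hc
  rcases h with h | h | ⟨hy, h⟩ | ⟨mx, hmx, h, hy⟩
  · exact Or.inl h
  · exact Or.inr (Or.inl (key 1 le_rfl h))
  · exact Or.inr (Or.inr (Or.inl ⟨hy, key 2 (by norm_num) h⟩))
  · exact Or.inr (Or.inr (Or.inr ⟨mx, hmx, key mx (by omega) h, hy⟩))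

theorem HypW.mk' {e y r : ℕ} {m : Fin r → ℕ} (hm : ∀ i, m i ≤ y)
    (h : e ≤ 2 ∨ (∀ i, m i ≤ 2) ∨ ∀ i, m i ^ 5 ≤ y) : HypW e y m := by
  rcases h with h | h | h
  · exact Or.inl h
  · by_cases h1 : ∀ i, m i ≤ 1
    · exact Or.inr (Or.inl h1)
    · push Not at h1
      obtain ⟨i, hi⟩ := h1
      exact Or.inr (Or.inr (Or.inl ⟨by have := hm i; omega, h⟩))
  · by_cases h1 : ∀ i, m i ≤ 1
    · exact Or.inr (Or.inl h1)
    · push Not at h1
      obtain ⟨i, hi⟩ := h1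
      by_cases h2 : ∀ i, m i ≤ 2
      · exact Or.inr (Or.inr (Or.inl ⟨by have := hm i; omega, h2⟩))
      · push Not at h2
        obtain ⟨i, hi⟩ := h2
        haveI : Nonempty (Fin r) := ⟨i⟩
        obtain ⟨i0, hi0⟩ := Finite.exists_max m
        exact Or.inr (Or.inr (Or.inr ⟨m i0, by have := hi0 i; omega, hi0, h i0⟩))

/-- In the case `e = 0` all multiplicities are equal. -/
theorem std_zero {δ : ℕ} {M : Fin 9 → ℕ} (h : Std δ M 0) : δ = 3 * M 8 ∧ ∀ l, M l = M 8 := by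
  have h1 := h.std
  have h2 := h.deg
  have ha : ∀ i j : Fin 9, i ≤ j → M j ≤ M i := fun i j hij => h.anti hij
  have a0 := ha 0 1 (by decide)
  have a1 := ha 1 2 (by decide)
  have a2 := ha 2 3 (by decide)
  have a3 := ha 3 4 (by decide)
  have a4 := ha 4 5 (by decide)
  have a5 := ha 5 6 (by decide)
  have a6 := ha 6 7 (by decide)
  have a7 := ha 7 8 (by decide)
  rw [Fin.sum_univ_succ, Fin.sum_univ_eight] at h2
  have h3 : 3 * δ = M 0 + M 1 + M 2 + M 3 + M 4 + M 5 + M 6 + M 7 + M 8 := by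
    have e1 : (Fin.succ 0 : Fin 9) = 1 := rfl
    have e2 : (Fin.succ 1 : Fin 9) = 2 := rfl
    have e3 : (Fin.succ 2 : Fin 9) = 3 := rfl
    have e4 : (Fin.succ 3 : Fin 9) = 4 := rfl
    have e5 : (Fin.succ 4 : Fin 9) = 5 := rfl
    have e6 : (Fin.succ 5 : Fin 9) = 6 := rfl
    have e7 : (Fin.succ 6 : Fin 9) = 7 := rfl
    have e8 : (Fin.succ 7 : Fin 9) = 8 := rfl
    rw [e1, e2, e3, e4, e5, e6, e7, e8] at h2
    omega
  refine ⟨by omega, fun l => ?_⟩
  fin_cases l <;> simp <;> omega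

/-- **Theorem W.** -/
theorem main_W {F K : Type*} [Field F] [Field K] [Algebra F K] {r : ℕ}
    (P : Fin (9 + r) → Fin 2 → K)
    (hP : AlgebraicIndependent F (fun ij : Fin (9 + r) × Fin 2 => P ij.1 ij.2))
    (δ : ℕ) (M : Fin 9 → ℕ) (m : Fin r → ℕ) (e : ℕ) (hstd : Std δ M e) (hm : ∀ i, m i ≤ M 8)
    (h : e ≤ 2 ∨ (∀ i, m i ≤ 2) ∨ ∀ i, m i ^ 5 ≤ M 8) (χ : ℤ)
    (hχ : χ = ((δ + 2).choose 2 : ℤ) - ∑ l, ((M l + 1).choose 2 : ℤ) -
      ∑ i, ((m i + 1).choose 2 : ℤ)) :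
    (Module.finrank K (LS δ (Fin.append M m) P) : ℤ) = max 0 χ := by
  haveI : Infinite K := infinite_of_algebraicIndependent _ hP
  rcases Nat.eq_zero_or_pos e with rfl | he
  · obtain ⟨hδ, hM⟩ := std_zero hstd
    have h1 := main_E0 P hP (M 8) M hM m
    have h2 : (((3 * M 8 + 2).choose 2 : ℕ) : ℤ) - ∑ l, ((M l + 1).choose 2 : ℤ) = 1 := by
      have h3 : ∀ n : ℕ, 2 * ((n + 1).choose 2 : ℤ) = n * (n + 1) := by
        intro n
        induction n with
        | zero => simp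
        | succ n ih =>
          rw [Nat.choose_succ_succ' (n + 1) 1, Nat.choose_one_right]
          push_cast
          linarith
      have h4 := h3 (3 * M 8 + 1)
      have h5 := h3 (M 8)
      rw [Finset.sum_congr rfl (fun l _ => by rw [hM l])]
      simp only [Finset.sum_const, Finset.card_univ, Fintype.card_fin, nsmul_eq_mul]
      push_cast at h4 h5 ⊢
      nlinarith
    rw [hχ, hδ, h2]
    rw [hδ] at *
    exact h1
  · have hsum := sum_Qd hstd he
    have hlow := le_finrank_LS δ (Fin.append M m) P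
    rw [Fin.sum_univ_add] at hlow
    simp only [Fin.append_left, Fin.append_right] at hlow
    obtain ⟨n, hn⟩ : ∃ n, n = ∑ x ∈ Finset.range e, Qd δ M e x - ∑ i, (m i + 1).choose 2 :=
      ⟨_, rfl⟩
    obtain ⟨p, o, hpo, hN⟩ := cover_W hstd he (Fin.append m (fun _ : Fin n => 1))
      (HypW.mk' hm h).append (by
        rw [cnd_append']
        omega)
    have hup := upper_W P hP δ M m e he hstd n p o hpo hN
    have hχ' : χ = ((∑ x ∈ Finset.range e, Qd δ M e x : ℕ) : ℤ) -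
        ((∑ i, (m i + 1).choose 2 : ℕ) : ℤ) := by
      rw [hχ, ← hsum]
      push_cast
      ring
    omega

end ShghT
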