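import Mathlib

/-!
# Tilings of a circle by dominoes `(2, 1)` and `(1, 2)`
-/

namespace ShghT

/-- `X x` dominoes `(2, 1)` and `Y x` dominoes `(1, 2)` on the columns `x, x + 1 mod e`. -/
def Tiles (e : ℕ) (Q : ℕ → ℕ) : Prop :=
  ∃ X Y : ℕ → ℕ, ∀ x < e, Q x = 2 * X x + Y x + (X ((x + e - 1) % e) + 2 * Y ((x + e - 1) % e))

/-- A tiling of all but at most two units in two adjacent columns. -/
def Tiles' (e : ℕ) (Q : ℕ → ℕ) : Prop :=
  ∃ x0 < e, ∃ u v : ℕ, u + v ≤ 2 ∧ ∃ Q' : ℕ → ℕ, Tiles e Q' ∧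
    ∀ x < e, Q x = Q' x + ((if x = x0 then u else 0) + (if x = (x0 + 1) % e then v else 0))

/-- The canonical spill: the number `≡ r mod 3` among `q / 2 - 1, q / 2, q / 2 + 1`, but `5` for `(q, r) = (7, 2)`. -/
def spill (q r : ℕ) : ℕ :=
  if q = 7 ∧ r = 2 then 5
  else if (q / 2 + 2) % 3 = r then q / 2 - 1
  else if (q / 2) % 3 = r then q / 2 else q / 2 + 1

/-- `z` units on the left and `w` units on the right are a sum of dominoes. -/
def Dom (z w : ℕ) : Prop := (z + w) % 3 = 0 ∧ w ≤ 2 * z ∧ z ≤ 2 * w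

theorem Dom.exists {z w : ℕ} (h : Dom z w) : ∃ x y : ℕ, z = 2 * x + y ∧ w = x + 2 * y := by
  obtain ⟨h1, h2, h3⟩ := h
  exact ⟨(2 * z - w) / 3, (2 * w - z) / 3, by omega, by omega⟩

theorem tiles_spill_props (q r : ℕ) (hr : r < 3) (hq : 8 ≤ q) :
    spill q r % 3 = r ∧ spill q r ≤ q / 2 + 1 ∧ q / 2 ≤ spill q r + 1 := by
  have hq7 : ¬ (q = 7 ∧ r = 2) := by omega
  unfold spill
  rw [if_neg hq7]
  split_ifs <;> refine ⟨by omega, by omega, by omega⟩

theorem tiles_mod_aux (q s s' r : ℕ) (h1 : s % 3 = r) (h2 : s' % 3 = (r + 2 * q) % 3)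
    (h3 : s ≤ q) : (q - s + s') % 3 = 0 := by
  obtain ⟨z, rfl⟩ := Nat.exists_eq_add_of_le h3
  rw [Nat.add_sub_cancel_left]
  omega

theorem tiles_dom_aux (q s s' r : ℕ) (h1 : s % 3 = r) (h2 : s' % 3 = (r + 2 * q) % 3)
    (h3 : s ≤ q) (h4 : s' ≤ 2 * (q - s)) (h5 : q - s ≤ 2 * s') : Dom (q - s) s' :=
  ⟨tiles_mod_aux q s s' r h1 h2 h3, h4, h5⟩

instance tilesDomDec (z w : ℕ) : Decidable (Dom z w) := by
  unfold Dom
  infer_instance

/-- boolean version of the small cases of `spill_step` -/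
def tilesB1 (q q' r : ℕ) : Bool :=
  decide (3 ≤ q ∧ 3 ≤ q' ∧ q ≤ q' + 2 ∧ q' ≤ q + 2 ∧ ¬ (q = 3 ∧ r = 0) ∧
    ¬ (q' = 3 ∧ (r + 2 * q) % 3 = 0) →
    spill q r ≤ q ∧ Dom (q - spill q r) (spill q' ((r + 2 * q) % 3)))

theorem tiles_small_step : ∀ q < 14, ∀ q' < 16, ∀ r < 3, tilesB1 q q' r = true := by
  decide +kernel

/-- boolean version of the small cases of `spill_zero` -/
def tilesB2 (a b c r w : ℕ) : Bool :=
  decide (Dom (a - spill a r) w ∧ Dom (b - w) (spill c ((r + 2 * a + 2 * b) % 3)))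

/-- boolean version of the small cases of `spill_zero` -/
def tilesB4 (a b c bad r : ℕ) : Bool :=
  decide (r = bad ∨ (a = 3 ∧ r = 0) ∨ (c = 3 ∧ (r + 2 * a + 2 * b) % 3 = 0)) ||
    (List.range (b + 1)).any (fun w => tilesB2 a b c r w)

/-- boolean version of the small cases of `spill_zero` -/
def tilesB3 (a b c : ℕ) : Bool :=
  decide (¬ (3 ≤ a ∧ 3 ≤ b ∧ 3 ≤ c ∧ a ≤ b + 2 ∧ b ≤ a + 2 ∧ c ≤ a ∧ a ≤ c + 1)) ||
    (List.range 4).any (fun bad => (List.range 3).all (fun r => tilesB4 a b c bad r))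

theorem tiles_small_zero : ∀ a < 15, ∀ b < 17, ∀ c < 15, tilesB3 a b c = true := by
  decide +kernel

/-- The canonical transitions. PROOF. `interval_cases` for `q ≤ 13`, `omega` for larger `q`. Checked by computer for
`q ≤ 40`. -/
theorem spill_step (q q' r : ℕ) (hr : r < 3) (hq : 3 ≤ q) (hq' : 3 ≤ q') (h1 : q ≤ q' + 2)
    (h2 : q' ≤ q + 2) (h3 : ¬ (q = 3 ∧ r = 0)) (h4 : ¬ (q' = 3 ∧ (r + 2 * q) % 3 = 0)) :
    spill q r ≤ q ∧ Dom (q - spill q r) (spill q' ((r + 2 * q) % 3)) := by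
  by_cases hs : q ≤ 13
  · have hs' : q' ≤ 15 := by omega
    have := tiles_small_step q (by omega) q' (by omega) r hr
    unfold tilesB1 at this
    exact (of_decide_eq_true this) ⟨hq, hq', h1, h2, h3, h4⟩
  · obtain ⟨a1, a2, a3⟩ := tiles_spill_props q r hr (by omega)
    obtain ⟨b1, b2, b3⟩ := tiles_spill_props q' ((r + 2 * q) % 3) (by omega) (by omega)
    generalize hs1 : spill q r = s at a1 a2 a3 ⊢
    generalize hs2 : spill q' ((r + 2 * q) % 3) = s' at b1 b2 b3 ⊢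
    clear hs1 hs2 h3 h4
    have hsq : s ≤ q := by clear a1 b1; omega
    refine ⟨hsq, tiles_dom_aux q s s' r a1 b1 hsq ?_ ?_⟩
    · clear a1 b1
      omega
    · clear a1 b1
      omega

/-- The column `0`, of value `b`, between columns of values `a` (on the left) and `c`. At most one residue is bad.
PROOF. `a, b, c ≤ 14` by computation, larger values by `omega` with the canonical spill (or near it). The bad
cases are `(a, b, c, r) = (4, 3, 4, 1), (5, 3, 5, 2), (5, 3, 4, 2)` only. -/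
theorem spill_zero (a b c : ℕ) (ha : 3 ≤ a) (hb : 3 ≤ b) (hc : 3 ≤ c) (h1 : a ≤ b + 2)
    (h2 : b ≤ a + 2) (h3 : c ≤ a) (h4 : a ≤ c + 1) :
    ∃ bad : ℕ, ∀ r < 3, r ≠ bad → ¬ (a = 3 ∧ r = 0) → ¬ (c = 3 ∧ (r + 2 * a + 2 * b) % 3 = 0) →
      ∃ w ≤ b, Dom (a - spill a r) w ∧ Dom (b - w) (spill c ((r + 2 * a + 2 * b) % 3)) := by
  by_cases hs : a ≤ 14
  · have h0 := tiles_small_zero a (by omega) b (by omega) c (by omega)
    unfold tilesB3 at h0
    rw [Bool.or_eq_true] at h0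
    rcases h0 with h0 | h0
    · exact absurd ⟨ha, hb, hc, h1, h2, h3, h4⟩ (of_decide_eq_true h0)
    · rw [List.any_eq_true] at h0
      obtain ⟨bad, -, hbad⟩ := h0
      rw [List.all_eq_true] at hbad
      refine ⟨bad, fun r hr h5 h6 h7 => ?_⟩
      have h8 := hbad r (List.mem_range.2 hr)
      unfold tilesB4 at h8
      rw [Bool.or_eq_true] at h8
      rcases h8 with h8 | h8
      · rcases of_decide_eq_true h8 with h9 | h9 | h9
        · exact absurd h9 h5
        · exact absurd h9 h6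
        · exact absurd h9 h7
      · rw [List.any_eq_true] at h8
        obtain ⟨w, hw, hw2⟩ := h8
        exact ⟨w, Nat.lt_succ_iff.1 (List.mem_range.1 hw), of_decide_eq_true hw2⟩
  · refine ⟨3, fun r hr _ _ _ => ?_⟩
    obtain ⟨a1, a2, a3⟩ := tiles_spill_props a r hr (by omega)
    obtain ⟨b1, b2, b3⟩ := tiles_spill_props b ((r + 2 * a) % 3) (by omega) (by omega)
    obtain ⟨c1, c2, c3⟩ := tiles_spill_props c ((r + 2 * a + 2 * b) % 3) (by omega) (by omega)
    generalize hs1 : spill a r = sa at a1 a2 a3 ⊢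
    generalize hs2 : spill b ((r + 2 * a) % 3) = sb at b1 b2 b3
    generalize hs3 : spill c ((r + 2 * a + 2 * b) % 3) = sc at c1 c2 c3 ⊢
    clear hs1 hs2 hs3
    have hsa : sa ≤ a := by clear a1 b1 c1; omega
    have hsb : sb ≤ b := by clear a1 b1 c1; omega
    have c1' : sc % 3 = ((r + 2 * a) % 3 + 2 * b) % 3 := by
      rw [c1, Nat.mod_add_mod]
    refine ⟨sb, hsb, tiles_dom_aux a sa sb r a1 b1 hsa ?_ ?_,
      tiles_dom_aux b sb sc ((r + 2 * a) % 3) b1 c1' hsb ?_ ?_⟩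
    all_goals clear a1 b1 c1 c1'; omega

/-- A tiling from spills: `w x` = number of units which the dominoes on `x - 1, x` put on the column `x`. -/
theorem tiles_of_spill (e : ℕ) (he : 2 ≤ e) (Q w : ℕ → ℕ) (hw : ∀ x < e, w x ≤ Q x)
    (h : ∀ x, x + 1 < e → Dom (Q x - w x) (w (x + 1))) (h0 : Dom (Q (e - 1) - w (e - 1)) (w 0)) :
    Tiles e Q := by
  have h' : ∀ x : ℕ, ∃ y : ℕ × ℕ, x < e → Q x - w x = 2 * y.1 + y.2 ∧
      w ((x + 1) % e) = y.1 + 2 * y.2 := by
    intro x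
    by_cases hx : x < e
    · have hD : Dom (Q x - w x) (w ((x + 1) % e)) := by
        by_cases hx1 : x + 1 < e
        · rw [Nat.mod_eq_of_lt hx1]
          exact h x hx1
        · have hxe : x = e - 1 := by omega
          have h1 : x + 1 = e := by omega
          rw [h1, Nat.mod_self, hxe]
          exact h0
      obtain ⟨a, b, hab⟩ := hD.exists
      exact ⟨(a, b), fun _ => hab⟩
    · exact ⟨(0, 0), fun hx' => absurd hx' hx⟩
  choose f hf using h'
  refine ⟨fun x => (f x).1, fun x => (f x).2, fun x hx => ?_⟩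
  have h1 := (hf x hx).1
  have hy : (x + e - 1) % e < e := Nat.mod_lt _ (by omega)
  have h2 := (hf _ hy).2
  have h3 : ((x + e - 1) % e + 1) % e = x := by
    rw [Nat.mod_add_mod]
    have : x + e - 1 + 1 = x + e := by omega
    rw [this, Nat.add_mod_right, Nat.mod_eq_of_lt hx]
  rw [h3] at h2
  have h4 := hw x hx
  simp only
  omega

end ShghT
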